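import Pool.Agent.H66.OD.Defs

/-!
# Row EDG2 (about 120 lines): `v + e` is in `P` for an edge vector `e`

PROOF. `e` primitive, `F` an edge with `toR v ∈ F`, `toR v + t • toR e ∈ F`, `t > 0`. `F` is a face of
`P = conv (toR '' S)`, so `F ⊆ conv (toR '' {s ∈ S | toR s ∈ F})`: write `x ∈ F` as a convex combination of `S`;
the points with positive coefficient belong to `F` since `F` is extreme in `P` (if a coefficient `c s` is in
`(0,1)`, `x` is in the open segment of `toR s` and the normalised rest, a point of `P`; if `c s = 1`, `x = toR s`).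
As `toR v + t • toR e ≠ toR v` (`e ≠ 0`), some `s ∈ S`, `s ≠ v` has `toR s ∈ F` (otherwise `F ⊆ {toR v}`).
`vectorSpan ℝ F` has dimension one and contains `t • toR e ≠ 0`, so it equals `ℝ (toR e)`, and
`toR (s - v) ∈ vectorSpan` is `r • toR e`, `r ≠ 0` real. `r` is an integer: let `i0` be a coordinate with
`e i0 ≠ 0`; `r = (s-v) i0 / e i0 = a/b` in lowest terms, `b ≥ 1`, `b (s - v) = a e`, so `b` divides all
coordinates `e i` (coprime to `a`), `e = b • f`, so `b = 1` by primitivity. `r > 0`: if `r < 0` then `toR v` is in the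
open segment between `toR s = toR v + r toR e` and `toR v + t toR e`, both in `P`, contradicting that `toR v` is an
extreme point (the end points are not `toR v`). So `r ≥ 1` and
`toR (v + e) = toR v + (1/r) (toR s - toR v)` is in the segment from `toR v` to `toR s`, in `P` (convex).
-/

namespace H66OD

theorem EDG2_ext {E : Type*} [AddCommGroup E] [Module ℝ E] {T : Finset E} {F : Set E}
    (hF : IsExtreme ℝ (convexHull ℝ (T : Set E)) F) {w : E → ℝ} (hw : ∀ y ∈ T, 0 ≤ w y)
    (h1 : ∑ y ∈ T, w y = 1) (hx : ∑ y ∈ T, w y • y ∈ F) {y : E} (hy : y ∈ T) (hwy : 0 < w y) :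
    y ∈ F := by
  classical
  have hsplit := Finset.add_sum_erase T w hy
  have hsplit2 := Finset.add_sum_erase T (fun y => w y • y) hy
  rw [h1] at hsplit
  by_cases hw1 : w y = 1
  · have h0 : ∑ z ∈ T.erase y, w z = 0 := by linarith
    have h00 : ∀ z ∈ T.erase y, w z = 0 := (Finset.sum_eq_zero_iff_of_nonneg
      (fun z hz => hw z (Finset.mem_of_mem_erase hz))).1 h0
    have h2 : ∑ z ∈ T.erase y, w z • z = 0 :=
      Finset.sum_eq_zero fun z hz => by rw [h00 z hz, zero_smul]
    rw [← hsplit2, h2, add_zero, hw1, one_smul] at hx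
    exact hx
  · have hrest : ∑ z ∈ T.erase y, w z = 1 - w y := by linarith
    have hle : w y ≤ 1 := by
      have : 0 ≤ ∑ z ∈ T.erase y, w z :=
        Finset.sum_nonneg fun z hz => hw z (Finset.mem_of_mem_erase hz)
      linarith
    have hlt : w y < 1 := lt_of_le_of_ne hle hw1
    have hpos : 0 < 1 - w y := by linarith
    have hz : (1 - w y)⁻¹ • ∑ z ∈ T.erase y, w z • z ∈ convexHull ℝ (T : Set E) := by
      rw [Finset.smul_sum]
      have h3 : ∀ z ∈ T.erase y, (1 - w y)⁻¹ • (w z • z) = ((1 - w y)⁻¹ * w z) • z := fun z _ =>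
        smul_smul _ _ _
      rw [Finset.sum_congr rfl h3]
      refine (convex_convexHull ℝ (T : Set E)).sum_mem ?_ ?_ ?_
      · intro z hz
        exact mul_nonneg (inv_nonneg.2 hpos.le) (hw z (Finset.mem_of_mem_erase hz))
      · rw [← Finset.mul_sum, hrest, inv_mul_cancel₀ hpos.ne']
      · intro z hz
        exact subset_convexHull ℝ _ (Finset.mem_coe.2 (Finset.mem_of_mem_erase hz))
    refine hF.left_mem_of_mem_openSegment (subset_convexHull ℝ _ (Finset.mem_coe.2 hy)) hz hx ?_
    refine ⟨w y, 1 - w y, hwy, hpos, by ring, ?_⟩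
    rw [smul_inv_smul₀ hpos.ne']
    exact hsplit2

theorem EDG2_int {d : ℕ} {w e : Fin d → ℤ} (he : IsPrimitive e) {r : ℝ}
    (h : r • toR e = toR w) : ∃ m : ℤ, r = (m : ℝ) := by
  obtain ⟨i0, hi0⟩ : ∃ i, e i ≠ 0 := by
    by_contra hcon
    push Not at hcon
    exact he.1 (funext hcon)
  have hi : ∀ i, r * (e i : ℝ) = (w i : ℝ) := fun i => by
    have := congrFun h i
    simpa [toR] using this
  have hg : 0 < Int.gcd (w i0) (e i0) := Int.gcd_pos_of_ne_zero_right _ hi0
  obtain ⟨a, b, hab, ha, hb⟩ := Int.exists_gcd_one hg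
  set g : ℤ := (Int.gcd (w i0) (e i0) : ℤ) with hgdef
  have hg0 : g ≠ 0 := by
    rw [hgdef]
    exact_mod_cast hg.ne'
  have hb0 : b ≠ 0 := by
    rintro rfl
    rw [zero_mul] at hb
    exact hi0 hb
  have hgR : (g : ℝ) ≠ 0 := by exact_mod_cast hg0
  have hbR : (b : ℝ) ≠ 0 := by exact_mod_cast hb0
  have hr : r * (b : ℝ) = (a : ℝ) := by
    have h1 := hi i0
    rw [ha, hb] at h1
    push_cast at h1
    rw [← mul_assoc] at h1
    exact mul_right_cancel₀ hgR h1
  have hdiv : ∀ i, b ∣ e i := by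
    intro i
    have h1 : b * w i = a * e i := by
      have h2 : ((b * w i : ℤ) : ℝ) = ((a * e i : ℤ) : ℝ) := by
        push_cast
        rw [← hi i, ← hr]
        ring
      exact_mod_cast h2
    have h3 : b ∣ a * e i := ⟨w i, h1.symm⟩
    have hcop : IsCoprime b a := by
      rw [Int.isCoprime_iff_gcd_eq_one, Int.gcd_comm]
      exact hab
    exact hcop.dvd_of_dvd_mul_left h3
  choose f hf using hdiv
  have hef : e = b • f := by
    funext i
    rw [Pi.smul_apply, smul_eq_mul]
    exact hf i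
  rcases he.2 b f hef with hb1 | hb1
  · refine ⟨a, ?_⟩
    rw [hb1] at hr
    push_cast at hr
    linarith
  · refine ⟨-a, ?_⟩
    rw [hb1] at hr
    push_cast at hr ⊢
    linarith

theorem edg2 {d : ℕ} (S : Finset (Fin d → ℤ)) (P : Set (Fin d → ℝ))
    (hP : P = convexHull ℝ (toR '' (S : Set (Fin d → ℤ)))) (v : Fin d → ℤ)
    (hv : toR v ∈ P.extremePoints ℝ) (e : Fin d → ℤ) (he : e ∈ edgeVectors P (toR v)) :
    toR (v + e) ∈ P := by
  classical
  obtain ⟨hprim, F, ⟨hFc, hFe, hFd⟩, hvF, t, ht, hxF⟩ := he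
  have hPconv : Convex ℝ P := by
    rw [hP]
    exact convex_convexHull ℝ _
  have hPT : P = convexHull ℝ ((S.image toR : Finset (Fin d → ℝ)) : Set (Fin d → ℝ)) := by
    rw [Finset.coe_image]
    exact hP
  have he0 : toR e ≠ 0 := by
    intro h0
    apply hprim.1
    apply toR_injective
    rw [h0, toR_zero]
  have hte : t • toR e ≠ 0 := smul_ne_zero ht.ne' he0
  have hxP : toR v + t • toR e ∈ P := hFe.subset hxF
  have hvP : toR v ∈ P := hv.1
  -- a point of `S` in `F`
  obtain ⟨s, hsS, hsF, hsv⟩ : ∃ s ∈ S, toR s ∈ F ∧ s ≠ v := by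
    have h1 := hxP
    rw [hPT] at h1
    obtain ⟨w, hw, hw1, hwx⟩ := Finset.mem_convexHull'.1 h1
    have hex : ∃ y ∈ S.image toR, 0 < w y ∧ y ≠ toR v := by
      by_contra hcon
      push Not at hcon
      have h2 : ∀ y ∈ S.image toR, w y • y = w y • toR v := by
        intro y hy
        rcases (hw y hy).lt_or_eq with h3 | h3
        · rw [hcon y hy h3]
        · rw [← h3, zero_smul, zero_smul]
      rw [Finset.sum_congr rfl h2, ← Finset.sum_smul, hw1, one_smul] at hwx
      exact hte (by simpa using hwx.symm)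
    obtain ⟨y, hy, hwy, hyv⟩ := hex
    obtain ⟨s, hs, rfl⟩ := Finset.mem_image.1 hy
    refine ⟨s, hs, ?_, fun h => hyv (by rw [h])⟩
    have hFe' := hFe
    rw [hPT] at hFe'
    exact EDG2_ext hFe' hw hw1 (by rw [hwx]; exact hxF) hy hwy
  have hsP : toR s ∈ P := hFe.subset hsF
  -- the real number `r`
  obtain ⟨r, hr⟩ : ∃ r : ℝ, r • toR e = toR s - toR v := by
    have h1 : toR e ∈ vectorSpan ℝ F := by
      have h2 : (toR v + t • toR e) -ᵥ toR v ∈ vectorSpan ℝ F := vsub_mem_vectorSpan ℝ hxF hvF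
      rw [vsub_eq_sub, add_sub_cancel_left] at h2
      have h3 := Submodule.smul_mem _ t⁻¹ h2
      rwa [inv_smul_smul₀ ht.ne'] at h3
    have h2 : toR s - toR v ∈ vectorSpan ℝ F := by
      have := vsub_mem_vectorSpan ℝ hsF hvF
      rwa [vsub_eq_sub] at this
    have hne : (⟨toR e, h1⟩ : vectorSpan ℝ F) ≠ 0 := by
      intro h0
      exact he0 (congrArg Subtype.val h0)
    obtain ⟨r, hr⟩ := (finrank_eq_one_iff_of_nonzero' _ hne).1 hFd ⟨toR s - toR v, h2⟩
    exact ⟨r, congrArg Subtype.val hr⟩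
  obtain ⟨m, hm⟩ := EDG2_int hprim (w := s - v) (r := r) (by rw [toR_sub]; exact hr)
  have hrs : toR s = toR v + r • toR e := by rw [hr]; abel
  have hr0 : r ≠ 0 := by
    rintro rfl
    rw [zero_smul, add_zero] at hrs
    exact hsv (toR_injective hrs)
  have hrpos : 0 < r := by
    by_contra hcon
    have hneg : r < 0 := lt_of_le_of_ne (not_lt.1 hcon) hr0
    have htr : 0 < t - r := by linarith
    have hmem : toR v ∈ openSegment ℝ (toR s) (toR v + t • toR e) := by
      refine ⟨t / (t - r), -r / (t - r), div_pos ht htr, div_pos (by linarith) htr, ?_, ?_⟩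
      · field_simp
        ring
      · rw [hrs]
        funext i
        simp only [Pi.add_apply, Pi.smul_apply, smul_eq_mul]
        field_simp
        ring
    have h1 := hv.2 hsP hxP hmem
    exact hsv (toR_injective h1)
  have hm1 : (1 : ℝ) ≤ r := by
    rw [hm] at hrpos ⊢
    have : 0 < m := by exact_mod_cast hrpos
    exact_mod_cast this
  have hfin : toR (v + e) = (1 - 1 / r) • toR v + (1 / r) • toR s := by
    rw [hrs, toR_add]
    funext i
    simp only [Pi.add_apply, Pi.smul_apply, smul_eq_mul]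
    field_simp
    ring
  rw [hfin]
  refine hPconv hvP hsP ?_ (by positivity) (by ring)
  rw [sub_nonneg, div_le_one hrpos]
  exact hm1

end H66OD
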