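import Pool.Agent.H66.OD.Defs

/-!
# Row ACL (about 80 lines, pure combinatorics)

Abstract certificate lemma. `S` finite, `N φ p` integers, every point `p` has some `φ ∈ S` with
`T0 φ ≤ N φ p`. Then there are a subfamily `I`, raised thresholds `T` and touching points `w φ`.

PROOF. Call `(I,T)` covering if every `p` has `φ ∈ I` with `T φ ≤ N φ p`. Choose `I ⊆ S` of minimal
cardinality such that `(I,T0)` is covering (`S` is one). `I` is nonempty since `X` is nonempty.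
For `φ ∈ I` the family `I \ {φ}` is not covering for `T0` (minimality), and hence not covering for
any `T ≥ T0`.
Now process the elements of `I` one after the other (induction over a list / a finset `J ⊆ I` of
processed elements, or: induction on `J` with the invariant below).
Invariant for the processed set `J ⊆ I`: there is `T ≥ T0`, `(I,T)` covering, and for each `φ ∈ J`
a point `w φ` with `N φ (w φ) = T φ` and `N ψ (w φ) < T ψ` for all `ψ ∈ I`, `ψ ≠ φ`.
Step: `φ ∈ I \ J`. Let `U` be the set of points `p` with `N ψ p < T ψ` for all `ψ ∈ I`, `ψ ≠ φ`.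
`U` is nonempty (`I \ {φ}` is not covering for `T`). By covering, `T φ ≤ N φ p` for `p ∈ U`, so the
integers `N φ p`, `p ∈ U`, are bounded below and attain their minimum at some `p₀ ∈ U`
(`Int.exists_least_of_bdd` or well-foundedness of ℕ via `toNat`). Put `T' φ = N φ p₀ ≥ T φ`,
`T' = T` elsewhere (`Function.update`), `w φ = p₀`. `(I,T')` is covering: a point in `U` satisfies
`T' φ ≤ N φ p`, a point not in `U` is covered by some `ψ ≠ φ`. For the old `ψ ∈ J`: `N ψ (w ψ) = T ψ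
= T' ψ`, and `N χ (w ψ) < T χ ≤ T' χ` for `χ ≠ ψ`. New one: `N φ p₀ = T' φ` and `N ψ p₀ < T ψ = T' ψ`
for `ψ ≠ φ` as `p₀ ∈ U`. Taking `J = I` gives the statement.
-/

namespace H66OD

theorem acl {Φ X : Type} [DecidableEq Φ] [Nonempty X] (S : Finset Φ) (N : Φ → X → ℤ) (T0 : Φ → ℤ)
    (hcov : ∀ p, ∃ φ ∈ S, T0 φ ≤ N φ p) :
    ∃ (I : Finset Φ) (T : Φ → ℤ) (w : Φ → X), I ⊆ S ∧ I.Nonempty ∧ (∀ φ ∈ I, T0 φ ≤ T φ) ∧
      (∀ φ ∈ I, N φ (w φ) = T φ) ∧ (∀ φ ∈ I, ∀ ψ ∈ I, ψ ≠ φ → N ψ (w φ) < T ψ) ∧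
      (∀ p, ∃ φ ∈ I, T φ ≤ N φ p) := by
  classical
  obtain ⟨I, hI, hmin⟩ := (S.powerset.filter (fun I => ∀ p, ∃ φ ∈ I, T0 φ ≤ N φ p)).exists_min_image
    Finset.card ⟨S, Finset.mem_filter.2 ⟨Finset.mem_powerset_self S, hcov⟩⟩
  rw [Finset.mem_filter, Finset.mem_powerset] at hI
  obtain ⟨hIS, hIcov⟩ := hI
  have hne : I.Nonempty := by
    obtain ⟨φ, hφ, -⟩ := hIcov (Classical.arbitrary X)
    exact ⟨φ, hφ⟩
  have hcrit : ∀ φ ∈ I, ∃ p, ∀ ψ ∈ I, ψ ≠ φ → N ψ p < T0 ψ := by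
    intro φ hφ
    by_contra hcon
    push Not at hcon
    have h1 : I.erase φ ∈ S.powerset.filter (fun I => ∀ p, ∃ φ ∈ I, T0 φ ≤ N φ p) := by
      rw [Finset.mem_filter, Finset.mem_powerset]
      refine ⟨(Finset.erase_subset _ _).trans hIS, fun p => ?_⟩
      obtain ⟨ψ, hψ, hne, hle⟩ := hcon p
      exact ⟨ψ, Finset.mem_erase.2 ⟨hne, hψ⟩, hle⟩
    have h2 := hmin _ h1
    have h3 := Finset.card_erase_lt_of_mem hφ
    omega
  have key : ∀ J : Finset Φ, J ⊆ I → ∃ (T : Φ → ℤ) (w : Φ → X), (∀ φ, T0 φ ≤ T φ) ∧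
      (∀ p, ∃ φ ∈ I, T φ ≤ N φ p) ∧
      ∀ φ ∈ J, N φ (w φ) = T φ ∧ ∀ ψ ∈ I, ψ ≠ φ → N ψ (w φ) < T ψ := by
    intro J
    induction J using Finset.induction_on with
    | empty =>
      intro _
      exact ⟨T0, fun _ => Classical.arbitrary X, fun _ => le_rfl, hIcov, by simp⟩
    | insert φ J hφJ ih =>
      intro hJ
      obtain ⟨T, w, hT, hc, hw⟩ := ih (fun ψ hψ => hJ (Finset.mem_insert_of_mem hψ))
      have hφI : φ ∈ I := hJ (Finset.mem_insert_self φ J)
      obtain ⟨p1, hp1⟩ := hcrit φ hφI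
      have hU : ∀ p, (∀ ψ ∈ I, ψ ≠ φ → N ψ p < T ψ) → T φ ≤ N φ p := by
        intro p hp
        obtain ⟨ψ, hψ, hle⟩ := hc p
        by_cases h : ψ = φ
        · rw [h] at hle
          exact hle
        · exact absurd hle (not_le.2 (hp ψ hψ h))
      obtain ⟨t, ⟨p0, hp0, hp0t⟩, hlb⟩ := Int.exists_least_of_bdd
        (P := fun t => ∃ p, (∀ ψ ∈ I, ψ ≠ φ → N ψ p < T ψ) ∧ N φ p = t)
        ⟨T φ, fun z ⟨p, hp, hpz⟩ => by rw [← hpz]; exact hU p hp⟩
        ⟨N φ p1, p1, fun ψ hψ hne => lt_of_lt_of_le (hp1 ψ hψ hne) (hT ψ), rfl⟩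
      have hTt : T φ ≤ t := by
        rw [← hp0t]
        exact hU p0 hp0
      have hT' : ∀ ψ, T ψ ≤ Function.update T φ t ψ := by
        intro ψ
        by_cases h : ψ = φ
        · subst h
          rw [Function.update_self]
          exact hTt
        · rw [Function.update_of_ne h]
      refine ⟨Function.update T φ t, Function.update w φ p0, fun ψ => (hT ψ).trans (hT' ψ), ?_, ?_⟩
      · intro p
        by_cases hp : ∀ ψ ∈ I, ψ ≠ φ → N ψ p < T ψ
        · refine ⟨φ, hφI, ?_⟩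
          rw [Function.update_self]
          exact hlb _ ⟨p, hp, rfl⟩
        · push Not at hp
          obtain ⟨ψ, hψ, hne, hle⟩ := hp
          refine ⟨ψ, hψ, ?_⟩
          rw [Function.update_of_ne hne]
          exact hle
      · intro ψ hψ
        rcases Finset.mem_insert.1 hψ with rfl | hψJ
        · rw [Function.update_self, Function.update_self]
          refine ⟨hp0t, fun χ hχ hne => ?_⟩
          rw [Function.update_of_ne hne]
          exact hp0 χ hχ hne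
        · have hne : ψ ≠ φ := fun h => hφJ (h ▸ hψJ)
          rw [Function.update_of_ne hne, Function.update_of_ne hne]
          refine ⟨(hw ψ hψJ).1, fun χ hχ hne' => lt_of_lt_of_le ((hw ψ hψJ).2 χ hχ hne') (hT' χ)⟩
  obtain ⟨T, w, hT, hc, hw⟩ := key I subset_rfl
  exact ⟨I, T, w, hIS, hne, fun φ _ => hT φ, fun φ hφ => (hw φ hφ).1,
    fun φ hφ ψ hψ hne => (hw φ hφ).2 ψ hψ hne, hc⟩

end H66OD
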