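import Pool.Agent.H66.OD.Defs

/-!
# Row AFI (about 80 lines): sizes of affinely independent sets

`afi4`: affinely independent points of `ℝ³`: at most 4 (`AffineIndependent.card_le_finrank_succ`, the
`vectorSpan` has finrank `≤ 3`).
`afi3`: if moreover all points satisfy `u ⬝ᵥ z = r` with `u ≠ 0`: the `vectorSpan` is contained in the kernel of
`x ↦ toR u ⬝ᵥ x`, a nonzero linear functional (`toR u ⬝ᵥ toR u > 0`), whose kernel has finrank `2`; so at most 3.
-/

open Matrix

namespace H66OD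

theorem afi4 (t : Finset (Fin 3 → ℤ))
    (h : AffineIndependent ℝ (fun z : t => toR (z : Fin 3 → ℤ))) : t.card ≤ 4 := by
  have h1 := h.card_le_finrank_succ
  have h2 := Submodule.finrank_le (vectorSpan ℝ (Set.range (fun z : t => toR (z : Fin 3 → ℤ))))
  rw [Module.finrank_fin_fun] at h2
  rw [Fintype.card_coe] at h1
  omega

theorem afi3 (t : Finset (Fin 3 → ℤ)) (u : Fin 3 → ℤ) (hu : u ≠ 0) (r : ℤ)
    (hr : ∀ z ∈ t, u ⬝ᵥ z = r)
    (h : AffineIndependent ℝ (fun z : t => toR (z : Fin 3 → ℤ))) : t.card ≤ 3 := by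
  have h1 := h.card_le_finrank_succ
  rw [Fintype.card_coe] at h1
  let L : (Fin 3 → ℝ) →ₗ[ℝ] ℝ :=
    { toFun := fun x => toR u ⬝ᵥ x
      map_add' := dotProduct_add _
      map_smul' := fun c x => dotProduct_smul c _ x }
  have hle : vectorSpan ℝ (Set.range (fun z : t => toR (z : Fin 3 → ℤ))) ≤ LinearMap.ker L := by
    rw [vectorSpan_def, Submodule.span_le]
    rintro _ ⟨_, ⟨z, rfl⟩, _, ⟨z', rfl⟩, rfl⟩
    show L (toR (z : Fin 3 → ℤ) - toR (z' : Fin 3 → ℤ)) = 0
    show toR u ⬝ᵥ (toR (z : Fin 3 → ℤ) - toR (z' : Fin 3 → ℤ)) = 0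
    rw [← toR_sub, toR_dot, dotProduct_sub, hr _ z.2, hr _ z'.2, sub_self, Int.cast_zero]
  have hker : LinearMap.ker L ≠ ⊤ := by
    intro htop
    have h3 : toR u ∈ LinearMap.ker L := by rw [htop]; trivial
    have h4 : toR u ⬝ᵥ toR u = 0 := h3
    rw [toR_dot] at h4
    have h5 : u ⬝ᵥ u = 0 := by exact_mod_cast h4
    exact hu (dotProduct_self_eq_zero.mp h5)
  have h2 := Submodule.finrank_lt hker
  rw [Module.finrank_fin_fun] at h2
  have h3 := Submodule.finrank_mono hle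
  omega

end H66OD
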