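import Pool.Agent.H66.OD.Defs

/-!
# Row BGT (about 250 lines): Bruns-Gubeladze-Trung step

`X` = a finite set of integer points containing all integer points of its hull. `k ≥ 1`, every affinely
independent subset of `X` has at most `k+1` elements. If `x` is an integer point, `x = k y`,
`y ∈ conv X`, then some `p ∈ X` has `x - p ∈ (k-1) conv X`.

PROOF. Let `K` be the set of weights `μ : X → ℝ` (`stdSimplex ℝ X`, compact) with `Σ μ z • toR z = y`; it is
nonempty (`y` in the hull) and closed, so compact. The linear function `cost μ = Σ μ z ‖z‖²`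
(`‖z‖² = Σ_i (z i)²`) attains its minimum on `K`; among the minimisers choose `μ` with the smallest support
`t = {z | μ z ≠ 0}` (`μ > 0` on `t`).
(i) The points of `t` are affinely independent: otherwise there is `δ ≠ 0` supported in `t` with `Σ δ z = 0`,
`Σ δ z • toR z = 0` (`affineIndependent_iff`/negation). For small `|ε|` `μ + ε δ ∈ K`, so minimality for both signs
gives `Σ δ z ‖z‖² = 0` and then all `μ + ε δ ∈ K` have the same cost. Some `δ z < 0` (sum zero); with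
`ε = min {μ z / (-δ z) : δ z < 0}` the weights `μ + ε δ` are `≥ 0`, in `K`, minimisers, with a strictly smaller
support: contradiction. So `t.card ≤ k + 1`.
(ii) If some `z ∈ t` has `k μ z ≥ 1`: `p = z`. `toR x - toR p = Σ_{z'} (k μ z' - [z' = z]) • toR z'`, weights `≥ 0` of
sum `k - 1`. If `k = 1`, the sum of nonnegative weights is 0, so `toR x - toR p = 0 = 0 • y`. If `k ≥ 2`
divide by `k-1`: a point `y'` of the hull.
(iii) Otherwise `k μ z < 1` for all `z ∈ t`; `k = Σ_{t} k μ z < t.card` (`t` nonempty), so `t.card = k + 1 ≥ 2`. Let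
`q = Σ_{z ∈ t} z - x`, an integer vector, `toR q = Σ_{z ∈ t} ν z • toR z`, `ν z = 1 - k μ z ∈ (0,1)`
(`μ z > 0`), `Σ ν = (k+1) - k = 1`. So `toR q` is in the hull of `X`, `q ∈ X`. By strict convexity of `‖·‖²`
`‖q‖² < Σ ν z ‖z‖²`: indeed `Σ ν z ‖z‖² - ‖q‖² = Σ ν z ‖z - q‖² > 0` as at least one `z ∈ t` is `≠ q`
(`t` has at least two elements). For small `ε > 0` (`ε ν z ≤ μ z` for all `z ∈ t`) the weights
`μ - ε ν + ε [· = q]` are `≥ 0`, sum 1, `Σ = y - ε q + ε q = y`, so in `K`, with cost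
`cost μ - ε (Σ ν z ‖z‖² - ‖q‖²) < cost μ`: contradiction.
-/

namespace H66OD

private def BGT_c (z : Fin 3 → ℤ) : ℝ := ∑ i, (z i : ℝ) ^ 2

private def BGT_cost (X : Finset (Fin 3 → ℤ)) (μ : (Fin 3 → ℤ) → ℝ) : ℝ := ∑ z ∈ X, μ z * BGT_c z

private structure BGT_Good (X : Finset (Fin 3 → ℤ)) (y : Fin 3 → ℝ) (μ : (Fin 3 → ℤ) → ℝ) :
    Prop where
  nn : ∀ z ∈ X, 0 ≤ μ z
  s1 : ∑ z ∈ X, μ z = 1
  sy : ∑ z ∈ X, μ z • toR z = y

private theorem BGT_ex (X : Finset (Fin 3 → ℤ)) {y : Fin 3 → ℝ}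
    (hy : y ∈ convexHull ℝ (toR '' (X : Set (Fin 3 → ℤ)))) : ∃ μ, BGT_Good X y μ := by
  classical
  rw [← Finset.coe_image, Finset.mem_convexHull'] at hy
  obtain ⟨w, h0, h1, h2⟩ := hy
  have hinj : ∀ a ∈ X, ∀ b ∈ X, (toR a : Fin 3 → ℝ) = toR b → a = b := fun a _ b _ h => toR_inj.1 h
  refine ⟨fun z => w (toR z), ⟨fun z hz => h0 _ (Finset.mem_image_of_mem _ hz), ?_, ?_⟩⟩
  · rw [Finset.sum_image hinj] at h1
    exact h1
  · rw [Finset.sum_image hinj] at h2
    exact h2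

private theorem BGT_mem (X : Finset (Fin 3 → ℤ)) {y : Fin 3 → ℝ} {μ : (Fin 3 → ℤ) → ℝ}
    (h : BGT_Good X y μ) : y ∈ convexHull ℝ (toR '' (X : Set (Fin 3 → ℤ))) := by
  rw [← h.sy]
  exact (convex_convexHull ℝ _).sum_mem h.nn h.s1
    (fun z hz => subset_convexHull ℝ _ ⟨z, hz, rfl⟩)

private theorem BGT_min (X : Finset (Fin 3 → ℤ)) {y : Fin 3 → ℝ}
    (hy : y ∈ convexHull ℝ (toR '' (X : Set (Fin 3 → ℤ)))) :
    ∃ μ, BGT_Good X y μ ∧ ∀ μ', BGT_Good X y μ' → BGT_cost X μ ≤ BGT_cost X μ' := by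
  classical
  have hle : ∀ μ, BGT_Good X y μ → ∀ z ∈ X, μ z ≤ 1 := by
    intro μ h z hz
    rw [← h.s1]
    exact Finset.single_le_sum (f := μ) h.nn hz
  have htr : ∀ μ, BGT_Good X y μ → ∃ μ' ∈ (Set.pi Set.univ (fun _ : Fin 3 → ℤ => Set.Icc (0 : ℝ) 1)),
      BGT_Good X y μ' ∧ BGT_cost X μ' = BGT_cost X μ := by
    intro μ h
    refine ⟨fun z => if z ∈ X then μ z else 0, ?_, ⟨?_, ?_, ?_⟩, ?_⟩
    · intro z _
      show (if z ∈ X then μ z else 0) ∈ Set.Icc (0 : ℝ) 1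
      split_ifs with hz
      · exact ⟨h.nn z hz, hle μ h z hz⟩
      · exact ⟨le_rfl, zero_le_one⟩
    · intro z hz
      show 0 ≤ (if z ∈ X then μ z else 0)
      rw [if_pos hz]
      exact h.nn z hz
    · rw [← h.s1]
      exact Finset.sum_congr rfl fun z hz => if_pos hz
    · rw [← h.sy]
      exact Finset.sum_congr rfl fun z hz => by rw [if_pos hz]
    · unfold BGT_cost
      refine Finset.sum_congr rfl fun z hz => ?_
      show (if z ∈ X then μ z else 0) * BGT_c z = μ z * BGT_c z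
      rw [if_pos hz]
  have hcomp : IsCompact ((Set.pi Set.univ (fun _ : Fin 3 → ℤ => Set.Icc (0 : ℝ) 1)) ∩
      ({μ : (Fin 3 → ℤ) → ℝ | ∑ z ∈ X, μ z = 1} ∩
        {μ : (Fin 3 → ℤ) → ℝ | ∑ z ∈ X, μ z • (toR z : Fin 3 → ℝ) = y})) := by
    refine (isCompact_univ_pi fun _ => isCompact_Icc).inter_right (IsClosed.inter ?_ ?_)
    · exact isClosed_eq (by fun_prop) continuous_const
    · exact isClosed_eq (by fun_prop) continuous_const
  obtain ⟨μ0, hμ0⟩ := BGT_ex X hy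
  obtain ⟨μ1, hμ1a, hμ1b, -⟩ := htr μ0 hμ0
  obtain ⟨μ, hμ, hmin⟩ := hcomp.exists_isMinOn ⟨μ1, hμ1a, hμ1b.s1, hμ1b.sy⟩
    (f := BGT_cost X) (Continuous.continuousOn (by unfold BGT_cost; fun_prop))
  refine ⟨μ, ⟨fun z _ => (hμ.1 z (Set.mem_univ z)).1, hμ.2.1, hμ.2.2⟩, fun μ' hμ' => ?_⟩
  obtain ⟨μ2, h2a, h2b, h2c⟩ := htr μ' hμ'
  rw [← h2c]
  exact hmin ⟨h2a, h2b.s1, h2b.sy⟩

open Classical in
private noncomputable def BGT_supp (X : Finset (Fin 3 → ℤ)) (μ : (Fin 3 → ℤ) → ℝ) :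
    Finset (Fin 3 → ℤ) := X.filter (fun z => μ z ≠ 0)

private theorem BGT_min2 (X : Finset (Fin 3 → ℤ)) {y : Fin 3 → ℝ}
    (hy : y ∈ convexHull ℝ (toR '' (X : Set (Fin 3 → ℤ)))) :
    ∃ μ, BGT_Good X y μ ∧ (∀ μ', BGT_Good X y μ' → BGT_cost X μ ≤ BGT_cost X μ') ∧
      ∀ μ', BGT_Good X y μ' → BGT_cost X μ' = BGT_cost X μ →
        (BGT_supp X μ).card ≤ (BGT_supp X μ').card := by
  classical
  obtain ⟨μ0, h0, h0'⟩ := BGT_min X hy
  have hex : ∃ n : ℕ, ∃ μ, BGT_Good X y μ ∧ BGT_cost X μ = BGT_cost X μ0 ∧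
      (BGT_supp X μ).card = n := ⟨_, μ0, h0, rfl, rfl⟩
  obtain ⟨μ, h1, h2, h3⟩ := Nat.find_spec hex
  refine ⟨μ, h1, fun μ' h => by rw [h2]; exact h0' μ' h, fun μ' h h' => ?_⟩
  rw [h3]
  exact Nat.find_min' hex ⟨μ', h, by rw [h', h2], rfl⟩

private theorem BGT_eps {α : Type*} (t : Finset α) (a b : α → ℝ) (ha : ∀ z ∈ t, 0 < a z) :
    ∃ ε : ℝ, 0 < ε ∧ ∀ z ∈ t, ε * b z ≤ a z := by
  classical
  induction t using Finset.induction_on with
  | empty => exact ⟨1, one_pos, fun z hz => absurd hz (Finset.notMem_empty z)⟩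
  | insert z0 t hz0 ih =>
    obtain ⟨ε, hε, h⟩ := ih fun z hz => ha z (Finset.mem_insert_of_mem hz)
    have ha0 := ha z0 (Finset.mem_insert_self _ _)
    refine ⟨min ε (a z0 / (|b z0| + 1)), lt_min hε (by positivity), ?_⟩
    have key : ∀ (e e' B A : ℝ), 0 < e → e ≤ e' → 0 ≤ A → e' * B ≤ A → e * B ≤ A := by
      intro e e' B A h1 h2 h3 h4
      rcases le_total 0 B with hB | hB
      · exact (mul_le_mul_of_nonneg_right h2 hB).trans h4
      · exact (mul_nonpos_of_nonneg_of_nonpos h1.le hB).trans h3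
    have hpos : 0 < min ε (a z0 / (|b z0| + 1)) := lt_min hε (by positivity)
    intro z hz
    rcases Finset.mem_insert.1 hz with rfl | hz
    · refine key _ _ _ _ hpos (min_le_right _ _) ha0.le ?_
      have h1 : a z / (|b z| + 1) * b z ≤ a z / (|b z| + 1) * (|b z| + 1) :=
        mul_le_mul_of_nonneg_left ((le_abs_self _).trans (by linarith)) (by positivity)
      refine h1.trans (le_of_eq ?_)
      exact div_mul_cancel₀ _ (by positivity)
    · exact key _ _ _ _ hpos (min_le_left _ _)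
        (ha z (Finset.mem_insert_of_mem hz)).le (h z hz)

private theorem BGT_ind (X : Finset (Fin 3 → ℤ)) {y : Fin 3 → ℝ} {μ : (Fin 3 → ℤ) → ℝ}
    (hμ : BGT_Good X y μ) (hmin : ∀ μ', BGT_Good X y μ' → BGT_cost X μ ≤ BGT_cost X μ')
    (hsup : ∀ μ', BGT_Good X y μ' → BGT_cost X μ' = BGT_cost X μ →
        (BGT_supp X μ).card ≤ (BGT_supp X μ').card) :
    AffineIndependent ℝ (fun z : BGT_supp X μ => (toR (z : Fin 3 → ℤ) : Fin 3 → ℝ)) := by
  classical
  rw [affineIndependent_iff]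
  intro s w hw0 hw1
  by_contra hne
  push Not at hne
  obtain ⟨e0, he0s, he0⟩ := hne
  have htX : BGT_supp X μ ⊆ X := Finset.filter_subset _ _
  obtain ⟨δ, hδ⟩ : ∃ δ : (Fin 3 → ℤ) → ℝ, δ = fun z =>
    if h : z ∈ BGT_supp X μ then (if (⟨z, h⟩ : BGT_supp X μ) ∈ s then w ⟨z, h⟩ else 0) else 0 :=
    ⟨_, rfl⟩
  have hδ1 : ∀ e : BGT_supp X μ, δ (e : Fin 3 → ℤ) = if e ∈ s then w e else 0 := by
    intro e
    rw [hδ]
    simp
  have hδ2 : ∀ z, z ∉ BGT_supp X μ → δ z = 0 := by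
    intro z hz
    rw [hδ]
    simp only
    rw [dif_neg hz]
  have s0 : ∑ z ∈ X, δ z = 0 := by
    rw [← Finset.sum_subset htX (fun z _ hz => hδ2 z hz), ← Finset.sum_coe_sort]
    simp only [hδ1]
    rw [Finset.sum_ite_mem, Finset.univ_inter]
    exact hw0
  have s1 : ∑ z ∈ X, δ z • (toR z : Fin 3 → ℝ) = 0 := by
    rw [← Finset.sum_subset htX (fun z _ hz => by rw [hδ2 z hz, zero_smul]),
      ← Finset.sum_coe_sort]
    simp only [hδ1, ite_smul, zero_smul]
    rw [Finset.sum_ite_mem, Finset.univ_inter]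
    exact hw1
  have hcostadd : ∀ ε : ℝ, BGT_cost X (fun z => μ z + ε * δ z) =
      BGT_cost X μ + ε * BGT_cost X δ := by
    intro ε
    unfold BGT_cost
    rw [Finset.mul_sum, ← Finset.sum_add_distrib]
    exact Finset.sum_congr rfl fun z _ => by ring
  have hgood : ∀ ε : ℝ, (∀ z ∈ BGT_supp X μ, 0 ≤ μ z + ε * δ z) →
      BGT_Good X y (fun z => μ z + ε * δ z) := by
    intro ε h
    refine ⟨fun z hz => ?_, ?_, ?_⟩
    · by_cases hz' : z ∈ BGT_supp X μ
      · exact h z hz'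
      · show 0 ≤ μ z + ε * δ z
        rw [hδ2 z hz', mul_zero, add_zero]
        exact hμ.nn z hz
    · rw [Finset.sum_add_distrib, ← Finset.mul_sum, s0, hμ.s1, mul_zero, add_zero]
    · simp only [add_smul, mul_smul]
      rw [Finset.sum_add_distrib, ← Finset.smul_sum, s1, hμ.sy, smul_zero, add_zero]
  have hpos : ∀ z ∈ BGT_supp X μ, 0 < μ z := by
    intro z hz
    have hz' := Finset.mem_filter.1 hz
    exact lt_of_le_of_ne (hμ.nn z hz'.1) (Ne.symm hz'.2)
  have hc0 : BGT_cost X δ = 0 := by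
    obtain ⟨ε, hε, h⟩ := BGT_eps (BGT_supp X μ) μ (fun z => |δ z|) hpos
    have hp := hmin _ (hgood ε fun z hz => by
      have h1 := h z hz
      have h2 := mul_le_mul_of_nonneg_left (neg_abs_le (δ z)) hε.le
      linarith)
    have hm := hmin _ (hgood (-ε) fun z hz => by
      have h1 := h z hz
      have h2 := mul_le_mul_of_nonneg_left (le_abs_self (δ z)) hε.le
      linarith)
    rw [hcostadd] at hp hm
    have h1 : 0 ≤ ε * BGT_cost X δ := by linarith
    have h2 : ε * BGT_cost X δ ≤ 0 := by linarith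
    have h3 : ε * BGT_cost X δ = 0 := le_antisymm h2 h1
    exact (mul_eq_zero.1 h3).resolve_left hε.ne'
  -- a negative coordinate
  have hneg : ∃ z ∈ X, δ z < 0 := by
    by_contra hcon
    push Not at hcon
    have h1 := (Finset.sum_eq_zero_iff_of_nonneg hcon).1 s0
    have h2 := h1 e0 (htX e0.2)
    rw [hδ1 e0, if_pos he0s] at h2
    exact he0 h2
  obtain ⟨z1, hz1X, hz1⟩ := hneg
  have hmemN : ∀ z, δ z < 0 → z ∈ BGT_supp X μ := by
    intro z hz
    by_contra hcon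
    rw [hδ2 z hcon] at hz
    exact lt_irrefl _ hz
  obtain ⟨z0, hz0, hz0min⟩ := Finset.exists_min_image ((BGT_supp X μ).filter (fun z => δ z < 0))
    (fun z => μ z / (-δ z)) ⟨z1, Finset.mem_filter.2 ⟨hmemN z1 hz1, hz1⟩⟩
  have hz0' := Finset.mem_filter.1 hz0
  have hd0 : 0 < -δ z0 := neg_pos.2 hz0'.2
  have hm0 := hpos z0 hz0'.1
  have hg := hgood (μ z0 / (-δ z0)) fun z hz => by
    rcases lt_or_ge (δ z) 0 with hd | hd
    · have h1 := hz0min z (Finset.mem_filter.2 ⟨hz, hd⟩)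
      have hd' : 0 < -δ z := neg_pos.2 hd
      have h2 := mul_le_mul_of_nonneg_right h1 hd'.le
      rw [div_mul_cancel₀ _ hd'.ne'] at h2
      linarith
    · have h1 : 0 ≤ μ z0 / (-δ z0) * δ z := mul_nonneg (div_pos hm0 hd0).le hd
      linarith [hpos z hz]
  have hcost := hcostadd (μ z0 / (-δ z0))
  rw [hc0, mul_zero, add_zero] at hcost
  have hcard := hsup _ hg hcost
  have hlt : (BGT_supp X (fun z => μ z + μ z0 / (-δ z0) * δ z)) ⊂ BGT_supp X μ := by
    rw [Finset.ssubset_iff_of_subset]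
    · refine ⟨z0, hz0'.1, fun hcon => ?_⟩
      refine (Finset.mem_filter.1 hcon).2 ?_
      show μ z0 + μ z0 / -δ z0 * δ z0 = 0
      rw [div_mul_eq_mul_div, div_neg, mul_div_assoc, div_self (ne_of_lt hz0'.2)]
      ring
    · intro z hz
      by_contra hcon
      have hz' := Finset.mem_filter.1 hz
      have h1 : μ z = 0 := by
        by_contra h2
        exact hcon (Finset.mem_filter.2 ⟨hz'.1, h2⟩)
      refine hz'.2 ?_
      show μ z + μ z0 / -δ z0 * δ z = 0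
      rw [h1, hδ2 z hcon]
      ring
  exact absurd hcard (not_le.2 (Finset.card_lt_card hlt))

private theorem BGT_conv (t : Finset (Fin 3 → ℤ)) (ν : (Fin 3 → ℤ) → ℝ) (q : Fin 3 → ℤ)
    (h1 : ∑ z ∈ t, ν z = 1) (hq : (toR q : Fin 3 → ℝ) = ∑ z ∈ t, ν z • toR z)
    (hν : ∀ z ∈ t, 0 < ν z) (hne : ∃ z ∈ t, z ≠ q) :
    BGT_c q < ∑ z ∈ t, ν z * BGT_c z := by
  have hqi : ∀ i, (q i : ℝ) = ∑ z ∈ t, ν z * (z i : ℝ) := by
    intro i
    have h := congrFun hq i
    rw [Finset.sum_apply] at h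
    simpa [toR] using h
  have key : ∑ z ∈ t, ν z * (∑ i, ((z i : ℝ) - q i) ^ 2) = ∑ z ∈ t, ν z * BGT_c z - BGT_c q := by
    have e1 : ∀ i : Fin 3, ∑ z ∈ t, ν z * ((z i : ℝ) - q i) ^ 2 =
        ∑ z ∈ t, ν z * (z i : ℝ) ^ 2 - (q i : ℝ) ^ 2 := by
      intro i
      have e2 : ∑ z ∈ t, ν z * ((z i : ℝ) - q i) ^ 2 = ∑ z ∈ t, ν z * (z i : ℝ) ^ 2 -
          2 * q i * ∑ z ∈ t, ν z * (z i : ℝ) + (q i : ℝ) ^ 2 * ∑ z ∈ t, ν z := by
        rw [Finset.mul_sum, Finset.mul_sum, ← Finset.sum_sub_distrib, ← Finset.sum_add_distrib]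
        exact Finset.sum_congr rfl fun z _ => by ring
      rw [e2, ← hqi i, h1]
      ring
    have e3 : ∑ z ∈ t, ν z * (∑ i, ((z i : ℝ) - q i) ^ 2) =
        ∑ i, ∑ z ∈ t, ν z * ((z i : ℝ) - q i) ^ 2 := by
      rw [Finset.sum_comm]
      exact Finset.sum_congr rfl fun z _ => Finset.mul_sum _ _ _
    rw [e3]
    simp only [e1]
    rw [Finset.sum_sub_distrib, Finset.sum_comm]
    unfold BGT_c
    congr 1
    exact Finset.sum_congr rfl fun z _ => (Finset.mul_sum _ _ _).symm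
  have hpos : 0 < ∑ z ∈ t, ν z * (∑ i, ((z i : ℝ) - q i) ^ 2) := by
    obtain ⟨z, hz, hzq⟩ := hne
    refine Finset.sum_pos' (fun z hz => mul_nonneg (hν z hz).le
      (Finset.sum_nonneg fun i _ => sq_nonneg _)) ⟨z, hz, mul_pos (hν z hz) ?_⟩
    obtain ⟨i, hi⟩ := Function.ne_iff.1 hzq
    refine Finset.sum_pos' (fun i _ => sq_nonneg _) ⟨i, Finset.mem_univ i, ?_⟩
    have : (z i : ℝ) - q i ≠ 0 := by
      rw [sub_ne_zero]
      exact_mod_cast hi
    positivity
  linarith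

theorem bgt (X : Finset (Fin 3 → ℤ))
    (hX : ∀ z : Fin 3 → ℤ, toR z ∈ convexHull ℝ (toR '' (X : Set (Fin 3 → ℤ))) → z ∈ X)
    (k : ℕ) (hk : 1 ≤ k)
    (hdim : ∀ t : Finset (Fin 3 → ℤ), t ⊆ X →
      AffineIndependent ℝ (fun z : t => toR (z : Fin 3 → ℤ)) → t.card ≤ k + 1)
    (x : Fin 3 → ℤ) (y : Fin 3 → ℝ) (hy : y ∈ convexHull ℝ (toR '' (X : Set (Fin 3 → ℤ))))
    (hx : toR x = (k : ℝ) • y) :
    ∃ p ∈ X, ∃ y' ∈ convexHull ℝ (toR '' (X : Set (Fin 3 → ℤ))),
      toR x - toR p = ((k : ℝ) - 1) • y' := by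
  classical
  obtain ⟨μ, hμ, hmin, hsup⟩ := BGT_min2 X hy
  have hind := BGT_ind X hμ hmin hsup
  have htX : BGT_supp X μ ⊆ X := Finset.filter_subset _ _
  have hcard := hdim _ htX hind
  have hpos : ∀ z ∈ BGT_supp X μ, 0 < μ z := by
    intro z hz
    have hz' := Finset.mem_filter.1 hz
    exact lt_of_le_of_ne (hμ.nn z hz'.1) (Ne.symm hz'.2)
  have hoff : ∀ z ∈ X, z ∉ BGT_supp X μ → μ z = 0 := by
    intro z hz hz'
    by_contra h
    exact hz' (Finset.mem_filter.2 ⟨hz, h⟩)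
  have hk0 : (1 : ℝ) ≤ k := by exact_mod_cast hk
  by_cases hcase : ∃ z ∈ BGT_supp X μ, 1 ≤ (k : ℝ) * μ z
  · obtain ⟨p, hp, hpk⟩ := hcase
    have hpX := htX hp
    obtain ⟨ω, hω⟩ : ∃ ω : (Fin 3 → ℤ) → ℝ, ω = fun z => k * μ z - if z = p then 1 else 0 :=
      ⟨_, rfl⟩
    have hωz : ∀ z, ω z = k * μ z - if z = p then 1 else 0 := fun z => by rw [hω]
    have hω0 : ∀ z ∈ X, 0 ≤ ω z := by
      intro z hz
      rw [hωz]
      split_ifs with h
      · rw [h]; linarith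
      · have := hμ.nn z hz
        have : 0 ≤ (k : ℝ) * μ z := by positivity
        linarith
    have hω1 : ∑ z ∈ X, ω z = k - 1 := by
      simp only [hωz]
      rw [Finset.sum_sub_distrib, ← Finset.mul_sum, hμ.s1, Finset.sum_ite_eq', if_pos hpX, mul_one]
    have hω2 : ∑ z ∈ X, ω z • (toR z : Fin 3 → ℝ) = toR x - toR p := by
      simp only [hωz, sub_smul, mul_smul, ite_smul, one_smul, zero_smul]
      rw [Finset.sum_sub_distrib, ← Finset.smul_sum, hμ.sy, Finset.sum_ite_eq', if_pos hpX, hx]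
    refine ⟨p, hpX, ?_⟩
    rcases eq_or_lt_of_le hk0 with h1 | h1
    · refine ⟨y, hy, ?_⟩
      rw [← h1, sub_self] at hω1
      have h3 := (Finset.sum_eq_zero_iff_of_nonneg hω0).1 hω1
      rw [← hω2, ← h1, sub_self, zero_smul]
      exact Finset.sum_eq_zero fun z hz => by rw [h3 z hz, zero_smul]
    · have hk1 : (0 : ℝ) < k - 1 := by linarith
      refine ⟨((k : ℝ) - 1)⁻¹ • (toR x - toR p), ?_, ?_⟩
      · refine BGT_mem X (μ := fun z => ((k : ℝ) - 1)⁻¹ * ω z) ⟨fun z hz => ?_, ?_, ?_⟩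
        · exact mul_nonneg (inv_nonneg.2 hk1.le) (hω0 z hz)
        · rw [← Finset.mul_sum, hω1]
          exact inv_mul_cancel₀ hk1.ne'
        · simp only [mul_smul]
          rw [← Finset.smul_sum, hω2]
      · rw [smul_smul, mul_inv_cancel₀ hk1.ne', one_smul]
  · exfalso
    push Not at hcase
    have hsum1 : ∑ z ∈ BGT_supp X μ, μ z = 1 := by
      rw [← hμ.s1]
      exact Finset.sum_subset htX hoff
    have hne : (BGT_supp X μ).Nonempty := by
      rw [Finset.nonempty_iff_ne_empty]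
      intro h
      rw [h, Finset.sum_empty] at hsum1
      exact zero_ne_one hsum1
    have hlt : (k : ℝ) < (BGT_supp X μ).card := by
      have h1 : ∑ z ∈ BGT_supp X μ, (k : ℝ) * μ z < ∑ _z ∈ BGT_supp X μ, (1 : ℝ) :=
        Finset.sum_lt_sum_of_nonempty hne hcase
      rw [← Finset.mul_sum, hsum1, mul_one, Finset.sum_const, nsmul_eq_mul, mul_one] at h1
      exact h1
    have hlt' : k < (BGT_supp X μ).card := by exact_mod_cast hlt
    have hcard' : (BGT_supp X μ).card = k + 1 := le_antisymm hcard hlt'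
    obtain ⟨ν, hν⟩ : ∃ ν : (Fin 3 → ℤ) → ℝ, ν = fun z => 1 - k * μ z := ⟨_, rfl⟩
    have hνz : ∀ z, ν z = 1 - k * μ z := fun z => by rw [hν]
    have hν0 : ∀ z ∈ BGT_supp X μ, 0 < ν z := by
      intro z hz
      rw [hνz]
      linarith [hcase z hz]
    have hν1 : ∑ z ∈ BGT_supp X μ, ν z = 1 := by
      simp only [hνz]
      rw [Finset.sum_sub_distrib, ← Finset.mul_sum, hsum1, Finset.sum_const, hcard', nsmul_eq_mul]
      push_cast
      ring
    have hsumy : ∑ z ∈ BGT_supp X μ, μ z • (toR z : Fin 3 → ℝ) = y := by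
      rw [← hμ.sy]
      exact Finset.sum_subset htX fun z hz hz' => by rw [hoff z hz hz', zero_smul]
    obtain ⟨q, hqdef⟩ : ∃ q : Fin 3 → ℤ, q = ∑ z ∈ BGT_supp X μ, z - x := ⟨_, rfl⟩
    have hq : (toR q : Fin 3 → ℝ) = ∑ z ∈ BGT_supp X μ, ν z • toR z := by
      rw [hqdef, toR_sub, toR_sum, hx]
      simp only [hνz, sub_smul, mul_smul, one_smul]
      rw [Finset.sum_sub_distrib, ← Finset.smul_sum, hsumy]
    have hqX : q ∈ X := by
      refine hX q ?_
      rw [hq]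
      exact (convex_convexHull ℝ _).sum_mem (fun z hz => (hν0 z hz).le) hν1
        (fun z hz => subset_convexHull ℝ _ ⟨z, htX hz, rfl⟩)
    have hne2 : ∃ z ∈ BGT_supp X μ, z ≠ q := by
      have h2 : 1 < (BGT_supp X μ).card := by omega
      obtain ⟨a, ha, b, hb, hab⟩ := Finset.one_lt_card.1 h2
      by_cases haq : a = q
      · exact ⟨b, hb, fun h => hab (haq.trans h.symm)⟩
      · exact ⟨a, ha, haq⟩
    have hconv := BGT_conv _ ν q hν1 hq hν0 hne2
    obtain ⟨ε, hε, hεle⟩ := BGT_eps (BGT_supp X μ) μ ν hpos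
    obtain ⟨ν', hν'⟩ : ∃ ν' : (Fin 3 → ℤ) → ℝ,
        ν' = fun z => if z ∈ BGT_supp X μ then ν z else 0 := ⟨_, rfl⟩
    have hν'z : ∀ z, ν' z = if z ∈ BGT_supp X μ then ν z else 0 := fun z => by rw [hν']
    have hsν : ∑ z ∈ X, ν' z = 1 := by
      simp only [hν'z]
      rw [Finset.sum_ite_mem, Finset.inter_eq_right.2 htX, hν1]
    have hsνy : ∑ z ∈ X, ν' z • (toR z : Fin 3 → ℝ) = toR q := by
      simp only [hν'z, ite_smul, zero_smul]
      rw [Finset.sum_ite_mem, Finset.inter_eq_right.2 htX, hq]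
    have hsνc : ∑ z ∈ X, ν' z * BGT_c z = ∑ z ∈ BGT_supp X μ, ν z * BGT_c z := by
      simp only [hν'z, ite_mul, zero_mul]
      rw [Finset.sum_ite_mem, Finset.inter_eq_right.2 htX]
    have hg : BGT_Good X y (fun z => μ z - ε * ν' z + ε * (if z = q then 1 else 0)) := by
      refine ⟨fun z hz => ?_, ?_, ?_⟩
      · have h1 : 0 ≤ μ z - ε * ν' z := by
          rw [hν'z]
          split_ifs with h
          · linarith [hεle z h]
          · rw [mul_zero, sub_zero]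
            exact hμ.nn z hz
        have h2 : 0 ≤ ε * (if z = q then (1 : ℝ) else 0) := by
          split_ifs
          · linarith
          · rw [mul_zero]
        show 0 ≤ μ z - ε * ν' z + ε * (if z = q then 1 else 0)
        linarith
      · rw [Finset.sum_add_distrib, Finset.sum_sub_distrib, ← Finset.mul_sum, ← Finset.mul_sum,
          hsν, hμ.s1, Finset.sum_ite_eq', if_pos hqX]
        ring
      · simp only [add_smul, sub_smul, mul_smul]
        rw [Finset.sum_add_distrib, Finset.sum_sub_distrib, ← Finset.smul_sum, ← Finset.smul_sum,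
          hsνy, hμ.sy]
        simp only [ite_smul, one_smul, zero_smul]
        rw [Finset.sum_ite_eq', if_pos hqX]
        abel
    have hc := hmin _ hg
    have hc2 : BGT_cost X (fun z => μ z - ε * ν' z + ε * (if z = q then 1 else 0)) =
        BGT_cost X μ - ε * (∑ z ∈ BGT_supp X μ, ν z * BGT_c z) + ε * BGT_c q := by
      rw [← hsνc]
      have e1 : BGT_c q = ∑ z ∈ X, (if z = q then (1 : ℝ) else 0) * BGT_c z := by
        simp only [ite_mul, one_mul, zero_mul]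
        rw [Finset.sum_ite_eq', if_pos hqX]
      rw [e1]
      unfold BGT_cost
      rw [Finset.mul_sum, Finset.mul_sum, ← Finset.sum_sub_distrib, ← Finset.sum_add_distrib]
      exact Finset.sum_congr rfl fun z _ => by ring
    rw [hc2] at hc
    have h9 := mul_lt_mul_of_pos_left hconv hε
    linarith

end H66OD
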