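import Pool.Agent.H66.OD.CER1

/-!
# CER2: certificate AABA of the P-type, from AAAB by a rotation of the variables
-/

namespace H66OD

theorem cert_AABA (l0 lp lm m0 mp mm p pb q qb s sb t tb A1 B1 A2 B2 D : ℝ)
    (hl0 : 0 < l0) (hlp : 0 ≤ lp) (hlm : 0 ≤ lm) (hm0 : 0 < m0) (hmp : 0 ≤ mp) (hmm : 0 ≤ mm)
    (hp : 0 < p) (hpb : 0 < pb) (hq : 0 < q) (hqb : 0 < qb)
    (hs : s = l0 / 2 + lp) (hsb : sb = l0 / 2 + lm) (ht : t = m0 / 2 + mp)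
    (htb : tb = m0 / 2 + mm) (hA1 : A1 = 2 * (p * sb + pb * s))
    (hB1 : B1 = 2 * (lp * qb + lm * q)) (hA2 : A2 = 2 * (mp * p + mm * pb))
    (hB2 : B2 = 2 * (q * tb + qb * t)) (hD : D = A1 * B2 + A2 * B1)
    (h0 : 0 < 2*(pb*sb*B2) - 2*(pb*tb*B1) + 2*(qb*sb*A2) + 2*(qb*tb*A1) - D)
    (h1 : 0 < 2*(p*s*B2) + 2*(p*tb*B1) - 2*(qb*s*A2) + 2*(qb*tb*A1) - D)
    (h2 : 0 < 2*(p*s*B2) + 2*(p*tb*B1) + 2*(q*s*A2) - 2*(q*tb*A1) - D)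
    (h3 : 0 < 2*(pb*sb*B2) + 2*(pb*t*B1) - 2*(q*sb*A2) + 2*(q*t*A1) - D)
    : False := by
  refine cert_AAAB m0 mm mp l0 lp lm qb q p pb tb t s sb B2 A2 B1 A1 D hm0 hmm hmp hl0 hlp hlm
    hqb hq hp hpb htb ht hs hsb ?_ ?_ ?_ ?_ ?_ ?_ ?_ ?_ ?_
  · rw [hB2]; ring
  · rw [hA2]; ring
  · rw [hB1]
  · rw [hA1]
  · rw [hD]; ring
  · linarith
  · linarith
  · linarith
  · linarith

end H66OD
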