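import Pool.Agent.H66.OD.MTD

/-!
# CER3: certificate AABB of the P-type (generated by an exact linear program)
-/

namespace H66OD

set_option maxRecDepth 10000 in
theorem cert_AABB (l0 lp lm m0 mp mm p pb q qb s sb t tb A1 B1 A2 B2 D : ℝ)
    (hl0 : 0 < l0) (hlp : 0 ≤ lp) (hlm : 0 ≤ lm) (hm0 : 0 < m0) (hmp : 0 ≤ mp) (hmm : 0 ≤ mm)
    (hp : 0 < p) (hpb : 0 < pb) (hq : 0 < q) (hqb : 0 < qb)
    (hs : s = l0 / 2 + lp) (hsb : sb = l0 / 2 + lm) (ht : t = m0 / 2 + mp)
    (htb : tb = m0 / 2 + mm) (hA1 : A1 = 2 * (p * sb + pb * s))
    (hB1 : B1 = 2 * (lp * qb + lm * q)) (hA2 : A2 = 2 * (mp * p + mm * pb))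
    (hB2 : B2 = 2 * (q * tb + qb * t)) (hD : D = A1 * B2 + A2 * B1)
    (h0 : 0 < 2*(pb*sb*B2) - 2*(pb*tb*B1) + 2*(qb*sb*A2) + 2*(qb*tb*A1) - D)
    (h1 : 0 < 2*(p*s*B2) + 2*(p*tb*B1) - 2*(qb*s*A2) + 2*(qb*tb*A1) - D)
    (h2 : 0 < 2*(p*s*B2) + 2*(p*tb*B1) + 2*(q*s*A2) - 2*(q*tb*A1) - D)
    (h3 : 0 < -2*(pb*s*B2) + 2*(pb*t*B1) + 2*(q*s*A2) + 2*(q*t*A1) - D)
    : False := by
  have w0 : 0 <
      794736 * lm * mm * p * q + 794736 * lm * mp * p * qb + 155024 * lm * mp * p * q +
        397368 * lm * m0 * p * qb + 1265967 * lm * m0 * p * q + 109712 * lp * mm * pb * qb +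
        457776 * lp * mm * pb * q + 558816 * lp * mm * p * q + 3118880 * lp * mp * pb * qb +
        542848 * lp * mp * pb * q + 578432 * lp * mp * p * qb + 542848 * lp * mp * p * q +
        1093286 * lp * m0 * pb * qb + 1154299 * lp * m0 * pb * q + 278040 * lp * m0 * p * qb +
        697152 * lp * m0 * p * q + 11632 * l0 * mm * pb * q + 54856 * l0 * mm * p * q +
        580600 * l0 * mp * pb * qb + 146432 * l0 * mp * pb * q + 9808 * l0 * mp * p * qb +
        167872 * l0 * mp * p * q + 290300 * l0 * m0 * pb * qb + 288329 * l0 * m0 * pb * q +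
        27428 * l0 * m0 * p * qb + 150054 * l0 * m0 * p * q := by positivity
  have w1 : 0 <
      2204213 * lm * mm * pb * q + 1037004 * lm * mp * pb * qb + 971200 * lm * mp * pb * q +
        1560 * lm * m0 * pb * qb + 207467 * lm * m0 * pb * q + 45048 * lm * m0 * p * q +
        558816 * lp * mm * pb * q + 534126 * lp * m0 * pb * q + 514112 * l0 * mm * pb * q +
        124992 * l0 * mp * pb * q + 45048 * l0 * mp * p * qb + 187488 * l0 * mp * p * q +
        241519 * l0 * m0 * pb * q + 208872 * l0 * m0 * p * q := by positivity
  have w2 : 0 <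
      121193 * lm * mm * pb * qb + 2537408 * lm * mp * pb * qb + 187488 * lm * mp * pb * q +
        775120 * lm * mp * p * qb + 1382462 * lm * m0 * pb * qb + 911998 * lm * m0 * pb * q +
        516624 * lp * mm * pb * qb + 585728 * lp * mp * pb * qb + 371100 * lp * m0 * pb * qb +
        57819 * l0 * m0 * pb * qb + 684 * l0 * m0 * p * qb := by positivity
  have w3 : 0 <
      2768044 * lm * mm * pb * qb + 976064 * lm * mm * pb * q + 794736 * lm * mm * p * qb +
        477920 * lm * mm * p * q + 32464 * lm * mp * p * qb + 355360 * lm * mp * p * q +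
        1028493 * lm * m0 * p * qb + 481618 * lm * m0 * p * q + 1590000 * lp * mm * pb * qb +
        292864 * lp * mm * pb * q + 558816 * lp * mm * p * qb + 261616 * lp * mp * p * qb +
        1249123 * lp * m0 * pb * qb + 146432 * lp * m0 * pb * q + 464160 * lp * m0 * p * qb +
        580600 * l0 * mm * pb * qb + 124992 * l0 * mm * pb * q + 54856 * l0 * mm * p * qb +
        83936 * l0 * mm * p * q + 109368 * l0 * mp * pb * qb + 93744 * l0 * mp * p * qb +
        347979 * l0 * m0 * pb * qb + 62496 * l0 * m0 * pb * q + 150054 * l0 * m0 * p * qb +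
        41968 * l0 * m0 * p * q := by positivity
  have q2 : 0 ≤
      1117632 * l0 * lp * p * p + 187488 * l0 * l0 * p * pb + 277584 * l0 * l0 * p * p := by positivity
  have r : 0 ≤
      11556948 * lm * lm * mm * mm * pb * pb * q * qb +
        12721108 * lm * lm * mm * mm * pb * pb * q * q +
        2740096 * lm * lm * mm * mm * p * pb * q * qb +
        8994880 * lm * lm * mm * mm * p * pb * q * q +
        5090624 * lm * lm * mm * mm * p * p * q * q +
        3225472 * lm * lm * mp * mm * pb * pb * q * qb +
        730496 * lm * lm * mp * mm * pb * pb * q * q +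
        4229988 * lm * lm * mp * mm * p * pb * qb * qb +
        18902008 * lm * lm * mp * mm * p * pb * q * qb +
        9696660 * lm * lm * mp * mm * p * pb * q * q +
        7700864 * lm * lm * mp * mm * p * p * q * qb +
        5220480 * lm * lm * mp * mm * p * p * q * q +
        11118704 * lm * lm * mp * mp * p * pb * qb * qb +
        18182448 * lm * lm * mp * mp * p * pb * q * qb +
        3213312 * lm * lm * mp * mp * p * pb * q * q +
        3230336 * lm * lm * mp * mp * p * p * qb * qb +
        7700864 * lm * lm * mp * mp * p * p * q * qb +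
        620096 * lm * lm * mp * mp * p * p * q * q +
        2525732 * lm * lm * m0 * mm * pb * pb * q * q +
        4182762 * lm * lm * m0 * mm * p * pb * qb * qb +
        4355126 * lm * lm * m0 * mm * p * pb * q * qb +
        9862684 * lm * lm * m0 * mm * p * pb * q * q +
        1415224 * lm * lm * m0 * mm * p * p * q * qb +
        8579812 * lm * lm * m0 * mm * p * p * q * q +
        7431960 * lm * lm * m0 * mp * p * pb * qb * qb +
        5910924 * lm * lm * m0 * mp * p * pb * q * qb +
        2215644 * lm * lm * m0 * mp * p * pb * q * q +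
        5729140 * lm * lm * m0 * mp * p * p * qb * qb +
        7546568 * lm * lm * m0 * mp * p * p * q * qb +
        5554108 * lm * lm * m0 * mp * p * p * q * q +
        1970188 * lm * lm * m0 * m0 * p * pb * qb * qb +
        860760 * lm * lm * m0 * m0 * p * pb * q * q +
        2056986 * lm * lm * m0 * m0 * p * p * qb * qb +
        1757972 * lm * lm * m0 * m0 * p * p * q * qb +
        2531934 * lm * lm * m0 * m0 * p * p * q * q +
        11118100 * lp * lm * mm * mm * pb * pb * qb * qb +
        31312296 * lp * lm * mm * mm * pb * pb * q * qb +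
        17958932 * lp * lm * mm * mm * pb * pb * q * q +
        2255324 * lp * lm * mm * mm * p * pb * qb * qb +
        3766920 * lp * lm * mm * mm * p * pb * q * qb +
        1511596 * lp * lm * mm * mm * p * pb * q * q +
        2235264 * lp * lm * mm * mm * p * p * q * q +
        12940228 * lp * lm * mp * mm * pb * pb * qb * qb +
        25037268 * lp * lm * mp * mm * pb * pb * q * qb +
        1730432 * lp * lm * mp * mm * pb * pb * q * q +
        7871632 * lp * lm * mp * mm * p * pb * q * qb +
        2494976 * lp * lm * mp * mm * p * p * q * q +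
        1822128 * lp * lm * mp * mp * pb * pb * qb * qb +
        2463360 * lp * lm * mp * mp * pb * pb * q * qb +
        10586480 * lp * lm * mp * mp * p * pb * qb * qb +
        7247424 * lp * lm * mp * mp * p * pb * q * qb +
        4355264 * lp * lm * mp * mp * p * p * qb * qb +
        1124928 * lp * lm * mp * mp * p * p * q * qb +
        749952 * lp * lm * mp * mp * p * p * q * q +
        6721994 * lp * lm * m0 * mm * pb * pb * qb * qb +
        20128224 * lp * lm * m0 * mm * pb * pb * q * qb +
        17592114 * lp * lm * m0 * mm * pb * pb * q * q +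
        1819238 * lp * lm * m0 * mm * p * pb * q * qb +
        9736642 * lp * lm * m0 * mm * p * pb * q * q +
        5472 * lp * lm * m0 * mm * p * p * qb * qb + 3726048 * lp * lm * m0 * mm * p * p * q * q +
        6377092 * lp * lm * m0 * mp * pb * pb * q * qb +
        2106624 * lp * lm * m0 * mp * pb * pb * q * q +
        2083468 * lp * lm * m0 * mp * p * pb * q * qb +
        968324 * lp * lm * m0 * mp * p * pb * q * q +
        4982836 * lp * lm * m0 * mp * p * p * qb * qb +
        3775344 * lp * lm * m0 * mp * p * p * q * qb +
        1947832 * lp * lm * m0 * mp * p * p * q * q +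
        578352 * lp * lm * m0 * m0 * pb * pb * qb * qb +
        2550120 * lp * lm * m0 * m0 * pb * pb * q * qb +
        3770062 * lp * lm * m0 * m0 * pb * pb * q * q +
        3654934 * lp * lm * m0 * m0 * p * pb * q * q +
        928320 * lp * lm * m0 * m0 * p * p * qb * qb +
        375888 * lp * lm * m0 * m0 * p * p * q * qb +
        1304208 * lp * lm * m0 * m0 * p * p * q * q +
        8865344 * lp * lp * mm * mm * pb * pb * qb * qb +
        14103168 * lp * lp * mm * mm * pb * pb * q * qb +
        5237824 * lp * lp * mm * mm * pb * pb * q * q +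
        168768 * lp * lp * mm * mm * p * pb * qb * qb +
        168768 * lp * lp * mm * mm * p * pb * q * qb +
        23683776 * lp * lp * mp * mm * pb * pb * qb * qb +
        15867648 * lp * lp * mp * mm * pb * pb * q * qb +
        999936 * lp * lp * mp * mm * pb * pb * q * q +
        10051392 * lp * lp * mp * mm * p * pb * qb * qb +
        999936 * lp * lp * mp * mm * p * pb * q * q +
        2235264 * lp * lp * mp * mm * p * p * qb * qb +
        14818432 * lp * lp * mp * mp * pb * pb * qb * qb +
        2171392 * lp * lp * mp * mp * pb * pb * q * qb +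
        15835712 * lp * lp * mp * mp * p * pb * qb * qb +
        953408 * lp * lp * mp * mp * p * pb * q * qb +
        3360192 * lp * lp * mp * mp * p * p * qb * qb +
        1124928 * lp * lp * mp * mp * p * p * q * qb +
        15286708 * lp * lp * m0 * mm * pb * pb * qb * qb +
        25160664 * lp * lp * m0 * mm * pb * pb * q * qb +
        9958340 * lp * lp * m0 * mm * pb * pb * q * q +
        535536 * lp * lp * m0 * mm * p * pb * qb * qb +
        1103256 * lp * lp * m0 * mm * p * pb * q * qb +
        652104 * lp * lp * m0 * mm * p * pb * q * q +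
        18263252 * lp * lp * m0 * mp * pb * pb * qb * qb +
        12009304 * lp * lp * m0 * mp * pb * pb * q * qb +
        499968 * lp * lp * m0 * mp * pb * pb * q * q +
        11675620 * lp * lp * m0 * mp * p * pb * qb * qb +
        3384840 * lp * lp * m0 * mp * p * pb * q * qb +
        499968 * lp * lp * m0 * mp * p * pb * q * q +
        2968800 * lp * lp * m0 * mp * p * p * qb * qb +
        931968 * lp * lp * m0 * mp * p * p * q * qb +
        5427018 * lp * lp * m0 * m0 * pb * pb * qb * qb +
        8770680 * lp * lp * m0 * m0 * pb * pb * q * qb +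
        3669714 * lp * lp * m0 * m0 * pb * pb * q * q +
        326052 * lp * lp * m0 * m0 * p * pb * q * q +
        8054346 * l0 * lm * mm * mm * pb * pb * q * qb +
        8963498 * l0 * lm * mm * mm * pb * pb * q * q +
        4009632 * l0 * lm * mm * mm * p * pb * q * q +
        3100480 * l0 * lm * mm * mm * p * p * q * q +
        8992162 * l0 * lm * mp * mm * pb * pb * qb * qb +
        9730634 * l0 * lm * mp * mm * pb * pb * q * qb +
        950976 * l0 * lm * mp * mm * pb * pb * q * q +
        3422848 * l0 * lm * mp * mm * p * pb * qb * qb +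
        3210344 * l0 * lm * mp * mm * p * pb * q * qb +
        4826424 * l0 * lm * mp * mp * pb * pb * qb * qb +
        1294176 * l0 * lm * mp * mp * pb * pb * q * qb +
        4152344 * l0 * lm * mp * mp * p * pb * qb * qb +
        620096 * l0 * lm * mp * mp * p * p * qb * qb +
        4496081 * l0 * lm * m0 * mm * pb * pb * qb * qb +
        8177214 * l0 * lm * m0 * mm * pb * pb * q * qb +
        7538599 * l0 * lm * m0 * mm * pb * pb * q * q +
        2655212 * l0 * lm * m0 * mm * p * pb * qb * qb +
        6217516 * l0 * lm * m0 * mm * p * pb * q * q +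
        152444 * l0 * lm * m0 * mm * p * p * q * qb +
        5167706 * l0 * lm * m0 * mm * p * p * q * q +
        2983052 * l0 * lm * m0 * mp * pb * pb * qb * qb +
        5481406 * l0 * lm * m0 * mp * pb * pb * q * qb +
        1096192 * l0 * lm * m0 * mp * pb * pb * q * q +
        4838000 * l0 * lm * m0 * mp * p * pb * qb * qb +
        3360272 * l0 * lm * m0 * mp * p * pb * q * qb +
        2879890 * l0 * lm * m0 * mp * p * p * qb * qb +
        801862 * l0 * lm * m0 * m0 * pb * pb * qb * qb +
        2405866 * l0 * lm * m0 * m0 * pb * pb * q * qb +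
        1906471 * l0 * lm * m0 * m0 * pb * pb * q * q +
        2414798 * l0 * lm * m0 * m0 * p * pb * qb * qb +
        2121771 * l0 * lm * m0 * m0 * p * pb * q * qb +
        1931386 * l0 * lm * m0 * m0 * p * pb * q * q +
        1329969 * l0 * lm * m0 * m0 * p * p * qb * qb +
        974098 * l0 * lm * m0 * m0 * p * p * q * qb +
        1566075 * l0 * lm * m0 * m0 * p * p * q * q +
        1883552 * l0 * lp * mm * mm * pb * pb * qb * qb +
        7307488 * l0 * lp * mm * mm * pb * pb * q * qb +
        4306304 * l0 * lp * mm * mm * pb * pb * q * q +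
        2235264 * l0 * lp * mp * mm * pb * pb * q * qb +
        3931328 * l0 * lp * mp * mp * pb * pb * qb * qb +
        648224 * l0 * lp * mp * mp * pb * pb * q * qb +
        4400736 * l0 * lp * mp * mp * p * pb * qb * qb +
        3159360 * l0 * lp * m0 * mm * pb * pb * qb * qb +
        7962666 * l0 * lp * m0 * mm * pb * pb * q * qb +
        5883644 * l0 * lp * m0 * mm * pb * pb * q * q +
        2946098 * l0 * lp * m0 * mm * p * pb * q * q +
        369504 * l0 * lp * m0 * mm * p * p * q * qb +
        7369868 * l0 * lp * m0 * mp * pb * pb * qb * qb +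
        2434602 * l0 * lp * m0 * mp * pb * pb * q * qb +
        7772570 * l0 * lp * m0 * mp * p * pb * qb * qb +
        602040 * l0 * lp * m0 * mp * p * p * qb * qb +
        3168256 * l0 * lp * m0 * m0 * pb * pb * qb * qb +
        3339372 * l0 * lp * m0 * m0 * pb * pb * q * qb +
        1865246 * l0 * lp * m0 * m0 * pb * pb * q * q +
        2024459 * l0 * lp * m0 * m0 * p * pb * qb * qb +
        503730 * l0 * lp * m0 * m0 * p * pb * q * qb +
        1473049 * l0 * lp * m0 * m0 * p * pb * q * q +
        182016 * l0 * lp * m0 * m0 * p * p * qb * qb +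
        1114672 * l0 * l0 * mm * mm * pb * pb * q * qb +
        1278208 * l0 * l0 * mm * mm * pb * pb * q * q +
        253632 * l0 * l0 * mm * mm * p * pb * q * q +
        180192 * l0 * l0 * mp * mm * p * pb * qb * qb +
        437472 * l0 * l0 * mp * mp * pb * pb * qb * qb +
        31248 * l0 * l0 * mp * mp * pb * pb * q * qb +
        496320 * l0 * l0 * mp * mp * p * pb * qb * qb +
        477232 * l0 * l0 * m0 * mm * pb * pb * q * qb +
        1247134 * l0 * l0 * m0 * mm * pb * pb * q * q +
        1111410 * l0 * l0 * m0 * mm * p * pb * q * q +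
        161316 * l0 * l0 * m0 * mm * p * p * q * q +
        1145690 * l0 * l0 * m0 * mp * pb * pb * qb * qb +
        1397102 * l0 * l0 * m0 * mp * p * pb * qb * qb +
        71220 * l0 * l0 * m0 * mp * p * p * qb * qb +
        463477 * l0 * l0 * m0 * m0 * pb * pb * qb * qb +
        300280 * l0 * l0 * m0 * m0 * pb * pb * q * qb +
        304015 * l0 * l0 * m0 * m0 * pb * pb * q * q +
        574471 * l0 * l0 * m0 * m0 * p * pb * qb * qb +
        348144 * l0 * l0 * m0 * m0 * p * pb * q * qb +
        492297 * l0 * l0 * m0 * m0 * p * pb * q * q +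
        80658 * l0 * l0 * m0 * m0 * p * p * qb * qb + 80658 * l0 * l0 * m0 * m0 * p * p * q * q := by positivity
  have key :
      (794736 * lm * mm * p * q + 794736 * lm * mp * p * qb + 155024 * lm * mp * p * q +
         397368 * lm * m0 * p * qb + 1265967 * lm * m0 * p * q + 109712 * lp * mm * pb * qb +
         457776 * lp * mm * pb * q + 558816 * lp * mm * p * q + 3118880 * lp * mp * pb * qb +
         542848 * lp * mp * pb * q + 578432 * lp * mp * p * qb + 542848 * lp * mp * p * q +
         1093286 * lp * m0 * pb * qb + 1154299 * lp * m0 * pb * q + 278040 * lp * m0 * p * qb +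
         697152 * lp * m0 * p * q + 11632 * l0 * mm * pb * q + 54856 * l0 * mm * p * q +
         580600 * l0 * mp * pb * qb + 146432 * l0 * mp * pb * q + 9808 * l0 * mp * p * qb +
         167872 * l0 * mp * p * q + 290300 * l0 * m0 * pb * qb + 288329 * l0 * m0 * pb * q +
         27428 * l0 * m0 * p * qb + 150054 * l0 * m0 * p * q) *
        (2*(pb*sb*B2) - 2*(pb*tb*B1) + 2*(qb*sb*A2) + 2*(qb*tb*A1) - D) +
      (2204213 * lm * mm * pb * q + 1037004 * lm * mp * pb * qb + 971200 * lm * mp * pb * q +
         1560 * lm * m0 * pb * qb + 207467 * lm * m0 * pb * q + 45048 * lm * m0 * p * q +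
         558816 * lp * mm * pb * q + 534126 * lp * m0 * pb * q + 514112 * l0 * mm * pb * q +
         124992 * l0 * mp * pb * q + 45048 * l0 * mp * p * qb + 187488 * l0 * mp * p * q +
         241519 * l0 * m0 * pb * q + 208872 * l0 * m0 * p * q) *
        (2*(p*s*B2) + 2*(p*tb*B1) - 2*(qb*s*A2) + 2*(qb*tb*A1) - D) +
      (121193 * lm * mm * pb * qb + 2537408 * lm * mp * pb * qb + 187488 * lm * mp * pb * q +
         775120 * lm * mp * p * qb + 1382462 * lm * m0 * pb * qb + 911998 * lm * m0 * pb * q +
         516624 * lp * mm * pb * qb + 585728 * lp * mp * pb * qb + 371100 * lp * m0 * pb * qb +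
         57819 * l0 * m0 * pb * qb + 684 * l0 * m0 * p * qb) *
        (2*(p*s*B2) + 2*(p*tb*B1) + 2*(q*s*A2) - 2*(q*tb*A1) - D) +
      (2768044 * lm * mm * pb * qb + 976064 * lm * mm * pb * q + 794736 * lm * mm * p * qb +
         477920 * lm * mm * p * q + 32464 * lm * mp * p * qb + 355360 * lm * mp * p * q +
         1028493 * lm * m0 * p * qb + 481618 * lm * m0 * p * q + 1590000 * lp * mm * pb * qb +
         292864 * lp * mm * pb * q + 558816 * lp * mm * p * qb + 261616 * lp * mp * p * qb +
         1249123 * lp * m0 * pb * qb + 146432 * lp * m0 * pb * q + 464160 * lp * m0 * p * qb +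
         580600 * l0 * mm * pb * qb + 124992 * l0 * mm * pb * q + 54856 * l0 * mm * p * qb +
         83936 * l0 * mm * p * q + 109368 * l0 * mp * pb * qb + 93744 * l0 * mp * p * qb +
         347979 * l0 * m0 * pb * qb + 62496 * l0 * m0 * pb * q + 150054 * l0 * m0 * p * qb +
         41968 * l0 * m0 * p * q) *
        (-2*(pb*s*B2) + 2*(pb*t*B1) + 2*(q*s*A2) + 2*(q*t*A1) - D) +
      (1117632 * l0 * lp * p * p + 187488 * l0 * l0 * p * pb + 277584 * l0 * l0 * p * p) *
        (q * tb - qb * t) ^ 2 =
      -(11556948 * lm * lm * mm * mm * pb * pb * q * qb +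
         12721108 * lm * lm * mm * mm * pb * pb * q * q +
         2740096 * lm * lm * mm * mm * p * pb * q * qb +
         8994880 * lm * lm * mm * mm * p * pb * q * q +
         5090624 * lm * lm * mm * mm * p * p * q * q +
         3225472 * lm * lm * mp * mm * pb * pb * q * qb +
         730496 * lm * lm * mp * mm * pb * pb * q * q +
         4229988 * lm * lm * mp * mm * p * pb * qb * qb +
         18902008 * lm * lm * mp * mm * p * pb * q * qb +
         9696660 * lm * lm * mp * mm * p * pb * q * q +
         7700864 * lm * lm * mp * mm * p * p * q * qb +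
         5220480 * lm * lm * mp * mm * p * p * q * q +
         11118704 * lm * lm * mp * mp * p * pb * qb * qb +
         18182448 * lm * lm * mp * mp * p * pb * q * qb +
         3213312 * lm * lm * mp * mp * p * pb * q * q +
         3230336 * lm * lm * mp * mp * p * p * qb * qb +
         7700864 * lm * lm * mp * mp * p * p * q * qb +
         620096 * lm * lm * mp * mp * p * p * q * q +
         2525732 * lm * lm * m0 * mm * pb * pb * q * q +
         4182762 * lm * lm * m0 * mm * p * pb * qb * qb +
         4355126 * lm * lm * m0 * mm * p * pb * q * qb +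
         9862684 * lm * lm * m0 * mm * p * pb * q * q +
         1415224 * lm * lm * m0 * mm * p * p * q * qb +
         8579812 * lm * lm * m0 * mm * p * p * q * q +
         7431960 * lm * lm * m0 * mp * p * pb * qb * qb +
         5910924 * lm * lm * m0 * mp * p * pb * q * qb +
         2215644 * lm * lm * m0 * mp * p * pb * q * q +
         5729140 * lm * lm * m0 * mp * p * p * qb * qb +
         7546568 * lm * lm * m0 * mp * p * p * q * qb +
         5554108 * lm * lm * m0 * mp * p * p * q * q +
         1970188 * lm * lm * m0 * m0 * p * pb * qb * qb +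
         860760 * lm * lm * m0 * m0 * p * pb * q * q +
         2056986 * lm * lm * m0 * m0 * p * p * qb * qb +
         1757972 * lm * lm * m0 * m0 * p * p * q * qb +
         2531934 * lm * lm * m0 * m0 * p * p * q * q +
         11118100 * lp * lm * mm * mm * pb * pb * qb * qb +
         31312296 * lp * lm * mm * mm * pb * pb * q * qb +
         17958932 * lp * lm * mm * mm * pb * pb * q * q +
         2255324 * lp * lm * mm * mm * p * pb * qb * qb +
         3766920 * lp * lm * mm * mm * p * pb * q * qb +
         1511596 * lp * lm * mm * mm * p * pb * q * q +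
         2235264 * lp * lm * mm * mm * p * p * q * q +
         12940228 * lp * lm * mp * mm * pb * pb * qb * qb +
         25037268 * lp * lm * mp * mm * pb * pb * q * qb +
         1730432 * lp * lm * mp * mm * pb * pb * q * q +
         7871632 * lp * lm * mp * mm * p * pb * q * qb +
         2494976 * lp * lm * mp * mm * p * p * q * q +
         1822128 * lp * lm * mp * mp * pb * pb * qb * qb +
         2463360 * lp * lm * mp * mp * pb * pb * q * qb +
         10586480 * lp * lm * mp * mp * p * pb * qb * qb +
         7247424 * lp * lm * mp * mp * p * pb * q * qb +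
         4355264 * lp * lm * mp * mp * p * p * qb * qb +
         1124928 * lp * lm * mp * mp * p * p * q * qb +
         749952 * lp * lm * mp * mp * p * p * q * q +
         6721994 * lp * lm * m0 * mm * pb * pb * qb * qb +
         20128224 * lp * lm * m0 * mm * pb * pb * q * qb +
         17592114 * lp * lm * m0 * mm * pb * pb * q * q +
         1819238 * lp * lm * m0 * mm * p * pb * q * qb +
         9736642 * lp * lm * m0 * mm * p * pb * q * q +
         5472 * lp * lm * m0 * mm * p * p * qb * qb +
         3726048 * lp * lm * m0 * mm * p * p * q * q +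
         6377092 * lp * lm * m0 * mp * pb * pb * q * qb +
         2106624 * lp * lm * m0 * mp * pb * pb * q * q +
         2083468 * lp * lm * m0 * mp * p * pb * q * qb +
         968324 * lp * lm * m0 * mp * p * pb * q * q +
         4982836 * lp * lm * m0 * mp * p * p * qb * qb +
         3775344 * lp * lm * m0 * mp * p * p * q * qb +
         1947832 * lp * lm * m0 * mp * p * p * q * q +
         578352 * lp * lm * m0 * m0 * pb * pb * qb * qb +
         2550120 * lp * lm * m0 * m0 * pb * pb * q * qb +
         3770062 * lp * lm * m0 * m0 * pb * pb * q * q +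
         3654934 * lp * lm * m0 * m0 * p * pb * q * q +
         928320 * lp * lm * m0 * m0 * p * p * qb * qb +
         375888 * lp * lm * m0 * m0 * p * p * q * qb +
         1304208 * lp * lm * m0 * m0 * p * p * q * q +
         8865344 * lp * lp * mm * mm * pb * pb * qb * qb +
         14103168 * lp * lp * mm * mm * pb * pb * q * qb +
         5237824 * lp * lp * mm * mm * pb * pb * q * q +
         168768 * lp * lp * mm * mm * p * pb * qb * qb +
         168768 * lp * lp * mm * mm * p * pb * q * qb +
         23683776 * lp * lp * mp * mm * pb * pb * qb * qb +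
         15867648 * lp * lp * mp * mm * pb * pb * q * qb +
         999936 * lp * lp * mp * mm * pb * pb * q * q +
         10051392 * lp * lp * mp * mm * p * pb * qb * qb +
         999936 * lp * lp * mp * mm * p * pb * q * q +
         2235264 * lp * lp * mp * mm * p * p * qb * qb +
         14818432 * lp * lp * mp * mp * pb * pb * qb * qb +
         2171392 * lp * lp * mp * mp * pb * pb * q * qb +
         15835712 * lp * lp * mp * mp * p * pb * qb * qb +
         953408 * lp * lp * mp * mp * p * pb * q * qb +
         3360192 * lp * lp * mp * mp * p * p * qb * qb +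
         1124928 * lp * lp * mp * mp * p * p * q * qb +
         15286708 * lp * lp * m0 * mm * pb * pb * qb * qb +
         25160664 * lp * lp * m0 * mm * pb * pb * q * qb +
         9958340 * lp * lp * m0 * mm * pb * pb * q * q +
         535536 * lp * lp * m0 * mm * p * pb * qb * qb +
         1103256 * lp * lp * m0 * mm * p * pb * q * qb +
         652104 * lp * lp * m0 * mm * p * pb * q * q +
         18263252 * lp * lp * m0 * mp * pb * pb * qb * qb +
         12009304 * lp * lp * m0 * mp * pb * pb * q * qb +
         499968 * lp * lp * m0 * mp * pb * pb * q * q +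
         11675620 * lp * lp * m0 * mp * p * pb * qb * qb +
         3384840 * lp * lp * m0 * mp * p * pb * q * qb +
         499968 * lp * lp * m0 * mp * p * pb * q * q +
         2968800 * lp * lp * m0 * mp * p * p * qb * qb +
         931968 * lp * lp * m0 * mp * p * p * q * qb +
         5427018 * lp * lp * m0 * m0 * pb * pb * qb * qb +
         8770680 * lp * lp * m0 * m0 * pb * pb * q * qb +
         3669714 * lp * lp * m0 * m0 * pb * pb * q * q +
         326052 * lp * lp * m0 * m0 * p * pb * q * q +
         8054346 * l0 * lm * mm * mm * pb * pb * q * qb +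
         8963498 * l0 * lm * mm * mm * pb * pb * q * q +
         4009632 * l0 * lm * mm * mm * p * pb * q * q +
         3100480 * l0 * lm * mm * mm * p * p * q * q +
         8992162 * l0 * lm * mp * mm * pb * pb * qb * qb +
         9730634 * l0 * lm * mp * mm * pb * pb * q * qb +
         950976 * l0 * lm * mp * mm * pb * pb * q * q +
         3422848 * l0 * lm * mp * mm * p * pb * qb * qb +
         3210344 * l0 * lm * mp * mm * p * pb * q * qb +
         4826424 * l0 * lm * mp * mp * pb * pb * qb * qb +
         1294176 * l0 * lm * mp * mp * pb * pb * q * qb +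
         4152344 * l0 * lm * mp * mp * p * pb * qb * qb +
         620096 * l0 * lm * mp * mp * p * p * qb * qb +
         4496081 * l0 * lm * m0 * mm * pb * pb * qb * qb +
         8177214 * l0 * lm * m0 * mm * pb * pb * q * qb +
         7538599 * l0 * lm * m0 * mm * pb * pb * q * q +
         2655212 * l0 * lm * m0 * mm * p * pb * qb * qb +
         6217516 * l0 * lm * m0 * mm * p * pb * q * q +
         152444 * l0 * lm * m0 * mm * p * p * q * qb +
         5167706 * l0 * lm * m0 * mm * p * p * q * q +
         2983052 * l0 * lm * m0 * mp * pb * pb * qb * qb +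
         5481406 * l0 * lm * m0 * mp * pb * pb * q * qb +
         1096192 * l0 * lm * m0 * mp * pb * pb * q * q +
         4838000 * l0 * lm * m0 * mp * p * pb * qb * qb +
         3360272 * l0 * lm * m0 * mp * p * pb * q * qb +
         2879890 * l0 * lm * m0 * mp * p * p * qb * qb +
         801862 * l0 * lm * m0 * m0 * pb * pb * qb * qb +
         2405866 * l0 * lm * m0 * m0 * pb * pb * q * qb +
         1906471 * l0 * lm * m0 * m0 * pb * pb * q * q +
         2414798 * l0 * lm * m0 * m0 * p * pb * qb * qb +
         2121771 * l0 * lm * m0 * m0 * p * pb * q * qb +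
         1931386 * l0 * lm * m0 * m0 * p * pb * q * q +
         1329969 * l0 * lm * m0 * m0 * p * p * qb * qb +
         974098 * l0 * lm * m0 * m0 * p * p * q * qb +
         1566075 * l0 * lm * m0 * m0 * p * p * q * q +
         1883552 * l0 * lp * mm * mm * pb * pb * qb * qb +
         7307488 * l0 * lp * mm * mm * pb * pb * q * qb +
         4306304 * l0 * lp * mm * mm * pb * pb * q * q +
         2235264 * l0 * lp * mp * mm * pb * pb * q * qb +
         3931328 * l0 * lp * mp * mp * pb * pb * qb * qb +
         648224 * l0 * lp * mp * mp * pb * pb * q * qb +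
         4400736 * l0 * lp * mp * mp * p * pb * qb * qb +
         3159360 * l0 * lp * m0 * mm * pb * pb * qb * qb +
         7962666 * l0 * lp * m0 * mm * pb * pb * q * qb +
         5883644 * l0 * lp * m0 * mm * pb * pb * q * q +
         2946098 * l0 * lp * m0 * mm * p * pb * q * q +
         369504 * l0 * lp * m0 * mm * p * p * q * qb +
         7369868 * l0 * lp * m0 * mp * pb * pb * qb * qb +
         2434602 * l0 * lp * m0 * mp * pb * pb * q * qb +
         7772570 * l0 * lp * m0 * mp * p * pb * qb * qb +
         602040 * l0 * lp * m0 * mp * p * p * qb * qb +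
         3168256 * l0 * lp * m0 * m0 * pb * pb * qb * qb +
         3339372 * l0 * lp * m0 * m0 * pb * pb * q * qb +
         1865246 * l0 * lp * m0 * m0 * pb * pb * q * q +
         2024459 * l0 * lp * m0 * m0 * p * pb * qb * qb +
         503730 * l0 * lp * m0 * m0 * p * pb * q * qb +
         1473049 * l0 * lp * m0 * m0 * p * pb * q * q +
         182016 * l0 * lp * m0 * m0 * p * p * qb * qb +
         1114672 * l0 * l0 * mm * mm * pb * pb * q * qb +
         1278208 * l0 * l0 * mm * mm * pb * pb * q * q +
         253632 * l0 * l0 * mm * mm * p * pb * q * q +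
         180192 * l0 * l0 * mp * mm * p * pb * qb * qb +
         437472 * l0 * l0 * mp * mp * pb * pb * qb * qb +
         31248 * l0 * l0 * mp * mp * pb * pb * q * qb +
         496320 * l0 * l0 * mp * mp * p * pb * qb * qb +
         477232 * l0 * l0 * m0 * mm * pb * pb * q * qb +
         1247134 * l0 * l0 * m0 * mm * pb * pb * q * q +
         1111410 * l0 * l0 * m0 * mm * p * pb * q * q +
         161316 * l0 * l0 * m0 * mm * p * p * q * q +
         1145690 * l0 * l0 * m0 * mp * pb * pb * qb * qb +
         1397102 * l0 * l0 * m0 * mp * p * pb * qb * qb +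
         71220 * l0 * l0 * m0 * mp * p * p * qb * qb +
         463477 * l0 * l0 * m0 * m0 * pb * pb * qb * qb +
         300280 * l0 * l0 * m0 * m0 * pb * pb * q * qb +
         304015 * l0 * l0 * m0 * m0 * pb * pb * q * q +
         574471 * l0 * l0 * m0 * m0 * p * pb * qb * qb +
         348144 * l0 * l0 * m0 * m0 * p * pb * q * qb +
         492297 * l0 * l0 * m0 * m0 * p * pb * q * q +
         80658 * l0 * l0 * m0 * m0 * p * p * qb * qb + 80658 * l0 * l0 * m0 * m0 * p * p * q * q) := by
    subst hs hsb ht htb hA1 hB1 hA2 hB2 hD
    ring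
  have z0 := mul_pos w0 h0
  have z1 := mul_pos w1 h1
  have z2 := mul_pos w2 h2
  have z3 := mul_pos w3 h3
  have y2 := mul_nonneg q2 (sq_nonneg (q * tb - qb * t))
  linarith

end H66OD
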