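import Pool.Agent.H66.OD.CER1
import Pool.Agent.H66.OD.CER2
import Pool.Agent.H66.OD.CER3

/-!
# CER: the certificate AAAA of the P-type
-/

namespace H66OD

theorem cert_AAAA (l0 lp lm m0 mp mm p pb q qb s sb t tb A1 B1 A2 B2 D : ℝ)
    (hl0 : 0 < l0) (hlp : 0 ≤ lp) (hlm : 0 ≤ lm) (hm0 : 0 < m0) (hmp : 0 ≤ mp) (hmm : 0 ≤ mm)
    (hp : 0 < p) (hpb : 0 < pb) (hq : 0 < q) (hqb : 0 < qb)
    (hs : s = l0 / 2 + lp) (hsb : sb = l0 / 2 + lm) (ht : t = m0 / 2 + mp)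
    (htb : tb = m0 / 2 + mm) (hA1 : A1 = 2 * (p * sb + pb * s))
    (hB1 : B1 = 2 * (lp * qb + lm * q)) (hA2 : A2 = 2 * (mp * p + mm * pb))
    (hB2 : B2 = 2 * (q * tb + qb * t)) (hD : D = A1 * B2 + A2 * B1)
    (h0 : 0 < 2*(pb*sb*B2) - 2*(pb*tb*B1) + 2*(qb*sb*A2) + 2*(qb*tb*A1) - D)
    (h1 : 0 < 2*(p*s*B2) + 2*(p*tb*B1) - 2*(qb*s*A2) + 2*(qb*tb*A1) - D)
    (h2 : 0 < 2*(p*s*B2) - 2*(p*t*B1) + 2*(q*s*A2) + 2*(q*t*A1) - D)
    (h3 : 0 < 2*(pb*sb*B2) + 2*(pb*t*B1) - 2*(q*sb*A2) + 2*(q*t*A1) - D)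
    : False := by
  have s0 : 0 < s := by rw [hs]; positivity
  have sb0 : 0 < sb := by rw [hsb]; positivity
  have t0 : 0 < t := by rw [ht]; positivity
  have tb0 : 0 < tb := by rw [htb]; positivity
  have a1 : 0 ≤ A1 := by rw [hA1]; positivity
  have b1 : 0 ≤ B1 := by rw [hB1]; positivity
  have a2 : 0 ≤ A2 := by rw [hA2]; positivity
  have b2 : 0 ≤ B2 := by rw [hB2]; positivity
  have w0 : 0 < p * q * (s + sb) * (t + tb) + s * t * (p + pb) * (q + qb) := by positivity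
  have w1 : 0 < pb * q * (s + sb) * (t + tb) + sb * t * (p + pb) * (q + qb) := by positivity
  have w2 : 0 < pb * qb * (s + sb) * (t + tb) + sb * tb * (p + pb) * (q + qb) := by positivity
  have w3 : 0 < p * qb * (s + sb) * (t + tb) + s * tb * (p + pb) * (q + qb) := by positivity
  have r : 0 ≤ 2 * B2 * (t + tb) * (q + qb) * (p * sb - pb * s) ^ 2 +
      2 * A1 * (s + sb) * (p + pb) * (q * tb - qb * t) ^ 2 +
      2 * (s + sb) * (t + tb) * (p + pb) * (q + qb) * (A2 * B1) := by positivity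
  have key : (p * q * (s + sb) * (t + tb) + s * t * (p + pb) * (q + qb)) *
        (2*(pb*sb*B2) - 2*(pb*tb*B1) + 2*(qb*sb*A2) + 2*(qb*tb*A1) - D) +
      (pb * q * (s + sb) * (t + tb) + sb * t * (p + pb) * (q + qb)) *
        (2*(p*s*B2) + 2*(p*tb*B1) - 2*(qb*s*A2) + 2*(qb*tb*A1) - D) +
      (pb * qb * (s + sb) * (t + tb) + sb * tb * (p + pb) * (q + qb)) *
        (2*(p*s*B2) - 2*(p*t*B1) + 2*(q*s*A2) + 2*(q*t*A1) - D) +
      (p * qb * (s + sb) * (t + tb) + s * tb * (p + pb) * (q + qb)) *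
        (2*(pb*sb*B2) + 2*(pb*t*B1) - 2*(q*sb*A2) + 2*(q*t*A1) - D) =
      -(2 * B2 * (t + tb) * (q + qb) * (p * sb - pb * s) ^ 2 +
      2 * A1 * (s + sb) * (p + pb) * (q * tb - qb * t) ^ 2 +
      2 * (s + sb) * (t + tb) * (p + pb) * (q + qb) * (A2 * B1)) := by
    clear h0 h1 h2 h3 hs hsb ht htb hB1 hA2 a1 b1 a2 b2 w0 w1 w2 w3 r
    subst hA1 hB2 hD
    ring
  have z0 := mul_pos w0 h0
  have z1 := mul_pos w1 h1
  have z2 := mul_pos w2 h2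
  have z3 := mul_pos w3 h3
  linarith

end H66OD
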