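import Mathlib

/-!
# Smooth lattice polytopes and the integer decomposition property (definitions)

Definitions for MP_a35d42_co (Oda: is every smooth lattice polytope IDP?).
-/

namespace H66OD

/-- The real vector with the integer coordinates `z`. -/
def toR {d : ℕ} (z : Fin d → ℤ) : Fin d → ℝ := fun i => (z i : ℝ)

/-- A lattice polytope: the convex hull of finitely many integer points. -/
def IsLatticePolytope {d : ℕ} (P : Set (Fin d → ℝ)) : Prop :=
  ∃ S : Finset (Fin d → ℤ), P = convexHull ℝ (toR '' (S : Set (Fin d → ℤ)))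

/-- An edge of the polytope `P`: a face of `P` (a convex extreme subset) of dimension one. -/
def IsEdge {d : ℕ} (P F : Set (Fin d → ℝ)) : Prop :=
  Convex ℝ F ∧ IsExtreme ℝ P F ∧ Module.finrank ℝ (vectorSpan ℝ F) = 1

/-- A primitive integer vector: nonzero, and not an integer multiple `m • f` of another integer
vector unless `m = 1` or `m = -1`. -/
def IsPrimitive {d : ℕ} (e : Fin d → ℤ) : Prop :=
  e ≠ 0 ∧ ∀ (m : ℤ) (f : Fin d → ℤ), e = m • f → m = 1 ∨ m = -1

/-- The primitive integer vectors pointing from `v` along the edges of `P` through `v`. -/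
def edgeVectors {d : ℕ} (P : Set (Fin d → ℝ)) (v : Fin d → ℝ) : Set (Fin d → ℤ) :=
  {e | IsPrimitive e ∧ ∃ F : Set (Fin d → ℝ), IsEdge P F ∧ v ∈ F ∧
    ∃ t : ℝ, 0 < t ∧ v + t • toR e ∈ F}

/-- A smooth lattice polytope of full dimension `d`: at every vertex `v` (extreme point) the
primitive integer vectors pointing from `v` along the edges through `v` are exactly the `d` elements
of a basis of `ℤ^d`. -/
def IsSmooth {d : ℕ} (P : Set (Fin d → ℝ)) : Prop :=
  IsLatticePolytope P ∧ (interior P).Nonempty ∧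
    ∀ v ∈ P.extremePoints ℝ, ∃ b : Module.Basis (Fin d) ℤ (Fin d → ℤ),
      Set.range b = edgeVectors P v

/-- The integer decomposition property: for every `k ≥ 1`, every integer point of `k P` is a sum of
`k` integer points of `P`. -/
def HasIDP {d : ℕ} (P : Set (Fin d → ℝ)) : Prop :=
  ∀ k : ℕ, 1 ≤ k → ∀ x : Fin d → ℤ, (∃ y ∈ P, toR x = (k : ℝ) • y) →
    ∃ f : Fin k → (Fin d → ℤ), (∀ i, toR (f i) ∈ P) ∧ x = ∑ i, f i

/-! ### Basic facts on `toR` -/

section api
variable {d : ℕ}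

@[simp] theorem toR_apply (z : Fin d → ℤ) (i : Fin d) : toR z i = (z i : ℝ) := rfl

@[simp] theorem toR_zero : toR (0 : Fin d → ℤ) = 0 := by ext i; simp [toR]

theorem toR_add (a b : Fin d → ℤ) : toR (a + b) = toR a + toR b := by ext i; simp [toR]

theorem toR_sub (a b : Fin d → ℤ) : toR (a - b) = toR a - toR b := by ext i; simp [toR]

theorem toR_neg (a : Fin d → ℤ) : toR (-a) = -toR a := by ext i; simp [toR]

theorem toR_zsmul (m : ℤ) (a : Fin d → ℤ) : toR (m • a) = (m : ℝ) • toR a := by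
  ext i; simp [toR]

theorem toR_nsmul (m : ℕ) (a : Fin d → ℤ) : toR (m • a) = (m : ℝ) • toR a := by
  ext i; simp [toR]

theorem toR_sum {ι : Type*} (s : Finset ι) (f : ι → Fin d → ℤ) :
    toR (∑ i ∈ s, f i) = ∑ i ∈ s, toR (f i) := by
  ext i; simp [toR, Finset.sum_apply]

theorem toR_injective : Function.Injective (toR : (Fin d → ℤ) → Fin d → ℝ) := by
  intro a b h; ext i; have := congrFun h i; simpa [toR] using this

theorem toR_inj {a b : Fin d → ℤ} : toR a = toR b ↔ a = b := toR_injective.eq_iff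

open Matrix in
theorem toR_dot (a b : Fin d → ℤ) : toR a ⬝ᵥ toR b = ((a ⬝ᵥ b : ℤ) : ℝ) := by
  simp [dotProduct, toR]

end api

open Matrix in
/-- Combinatorial data of a smooth lattice polytope in dimension three: a finite set `Vt` of
integer points with hull `P`, and at each `v ∈ Vt` a basis `e v` of `ℤ³` with dual basis `u v`,
such that `v + e v i ∈ P` and `P` lies in `v + cone (e v)`. -/
structure SmoothData (P : Set (Fin 3 → ℝ)) where
  Vt : Finset (Fin 3 → ℤ)
  ne : Vt.Nonempty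
  hull : P = convexHull ℝ (toR '' (Vt : Set (Fin 3 → ℤ)))
  e : (Fin 3 → ℤ) → Fin 3 → (Fin 3 → ℤ)
  u : (Fin 3 → ℤ) → Fin 3 → (Fin 3 → ℤ)
  dual : ∀ v ∈ Vt, ∀ i j, u v i ⬝ᵥ e v j = if i = j then 1 else 0
  span : ∀ v ∈ Vt, ∀ x : Fin 3 → ℝ, x = ∑ i, (toR (u v i) ⬝ᵥ x) • toR (e v i)
  mem : ∀ v ∈ Vt, ∀ i, toR (v + e v i) ∈ P
  cone : ∀ v ∈ Vt, ∀ i, ∀ x ∈ P, 0 ≤ toR (u v i) ⬝ᵥ (x - toR v)

open Matrix in
/-- Configuration of the three-dimensional covering lemma: a nontrivial half-integral coset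
`c + ℤ³`, linear functionals `a i`, points `w i` of the coset with `a i (w i) = 1`,
`|a j (w i)| < 1` for `j ≠ i`, such that every point of the coset has `|a i| ≥ 1` for some `i`. -/
structure Cfg (n : ℕ) where
  c : Fin 3 → ℝ
  g : Fin 3 → ℤ
  hg : toR g = (2 : ℝ) • c
  hc : ∀ z : Fin 3 → ℤ, toR z ≠ c
  a : Fin n → (Fin 3 → ℝ)
  w : Fin n → (Fin 3 → ℝ)
  hw : ∀ i, ∃ z : Fin 3 → ℤ, w i = c + toR z
  h1 : ∀ i, a i ⬝ᵥ w i = 1
  h2 : ∀ i j, i ≠ j → |a j ⬝ᵥ w i| < 1
  hcov : ∀ z : Fin 3 → ℤ, ∃ i, 1 ≤ |a i ⬝ᵥ (c + toR z)|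

/-- Some nonzero integer vector is a combination of the `a i` with coefficients of absolute sum at
most `3/2`. -/
def Short (n : ℕ) (a : Fin n → (Fin 3 → ℝ)) : Prop :=
  ∃ u : Fin 3 → ℤ, u ≠ 0 ∧ ∃ t : Fin n → ℝ, toR u = ∑ i, t i • a i ∧ ∑ i, |t i| ≤ 3 / 2

end H66OD
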