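import Pool.Agent.H66.OD.Defs

/-!
# Row EDG1 (about 200 lines): a lattice polytope lies in the cone of its edge vectors at a vertex

PROOF. Let `W = {s - v : s ∈ S, s ≠ v}`, a finite set of nonzero integer vectors. (`v ∈ S` because extreme
points of a convex hull belong to the set: `extremePoints_convexHull_subset`, `toR` injective.) Every
`x ∈ P` is `toR v + Σ_{w ∈ W} c w • toR w` with `c ≥ 0` (convex combination of `S`, `Σ = 1`).
(a) No nontrivial nonnegative relation: if `Σ_{w ∈ W} c w • toR w = 0`, `c ≥ 0`, not all zero, then with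
`C = Σ c w > 0`, `toR v = Σ (c w / C) • toR (v + w)` is a convex combination of points of `S \ {v}`, so
`toR v ∈ convexHull (toR '' (S \ {v}))`; being an extreme point of the larger set `P` it is an extreme point of
this smaller convex set (`inter_extremePoints_subset_extremePoints_of_subset`), hence (again
`extremePoints_convexHull_subset`) in `toR '' (S \ {v})`: contradiction with injectivity.
(b) Let `W' ⊆ W` be of minimal cardinality with: every `x ∈ P` is `toR v + Σ_{w ∈ W'} c w • toR w`, `c ≥ 0`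
(`W` is such a set). Let `w ∈ W'` and `F = {x ∈ P | ∃ r ≥ 0, x = toR v + r • toR w}`.
 `F` is convex, contains `toR v` and `toR (v + w)`, and `vectorSpan ℝ F = ℝ (toR w)` has dimension one
 (`toR w ≠ 0`; `vectorSpan` is spanned by differences, all multiples of `toR w`;
 `finrank_span_singleton`).
 `F` is extreme in `P`: let `x, y ∈ P`, `z ∈ F` in the open segment, `z = α x + β y`, `α, β > 0`, `α+β = 1`.
 `x - v = Σ_{W'} c`, `y - v = Σ_{W'} c'`, `z - v = r toR w`; `r toR w = Σ_{W'} (α c + β c') w'`. Suppose some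
 `w1 ∈ W'`, `w1 ≠ w` has `c w1 > 0`. Then `γ = α c + β c' ≥ 0` has `γ w1 > 0` and
 `(r - γ w) toR w = Σ_{w' ≠ w} γ w' toR w'`. If `r - γ w > 0` then `toR w` is a nonnegative combination of
 `W' \ {w}`, and so `W' \ {w}` has the property of (b), contradicting minimality. If `r - γ w ≤ 0` then
 `Σ_{w' ≠ w} γ w' toR w' + (γ w - r) toR w = 0` is a nontrivial nonnegative relation, contradicting (a). So
 `x - v = c w • toR w`, `x ∈ F`.
 So `F` is an edge through `toR v`. Let `m ≥ 1` be the gcd of the coordinates of `w` and `w = m • e`; `e` is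
 primitive (nonzero; if `e = m' • f` then `m m'` divides all coordinates of `w`, so `m' = ±1`), and
 `toR v + m • toR e = toR (v + w) ∈ F`: `e ∈ edgeVectors P (toR v)`.
(c) So every `x ∈ P` is `toR v + Σ_{w ∈ W'} (c w m_w) • toR (e_w)`. Index `W'` by `Fin n`
(`Finset.equivFin`).
-/

namespace H66OD

/-- every point of `P` is `toR v` plus a nonnegative combination of `W` -/
def EDG1_Rep {d : ℕ} (P : Set (Fin d → ℝ)) (v : Fin d → ℤ) (W : Finset (Fin d → ℤ)) : Prop :=
  ∀ x ∈ P, ∃ c : (Fin d → ℤ) → ℝ, (∀ w ∈ W, 0 ≤ c w) ∧ x = toR v + ∑ w ∈ W, c w • toR w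

theorem EDG1_prim {d : ℕ} {w : Fin d → ℤ} (hw : w ≠ 0) :
    ∃ (m : ℤ) (e : Fin d → ℤ), 0 < m ∧ w = m • e ∧ IsPrimitive e := by
  obtain ⟨m, hm⟩ : ∃ m : ℤ, m = Finset.univ.gcd w := ⟨_, rfl⟩
  have hm0 : m ≠ 0 := by
    rw [hm]
    intro h
    apply hw
    funext a
    exact Finset.gcd_eq_zero_iff.1 h a (Finset.mem_univ a)
  have hmn : 0 ≤ m := by
    rw [hm, ← Finset.normalize_gcd]
    rw [← Int.abs_eq_normalize]
    exact abs_nonneg _
  have hdvd : ∀ a, m ∣ w a := fun a => by rw [hm]; exact Finset.gcd_dvd (Finset.mem_univ a)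
  choose e he using hdvd
  have hwe : w = m • e := by
    funext a
    rw [he a]
    simp
  refine ⟨m, e, lt_of_le_of_ne hmn (Ne.symm hm0), hwe, ?_, ?_⟩
  · rintro rfl
    apply hw
    rw [hwe, smul_zero]
  · intro m' f hf
    have h1 : m * m' ∣ m := by
      conv_rhs => rw [hm]
      apply Finset.dvd_gcd
      intro a _
      refine ⟨f a, ?_⟩
      rw [he a, hf, Pi.smul_apply, smul_eq_mul, mul_assoc]
    have h2 : m' ∣ 1 := by
      have : m * m' ∣ m * 1 := by rw [mul_one]; exact h1
      exact (mul_dvd_mul_iff_left hm0).1 this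
    exact Int.isUnit_iff.1 (isUnit_of_dvd_one h2)

theorem edg1 {d : ℕ} (S : Finset (Fin d → ℤ)) (P : Set (Fin d → ℝ))
    (hP : P = convexHull ℝ (toR '' (S : Set (Fin d → ℤ)))) (v : Fin d → ℤ)
    (hv : toR v ∈ P.extremePoints ℝ) (x : Fin d → ℝ) (hx : x ∈ P) :
    ∃ (n : ℕ) (e : Fin n → (Fin d → ℤ)) (t : Fin n → ℝ),
      (∀ i, e i ∈ edgeVectors P (toR v)) ∧ (∀ i, 0 ≤ t i) ∧ x = toR v + ∑ i, t i • toR (e i) := by
  classical
  have hPc : Convex ℝ P := by rw [hP]; exact convex_convexHull ℝ _
  have hSP : ∀ s ∈ S, toR s ∈ P := fun s hs => by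
    rw [hP]
    exact subset_convexHull ℝ _ ⟨s, hs, rfl⟩
  have hvP : toR v ∈ P := hv.1
  have hvS : v ∈ S := by
    have h1 : toR v ∈ (convexHull ℝ (toR '' (S : Set (Fin d → ℤ)))).extremePoints ℝ := by rw [← hP]; exact hv
    obtain ⟨s, hs, hsv⟩ := extremePoints_convexHull_subset h1
    rw [toR_inj] at hsv
    rw [← hsv]
    exact hs
  obtain ⟨W, hW⟩ : ∃ W : Finset (Fin d → ℤ), W = (S.erase v).image (fun s => s - v) := ⟨_, rfl⟩
  have hWS : ∀ w ∈ W, w ≠ 0 ∧ v + w ∈ S.erase v := by
    intro w hw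
    rw [hW] at hw
    obtain ⟨s, hs, rfl⟩ := Finset.mem_image.1 hw
    refine ⟨sub_ne_zero.2 (Finset.ne_of_mem_erase hs), ?_⟩
    rw [add_sub_cancel]
    exact hs
  have hRepW : EDG1_Rep P v W := by
    intro x hx
    have hsub : P ⊆ {x | ∃ c : (Fin d → ℤ) → ℝ, (∀ w ∈ W, 0 ≤ c w) ∧ x = toR v + ∑ w ∈ W, c w • toR w} := by
      rw [hP]
      apply convexHull_min
      · rintro _ ⟨s, hs, rfl⟩
        by_cases hsv : s = v
        · refine ⟨fun _ => 0, fun _ _ => le_rfl, ?_⟩
          rw [hsv]
          simp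
        · have hmem : s - v ∈ W := by
            rw [hW]
            exact Finset.mem_image.2 ⟨s, Finset.mem_erase.2 ⟨hsv, hs⟩, rfl⟩
          refine ⟨fun w => if w = s - v then 1 else 0, fun w _ => by beta_reduce; split_ifs <;> norm_num, ?_⟩
          rw [Finset.sum_eq_single (s - v)]
          · beta_reduce
            rw [if_pos rfl, one_smul, toR_sub]
            abel
          · intro w _ hne
            beta_reduce
            rw [if_neg hne, zero_smul]
          · intro h
            exact absurd hmem h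
      · rintro y ⟨c, hc, rfl⟩ z ⟨c', hc', rfl⟩ a b ha hb hab
        refine ⟨fun w => a * c w + b * c' w, fun w hw => add_nonneg (mul_nonneg ha (hc w hw)) (mul_nonneg hb (hc' w hw)), ?_⟩
        simp only [smul_add, Finset.smul_sum, add_smul, Finset.sum_add_distrib, smul_smul]
        have e1 : toR v = a • toR v + b • toR v := by rw [← add_smul, hab, one_smul]
        rw [add_add_add_comm, ← e1]
    exact hsub hx
  -- (a)
  have ha : ∀ c : (Fin d → ℤ) → ℝ, (∀ w ∈ W, 0 ≤ c w) → ∑ w ∈ W, c w • toR w = 0 → ∀ w ∈ W, c w = 0 := by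
    intro c hc h0
    by_contra hcon
    push Not at hcon
    obtain ⟨w0, hw0, hne⟩ := hcon
    have hpos : 0 < ∑ w ∈ W, c w :=
      Finset.sum_pos' hc ⟨w0, hw0, lt_of_le_of_ne (hc w0 hw0) (Ne.symm hne)⟩
    obtain ⟨D, hD⟩ : ∃ D : ℝ, D = ∑ w ∈ W, c w := ⟨_, rfl⟩
    rw [← hD] at hpos
    have hmem : toR v ∈ convexHull ℝ (toR '' ((S.erase v : Finset (Fin d → ℤ)) : Set (Fin d → ℤ))) := by
      have e1 : toR v = ∑ w ∈ W, (c w / D) • toR (v + w) := by
        have e2 : ∑ w ∈ W, (c w / D) • toR (v + w) = (∑ w ∈ W, c w / D) • toR v + D⁻¹ • ∑ w ∈ W, c w • toR w := by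
          rw [Finset.sum_smul, Finset.smul_sum, ← Finset.sum_add_distrib]
          refine Finset.sum_congr rfl (fun w _ => ?_)
          rw [toR_add, smul_add, smul_smul, div_eq_inv_mul]
        rw [e2, h0, smul_zero, add_zero, ← Finset.sum_div, ← hD, div_self hpos.ne', one_smul]
      rw [e1]
      apply (convex_convexHull ℝ _).sum_mem
      · intro w hw
        exact div_nonneg (hc w hw) hpos.le
      · rw [← Finset.sum_div, ← hD, div_self hpos.ne']
      · intro w hw
        exact subset_convexHull ℝ _ ⟨v + w, (hWS w hw).2, rfl⟩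
    have hsub : convexHull ℝ (toR '' ((S.erase v : Finset (Fin d → ℤ)) : Set (Fin d → ℤ))) ⊆ P := by
      rw [hP]
      apply convexHull_mono
      apply Set.image_mono
      exact_mod_cast Finset.erase_subset v S
    have h3 := inter_extremePoints_subset_extremePoints_of_subset hsub ⟨hmem, hv⟩
    obtain ⟨s, hs, hsv⟩ := extremePoints_convexHull_subset h3
    rw [toR_inj] at hsv
    rw [hsv] at hs
    exact Finset.notMem_erase v S (by exact_mod_cast hs)
  -- (b) minimal subset
  obtain ⟨W', hW'mem, hmin⟩ := Finset.exists_min_image (W.powerset.filter (EDG1_Rep P v)) Finset.card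
    ⟨W, Finset.mem_filter.2 ⟨Finset.mem_powerset_self W, hRepW⟩⟩
  obtain ⟨hW'1, hRep⟩ := Finset.mem_filter.1 hW'mem
  have hW'W : W' ⊆ W := Finset.mem_powerset.1 hW'1
  have hb : ∀ w ∈ W', ∀ g : (Fin d → ℤ) → ℝ, (∀ w' ∈ W'.erase w, 0 ≤ g w') →
      toR w ≠ ∑ w' ∈ W'.erase w, g w' • toR w' := by
    intro w hw g hg hEq
    have hR : EDG1_Rep P v (W'.erase w) := by
      intro x hx
      obtain ⟨c, hc, hxc⟩ := hRep x hx
      refine ⟨fun w' => c w * g w' + c w', fun w' hw' => add_nonneg (mul_nonneg (hc w hw) (hg w' hw'))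
        (hc w' (Finset.mem_of_mem_erase hw')), ?_⟩
      rw [hxc, ← Finset.add_sum_erase W' _ hw]
      congr 1
      conv_lhs => rw [hEq]
      rw [Finset.smul_sum, ← Finset.sum_add_distrib]
      refine Finset.sum_congr rfl (fun w' _ => ?_)
      rw [add_smul, smul_smul]
    have h4 := hmin (W'.erase w) (Finset.mem_filter.2 ⟨Finset.mem_powerset.2
      ((Finset.erase_subset w W').trans hW'W), hR⟩)
    have h5 := Finset.card_erase_lt_of_mem hw
    omega
  have ha' : ∀ c : (Fin d → ℤ) → ℝ, (∀ w ∈ W', 0 ≤ c w) → ∑ w ∈ W', c w • toR w = 0 → ∀ w ∈ W', c w = 0 := by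
    intro c hc h0 w hw
    have h6 := ha (fun w => if w ∈ W' then c w else 0) (fun w _ => by
      by_cases h : w ∈ W'
      · simp only [if_pos h]; exact hc w h
      · simp only [if_neg h]; exact le_rfl) (by
      rw [← Finset.sum_subset hW'W]
      · rw [← h0]
        refine Finset.sum_congr rfl (fun w hw => ?_)
        rw [if_pos hw]
      · intro w _ hw
        rw [if_neg hw, zero_smul]) w (hW'W hw)
    simp only [if_pos hw] at h6
    exact h6
  -- the edges
  have hedge : ∀ w ∈ W', IsEdge P {x | x ∈ P ∧ ∃ r : ℝ, 0 ≤ r ∧ x = toR v + r • toR w} := by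
    intro w hw
    have hw0 : toR w ≠ 0 := by
      intro h
      apply (hWS w (hW'W hw)).1
      rw [← toR_zero, toR_inj] at h
      exact h
    refine ⟨?_, ⟨fun x hx => hx.1, ?_⟩, ?_⟩
    · rintro y ⟨hy, r, hr, rfl⟩ z ⟨hz, r', hr', rfl⟩ a b ha hb hab
      refine ⟨hPc hy hz ha hb hab, a * r + b * r', by positivity, ?_⟩
      have e1 : toR v = a • toR v + b • toR v := by rw [← add_smul, hab, one_smul]
      rw [smul_add, smul_add, add_add_add_comm, ← e1, smul_smul, smul_smul, add_smul]
    · rintro x hx y hy z ⟨hz, r, hr, hzr⟩ ⟨a, b, ha0, hb0, hab, hxy⟩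
      obtain ⟨c, hc, hxc⟩ := hRep x hx
      obtain ⟨c', hc', hyc⟩ := hRep y hy
      have hγ : ∀ w' ∈ W', 0 ≤ a * c w' + b * c' w' := fun w' hw' =>
        add_nonneg (mul_nonneg ha0.le (hc w' hw')) (mul_nonneg hb0.le (hc' w' hw'))
      have hsum : r • toR w = ∑ w' ∈ W', (a * c w' + b * c' w') • toR w' := by
        have e1 : toR v = a • toR v + b • toR v := by rw [← add_smul, hab, one_smul]
        have e2 : toR v + r • toR w = toR v + ∑ w' ∈ W', (a * c w' + b * c' w') • toR w' := by
          rw [← hzr, ← hxy, hxc, hyc]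
          simp only [smul_add, Finset.smul_sum, add_smul, Finset.sum_add_distrib, smul_smul]
          conv_rhs => rw [e1]
          abel
        exact add_left_cancel e2
      have hzero : ∀ w' ∈ W'.erase w, a * c w' + b * c' w' = 0 := by
        have hs2 : ∑ w' ∈ W'.erase w, (a * c w' + b * c' w') • toR w' = (r - (a * c w + b * c' w)) • toR w := by
          rw [sub_smul, hsum, ← Finset.add_sum_erase W' _ hw, add_sub_cancel_left]
        rcases lt_or_ge 0 (r - (a * c w + b * c' w)) with hpos | hneg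
        · exfalso
          apply hb w hw (fun w' => (r - (a * c w + b * c' w))⁻¹ * (a * c w' + b * c' w'))
            (fun w' hw' => mul_nonneg (inv_nonneg.2 hpos.le) (hγ w' (Finset.mem_of_mem_erase hw')))
          have e3 : ∑ w' ∈ W'.erase w, ((r - (a * c w + b * c' w))⁻¹ * (a * c w' + b * c' w')) • toR w' =
              (r - (a * c w + b * c' w))⁻¹ • ∑ w' ∈ W'.erase w, (a * c w' + b * c' w') • toR w' := by
            rw [Finset.smul_sum]
            refine Finset.sum_congr rfl (fun w' _ => ?_)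
            rw [smul_smul]
          rw [e3, hs2, smul_smul, inv_mul_cancel₀ hpos.ne', one_smul]
        · have h7 := ha' (fun w' => if w' = w then (a * c w + b * c' w) - r else a * c w' + b * c' w')
            (fun w' hw' => by
              by_cases h : w' = w
              · simp only [if_pos h]; linarith
              · simp only [if_neg h]; exact hγ w' hw')
            (by
              rw [← Finset.add_sum_erase W' _ hw, if_pos rfl]
              have e4 : ∑ w' ∈ W'.erase w, (if w' = w then (a * c w + b * c' w) - r else a * c w' + b * c' w') • toR w' =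
                  ∑ w' ∈ W'.erase w, (a * c w' + b * c' w') • toR w' := by
                refine Finset.sum_congr rfl (fun w' hw' => ?_)
                rw [if_neg (Finset.ne_of_mem_erase hw')]
              rw [e4, hs2, ← add_smul]
              have : a * c w + b * c' w - r + (r - (a * c w + b * c' w)) = 0 := by ring
              rw [this, zero_smul])
          intro w' hw'
          have h8 := h7 w' (Finset.mem_of_mem_erase hw')
          simp only [if_neg (Finset.ne_of_mem_erase hw')] at h8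
          exact h8
      have hc0 : ∀ w' ∈ W'.erase w, c w' = 0 := by
        intro w' hw'
        have h9 := hzero w' hw'
        have h10 := mul_nonneg ha0.le (hc w' (Finset.mem_of_mem_erase hw'))
        have h11 := mul_nonneg hb0.le (hc' w' (Finset.mem_of_mem_erase hw'))
        have h12 : a * c w' = 0 := by linarith
        exact (mul_eq_zero.1 h12).resolve_left ha0.ne'
      refine ⟨hx, c w, hc w hw, ?_⟩
      rw [hxc, ← Finset.add_sum_erase W' _ hw]
      rw [Finset.sum_eq_zero (fun w' hw' => by rw [hc0 w' hw', zero_smul]), add_zero]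
    · have hvF : toR v ∈ {x | x ∈ P ∧ ∃ r : ℝ, 0 ≤ r ∧ x = toR v + r • toR w} :=
        ⟨hvP, 0, le_rfl, by rw [zero_smul, add_zero]⟩
      have hwF : toR (v + w) ∈ {x | x ∈ P ∧ ∃ r : ℝ, 0 ≤ r ∧ x = toR v + r • toR w} :=
        ⟨hSP _ (Finset.mem_of_mem_erase (hWS w (hW'W hw)).2), 1, zero_le_one, by rw [toR_add, one_smul]⟩
      have hspan : vectorSpan ℝ {x | x ∈ P ∧ ∃ r : ℝ, 0 ≤ r ∧ x = toR v + r • toR w} = Submodule.span ℝ {toR w} := by
        apply le_antisymm
        · rw [vectorSpan_def, Submodule.span_le]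
          rintro _ ⟨y, ⟨-, r, -, rfl⟩, z, ⟨-, r', -, rfl⟩, rfl⟩
          rw [SetLike.mem_coe, Submodule.mem_span_singleton]
          refine ⟨r - r', ?_⟩
          simp only [vsub_eq_sub, sub_smul]
          abel
        · rw [Submodule.span_singleton_le_iff_mem]
          have h13 := vsub_mem_vectorSpan ℝ hwF hvF
          rw [vsub_eq_sub, toR_add, add_sub_cancel_left] at h13
          exact h13
      rw [hspan]
      exact finrank_span_singleton hw0
  have hex : ∀ w : W', ∃ (e : Fin d → ℤ) (m : ℝ), 0 ≤ m ∧ toR (w : Fin d → ℤ) = m • toR e ∧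
      e ∈ edgeVectors P (toR v) := by
    rintro ⟨w, hw⟩
    obtain ⟨m, e, hm, hwe, hprim⟩ := EDG1_prim (hWS w (hW'W hw)).1
    have hmR : (0 : ℝ) < m := by exact_mod_cast hm
    have hwR : toR w = (m : ℝ) • toR e := by rw [hwe, toR_zsmul]
    refine ⟨e, m, hmR.le, hwR, hprim, _, hedge w hw, ?_, m, hmR, ?_⟩
    · exact ⟨hvP, 0, le_rfl, by rw [zero_smul, add_zero]⟩
    · rw [← hwR, ← toR_add]
      exact ⟨hSP _ (Finset.mem_of_mem_erase (hWS w (hW'W hw)).2), 1, zero_le_one, by rw [toR_add, one_smul]⟩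
  choose e m hm0 hwe hedgev using hex
  obtain ⟨c, hc, hxc⟩ := hRep x hx
  refine ⟨W'.card, fun i => e (W'.equivFin.symm i), fun i => c (W'.equivFin.symm i) * m (W'.equivFin.symm i),
    fun i => hedgev _, fun i => mul_nonneg (hc _ (W'.equivFin.symm i).2) (hm0 _), ?_⟩
  rw [hxc]
  congr 1
  rw [← Finset.sum_coe_sort W' (fun w => c w • toR w)]
  rw [← Equiv.sum_comp W'.equivFin.symm (fun w : W' => c w • toR (w : Fin d → ℤ))]
  refine Finset.sum_congr rfl (fun i _ => ?_)
  rw [hwe, smul_smul]

end H66OD
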