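import Pool.Agent.H66.OD.EDG1
import Pool.Agent.H66.OD.EDG2

/-!
# Row EDG3 (about 150 lines): the combinatorial data of a smooth polytope

PROOF. Let `P = conv (toR '' S)` (`S` finite), `Vt = {s ∈ S | toR s ∈ P.extremePoints ℝ}` (classical filter).
`P` is compact convex (finite hull: `Set.Finite.isCompact_convexHull`), so
`closure (convexHull ℝ (P.extremePoints ℝ)) = P` (Krein-Milman, `closure_convexHull_extremePoints`), the extreme
points are contained in `toR '' S` (`extremePoints_convexHull_subset`), so they are exactly `toR '' Vt`, and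
the hull of this finite set is closed: `P = convexHull ℝ (toR '' Vt)`. `Vt` is nonempty since `P` is nonempty
(`interior P` nonempty). For `v ∈ Vt` choose the basis `b` of `IsSmooth`; `e v i = b i`, and `u v i` the dual
basis: `u v i j = b.coord i (Pi.single j 1)` (as integers), so that for every integer vector `x`
`u v i ⬝ᵥ x = b.coord i x` (linearity, `x = Σ x j • Pi.single j 1`), hence `dual`, and
`x = Σ (u v i ⬝ᵥ x) • b i`, for integer vectors; for real vectors `span` follows by linearity from the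
standard basis vectors. (Outside `Vt` put `e = u = 0`.)
`mem`: `edg2` (as `b i ∈ Set.range b = edgeVectors P v`). `cone`: `edg1`: `x = v + Σ t l toR (e l)`, each
`e l ∈ edgeVectors = range b`, `e l = b (j l)`, so `toR (u v i) ⬝ᵥ (x - toR v) = Σ t l δ(i, j l) ≥ 0`.
-/

namespace H66OD

open Matrix in
theorem EDG3_at (S : Finset (Fin 3 → ℤ)) (P : Set (Fin 3 → ℝ))
    (hP : P = convexHull ℝ (toR '' (S : Set (Fin 3 → ℤ)))) (v : Fin 3 → ℤ)
    (hv : toR v ∈ P.extremePoints ℝ) (hb' : ∃ b : Module.Basis (Fin 3) ℤ (Fin 3 → ℤ),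
      Set.range b = edgeVectors P (toR v)) :
    ∃ e u : Fin 3 → (Fin 3 → ℤ), (∀ i j, u i ⬝ᵥ e j = if i = j then 1 else 0) ∧
      (∀ x : Fin 3 → ℝ, x = ∑ i, (toR (u i) ⬝ᵥ x) • toR (e i)) ∧
      (∀ i, toR (v + e i) ∈ P) ∧ ∀ i, ∀ x ∈ P, 0 ≤ toR (u i) ⬝ᵥ (x - toR v) := by
  obtain ⟨b, hb⟩ := hb'
  obtain ⟨u, hu⟩ : ∃ u : Fin 3 → (Fin 3 → ℤ),
      ∀ i j, u i j = b.coord i (fun k => if j = k then 1 else 0) := ⟨_, fun _ _ => rfl⟩
  have hdot : ∀ i (x : Fin 3 → ℤ), u i ⬝ᵥ x = b.coord i x := by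
    intro i x
    rw [LinearMap.pi_apply_eq_sum_univ (b.coord i) x]
    simp only [dotProduct, smul_eq_mul, mul_comm, hu]
  have hdual : ∀ i j, u i ⬝ᵥ b j = if i = j then 1 else 0 := by
    intro i j
    rw [hdot, Module.Basis.coord_apply, Module.Basis.repr_self_apply]
    simp only [eq_comm]
  refine ⟨b, u, hdual, fun x => ?_, fun i => ?_, fun i x hx => ?_⟩
  · have h1 : ∀ k m, ∑ i, (u i k : ℝ) * ((b i m : ℤ) : ℝ) = if k = m then 1 else 0 := by
      intro k m
      have h2 := congrFun (b.sum_repr (fun m => if k = m then (1 : ℤ) else 0)) m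
      rw [Finset.sum_apply] at h2
      have h3 : ∑ i, u i k * b i m = if k = m then 1 else 0 := by
        rw [← h2]
        refine Finset.sum_congr rfl fun i _ => ?_
        rw [hu, Module.Basis.coord_apply, Pi.smul_apply, smul_eq_mul]
      have h4 := congrArg (fun z : ℤ => (z : ℝ)) h3
      push_cast at h4
      exact h4
    ext m
    rw [Finset.sum_apply]
    simp only [Pi.smul_apply, smul_eq_mul, dotProduct, toR_apply]
    have h5 : ∑ i, (∑ k, (u i k : ℝ) * x k) * ((b i m : ℤ) : ℝ) =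
        ∑ k, (∑ i, (u i k : ℝ) * ((b i m : ℤ) : ℝ)) * x k := by
      simp only [Finset.sum_mul]
      rw [Finset.sum_comm]
      refine Finset.sum_congr rfl fun k _ => Finset.sum_congr rfl fun i _ => ?_
      ring
    rw [h5]
    simp only [h1, ite_mul, one_mul, zero_mul, Finset.sum_ite_eq', Finset.mem_univ, if_true]
  · exact edg2 S P hP v hv (b i) (hb ▸ Set.mem_range_self i)
  · obtain ⟨n, e, t, he, ht, rfl⟩ := edg1 S P hP v hv x hx
    rw [add_sub_cancel_left, dotProduct_sum]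
    refine Finset.sum_nonneg fun l _ => ?_
    rw [dotProduct_smul, smul_eq_mul]
    refine mul_nonneg (ht l) ?_
    have h1 := he l
    rw [← hb] at h1
    obtain ⟨j, hj⟩ := h1
    rw [← hj, toR_dot, hdual]
    split_ifs <;> norm_num

theorem EDG3_hull {S : Finset (Fin 3 → ℤ)} {P : Set (Fin 3 → ℝ)}
    (hP : P = convexHull ℝ (toR '' (S : Set (Fin 3 → ℤ)))) {Vt : Finset (Fin 3 → ℤ)}
    (hVt : ∀ v, v ∈ Vt ↔ v ∈ S ∧ toR v ∈ P.extremePoints ℝ) :
    P = convexHull ℝ (toR '' (Vt : Set (Fin 3 → ℤ))) := by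
  have hfin : (toR '' (S : Set (Fin 3 → ℤ))).Finite := S.finite_toSet.image _
  have hcomp : IsCompact P := by
    rw [hP]
    exact hfin.isCompact_convexHull ℝ
  have hconv : Convex ℝ P := by
    rw [hP]
    exact convex_convexHull ℝ _
  have hext : P.extremePoints ℝ = toR '' (Vt : Set (Fin 3 → ℤ)) := by
    ext x
    constructor
    · intro hx
      have h1 : x ∈ toR '' (S : Set (Fin 3 → ℤ)) := by
        have h2 := hx
        rw [hP] at h2
        exact extremePoints_convexHull_subset h2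
      obtain ⟨s, hs, rfl⟩ := h1
      exact ⟨s, (hVt s).2 ⟨hs, hx⟩, rfl⟩
    · rintro ⟨v, hv, rfl⟩
      exact ((hVt v).1 hv).2
  have hfin2 : (toR '' (Vt : Set (Fin 3 → ℤ))).Finite := Vt.finite_toSet.image _
  have h1 := closure_convexHull_extremePoints hcomp hconv
  rw [hext, (hfin2.isCompact_convexHull ℝ).isClosed.closure_eq] at h1
  exact h1.symm

theorem edg3 (P : Set (Fin 3 → ℝ)) (hP : IsSmooth P) : Nonempty (SmoothData P) := by
  classical
  obtain ⟨⟨S, hS⟩, hint, hb⟩ := hP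
  obtain ⟨Vt, hVt⟩ : ∃ Vt : Finset (Fin 3 → ℤ),
      ∀ v, v ∈ Vt ↔ v ∈ S ∧ toR v ∈ P.extremePoints ℝ :=
    ⟨S.filter (fun v => toR v ∈ P.extremePoints ℝ), fun v => Finset.mem_filter⟩
  have hhull := EDG3_hull hS hVt
  have hne : Vt.Nonempty := by
    rw [Finset.nonempty_iff_ne_empty]
    rintro rfl
    rw [Finset.coe_empty, Set.image_empty, convexHull_empty] at hhull
    rw [hhull, interior_empty] at hint
    exact Set.not_nonempty_empty hint
  have hex := fun v (hv : v ∈ Vt) =>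
    EDG3_at S P hS v ((hVt v).1 hv).2 (hb (toR v) ((hVt v).1 hv).2)
  choose! e u h1 h2 h3 h4 using hex
  exact ⟨⟨Vt, hne, hhull, e, u, h1, h2, h3, h4⟩⟩

end H66OD
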