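import Pool.Agent.H66.OD.Defs

/-!
# Row ELT (about 60 lines)

A lattice triangle with vertices `0, (a,b), (c,d)` and determinant `D = a d - b c ≥ 2` contains a
further lattice point `(X,Y) = (S/D)(a,b) + (T/D)(c,d)`, `S,T ≥ 0`, `S + T ≤ D`, `(S,T) ≠ (0,0)`,
`S < D`, `T < D`.

PROOF. Consider the lattice vectors `(1,0) = (d/D)(a,b) + (-b/D)(c,d)` and
`(0,1) = (-c/D)(a,b) + (a/D)(c,d)`: indeed `d a - b c = D`, `d b - b d = 0`, `-c a + a c = 0`,
`-c b + a d = D`. One of the pairs `(d,-b)`, `(-c,a)` is not `≡ (0,0)` mod `D`: otherwise `D` divides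
`a,b,c,d`, so `D²` divides `a d - b c = D`, impossible for `D ≥ 2`. Let `(S0,T0)` be such a pair,
with lattice vector `(X0,Y0)`, `D X0 = S0 a + T0 c`, `D Y0 = S0 b + T0 d`.
Put `S1 = S0 % D`, `T1 = T0 % D` (in `[0,D)`, not both `0`), `X1 = X0 - (S0/D) a - (T0/D) c`, same
for `Y1`; then `D X1 = S1 a + T1 c` etc. If `S1 + T1 ≤ D` take `(S1,T1,X1,Y1)`. Otherwise
`S1,T1 > 0` (each is `< D`), take `S = D - S1`, `T = D - T1`, both in `(0,D)`, `S + T < D`,
`X = a + c - X1`, `Y = b + d - Y1`.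
-/

namespace H66OD

theorem ELT_red {a b c d D S0 T0 X0 Y0 : ℤ} (hD : 2 ≤ D) (hne : ¬ (D ∣ S0 ∧ D ∣ T0))
    (hX : D * X0 = S0 * a + T0 * c) (hY : D * Y0 = S0 * b + T0 * d) :
    ∃ S T X Y : ℤ, 0 ≤ S ∧ 0 ≤ T ∧ S + T ≤ D ∧ ¬ (S = 0 ∧ T = 0) ∧
      S < D ∧ T < D ∧ D * X = S * a + T * c ∧ D * Y = S * b + T * d := by
  have hD0 : 0 < D := by omega
  have hS := Int.emod_add_mul_ediv S0 D
  have hT := Int.emod_add_mul_ediv T0 D
  have hS1 := Int.emod_nonneg S0 hD0.ne'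
  have hT1 := Int.emod_nonneg T0 hD0.ne'
  have hS2 := Int.emod_lt_of_pos S0 hD0
  have hT2 := Int.emod_lt_of_pos T0 hD0
  have hn : ¬ (S0 % D = 0 ∧ T0 % D = 0) := fun h =>
    hne ⟨Int.dvd_of_emod_eq_zero h.1, Int.dvd_of_emod_eq_zero h.2⟩
  have hX1 : D * (X0 - (S0 / D) * a - (T0 / D) * c) = (S0 % D) * a + (T0 % D) * c := by
    linear_combination hX - a * hS - c * hT
  have hY1 : D * (Y0 - (S0 / D) * b - (T0 / D) * d) = (S0 % D) * b + (T0 % D) * d := by
    linear_combination hY - b * hS - d * hT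
  by_cases hle : S0 % D + T0 % D ≤ D
  · exact ⟨S0 % D, T0 % D, _, _, hS1, hT1, hle, hn, hS2, hT2, hX1, hY1⟩
  · refine ⟨D - S0 % D, D - T0 % D, a + c - (X0 - (S0 / D) * a - (T0 / D) * c),
      b + d - (Y0 - (S0 / D) * b - (T0 / D) * d), by omega, by omega, by omega, by omega,
      by omega, by omega, ?_, ?_⟩
    · linear_combination -hX1
    · linear_combination -hY1

theorem elt (a b c d : ℤ) (h : 2 ≤ a * d - b * c) :
    ∃ S T X Y : ℤ, 0 ≤ S ∧ 0 ≤ T ∧ S + T ≤ a * d - b * c ∧ ¬ (S = 0 ∧ T = 0) ∧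
      S < a * d - b * c ∧ T < a * d - b * c ∧
      (a * d - b * c) * X = S * a + T * c ∧ (a * d - b * c) * Y = S * b + T * d := by
  by_cases h1 : (a * d - b * c) ∣ d ∧ (a * d - b * c) ∣ -b
  · by_cases h2 : (a * d - b * c) ∣ -c ∧ (a * d - b * c) ∣ a
    · exfalso
      obtain ⟨⟨p, hp⟩, ⟨q, hq⟩⟩ := h1
      obtain ⟨⟨r, hr⟩, ⟨s, hs⟩⟩ := h2
      set D := a * d - b * c with hD
      have h3 : D = D * D * (s * p - q * r) := by
        have e1 : a * d - b * c = D * D * (s * p - q * r) := by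
          rw [hs] 
          have e2 : b = -(D * q) := by linarith
          have e3 : c = -(D * r) := by linarith
          rw [hp, e2, e3]
          ring
        exact hD.trans e1
      have hD0 : D ≠ 0 := by omega
      have h4 : 1 = D * (s * p - q * r) := by
        have : D * 1 = D * (D * (s * p - q * r)) := by linarith
        exact mul_left_cancel₀ hD0 this
      have h5 : D ∣ 1 := ⟨_, h4⟩
      have h6 := Int.le_of_dvd one_pos h5
      omega
    · exact ELT_red (S0 := -c) (T0 := a) (X0 := 0) (Y0 := 1) h h2 (by ring) (by ring)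
  · exact ELT_red (S0 := d) (T0 := -b) (X0 := 1) (Y0 := 0) h h1 (by ring) (by ring)

end H66OD
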