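import Pool.Agent.H66.OD.FV

/-!
# Row SLC (about 150 lines): the slices near a facet

`h(x) = u v0 i0 ⬝ (x - v0)`. If `h(y) = s`, and `u w i ⬝ (y - w) ≥ 0` for all vertices `w` with `h(w) = 0` and all
`i`, then `y` is in the hull of the points `w + s e w i`, `w` vertex with `h(w) = 0`, `u w i = u v0 i0`.
(No condition on `s` is needed.)

PROOF. Let `E` be the set of these points (finite: `w ∈ Vt`, `i : Fin 3`), its hull is closed convex. Suppose `y`
is not in the hull: a continuous linear `f` and `r` with `f z < r < f y` for `z ∈ conv E`. Among the finitely many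
`w ∈ Vt` with `h(w) = 0` (nonempty: `v0`) choose `w` maximising `f (toR w)`. Let `i` with `u w i = u v0 i0` (`fv`).
For `j ≠ i`: `x = w + e w j ∈ P` has `h(x) = u w i ⬝ e w j = 0` (`dual`). `x` is a convex combination of `Vt`; `h ≥ 0`
on `Vt` (`cone`), so all vertices `w'` with positive coefficient have `h(w') = 0`, hence
`f (toR x) ≤ f (toR w)`, `f (toR (e w j)) ≤ 0`. By `span` at `w`: `y = w + Σ_j (u w j ⬝ (y - w)) e w j`, where
`u w i ⬝ (y - w) = h(y) - h(w) = s` (`u w i ⬝ (y - w) = u v0 i0 ⬝ (y - v0) - u v0 i0 ⬝ (w - v0)`). So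
`f y = f (w + s e w i) + Σ_{j ≠ i} (u w j ⬝ (y - w)) f (e w j) ≤ f (w + s e w i) < r < f y`: contradiction.
-/

open Matrix

namespace H66OD

theorem slc {P : Set (Fin 3 → ℝ)} (D : SmoothData P) (v0 : Fin 3 → ℤ) (hv0 : v0 ∈ D.Vt)
    (i0 : Fin 3) (s : ℝ) (y : Fin 3 → ℝ) (hy : toR (D.u v0 i0) ⬝ᵥ (y - toR v0) = s)
    (hadj : ∀ w ∈ D.Vt, D.u v0 i0 ⬝ᵥ (w - v0) = 0 → ∀ i, 0 ≤ toR (D.u w i) ⬝ᵥ (y - toR w)) :
    y ∈ convexHull ℝ {z : Fin 3 → ℝ | ∃ w ∈ D.Vt, ∃ i, D.u v0 i0 ⬝ᵥ (w - v0) = 0 ∧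
      D.u w i = D.u v0 i0 ∧ z = toR w + s • toR (D.e w i)} := by
  classical
  obtain ⟨U, hU⟩ : ∃ U, U = D.u v0 i0 := ⟨_, rfl⟩
  rw [← hU] at hy hadj ⊢
  obtain ⟨E, hE⟩ : ∃ E : Set (Fin 3 → ℝ), E = {z : Fin 3 → ℝ | ∃ w ∈ D.Vt, ∃ i,
    U ⬝ᵥ (w - v0) = 0 ∧ D.u w i = U ∧ z = toR w + s • toR (D.e w i)} := ⟨_, rfl⟩
  rw [← hE]
  have hfin : E.Finite := by
    refine ((D.Vt ×ˢ (Finset.univ : Finset (Fin 3))).finite_toSet.image
      (fun p : (Fin 3 → ℤ) × Fin 3 => toR p.1 + s • toR (D.e p.1 p.2))).subset ?_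
    rw [hE]
    rintro z ⟨w, hw, i, -, -, rfl⟩
    refine ⟨(w, i), ?_, rfl⟩
    rw [Finset.mem_coe, Finset.mem_product]
    exact ⟨hw, Finset.mem_univ i⟩
  by_contra hcon
  obtain ⟨f, r, hf1, hf2⟩ := geometric_hahn_banach_closed_point (convex_convexHull ℝ E)
    (Set.Finite.isCompact_convexHull ℝ hfin).isClosed hcon
  -- the best vertex
  have hWne : (D.Vt.filter (fun w => U ⬝ᵥ (w - v0) = 0)).Nonempty :=
    ⟨v0, Finset.mem_filter.2 ⟨hv0, by rw [sub_self, dotProduct_zero]⟩⟩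
  obtain ⟨w, hw, hmax⟩ := Finset.exists_max_image _ (fun w => f (toR w)) hWne
  rw [Finset.mem_filter] at hw
  obtain ⟨hwV, hw0⟩ := hw
  obtain ⟨i, hi⟩ := fv D v0 hv0 i0 w hwV (by rw [← hU]; exact hw0)
  rw [← hU] at hi
  have hlin : ∀ w' : Fin 3 → ℤ, toR U ⬝ᵥ (toR w' - toR v0) = ((U ⬝ᵥ (w' - v0) : ℤ) : ℝ) := by
    intro w'
    rw [← toR_sub, toR_dot]
  -- the convex set
  have hconv : Convex ℝ {z : Fin 3 → ℝ | 0 ≤ toR U ⬝ᵥ (z - toR v0) ∧
      (toR U ⬝ᵥ (z - toR v0) = 0 → f z ≤ f (toR w))} := by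
    rw [convex_iff_forall_pos]
    rintro x ⟨hx1, hx2⟩ z ⟨hz1, hz2⟩ a b ha hb hab
    have e : toR U ⬝ᵥ (a • x + b • z - toR v0) =
        a * (toR U ⬝ᵥ (x - toR v0)) + b * (toR U ⬝ᵥ (z - toR v0)) := by
      have e1 : a • x + b • z - toR v0 = a • (x - toR v0) + b • (z - toR v0) := by
        have e2 : toR v0 = (a + b) • toR v0 := by rw [hab, one_smul]
        conv_lhs => rw [e2]
        module
      rw [e1, dotProduct_add, dotProduct_smul, dotProduct_smul, smul_eq_mul, smul_eq_mul]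
    refine ⟨?_, ?_⟩
    · rw [e]; positivity
    · intro h0
      rw [e] at h0
      have h1 := mul_nonneg ha.le hx1
      have h2 := mul_nonneg hb.le hz1
      have h3 : a * (toR U ⬝ᵥ (x - toR v0)) = 0 := by linarith
      have h4 : b * (toR U ⬝ᵥ (z - toR v0)) = 0 := by linarith
      have h5 := hx2 ((mul_eq_zero.1 h3).resolve_left ha.ne')
      have h6 := hz2 ((mul_eq_zero.1 h4).resolve_left hb.ne')
      rw [map_add, map_smul, map_smul, smul_eq_mul, smul_eq_mul]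
      calc a * f x + b * f z ≤ a * f (toR w) + b * f (toR w) :=
            add_le_add (mul_le_mul_of_nonneg_left h5 ha.le) (mul_le_mul_of_nonneg_left h6 hb.le)
        _ = f (toR w) := by rw [← add_mul, hab, one_mul]
  have hPsub : P ⊆ {z : Fin 3 → ℝ | 0 ≤ toR U ⬝ᵥ (z - toR v0) ∧
      (toR U ⬝ᵥ (z - toR v0) = 0 → f z ≤ f (toR w))} := by
    conv_lhs => rw [D.hull]
    refine convexHull_min ?_ hconv
    rintro _ ⟨w', hw', rfl⟩
    have hw'P : toR w' ∈ P := by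
      rw [D.hull]
      exact subset_convexHull ℝ _ ⟨w', hw', rfl⟩
    refine ⟨?_, ?_⟩
    · rw [hU]
      exact D.cone v0 hv0 i0 _ hw'P
    · intro h0
      rw [hlin] at h0
      have h1 : U ⬝ᵥ (w' - v0) = 0 := by exact_mod_cast h0
      exact hmax w' (Finset.mem_filter.2 ⟨hw', h1⟩)
  have hfe : ∀ j, j ≠ i → f (toR (D.e w j)) ≤ 0 := by
    intro j hj
    have h1 := hPsub (D.mem w hwV j)
    have h2 : toR U ⬝ᵥ (toR (w + D.e w j) - toR v0) = 0 := by
      rw [hlin]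
      have h3 : U ⬝ᵥ (w + D.e w j - v0) = 0 := by
        have e1 : w + D.e w j - v0 = (w - v0) + D.e w j := by abel
        rw [e1, dotProduct_add, hw0, zero_add, ← hi, D.dual w hwV i j, if_neg (Ne.symm hj)]
      rw [h3, Int.cast_zero]
    have h3 := h1.2 h2
    rw [toR_add, map_add] at h3
    linarith
  have hui : toR (D.u w i) ⬝ᵥ (y - toR w) = s := by
    rw [hi]
    have e1 : y - toR w = (y - toR v0) - (toR w - toR v0) := by abel
    rw [e1, dotProduct_sub, hy, hlin, hw0, Int.cast_zero, sub_zero]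
  have hspan := D.span w hwV (y - toR w)
  have hfy : f y = f (toR w) + ∑ j, (toR (D.u w j) ⬝ᵥ (y - toR w)) * f (toR (D.e w j)) := by
    have e1 : y = toR w + (y - toR w) := by abel
    conv_lhs => rw [e1, hspan]
    rw [map_add, map_sum]
    congr 1
    exact Finset.sum_congr rfl fun j _ => by rw [map_smul, smul_eq_mul]
  have hsum : ∑ j, (toR (D.u w j) ⬝ᵥ (y - toR w)) * f (toR (D.e w j)) ≤ s * f (toR (D.e w i)) := by
    rw [← Finset.add_sum_erase Finset.univ _ (Finset.mem_univ i), hui]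
    have h1 : ∑ j ∈ Finset.univ.erase i, (toR (D.u w j) ⬝ᵥ (y - toR w)) * f (toR (D.e w j)) ≤ 0 := by
      refine Finset.sum_nonpos fun j hj => ?_
      exact mul_nonpos_of_nonneg_of_nonpos (hadj w hwV hw0 j) (hfe j (Finset.ne_of_mem_erase hj))
    linarith
  have hz : toR w + s • toR (D.e w i) ∈ convexHull ℝ E := by
    refine subset_convexHull ℝ E ?_
    rw [hE]
    exact ⟨w, hwV, i, hw0, hi, rfl⟩
  have h1 := hf1 _ hz
  rw [map_add, map_smul, smul_eq_mul] at h1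
  linarith

end H66OD
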