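import Pool.Agent.H66.OD.T2
import Pool.Agent.H66.OD.SLC

/-!
# Row M1 (about 250 lines): decomposition of `x ∈ 2P` at height 1 over a facet

PROOF. Let `U = u v0 i0`, `h(z) = U ⬝ (z - v0)`, `i1, i2` the two indices `≠ i0`, `E1 = e v0 i1`, `E2 = e v0 i2`,
`E0 = e v0 i0`. For integers `X,Y` let `f(X,Y) = v0 + X E1 + Y E2` (`h = 0`) and `s(X,Y) = v0 + E0 + X E1 + Y E2`
(`h = 1`). Every integer `z` with `h(z) = 0` is `f(X,Y)` with `X = u v0 i1 ⬝ (z - v0)`, `Y = u v0 i2 ⬝ (z - v0)`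
(`span`); every integer `z` with `h(z) = 1` is `s(X,Y)`. `x = 2 v0 + E0 + x1 E1 + x2 E2` (as
`U ⬝ (x - 2 v0) = 1`), so `x - f(X,Y) = s(x1 - X, x2 - Y)`.
Index type `ι` = the (finite) subtype of pairs `(w,i)` with `w ∈ Vt`, `h(w) = 0`, `u w i ≠ U` (e.g.
`{l : D.Vt × Fin 3 // ...}`, `Fintype` classical). For `l = (w,i)`: `p l = u w i ⬝ E1`, `q l = u w i ⬝ E2`,
`b l = u w i ⬝ (v0 - w)`, `b' l = u w i ⬝ (v0 + E0 - w)`, so that `p X + q Y + b = u w i ⬝ (f(X,Y) - w)` and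
`p X + q Y + b' = u w i ⬝ (s(X,Y) - w)`.
Apply `t2`:
hF: `l = (w,i)`; `i_w` with `u w i_w = U` (`fv`), `i ≠ i_w`; `i'` the third index. The points `w` and `w + e w i'`
 are in `P`, with `h = 0` (`U ⬝ e w i' = 0`), `u w i ⬝ (· - w) = 0`, distinct (`u w i' ⬝ e w i' = 1`); points of `P`
 satisfy all inequalities (`cone`).
hS: `w + e w i_w ∈ P`, `h = 1`, `u w i ⬝ e w i_w = 0`.
hne: `f(0,0) = v0`; hne': `s(0,0) = v0 + E0 ∈ P`.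
hc: `p x1 + q x2 + b + b' = u w i ⬝ (x - 2w) ≥ 0`.
hsep: let `α,β,γ` be given. Put `Λ(z) = α (u v0 i1 ⬝ (z - v0)) + β (u v0 i2 ⬝ (z - v0)) + γ` (affine on `ℝ³`),
 `κ = α x1 + β x2 + 2γ`. By `slc` with `s = 1/2`, `y = x/2` (`h(x/2) = 1/2`), `x/2` is in the hull of the points
 `w + (1/2) e w i`, `h(w) = 0`, `u w i = U`. For such `(w,i)`: `w = f(X,Y)` satisfies the `F` inequalities so
 `Λ(w) ≥ 1`; `w + e w i = s(X,Y)` satisfies the `S` inequalities, so `α (x1 - X) + β (x2 - Y) + γ ≤ 0`, i.e.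
 `Λ(w + e w i) = α X + β Y + γ ≥ κ`. Hence `Λ(w + (1/2) e w i) ≥ (1 + κ)/2`, and so `Λ(x/2) ≥ (1+κ)/2`
 (half-space, `convexHull_min`). But `x/2 - v0 = (E0 + x1 E1 + x2 E2)/2`, `Λ(x/2) = (α x1 + β x2)/2 + γ = κ/2`.
 Contradiction.
Conclusion `(X,Y)`: `f(X,Y) ∈ P` by `slc` with `s = 0` (its hypothesis: for `w` with `h(w) = 0` and `i` with
`u w i = U` the value is `h(f) - h(w) = 0 ≥ 0`, otherwise `(w,i) ∈ ι`), whose conclusion is a hull of vertices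
`w + 0 • e ∈ P`; `s(x1-X,x2-Y) ∈ P` by `slc` with `s = 1` (points `w + e w i ∈ P`; value for `u w i = U` is `1`).
So `p = f(X,Y)`, `x - p = s(x1-X,x2-Y)`.
-/

open Matrix

namespace H66OD

theorem M1_idx (i0 : Fin 3) : ∃ i1 i2 : Fin 3, i0 ≠ i1 ∧ i0 ≠ i2 ∧ i1 ≠ i2 := by
  revert i0
  decide

theorem M1_third (i j : Fin 3) : ∃ k : Fin 3, k ≠ i ∧ k ≠ j := by
  revert i j
  decide

theorem M1_sum3 {M : Type*} [AddCommMonoid M] {i0 i1 i2 : Fin 3} (h01 : i0 ≠ i1) (h02 : i0 ≠ i2)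
    (h12 : i1 ≠ i2) (F : Fin 3 → M) : ∑ i, F i = F i0 + F i1 + F i2 := by
  have hu : (Finset.univ : Finset (Fin 3)) = {i0, i1, i2} := by
    revert i0 i1 i2
    decide
  rw [hu, Finset.sum_insert (by simp [h01, h02]), Finset.sum_insert (by simp [h12]),
    Finset.sum_singleton, add_assoc]

theorem M1_span {P : Set (Fin 3 → ℝ)} (D : SmoothData P) {v : Fin 3 → ℤ} (hv : v ∈ D.Vt)
    (z : Fin 3 → ℤ) : z = ∑ i, (D.u v i ⬝ᵥ z) • D.e v i := by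
  apply toR_injective
  rw [toR_sum]
  conv_lhs => rw [D.span v hv (toR z)]
  refine Finset.sum_congr rfl fun i _ => ?_
  rw [toR_zsmul, toR_dot]

theorem M1_cone {P : Set (Fin 3 → ℝ)} (D : SmoothData P) {w : Fin 3 → ℤ} (hw : w ∈ D.Vt)
    (i : Fin 3) {z : Fin 3 → ℤ} (hz : toR z ∈ P) : 0 ≤ D.u w i ⬝ᵥ (z - w) := by
  have h := D.cone w hw i (toR z) hz
  rw [← toR_sub, toR_dot] at h
  exact_mod_cast h

theorem M1_mem {P : Set (Fin 3 → ℝ)} (D : SmoothData P) {w : Fin 3 → ℤ} (hw : w ∈ D.Vt) :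
    toR w ∈ P := by
  rw [D.hull]
  exact subset_convexHull ℝ _ ⟨w, hw, rfl⟩

theorem M1_convex {P : Set (Fin 3 → ℝ)} (D : SmoothData P) : Convex ℝ P := by
  rw [D.hull]
  exact convex_convexHull ℝ _

theorem M1_lin (a E1 E2 c : Fin 3 → ℤ) (X Y : ℤ) :
    (a ⬝ᵥ E1) * X + (a ⬝ᵥ E2) * Y + a ⬝ᵥ c = a ⬝ᵥ (X • E1 + Y • E2 + c) := by
  simp only [dotProduct, Fin.sum_univ_three, Pi.add_apply, Pi.smul_apply, smul_eq_mul]
  ring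

theorem m1 {P : Set (Fin 3 → ℝ)} (D : SmoothData P) (x : Fin 3 → ℤ)
    (hx : ∀ v ∈ D.Vt, ∀ i, 0 ≤ D.u v i ⬝ᵥ (x - (2 : ℤ) • v)) (v0 : Fin 3 → ℤ) (hv0 : v0 ∈ D.Vt)
    (i0 : Fin 3) (h : D.u v0 i0 ⬝ᵥ (x - (2 : ℤ) • v0) = 1) :
    ∃ p : Fin 3 → ℤ, toR p ∈ P ∧ toR (x - p) ∈ P := by
  classical
  obtain ⟨i1, i2, h01, h02, h12⟩ := M1_idx i0
  have hspan : ∀ z : Fin 3 → ℤ, z = (D.u v0 i0 ⬝ᵥ z) • D.e v0 i0 +
      (D.u v0 i1 ⬝ᵥ z) • D.e v0 i1 + (D.u v0 i2 ⬝ᵥ z) • D.e v0 i2 := by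
    intro z
    have h1 := M1_span D hv0 z
    rwa [M1_sum3 h01 h02 h12] at h1
  have d00 : D.u v0 i0 ⬝ᵥ D.e v0 i0 = 1 := by rw [D.dual v0 hv0, if_pos rfl]
  have d01 : D.u v0 i0 ⬝ᵥ D.e v0 i1 = 0 := by rw [D.dual v0 hv0, if_neg h01]
  have d02 : D.u v0 i0 ⬝ᵥ D.e v0 i2 = 0 := by rw [D.dual v0 hv0, if_neg h02]
  obtain ⟨U, hU⟩ : ∃ U, U = D.u v0 i0 := ⟨_, rfl⟩
  obtain ⟨U1, hU1⟩ : ∃ U1, U1 = D.u v0 i1 := ⟨_, rfl⟩
  obtain ⟨U2, hU2⟩ : ∃ U2, U2 = D.u v0 i2 := ⟨_, rfl⟩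
  obtain ⟨E0, hE0⟩ : ∃ E0, E0 = D.e v0 i0 := ⟨_, rfl⟩
  obtain ⟨E1, hE1⟩ : ∃ E1, E1 = D.e v0 i1 := ⟨_, rfl⟩
  obtain ⟨E2, hE2⟩ : ∃ E2, E2 = D.e v0 i2 := ⟨_, rfl⟩
  rw [← hU, ← hE0] at d00
  rw [← hU, ← hE1] at d01
  rw [← hU, ← hE2] at d02
  rw [← hU] at h
  simp only [← hU, ← hU1, ← hU2, ← hE0, ← hE1, ← hE2] at hspan
  obtain ⟨x1, hx1⟩ : ∃ x1, x1 = U1 ⬝ᵥ (x - (2 : ℤ) • v0) := ⟨_, rfl⟩
  obtain ⟨x2, hx2⟩ : ∃ x2, x2 = U2 ⬝ᵥ (x - (2 : ℤ) • v0) := ⟨_, rfl⟩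
  have hxe : x - (2 : ℤ) • v0 = E0 + x1 • E1 + x2 • E2 := by
    have h1 := hspan (x - (2 : ℤ) • v0)
    rw [h, ← hx1, ← hx2, one_zsmul] at h1
    exact h1
  -- the parametrizations
  obtain ⟨f, hf⟩ : ∃ f : ℤ → ℤ → (Fin 3 → ℤ), ∀ X Y, f X Y = X • E1 + Y • E2 + v0 :=
    ⟨fun X Y => X • E1 + Y • E2 + v0, fun _ _ => rfl⟩
  obtain ⟨s, hs⟩ : ∃ s : ℤ → ℤ → (Fin 3 → ℤ), ∀ X Y, s X Y = X • E1 + Y • E2 + (v0 + E0) :=
    ⟨fun X Y => X • E1 + Y • E2 + (v0 + E0), fun _ _ => rfl⟩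
  have hrep0 : ∀ z : Fin 3 → ℤ, U ⬝ᵥ (z - v0) = 0 →
      z = f (U1 ⬝ᵥ (z - v0)) (U2 ⬝ᵥ (z - v0)) := by
    intro z hz
    have h1 := hspan (z - v0)
    rw [hz, zero_zsmul, zero_add] at h1
    rw [hf, ← h1, sub_add_cancel]
  have hrep1 : ∀ z : Fin 3 → ℤ, U ⬝ᵥ (z - v0) = 1 →
      z = s (U1 ⬝ᵥ (z - v0)) (U2 ⬝ᵥ (z - v0)) := by
    intro z hz
    have h1 := hspan (z - v0)
    rw [hz, one_zsmul] at h1
    rw [hs]
    have h2 : z = (z - v0) + v0 := (sub_add_cancel z v0).symm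
    rw [h2]
    nth_rewrite 1 [h1]
    rw [sub_add_cancel]
    abel
  have hUf : ∀ X Y, U ⬝ᵥ (f X Y - v0) = 0 := by
    intro X Y
    rw [hf, add_sub_cancel_right, dotProduct_add, dotProduct_smul, dotProduct_smul, d01, d02]
    simp
  have hUs : ∀ X Y, U ⬝ᵥ (s X Y - v0) = 1 := by
    intro X Y
    have e1 : s X Y - v0 = X • E1 + Y • E2 + E0 := by rw [hs]; abel
    rw [e1, dotProduct_add, dotProduct_add, dotProduct_smul, dotProduct_smul, d01, d02, d00]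
    simp
  have hxs : ∀ X Y, x - f X Y = s (x1 - X) (x2 - Y) := by
    intro X Y
    have h1 : x = E0 + x1 • E1 + x2 • E2 + (2 : ℤ) • v0 := by rw [← hxe, sub_add_cancel]
    rw [hf, hs, h1, sub_smul, sub_smul, two_zsmul]
    abel
  -- the index type
  let ι : Type := {l : D.Vt × Fin 3 // U ⬝ᵥ ((l.1 : Fin 3 → ℤ) - v0) = 0 ∧
    D.u (l.1 : Fin 3 → ℤ) l.2 ≠ U}
  let a : ι → (Fin 3 → ℤ) := fun l => D.u (l.1.1 : Fin 3 → ℤ) l.1.2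
  let W : ι → (Fin 3 → ℤ) := fun l => (l.1.1 : Fin 3 → ℤ)
  have hWm : ∀ l : ι, W l ∈ D.Vt := fun l => l.1.1.2
  have hgf : ∀ (l : ι) X Y, (a l ⬝ᵥ E1) * X + (a l ⬝ᵥ E2) * Y + a l ⬝ᵥ (v0 - W l) =
      a l ⬝ᵥ (f X Y - W l) := by
    intro l X Y
    rw [M1_lin, hf]
    congr 1
    abel
  have hgs : ∀ (l : ι) X Y, (a l ⬝ᵥ E1) * X + (a l ⬝ᵥ E2) * Y + a l ⬝ᵥ (v0 + E0 - W l) =
      a l ⬝ᵥ (s X Y - W l) := by
    intro l X Y
    rw [M1_lin, hs]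
    congr 1
    abel
  have hfP : ∀ X Y, toR (f X Y) ∈ P → ∀ m : ι,
      0 ≤ (a m ⬝ᵥ E1) * X + (a m ⬝ᵥ E2) * Y + a m ⬝ᵥ (v0 - W m) := by
    intro X Y hP m
    rw [hgf]
    exact M1_cone D (hWm m) _ hP
  have hsP : ∀ X Y, toR (s X Y) ∈ P → ∀ m : ι,
      0 ≤ (a m ⬝ᵥ E1) * X + (a m ⬝ᵥ E2) * Y + a m ⬝ᵥ (v0 + E0 - W m) := by
    intro X Y hP m
    rw [hgs]
    exact M1_cone D (hWm m) _ hP
  -- values of `U` near a vertex of the facet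
  have hUw : ∀ w : Fin 3 → ℤ, U ⬝ᵥ (w - v0) = 0 → ∀ e : Fin 3 → ℤ,
      U ⬝ᵥ (w + e - v0) = U ⬝ᵥ e := by
    intro w hw e
    have e1 : w + e - v0 = (w - v0) + e := by abel
    rw [e1, dotProduct_add, hw, zero_add]
  have hmain := t2 (ι := ι) (fun l => a l ⬝ᵥ E1) (fun l => a l ⬝ᵥ E2)
    (fun l => a l ⬝ᵥ (v0 - W l)) (fun l => a l ⬝ᵥ (v0 + E0 - W l)) x1 x2 ?_ ?_ ?_ ?_ ?_ ?_
  rotate_left
  · -- hF
    intro l
    have hl0 : U ⬝ᵥ (W l - v0) = 0 := l.2.1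
    have hlne : a l ≠ U := l.2.2
    obtain ⟨iw, hiw⟩ := fv D v0 hv0 i0 (W l) (hWm l) (by rw [← hU]; exact hl0)
    rw [← hU] at hiw
    have hne : l.1.2 ≠ iw := by
      intro he
      apply hlne
      show D.u (W l) l.1.2 = U
      rw [he, hiw]
    obtain ⟨i', hi1, hi2⟩ := M1_third l.1.2 iw
    have hz0 : U ⬝ᵥ (W l + D.e (W l) i' - v0) = 0 := by
      rw [hUw _ hl0, ← hiw, D.dual _ (hWm l), if_neg (Ne.symm hi2)]
    have hr := hrep0 (W l) hl0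
    have hr' := hrep0 _ hz0
    refine ⟨U1 ⬝ᵥ (W l - v0), U2 ⬝ᵥ (W l - v0), U1 ⬝ᵥ (W l + D.e (W l) i' - v0),
      U2 ⬝ᵥ (W l + D.e (W l) i' - v0), ?_, ?_, ?_, ?_, ?_⟩
    · rintro ⟨g1, g2⟩
      rw [g1, g2, ← hr'] at hr
      have h3 : D.e (W l) i' = 0 := by
        have h4 : W l + D.e (W l) i' = W l + 0 := by rw [add_zero]; exact hr.symm
        exact add_left_cancel h4
      have h5 := D.dual (W l) (hWm l) i' i'
      rw [h3, if_pos rfl, dotProduct_zero] at h5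
      exact absurd h5 (by norm_num)
    · rw [hgf, ← hr, sub_self, dotProduct_zero]
    · rw [hgf, ← hr', add_sub_cancel_left]
      show D.u (W l) l.1.2 ⬝ᵥ D.e (W l) i' = 0
      rw [D.dual _ (hWm l), if_neg (Ne.symm hi1)]
    · apply hfP
      rw [← hr]
      exact M1_mem D (hWm l)
    · apply hfP
      rw [← hr']
      exact D.mem _ (hWm l) _
  · -- hS
    intro l
    have hl0 : U ⬝ᵥ (W l - v0) = 0 := l.2.1
    have hlne : a l ≠ U := l.2.2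
    obtain ⟨iw, hiw⟩ := fv D v0 hv0 i0 (W l) (hWm l) (by rw [← hU]; exact hl0)
    rw [← hU] at hiw
    have hne : l.1.2 ≠ iw := by
      intro he
      apply hlne
      show D.u (W l) l.1.2 = U
      rw [he, hiw]
    have hz1 : U ⬝ᵥ (W l + D.e (W l) iw - v0) = 1 := by
      rw [hUw _ hl0, ← hiw, D.dual _ (hWm l), if_pos rfl]
    have hr := hrep1 _ hz1
    refine ⟨U1 ⬝ᵥ (W l + D.e (W l) iw - v0), U2 ⬝ᵥ (W l + D.e (W l) iw - v0), ?_, ?_⟩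
    · rw [hgs, ← hr, add_sub_cancel_left]
      show D.u (W l) l.1.2 ⬝ᵥ D.e (W l) iw = 0
      rw [D.dual _ (hWm l), if_neg hne]
    · apply hsP
      rw [← hr]
      exact D.mem _ (hWm l) _
  · -- hne
    refine ⟨0, 0, hfP 0 0 ?_⟩
    rw [hf]
    simp only [zero_smul, zero_add]
    exact M1_mem D hv0
  · -- hne'
    refine ⟨0, 0, hsP 0 0 ?_⟩
    rw [hs]
    simp only [zero_smul, zero_add]
    rw [hE0]
    exact D.mem _ hv0 _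
  · -- hc
    intro l
    show 0 ≤ (a l ⬝ᵥ E1) * x1 + (a l ⬝ᵥ E2) * x2 + a l ⬝ᵥ (v0 - W l) + a l ⬝ᵥ (v0 + E0 - W l)
    have h1 := hx (W l) (hWm l) l.1.2
    have h2 : (a l ⬝ᵥ E1) * x1 + (a l ⬝ᵥ E2) * x2 + a l ⬝ᵥ (v0 - W l) +
        a l ⬝ᵥ (v0 + E0 - W l) = a l ⬝ᵥ (x - (2 : ℤ) • W l) := by
      rw [M1_lin, ← dotProduct_add]
      congr 1
      have h3 : x = E0 + x1 • E1 + x2 • E2 + (2 : ℤ) • v0 := by rw [← hxe, sub_add_cancel]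
      rw [h3, two_zsmul, two_zsmul]
      abel
    rw [h2]
    exact h1
  · -- hsep
    intro α β γ hA hB
    obtain ⟨y, hy⟩ : ∃ y : Fin 3 → ℝ, y = (1 / 2 : ℝ) • toR x := ⟨_, rfl⟩
    have hyw : ∀ (c w : Fin 3 → ℤ), toR c ⬝ᵥ (y - toR w) =
        (1 / 2 : ℝ) * ((c ⬝ᵥ (x - (2 : ℤ) • w) : ℤ) : ℝ) := by
      intro c w
      rw [← toR_dot, toR_sub, toR_zsmul, hy, dotProduct_sub, dotProduct_sub, dotProduct_smul,
        dotProduct_smul, smul_eq_mul, smul_eq_mul]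
      push_cast
      ring
    have hmem := slc D v0 hv0 i0 (1 / 2) y (by rw [hyw, ← hU, h]; norm_num) (by
      intro w hw _ i
      rw [hyw]
      have h1 : (0 : ℝ) ≤ ((D.u w i ⬝ᵥ (x - (2 : ℤ) • w) : ℤ) : ℝ) := by
        exact_mod_cast hx w hw i
      positivity)
    rw [← hU] at hmem
    obtain ⟨g, hg⟩ : ∃ g : Fin 3 → ℝ, g = (α : ℝ) • toR U1 + (β : ℝ) • toR U2 := ⟨_, rfl⟩
    have hgz : ∀ z : Fin 3 → ℝ, g ⬝ᵥ z = α * (toR U1 ⬝ᵥ z) + β * (toR U2 ⬝ᵥ z) := by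
      intro z
      rw [hg, add_dotProduct, smul_dotProduct, smul_dotProduct, smul_eq_mul, smul_eq_mul]
    have hconv : Convex ℝ {z : Fin 3 → ℝ | (1 + (α * x1 + β * x2 + 2 * γ) : ℝ) / 2 - γ +
        g ⬝ᵥ toR v0 ≤ g ⬝ᵥ z} :=
      convex_halfSpace_ge ⟨dotProduct_add g, fun c z => dotProduct_smul c g z⟩ _
    have hsub : {z : Fin 3 → ℝ | ∃ w ∈ D.Vt, ∃ i, U ⬝ᵥ (w - v0) = 0 ∧
        D.u w i = U ∧ z = toR w + (1 / 2 : ℝ) • toR (D.e w i)} ⊆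
        {z : Fin 3 → ℝ | (1 + (α * x1 + β * x2 + 2 * γ) : ℝ) / 2 - γ +
          g ⬝ᵥ toR v0 ≤ g ⬝ᵥ z} := by
      rintro z ⟨w, hw, i, hw0, hwi, rfl⟩
      have hz1 : U ⬝ᵥ (w + D.e w i - v0) = 1 := by
        rw [hUw _ hw0, ← hwi, D.dual _ hw, if_pos rfl]
      have hr := hrep0 w hw0
      have hr' := hrep1 _ hz1
      have q1 := hA _ _ (hfP _ _ (by rw [← hr]; exact M1_mem D hw))
      have q2 := hB _ _ (hsP _ _ (by rw [← hr']; exact D.mem _ hw _))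
      have q1' : (1 : ℝ) ≤ α * ((U1 ⬝ᵥ (w - v0) : ℤ) : ℝ) + β * ((U2 ⬝ᵥ (w - v0) : ℤ) : ℝ) + γ := by
        exact_mod_cast q1
      have q2' : (α : ℝ) * (x1 - ((U1 ⬝ᵥ (w + D.e w i - v0) : ℤ) : ℝ)) +
          β * (x2 - ((U2 ⬝ᵥ (w + D.e w i - v0) : ℤ) : ℝ)) + γ ≤ 0 := by
        exact_mod_cast q2
      rw [← toR_dot, ← toR_dot, toR_sub, dotProduct_sub, dotProduct_sub] at q1'
      rw [← toR_dot, ← toR_dot, toR_sub, toR_add, dotProduct_sub, dotProduct_sub,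
        dotProduct_add, dotProduct_add] at q2'
      show (1 + (α * x1 + β * x2 + 2 * γ) : ℝ) / 2 - γ + g ⬝ᵥ toR v0 ≤
        g ⬝ᵥ (toR w + (1 / 2 : ℝ) • toR (D.e w i))
      rw [dotProduct_add, dotProduct_smul, smul_eq_mul, hgz, hgz, hgz]
      linarith
    have hfin : (1 + (α * x1 + β * x2 + 2 * γ) : ℝ) / 2 - γ + g ⬝ᵥ toR v0 ≤ g ⬝ᵥ y :=
      convexHull_min hsub hconv hmem
    have hy1 := hyw U1 v0
    have hy2 := hyw U2 v0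
    rw [← hx1, dotProduct_sub] at hy1
    rw [← hx2, dotProduct_sub] at hy2
    rw [hgz, hgz] at hfin
    have e1 : (α : ℝ) * (toR U1 ⬝ᵥ y) = α * (toR U1 ⬝ᵥ toR v0) + α * (1 / 2 * x1) := by
      rw [← mul_add]
      congr 1
      linarith
    have e2 : (β : ℝ) * (toR U2 ⬝ᵥ y) = β * (toR U2 ⬝ᵥ toR v0) + β * (1 / 2 * x2) := by
      rw [← mul_add]
      congr 1
      linarith
    rw [e1, e2] at hfin
    linarith
  · -- conclusion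
    obtain ⟨X, Y, hX, hY⟩ := hmain
    have hsubw : ∀ (z w : Fin 3 → ℤ), U ⬝ᵥ (w - v0) = 0 → U ⬝ᵥ (z - w) = U ⬝ᵥ (z - v0) := by
      intro z w hw
      have e1 : z - w = (z - v0) - (w - v0) := by abel
      rw [e1, dotProduct_sub, hw, sub_zero]
    refine ⟨f X Y, ?_, ?_⟩
    · have hmem := slc D v0 hv0 i0 0 (toR (f X Y)) (by
        rw [← toR_sub, toR_dot, ← hU, hUf]; simp) (by
        intro w hw hw0 i
        rw [← hU] at hw0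
        rw [← toR_sub, toR_dot]
        by_cases hi : D.u w i = U
        · rw [hi, hsubw _ _ hw0, hUf]; simp
        · have h1 := hX ⟨(⟨w, hw⟩, i), hw0, hi⟩
          rw [hgf] at h1
          exact_mod_cast h1)
      refine convexHull_min ?_ (M1_convex D) hmem
      rintro z ⟨w, hw, i, _, _, rfl⟩
      rw [zero_smul, add_zero]
      exact M1_mem D hw
    · rw [hxs]
      have hmem := slc D v0 hv0 i0 1 (toR (s (x1 - X) (x2 - Y))) (by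
        rw [← toR_sub, toR_dot, ← hU, hUs]; simp) (by
        intro w hw hw0 i
        rw [← hU] at hw0
        rw [← toR_sub, toR_dot]
        by_cases hi : D.u w i = U
        · rw [hi, hsubw _ _ hw0, hUs]; simp
        · have h1 := hY ⟨(⟨w, hw⟩, i), hw0, hi⟩
          rw [hgs] at h1
          exact_mod_cast h1)
      refine convexHull_min ?_ (M1_convex D) hmem
      rintro z ⟨w, hw, i, _, _, rfl⟩
      rw [one_smul, ← toR_add]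
      exact D.mem w hw i

end H66OD
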