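import Pool.Agent.H66.OD.Defs

/-!
# Row HRP (about 60 lines): `P` is the intersection of its tangent cones

PROOF. Suppose `y ∉ P`. `P` is convex and closed (hull of a finite set), so there is a continuous linear `f` and
`r` with `f x < r < f y` for `x ∈ P` (`geometric_hahn_banach_closed_point`). Let `v ∈ Vt` maximise `f (toR v)`
over the finite nonempty `Vt`; then `f ≤ f (toR v)` on `P = conv`. `toR (v + e v i) ∈ P` gives
`f (toR (e v i)) ≤ 0`. By `span` applied to `y - toR v`:
`f y = f (toR v) + Σ (toR (u v i) ⬝ᵥ (y - toR v)) f (toR (e v i)) ≤ f (toR v) < r < f y`. Contradiction.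
-/

open Matrix

namespace H66OD

theorem hrp {P : Set (Fin 3 → ℝ)} (D : SmoothData P) (y : Fin 3 → ℝ)
    (h : ∀ v ∈ D.Vt, ∀ i, 0 ≤ toR (D.u v i) ⬝ᵥ (y - toR v)) : y ∈ P := by
  by_contra hy
  have hfin : (toR '' (D.Vt : Set (Fin 3 → ℤ))).Finite := D.Vt.finite_toSet.image _
  have hconv : Convex ℝ P := by
    rw [D.hull]
    exact convex_convexHull ℝ _
  have hclosed : IsClosed P := by
    rw [D.hull]
    exact hfin.isClosed_convexHull (𝕜 := ℝ)
  obtain ⟨f, r, hf1, hf2⟩ := geometric_hahn_banach_closed_point hconv hclosed hy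
  obtain ⟨v, hv, hmax⟩ := D.Vt.exists_max_image (fun v => f (toR v)) D.ne
  have hvP : toR v ∈ P := by
    rw [D.hull]
    exact subset_convexHull ℝ _ ⟨v, hv, rfl⟩
  have hle : ∀ x ∈ P, f x ≤ f (toR v) := by
    intro x hx
    have hsub : P ⊆ {w | f w ≤ f (toR v)} := by
      rw [D.hull]
      apply convexHull_min
      · rintro _ ⟨w, hw, rfl⟩
        exact hmax w hw
      · exact convex_halfSpace_le f.toLinearMap.isLinear (f (toR v))
    exact hsub hx
  have he : ∀ i, f (toR (D.e v i)) ≤ 0 := by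
    intro i
    have h1 := hle _ (D.mem v hv i)
    rw [toR_add, map_add] at h1
    linarith
  have hs : f (y - toR v) = ∑ i, (toR (D.u v i) ⬝ᵥ (y - toR v)) * f (toR (D.e v i)) := by
    have h1 := congrArg f (D.span v hv (y - toR v))
    rw [h1, map_sum]
    apply Finset.sum_congr rfl
    intro i _
    rw [map_smul, smul_eq_mul]
  have hneg : f (y - toR v) ≤ 0 := by
    rw [hs]
    apply Finset.sum_nonpos
    intro i _
    exact mul_nonpos_of_nonneg_of_nonpos (h v hv i) (he i)
  rw [map_sub] at hneg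
  have h2 := hf1 _ hvP
  linarith

end H66OD
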