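import Pool.Agent.H66.OD.PAR3

/-!
# Row IND (about 120 lines): any three touching points are linearly independent

PROOF. Let `g1,g2,g3 : Fin 3 → ℤ` be the integer vectors with `toR (g l) = 2 • w _` (`w = c + toR z`,
so `g l = g + 2 z`). All are `≡ g` mod 2, and `g` is not `≡ 0` mod 2 (else `c` would be an integer
vector, `C.hc`). Suppose the three `w`'s are linearly dependent over `ℝ`; then the integer matrix with
rows `g l` has determinant zero, and there is an integer relation `x1 g1 + x2 g2 + x3 g3 = 0`,
`(x1,x2,x3) ≠ 0` (`Matrix.exists_vecMul_eq_zero_iff` over ℤ). Dividing by 2 as long as all `x` are even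
(infinite descent, or choose the relation with minimal `Σ |x|`, or divide by the gcd) we may assume
that not all `x` are even. Modulo 2: `(x1+x2+x3) g ≡ 0`, so `x1+x2+x3` is even (some coordinate of `g` is
odd). Hence exactly two of the `x` are odd, say `x1, x2` odd and `x3` even (three symmetric cases).
Modulo 4: `x3 g3 ≡ 0` or `≡ 2 g3 ≡ 2 g2` (as `g3 ≡ g2` mod 2) mod 4. `x1, x2 ≡ ±1` mod 4. So
`g1 ≡ ± g2` or `g1 ≡ ± g2 + 2 g2 ≡ ∓ g2` mod 4. So in all cases `g1 ≡ g2` or `g1 ≡ -g2` mod 4, i.e.
`2 (w1 - w2)` or `2 (w1 + w2)` is 4 times an integer vector, contradicting `par3_neq`.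
-/

open Matrix

namespace H66OD

theorem IND_key {n : ℕ} (C : Cfg n) (i j : Fin n) (hij : i ≠ j) (zi zj zk : Fin 3 → ℤ)
    (hwi : C.w i = C.c + toR zi) (hwj : C.w j = C.c + toR zj)
    (y0 y1 y2 : ℤ) (h0 : Odd y0) (h1 : Odd y1) (h2 : Even y2)
    (hrel : ∀ s, y0 * (C.g s + 2 * zi s) + y1 * (C.g s + 2 * zj s) + y2 * (C.g s + 2 * zk s) = 0) :
    False := by
  obtain ⟨a, rfl⟩ := h0
  obtain ⟨b, rfl⟩ := h1
  obtain ⟨m, rfl⟩ := h2
  rcases Int.even_or_odd (a + b + m) with ⟨q, hq⟩ | ⟨q, hq⟩
  · -- the sum
    refine (par3_neq C i j hij).2 ⟨fun s => -((q + q - a - q) * (C.g s + 2 * zj s) +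
      m * (zk s - zj s)) * (2 * a + 1) -
      (a ^ 2 + a) * ((C.g s + 2 * zi s) + (C.g s + 2 * zj s)), ?_⟩
    have hc : (2 : ℝ) • C.c = toR C.g := C.hg.symm
    have key : ∀ s, C.g s + zi s + zj s = 2 * (-((q + q - a - q) * (C.g s + 2 * zj s) +
      m * (zk s - zj s)) * (2 * a + 1) -
      (a ^ 2 + a) * ((C.g s + 2 * zi s) + (C.g s + 2 * zj s))) := by
      intro s
      have hs := hrel s
      have hb : b = q + q - a - m := by linarith
      subst hb
      refine mul_left_cancel₀ (two_ne_zero (α := ℤ)) ?_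
      linear_combination (2 * a + 1) * hs
    rw [hwi, hwj]
    ext s
    have hcs := congrFun hc s
    simp only [Pi.smul_apply, smul_eq_mul, toR_apply] at hcs
    have ks := congrArg (fun t : ℤ => (t : ℝ)) (key s)
    simp only [Pi.add_apply, toR_apply, Pi.smul_apply, smul_eq_mul]
    push_cast at ks ⊢
    linarith
  · refine (par3_neq C i j hij).1 ⟨fun s => -((q + 1) * (C.g s + 2 * zj s) +
      m * (zk s - zj s)) * (2 * a + 1) -
      (a ^ 2 + a) * ((C.g s + 2 * zi s) - (C.g s + 2 * zj s)), ?_⟩
    have key : ∀ s, zi s - zj s = 2 * (-((q + 1) * (C.g s + 2 * zj s) +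
      m * (zk s - zj s)) * (2 * a + 1) -
      (a ^ 2 + a) * ((C.g s + 2 * zi s) - (C.g s + 2 * zj s))) := by
      intro s
      have hs := hrel s
      have hb : b = 2 * q + 1 - a - m := by linarith
      subst hb
      refine mul_left_cancel₀ (two_ne_zero (α := ℤ)) ?_
      linear_combination (2 * a + 1) * hs
    rw [hwi, hwj]
    ext s
    have ks := congrArg (fun t : ℤ => (t : ℝ)) (key s)
    simp only [Pi.sub_apply, Pi.add_apply, toR_apply, Pi.smul_apply, smul_eq_mul]
    push_cast at ks ⊢
    linarith

theorem IND_desc (M : Matrix (Fin 3) (Fin 3) ℤ) : ∀ (N : ℕ) (x : Fin 3 → ℤ),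
    (x 0).natAbs + (x 1).natAbs + (x 2).natAbs ≤ N → x ≠ 0 → x ᵥ* M = 0 →
    ∃ y : Fin 3 → ℤ, y ᵥ* M = 0 ∧ ∃ l, Odd (y l) := by
  intro N
  induction N with
  | zero =>
    intro x hx hne _
    exfalso
    apply hne
    funext l
    fin_cases l
    · show x 0 = 0
      omega
    · show x 1 = 0
      omega
    · show x 2 = 0
      omega
  | succ N ih =>
    intro x hx hne hrel
    by_cases h : ∃ l, Odd (x l)
    · exact ⟨x, hrel, h⟩
    · push Not at h
      have h' : ∀ l, ∃ m, x l = m + m := fun l => Int.not_odd_iff_even.1 (h l)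
      choose y hy using h'
      have hxy : x = (2 : ℤ) • y := by
        funext l
        rw [hy l]
        simp [two_mul]
      have hyne : y ≠ 0 := by
        rintro rfl
        apply hne
        rw [hxy, smul_zero]
      refine ih y ?_ hyne ?_
      · have h0 := hy 0
        have h1 := hy 1
        have h2 := hy 2
        have hpos : y 0 ≠ 0 ∨ y 1 ≠ 0 ∨ y 2 ≠ 0 := by
          by_contra hcon
          push Not at hcon
          apply hyne
          funext l
          fin_cases l
          · exact hcon.1
          · exact hcon.2.1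
          · exact hcon.2.2
        omega
      · rw [hxy, Matrix.smul_vecMul] at hrel
        funext s
        have := congrFun hrel s
        simp only [Pi.smul_apply, smul_eq_mul, Pi.zero_apply] at this ⊢
        omega

theorem ind {n : ℕ} (C : Cfg n) (i j k : Fin n) (hij : i ≠ j) (hik : i ≠ k) (hjk : j ≠ k) :
    LinearIndependent ℝ ![C.w i, C.w j, C.w k] := by
  obtain ⟨zi, hzi⟩ := C.hw i
  obtain ⟨zj, hzj⟩ := C.hw j
  obtain ⟨zk, hzk⟩ := C.hw k
  obtain ⟨M, hM⟩ : ∃ M : Matrix (Fin 3) (Fin 3) ℤ, M = Matrix.of ![fun s => C.g s + 2 * zi s,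
    fun s => C.g s + 2 * zj s, fun s => C.g s + 2 * zk s] := ⟨_, rfl⟩
  have hc : ∀ s, (C.g s : ℝ) = 2 * C.c s := by
    intro s
    have := congrFun C.hg s
    simpa using this
  have hMW : M.map (fun t : ℤ => (t : ℝ)) = (2 : ℝ) • Matrix.of ![C.w i, C.w j, C.w k] := by
    ext l s
    rw [hM, hzi, hzj, hzk]
    fin_cases l <;>
    · simp only [Matrix.map_apply, Matrix.of_apply, Matrix.smul_apply, smul_eq_mul, Fin.zero_eta,
        Fin.mk_one, Fin.reduceFinMk, Matrix.cons_val_zero, Matrix.cons_val_one, Matrix.cons_val,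
        Pi.add_apply, toR_apply]
      push_cast
      rw [hc]
      ring
  by_cases hdet : M.det = 0
  · exfalso
    obtain ⟨x, hx, hxM⟩ := Matrix.exists_vecMul_eq_zero_iff.2 hdet
    obtain ⟨y, hyM, l, hl⟩ := IND_desc M _ x le_rfl hx hxM
    have hrel : ∀ s, y 0 * (C.g s + 2 * zi s) + y 1 * (C.g s + 2 * zj s) +
        y 2 * (C.g s + 2 * zk s) = 0 := by
      intro s
      have := congrFun hyM s
      rw [hM] at this
      simpa [Matrix.vecMul, dotProduct, Fin.sum_univ_three] using this
    -- an odd coordinate of g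
    obtain ⟨r, hr⟩ : ∃ r, Odd (C.g r) := by
      by_contra hcon
      push Not at hcon
      have h' : ∀ r, ∃ m, C.g r = m + m := fun r => Int.not_odd_iff_even.1 (hcon r)
      choose z hz using h'
      refine C.hc z ?_
      funext s
      have h1 := hc s
      rw [hz s] at h1
      push_cast at h1
      show (z s : ℝ) = C.c s
      linarith
    have hpar : Even (y 0 + y 1 + y 2) := by
      have h1 := hrel r
      have h2 : (y 0 + y 1 + y 2) * C.g r = -(2 * (y 0 * zi r + y 1 * zj r + y 2 * zk r)) := by
        linarith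
      have h3 : Even ((y 0 + y 1 + y 2) * C.g r) := by
        rw [h2]
        exact (even_two_mul _).neg
      rcases Int.even_mul.1 h3 with h4 | h4
      · exact h4
      · exact absurd h4 (Int.not_even_iff_odd.2 hr)
    have hl' : Odd (y 0) ∨ Odd (y 1) ∨ Odd (y 2) := by
      fin_cases l
      · exact Or.inl hl
      · exact Or.inr (Or.inl hl)
      · exact Or.inr (Or.inr hl)
    rcases Int.even_or_odd (y 0) with e0 | o0
    · rcases Int.even_or_odd (y 1) with e1 | o1
      · have o2 : Odd (y 2) := by
          rcases hl' with h | h | h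
          · exact absurd e0 (Int.not_even_iff_odd.2 h)
          · exact absurd e1 (Int.not_even_iff_odd.2 h)
          · exact h
        have : Odd (y 0 + y 1 + y 2) := (e0.add e1).add_odd o2
        exact (Int.not_even_iff_odd.2 this) hpar
      · have o2 : Odd (y 2) := by
          rcases Int.even_or_odd (y 2) with e2 | o2
          · have : Odd (y 0 + y 1 + y 2) := (e0.add_odd o1).add_even e2
            exact absurd hpar (Int.not_even_iff_odd.2 this)
          · exact o2
        exact IND_key C j k hjk zj zk zi hzj hzk (y 1) (y 2) (y 0) o1 o2 e0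
          (fun s => by have := hrel s; linarith)
    · rcases Int.even_or_odd (y 1) with e1 | o1
      · have o2 : Odd (y 2) := by
          rcases Int.even_or_odd (y 2) with e2 | o2
          · have : Odd (y 0 + y 1 + y 2) := (o0.add_even e1).add_even e2
            exact absurd hpar (Int.not_even_iff_odd.2 this)
          · exact o2
        exact IND_key C i k hik zi zk zj hzi hzk (y 0) (y 2) (y 1) o0 o2 e1
          (fun s => by have := hrel s; linarith)
      · have e2 : Even (y 2) := by
          rcases Int.even_or_odd (y 2) with e2 | o2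
          · exact e2
          · have : Odd (y 0 + y 1 + y 2) := (o0.add_odd o1).add_odd o2
            exact absurd hpar (Int.not_even_iff_odd.2 this)
        exact IND_key C i j hij zi zj zk hzi hzj (y 0) (y 1) (y 2) o0 o1 e2 hrel
  · have h1 : (Matrix.of ![C.w i, C.w j, C.w k]).det ≠ 0 := by
      intro h0
      apply hdet
      have h2 : (M.map (fun t : ℤ => (t : ℝ))).det = 0 := by
        rw [hMW, Matrix.det_smul, h0, mul_zero]
      have h3 : (M.map (fun t : ℤ => (t : ℝ))).det = ((M.det : ℤ) : ℝ) :=
        ((Int.castRingHom ℝ).map_det M).symm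
      rw [h3] at h2
      exact_mod_cast h2
    have h2 := Matrix.linearIndependent_rows_of_det_ne_zero h1
    exact h2

end H66OD
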