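import Pool.Agent.H66.OD.Defs

/-!
# Row OCT (about 60 lines)

A point `p = c + toR z` of the coset with `p = s 0 • w i + s 1 • w j + s 2 • w k`,
`|s 0| + |s 1| + |s 2| ≤ 1`, has some `|s l| = 1`.
PROOF. Suppose not, so `|s l| < 1` for all `l`. `hcov`: some `m` with `|a m ⬝ p| ≥ 1`.
`|a m ⬝ p| ≤ |s 0| |a m ⬝ w i| + |s 1| |a m ⬝ w j| + |s 2| |a m ⬝ w k|`.
If `m` is none of `i,j,k`: all three `|a m ⬝ w _| < 1`, so the sum is `< |s0|+|s1|+|s2| ≤ 1` if some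
`s l ≠ 0`, and is `0 < 1` if all `s l = 0`. If `m = i` (others symmetric): `a i ⬝ w i = 1`, so the bound is
`|s 0| + |s 1| x + |s 2| y` with `x, y < 1`: if `s 1 = s 2 = 0` it is `|s 0| < 1`, else it is
`< |s0|+|s1|+|s2| ≤ 1`. Contradiction.
-/

open Matrix

namespace H66OD

theorem OCT_real (S0 S1 S2 x0 x1 x2 : ℝ) (h0 : 0 ≤ S0) (h1 : 0 ≤ S1) (h2 : 0 ≤ S2)
    (hS : S0 + S1 + S2 ≤ 1) (hS0 : S0 < 1) (hx0 : x0 ≤ 1) (hx1 : x1 < 1) (hx2 : x2 < 1) :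
    S0 * x0 + S1 * x1 + S2 * x2 < 1 := by
  have a0 : S0 * x0 ≤ S0 := by nlinarith
  have a1 : S1 * x1 ≤ S1 := by nlinarith
  have a2 : S2 * x2 ≤ S2 := by nlinarith
  rcases h1.eq_or_lt with h1' | h1'
  · rcases h2.eq_or_lt with h2' | h2'
    · rw [← h1', ← h2']
      linarith
    · have : S2 * x2 < S2 := by nlinarith
      linarith
  · have : S1 * x1 < S1 := by nlinarith
    linarith

theorem oct {n : ℕ} (C : Cfg n) (i j k : Fin n) (hij : i ≠ j) (hik : i ≠ k) (hjk : j ≠ k)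
    (z : Fin 3 → ℤ) (s : Fin 3 → ℝ)
    (hz : C.c + toR z = s 0 • C.w i + s 1 • C.w j + s 2 • C.w k)
    (hs : |s 0| + |s 1| + |s 2| ≤ 1) : ∃ l, |s l| = 1 := by
  by_contra hcon
  push Not at hcon
  have p0 := abs_nonneg (s 0)
  have p1 := abs_nonneg (s 1)
  have p2 := abs_nonneg (s 2)
  have q0 : |s 0| < 1 := lt_of_le_of_ne (by linarith) (hcon 0)
  have q1 : |s 1| < 1 := lt_of_le_of_ne (by linarith) (hcon 1)
  have q2 : |s 2| < 1 := lt_of_le_of_ne (by linarith) (hcon 2)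
  obtain ⟨m, hm⟩ := C.hcov z
  rw [hz, dotProduct_add, dotProduct_add, dotProduct_smul, dotProduct_smul, dotProduct_smul,
    smul_eq_mul, smul_eq_mul, smul_eq_mul] at hm
  have hb : |s 0 * (C.a m ⬝ᵥ C.w i) + s 1 * (C.a m ⬝ᵥ C.w j) + s 2 * (C.a m ⬝ᵥ C.w k)|
      ≤ |s 0| * |C.a m ⬝ᵥ C.w i| + |s 1| * |C.a m ⬝ᵥ C.w j| + |s 2| * |C.a m ⬝ᵥ C.w k| := by
    rw [← abs_mul, ← abs_mul, ← abs_mul]
    exact abs_add_three _ _ _
  have hdi : m ≠ i → |C.a m ⬝ᵥ C.w i| < 1 := fun h => C.h2 i m (Ne.symm h)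
  have hdj : m ≠ j → |C.a m ⬝ᵥ C.w j| < 1 := fun h => C.h2 j m (Ne.symm h)
  have hdk : m ≠ k → |C.a m ⬝ᵥ C.w k| < 1 := fun h => C.h2 k m (Ne.symm h)
  rcases eq_or_ne m i with hmi | hmi
  · have e : |C.a m ⬝ᵥ C.w i| = 1 := by rw [hmi, C.h1 i, abs_one]
    have := OCT_real (|s 0|) (|s 1|) (|s 2|) _ _ _ p0 p1 p2 hs q0 e.le
      (hdj (by rw [hmi]; exact hij)) (hdk (by rw [hmi]; exact hik))
    linarith
  · rcases eq_or_ne m j with hmj | hmj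
    · have e : |C.a m ⬝ᵥ C.w j| = 1 := by rw [hmj, C.h1 j, abs_one]
      have := OCT_real (|s 1|) (|s 0|) (|s 2|) _ _ _ p1 p0 p2 (by linarith) q1 e.le
        (hdi hmi) (hdk (by rw [hmj]; exact hjk))
      linarith
    · rcases eq_or_ne m k with hmk | hmk
      · have e : |C.a m ⬝ᵥ C.w k| = 1 := by rw [hmk, C.h1 k, abs_one]
        have := OCT_real (|s 2|) (|s 0|) (|s 1|) _ _ _ p2 p0 p1 (by linarith) q2 e.le
          (hdi hmi) (hdj hmj)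
        linarith
      · have := OCT_real (|s 0|) (|s 1|) (|s 2|) _ _ _ p0 p1 p2 hs q0 (hdi hmi).le
          (hdj hmj) (hdk hmk)
        linarith

end H66OD
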