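import Pool.Agent.H66.OD.FRC
import Pool.Agent.H66.OD.IND
import Pool.Agent.H66.OD.OCT

/-!
# Row GEN (about 200 lines): any three touching points generate

Every integer vector is `m0 w_i + m1 w_j + m2 w_k` with integers `m`, `m0+m1+m2` even.

PROOF. Write `w0,w1,w2` for the three points, `w l = c + toR (ζ l)`. They are a basis of `ℝ³` (`ind`);
let `t l : (Fin 3 → ℝ) → ℝ` be the (linear) coordinates. Put `z 0 = (t0+t1+t2)/2`, `z 1 = (t0-t1-t2)/2`,
`z 2 = (-t0+t1-t2)/2`, `z 3 = (-t0-t1+t2)/2` as additive maps on `G = (Fin 3 → ℤ)` (composed with `toR`).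
Sum zero. Apply `frc`; its conclusion gives for `y` integers `z i y`, and
`t0 = z 0 + z 1`, `t1 = z 0 + z 2`, `t2 = z 0 + z 3`, `t0+t1+t2 = 2 z 0`: the claim.
htor: the integer vectors `g l` with `toR (g l) = 2 • w l` are linearly independent; with
`D = det ≠ 0` of the integer matrix (rows `g l`), `D • q` is an integer combination of the `g l`
(adjugate matrix), so `t l (D q)` is an even integer, `z i (D q)` is an integer; take `K = |D|`.
H1, H2: let `q` be an integer vector, `f i = fract (z i q)`, `Σ f i = S`, where `S = 2` and `δ = 0`, or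
`S = 1`, `f i0 = 0` and `δ i0 = 1`, `δ i = 0` otherwise. So `Σ δ i = 2 - S`.
Let `k i = ⌊z i q⌋`, `Σ k i = -S`, and `n i = k i + 1 - δ i` for `i = 0,1`, `n i = k i - δ i` for
`i = 2,3`. `Σ n i = -S + 2 - Σ δ = 0`. Let `m0 = n 0 + n 1`, `m1 = n 0 + n 2`, `m2 = n 0 + n 3`,
`m0+m1+m2 = 2 n 0`. The vector `N = m0 w0 + m1 w1 + m2 w2` is an integer vector:
`N = (m0+m1+m2) c + Σ m l toR (ζ l) = toR (n 0 • g + Σ m l • ζ l)`; its `z`-values are `n i`
(using `Σ n i = 0`: e.g. `z 1 (N) = (m0-m1-m2)/2 = (n 1 - n 0 - n 2 - n 3)/2 = n 1`).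
`p = w0 + toR q - N` is a point `c + integer`, with `z i p = z i (w0) + z i q - n i` where
`z (w0) = (1/2,1/2,-1/2,-1/2)`, so `z i p = f i - 1/2 + δ i`, of absolute value `≤ 1/2` (for `δ i = 1`
we have `f i = 0`). The coordinates `s l = t l (p)` satisfy `|s0|+|s1|+|s2| ≤ 1` since
`s0+s1+s2 = 2 z0`, `s0-s1-s2 = 2 z1`, `-s0+s1-s2 = 2 z2`, `-s0-s1+s2 = 2 z3` have absolute value `≤ 1`
(all eight sign patterns up to sign). By `oct` some `|s l| = 1`, so the other two coordinates vanish and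
all `z i p = ±1/2`; so `f i - 1/2 + δ i = ± 1/2`: `f i ∈ {0,1}` or (`δ i = 1`) `f i = 0`; as `f i < 1`
all `f i = 0`, so `S = 0`: contradiction. (For H1: `S = 1` and some `f i0 = 0`.)
-/

open Matrix

namespace H66OD

theorem GEN_coord {w : Fin 3 → (Fin 3 → ℝ)} (h : LinearIndependent ℝ w) :
    ∃ t : Fin 3 → ((Fin 3 → ℝ) →ₗ[ℝ] ℝ), (∀ x, x = t 0 x • w 0 + t 1 x • w 1 + t 2 x • w 2) ∧
      ∀ l m, t l (w m) = if l = m then 1 else 0 := by
  have hcard : Fintype.card (Fin 3) = Module.finrank ℝ (Fin 3 → ℝ) := by simp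
  let b := basisOfLinearIndependentOfCardEqFinrank h hcard
  have hb : ∀ l, b l = w l := fun l => by
    simp [b]
  refine ⟨fun l => b.coord l, ?_, ?_⟩
  · intro x
    have h1 := b.sum_repr x
    rw [Fin.sum_univ_three, hb, hb, hb] at h1
    exact h1.symm
  · intro l m
    rw [← hb m, Module.Basis.coord_apply, Module.Basis.repr_self, Finsupp.single_apply]
    simp only [eq_comm]

/-- `toR` as an additive map -/
def GEN_T : (Fin 3 → ℤ) →+ (Fin 3 → ℝ) where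
  toFun := toR
  map_zero' := toR_zero
  map_add' := toR_add

theorem GEN_abs {P0 P1 P2 P3 s0 s1 s2 : ℝ} (h0 : |P0| ≤ 1 / 2) (h1 : |P1| ≤ 1 / 2) (h2 : |P2| ≤ 1 / 2)
    (h3 : |P3| ≤ 1 / 2) (e0 : s0 + s1 + s2 = 2 * P0) (e1 : s0 - s1 - s2 = 2 * P1)
    (e2 : -s0 + s1 - s2 = 2 * P2) (e3 : -s0 - s1 + s2 = 2 * P3) : |s0| + |s1| + |s2| ≤ 1 := by
  rw [abs_le] at h0 h1 h2 h3
  obtain ⟨a0, b0⟩ := h0
  obtain ⟨a1, b1⟩ := h1
  obtain ⟨a2, b2⟩ := h2
  obtain ⟨a3, b3⟩ := h3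
  rcases abs_cases s0 with ⟨c0, _⟩ | ⟨c0, _⟩ <;> rcases abs_cases s1 with ⟨c1, _⟩ | ⟨c1, _⟩ <;>
    rcases abs_cases s2 with ⟨c2, _⟩ | ⟨c2, _⟩ <;> rw [c0, c1, c2] <;> linarith

theorem GEN_one {P s0 s1 s2 : ℝ} {l : Fin 3} (hs : |s0| + |s1| + |s2| ≤ 1) (hl : |(![s0, s1, s2] : Fin 3 → ℝ) l| = 1)
    (e : s0 + s1 + s2 = 2 * P ∨ s0 - s1 - s2 = 2 * P ∨ -s0 + s1 - s2 = 2 * P ∨ -s0 - s1 + s2 = 2 * P) :
    |P| = 1 / 2 := by
  have n0 := abs_nonneg s0
  have n1 := abs_nonneg s1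
  have n2 := abs_nonneg s2
  have key : ∀ x y z : ℝ, |x| = 1 → |x| + |y| + |z| ≤ 1 → y = 0 ∧ z = 0 := by
    intro x y z hx hxyz
    have ny := abs_nonneg y
    have nz := abs_nonneg z
    constructor
    · exact abs_eq_zero.1 (by linarith)
    · exact abs_eq_zero.1 (by linarith)
  have fin : ∀ x : ℝ, |x| = 1 → (x = 2 * P ∨ -x = 2 * P) → |P| = 1 / 2 := by
    intro x hx h
    have h2 : |2 * P| = 1 := by
      rcases h with h | h
      · rw [← h]; exact hx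
      · rw [← h, abs_neg]; exact hx
    rw [abs_mul, abs_two] at h2
    linarith
  fin_cases l
  · have hl' : |s0| = 1 := hl
    obtain ⟨z1, z2⟩ := key s0 s1 s2 hl' hs
    subst z1
    subst z2
    apply fin s0 hl'
    rcases e with e | e | e | e
    · left; linarith
    · left; linarith
    · right; linarith
    · right; linarith
  · have hl' : |s1| = 1 := hl
    obtain ⟨z1, z2⟩ := key s1 s0 s2 hl' (by linarith)
    subst z1
    subst z2
    apply fin s1 hl'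
    rcases e with e | e | e | e
    · left; linarith
    · right; linarith
    · left; linarith
    · right; linarith
  · have hl' : |s2| = 1 := hl
    obtain ⟨z1, z2⟩ := key s2 s0 s1 hl' (by linarith)
    subst z1
    subst z2
    apply fin s2 hl'
    rcases e with e | e | e | e
    · left; linarith
    · right; linarith
    · right; linarith
    · left; linarith

theorem gen {n : ℕ} (C : Cfg n) (i j k : Fin n) (hij : i ≠ j) (hik : i ≠ k) (hjk : j ≠ k)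
    (y : Fin 3 → ℤ) : ∃ m0 m1 m2 : ℤ,
      toR y = (m0 : ℝ) • C.w i + (m1 : ℝ) • C.w j + (m2 : ℝ) • C.w k ∧ Even (m0 + m1 + m2) := by
  obtain ⟨t, hx, htw⟩ := GEN_coord (ind C i j k hij hik hjk)
  have hx' : ∀ x, x = t 0 x • C.w i + t 1 x • C.w j + t 2 x • C.w k := hx
  have t00 : t 0 (C.w i) = 1 := by simpa using htw 0 0
  have t01 : t 0 (C.w j) = 0 := by simpa using htw 0 1
  have t02 : t 0 (C.w k) = 0 := by simpa using htw 0 2
  have t10 : t 1 (C.w i) = 0 := by simpa using htw 1 0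
  have t11 : t 1 (C.w j) = 1 := by simpa using htw 1 1
  have t12 : t 1 (C.w k) = 0 := by simpa using htw 1 2
  have t20 : t 2 (C.w i) = 0 := by simpa using htw 2 0
  have t21 : t 2 (C.w j) = 0 := by simpa using htw 2 1
  have t22 : t 2 (C.w k) = 1 := by simpa using htw 2 2
  obtain ⟨ζ0, hζ0⟩ := C.hw i
  obtain ⟨ζ1, hζ1⟩ := C.hw j
  obtain ⟨ζ2, hζ2⟩ := C.hw k
  obtain ⟨zl, hzl⟩ : ∃ zl : Fin 4 → ((Fin 3 → ℝ) →ₗ[ℝ] ℝ), zl =
      ![(1 / 2 : ℝ) • (t 0 + t 1 + t 2), (1 / 2 : ℝ) • (t 0 - t 1 - t 2), (1 / 2 : ℝ) • (-t 0 + t 1 - t 2),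
        (1 / 2 : ℝ) • (-t 0 - t 1 + t 2)] := ⟨_, rfl⟩
  have z0 : ∀ x, zl 0 x = (t 0 x + t 1 x + t 2 x) / 2 := fun x => by rw [hzl]; simp; ring
  have z1 : ∀ x, zl 1 x = (t 0 x - t 1 x - t 2 x) / 2 := fun x => by rw [hzl]; simp; ring
  have z2 : ∀ x, zl 2 x = (-t 0 x + t 1 x - t 2 x) / 2 := fun x => by rw [hzl]; simp; ring
  have z3 : ∀ x, zl 3 x = (-t 0 x - t 1 x + t 2 x) / 2 := fun x => by rw [hzl]; simp; ring
  obtain ⟨z, hz⟩ : ∃ z : Fin 4 → (Fin 3 → ℤ) →+ ℝ, ∀ l q, z l q = zl l (toR q) :=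
    ⟨fun l => (zl l).toAddMonoidHom.comp GEN_T, fun l q => rfl⟩
  have hsum : ∀ q, ∑ l, z l q = 0 := by
    intro q
    rw [Fin.sum_univ_four, hz, hz, hz, hz, z0, z1, z2, z3]
    ring
  -- torsion
  have htor : ∀ q, ∃ K : ℕ, 1 ≤ K ∧ ∀ l, ∃ m : ℤ, z l (K • q) = m := by
    intro q
    obtain ⟨M, hM⟩ : ∃ M : Matrix (Fin 3) (Fin 3) ℤ, M =
      Matrix.of ![C.g + (2 : ℤ) • ζ0, C.g + (2 : ℤ) • ζ1, C.g + (2 : ℤ) • ζ2] := ⟨_, rfl⟩
    have hrow : ∀ r : Fin 3 → ℤ, toR (r ᵥ* M) =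
        (2 * (r 0 : ℝ)) • C.w i + (2 * (r 1 : ℝ)) • C.w j + (2 * (r 2 : ℝ)) • C.w k := by
      intro r
      have e1 : r ᵥ* M = r 0 • (C.g + (2 : ℤ) • ζ0) + r 1 • (C.g + (2 : ℤ) • ζ1) + r 2 • (C.g + (2 : ℤ) • ζ2) := by
        rw [hM]
        ext a
        simp [Matrix.vecMul, dotProduct, Fin.sum_univ_three]
        ring
      rw [e1, toR_add, toR_add, toR_zsmul, toR_zsmul, toR_zsmul, toR_add, toR_add, toR_add, toR_zsmul, toR_zsmul,
        toR_zsmul, C.hg, hζ0, hζ1, hζ2]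
      ext a
      simp only [Pi.add_apply, Pi.smul_apply, smul_eq_mul]
      push_cast
      ring
    have htr : ∀ r : Fin 3 → ℤ, t 0 (toR (r ᵥ* M)) = 2 * r 0 ∧ t 1 (toR (r ᵥ* M)) = 2 * r 1 ∧
        t 2 (toR (r ᵥ* M)) = 2 * r 2 := by
      intro r
      rw [hrow]
      simp only [map_add, map_smul, smul_eq_mul, t00, t01, t02, t10, t11, t12, t20, t21, t22]
      refine ⟨by ring, by ring, by ring⟩
    have hdet : M.det ≠ 0 := by
      intro h0
      obtain ⟨v, hv, hv0⟩ := Matrix.exists_vecMul_eq_zero_iff.2 h0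
      apply hv
      obtain ⟨a0, a1, a2⟩ := htr v
      rw [hv0, toR_zero, map_zero] at a0 a1 a2
      funext a
      fin_cases a
      · have : (v 0 : ℝ) = 0 := by linarith
        exact_mod_cast this
      · have : (v 1 : ℝ) = 0 := by linarith
        exact_mod_cast this
      · have : (v 2 : ℝ) = 0 := by linarith
        exact_mod_cast this
    have hDq : M.det • q = (q ᵥ* M.adjugate) ᵥ* M := by
      rw [Matrix.vecMul_vecMul, Matrix.adjugate_mul, Matrix.vecMul_smul, Matrix.vecMul_one]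
    have hint : ∀ l, ∃ m : ℤ, z l (M.det • q) = m := by
      intro l
      obtain ⟨a0, a1, a2⟩ := htr (q ᵥ* M.adjugate)
      rw [hDq]
      obtain ⟨r, hr⟩ : ∃ r : Fin 3 → ℤ, r = q ᵥ* M.adjugate := ⟨_, rfl⟩
      rw [← hr] at a0 a1 a2 ⊢
      fin_cases l
      · refine ⟨r 0 + r 1 + r 2, ?_⟩
        show z 0 (r ᵥ* M) = _
        rw [hz, z0, a0, a1, a2]
        push_cast
        ring
      · refine ⟨r 0 - r 1 - r 2, ?_⟩
        show z 1 (r ᵥ* M) = _
        rw [hz, z1, a0, a1, a2]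
        push_cast
        ring
      · refine ⟨-r 0 + r 1 - r 2, ?_⟩
        show z 2 (r ᵥ* M) = _
        rw [hz, z2, a0, a1, a2]
        push_cast
        ring
      · refine ⟨-r 0 - r 1 + r 2, ?_⟩
        show z 3 (r ᵥ* M) = _
        rw [hz, z3, a0, a1, a2]
        push_cast
        ring
    refine ⟨M.det.natAbs, Int.natAbs_pos.2 hdet, ?_⟩
    intro l
    obtain ⟨m, hm⟩ := hint l
    rcases Int.natAbs_eq M.det with h | h
    · refine ⟨m, ?_⟩
      rw [← hm]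
      congr 1
      conv_rhs => rw [h]
      rw [natCast_zsmul]
    · refine ⟨-m, ?_⟩
      push_cast
      rw [← hm, ← map_neg]
      congr 1
      conv_rhs => rw [h]
      rw [neg_smul, neg_neg, natCast_zsmul]
  -- the main claim
  have claim : ∀ (q : Fin 3 → ℤ) (δ : Fin 4 → ℤ), (∀ l, δ l = 0 ∨ (δ l = 1 ∧ Int.fract (z l q) = 0)) →
      (((∑ l, δ l : ℤ) : ℝ) = 2 - ∑ l, Int.fract (z l q)) → ∀ l, Int.fract (z l q) = 0 := by
    intro q δ hδ hS
    have hk : ∀ l, z l q = (⌊z l q⌋ : ℝ) + Int.fract (z l q) := fun l => (Int.floor_add_fract _).symm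
    have hsq := hsum q
    rw [Fin.sum_univ_four] at hsq
    rw [Fin.sum_univ_four, Fin.sum_univ_four] at hS
    push_cast at hS
    have k0 := hk 0
    have k1 := hk 1
    have k2 := hk 2
    have k3 := hk 3
    obtain ⟨f, hf⟩ : ∃ f : Fin 4 → ℝ, ∀ l, f l = Int.fract (z l q) := ⟨fun l => Int.fract (z l q), fun l => rfl⟩
    obtain ⟨κ, hκ⟩ : ∃ κ : Fin 4 → ℤ, ∀ l, κ l = ⌊z l q⌋ := ⟨fun l => ⌊z l q⌋, fun l => rfl⟩
    rw [← hf, ← hκ] at k0 k1 k2 k3
    rw [← hf, ← hf, ← hf, ← hf] at hS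
    obtain ⟨P, hP⟩ : ∃ P : Fin 4 → ℝ, ∀ l, P l = f l - 1 / 2 + δ l := ⟨fun l => f l - 1 / 2 + δ l, fun l => rfl⟩
    have hPle : ∀ l, |P l| ≤ 1 / 2 := by
      intro l
      have h1 : 0 ≤ f l := by rw [hf]; exact Int.fract_nonneg _
      have h2 : f l < 1 := by rw [hf]; exact Int.fract_lt_one _
      rw [hP, abs_le]
      rcases hδ l with h | ⟨h, h'⟩
      · rw [h]
        push_cast
        constructor <;> linarith
      · rw [← hf] at h'
        rw [h, h']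
        push_cast
        constructor <;> linarith
    -- the integers
    obtain ⟨n0, hn0⟩ : ∃ n0 : ℤ, n0 = κ 0 + 1 - δ 0 := ⟨_, rfl⟩
    obtain ⟨n1, hn1⟩ : ∃ n1 : ℤ, n1 = κ 1 + 1 - δ 1 := ⟨_, rfl⟩
    obtain ⟨n2, hn2⟩ : ∃ n2 : ℤ, n2 = κ 2 - δ 2 := ⟨_, rfl⟩
    obtain ⟨n3, hn3⟩ : ∃ n3 : ℤ, n3 = κ 3 - δ 3 := ⟨_, rfl⟩
    have hnR : (n0 : ℝ) + n1 + n2 + n3 = 0 := by
      rw [hn0, hn1, hn2, hn3]
      push_cast
      linarith
    have ht0 : t 0 (toR q) = z 0 q + z 1 q := by rw [hz, hz, z0, z1]; ring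
    have ht1 : t 1 (toR q) = z 0 q + z 2 q := by rw [hz, hz, z0, z2]; ring
    have ht2 : t 2 (toR q) = z 0 q + z 3 q := by rw [hz, hz, z0, z3]; ring
    obtain ⟨N, hN⟩ : ∃ N : Fin 3 → ℝ, N = ((n0 + n1 : ℤ) : ℝ) • C.w i + ((n0 + n2 : ℤ) : ℝ) • C.w j +
      ((n0 + n3 : ℤ) : ℝ) • C.w k := ⟨_, rfl⟩
    have hNint : N = toR (n0 • C.g + (n0 + n1) • ζ0 + (n0 + n2) • ζ1 + (n0 + n3) • ζ2) := by
      rw [hN, toR_add, toR_add, toR_add, toR_zsmul, toR_zsmul, toR_zsmul, toR_zsmul, C.hg, hζ0, hζ1, hζ2]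
      ext a
      simp only [Pi.add_apply, Pi.smul_apply, smul_eq_mul]
      push_cast
      linear_combination (C.c a) * hnR
    have hp : C.c + toR (ζ0 + q - (n0 • C.g + (n0 + n1) • ζ0 + (n0 + n2) • ζ1 + (n0 + n3) • ζ2)) =
        C.w i + toR q - N := by
      rw [toR_sub, toR_add, ← hNint, hζ0]
      abel
    obtain ⟨s, hs⟩ : ∃ s : Fin 3 → ℝ, s = ![P 0 + P 1, P 0 + P 2, P 0 + P 3] := ⟨_, rfl⟩
    have s0 : t 0 (C.w i + toR q - N) = P 0 + P 1 := by
      rw [hN]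
      simp only [map_add, map_sub, map_smul, smul_eq_mul, t00, t01, t02]
      rw [ht0, k0, k1, hP, hP, hn0, hn1]
      push_cast
      ring
    have s1 : t 1 (C.w i + toR q - N) = P 0 + P 2 := by
      rw [hN]
      simp only [map_add, map_sub, map_smul, smul_eq_mul, t10, t11, t12]
      rw [ht1, k0, k2, hP, hP, hn0, hn2]
      push_cast
      ring
    have s2 : t 2 (C.w i + toR q - N) = P 0 + P 3 := by
      rw [hN]
      simp only [map_add, map_sub, map_smul, smul_eq_mul, t20, t21, t22]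
      rw [ht2, k0, k3, hP, hP, hn0, hn3]
      push_cast
      ring
    have hPs : P 0 + P 1 + P 2 + P 3 = 0 := by
      rw [hP, hP, hP, hP]
      linarith
    have e0 : (P 0 + P 1) + (P 0 + P 2) + (P 0 + P 3) = 2 * P 0 := by linarith
    have e1 : (P 0 + P 1) - (P 0 + P 2) - (P 0 + P 3) = 2 * P 1 := by linarith
    have e2 : -(P 0 + P 1) + (P 0 + P 2) - (P 0 + P 3) = 2 * P 2 := by linarith
    have e3 : -(P 0 + P 1) - (P 0 + P 2) + (P 0 + P 3) = 2 * P 3 := by linarith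
    have habs := GEN_abs (hPle 0) (hPle 1) (hPle 2) (hPle 3) e0 e1 e2 e3
    obtain ⟨l, hl⟩ := oct C i j k hij hik hjk _ ![P 0 + P 1, P 0 + P 2, P 0 + P 3] (by
        rw [hp]
        have h5 := hx' (C.w i + toR q - N)
        rw [s0, s1, s2] at h5
        exact h5) habs
    have hall : ∀ m, |P m| = 1 / 2 := by
      intro m
      fin_cases m
      · exact GEN_one habs hl (Or.inl e0)
      · exact GEN_one habs hl (Or.inr (Or.inl e1))
      · exact GEN_one habs hl (Or.inr (Or.inr (Or.inl e2)))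
      · exact GEN_one habs hl (Or.inr (Or.inr (Or.inr e3)))
    intro m
    rcases hδ m with h | ⟨_, h'⟩
    · have h6 := hall m
      rw [hP, h] at h6
      have h1 : 0 ≤ f m := by rw [hf]; exact Int.fract_nonneg _
      have h2 : f m < 1 := by rw [hf]; exact Int.fract_lt_one _
      rw [← hf]
      push_cast at h6
      rcases (abs_eq (by norm_num : (0 : ℝ) ≤ 1 / 2)).1 h6 with h7 | h7
      · linarith
      · linarith
    · exact h'
  have H2 : ∀ q, ∑ l, Int.fract (z l q) ≠ 2 := by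
    intro q hq
    have h1 := claim q (fun _ => 0) (fun l => Or.inl rfl) (by rw [hq]; simp)
    rw [Finset.sum_eq_zero (fun l _ => h1 l)] at hq
    norm_num at hq
  have H1 : ∀ q, ∑ l, Int.fract (z l q) = 1 → ∀ l, Int.fract (z l q) ≠ 0 := by
    intro q hq l0 hl0
    have h1 := claim q (fun l => if l = l0 then 1 else 0) (fun l => by
      by_cases hl : l = l0
      · right
        rw [if_pos hl, hl]
        exact ⟨rfl, hl0⟩
      · left
        rw [if_neg hl]) (by rw [hq]; simp; norm_num)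
    rw [Finset.sum_eq_zero (fun l _ => h1 l)] at hq
    norm_num at hq
  have hfin := frc z hsum htor H2 H1 y
  obtain ⟨M0, hM0⟩ := hfin 0
  obtain ⟨M1, hM1⟩ := hfin 1
  obtain ⟨M2, hM2⟩ := hfin 2
  obtain ⟨M3, hM3⟩ := hfin 3
  have hsy := hsum y
  rw [Fin.sum_univ_four, hM0, hM1, hM2, hM3] at hsy
  have hsy' : M0 + M1 + M2 + M3 = 0 := by exact_mod_cast hsy
  refine ⟨M0 + M1, M0 + M2, M0 + M3, ?_, ⟨M0, by linarith⟩⟩
  have h5 := hx' (toR y)
  have ht0 : t 0 (toR y) = z 0 y + z 1 y := by rw [hz, hz, z0, z1]; ring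
  have ht1 : t 1 (toR y) = z 0 y + z 2 y := by rw [hz, hz, z0, z2]; ring
  have ht2 : t 2 (toR y) = z 0 y + z 3 y := by rw [hz, hz, z0, z3]; ring
  rw [ht0, ht1, ht2, hM0, hM1, hM2, hM3] at h5
  push_cast
  exact h5

end H66OD
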