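import Pool.Agent.H66.OD.PTYS

/-!
# Row PTY (about 80 lines): the P-type matrices from the sector `γ ≥ |γ'|`

Rows `(1,α,α')`, `(-β,1,β')`, `(γ,γ',1)` with `|α'| ≤ α < 1`, `|β'| ≤ β < 1`, `|γ|,|γ'| < 1`.

PROOF. Rotation: if `Good` holds for the parameters `(β,β',α,-α',γ',-γ)`, i.e. for the rows
`(1,β,β')`, `(-α,1,-α')`, `(γ',-γ,1)`, with `t' = (t'1,t'2,t'3)` and sign vector `ε'`, then for
the matrix `A` of `(α,α',β,β',γ,γ')`: `t1 = -t'2`, `t2 = t'1`, `t3 = t'3` gives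
`t A = (t1 - β t2 + γ t3, α t1 + t2 + γ' t3, α' t1 + β' t2 + t3)
     = (-(t'2 + β t'1 - γ t'3), t'1 - α t'2 + γ' t'3, β' t'1 - α' t'2 + t'3) = (-ε'2, ε'1, ε'3)`:
indeed `t' A' = (t'1 - α t'2 + γ' t'3, β t'1 + t'2 - γ t'3, β' t'1 - α' t'2 + t'3)`. So `Good A`.
Applying the rotation once, twice, three times maps `(γ,γ')` to `(γ',-γ)`, `(-γ,-γ')`, `(-γ',γ)`, keeping the
other hypotheses. One of the four vectors `(γ,γ')`, `(γ',-γ)`, `(-γ,-γ')`, `(-γ',γ)` has first coordinate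
`≥ |second coordinate|`; there use `ptys`.
-/

namespace H66OD

private theorem PTY_rot (al al' be be' ga ga' : ℝ)
    (h : Good ![![1, be, be'], ![-al, 1, -al'], ![ga', -ga, 1]]) :
    Good ![![1, al, al'], ![-be, 1, be'], ![ga, ga', 1]] := by
  obtain ⟨e, t, he, ht, hs⟩ := h
  have h0 : t 0 * 1 + t 1 * (-al) + t 2 * ga' = e 0 := by
    have := ht 0
    rw [Fin.sum_univ_three] at this
    exact this
  have h1 : t 0 * be + t 1 * 1 + t 2 * (-ga) = e 1 := by
    have := ht 1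
    rw [Fin.sum_univ_three] at this
    exact this
  have h2 : t 0 * be' + t 1 * (-al') + t 2 * 1 = e 2 := by
    have := ht 2
    rw [Fin.sum_univ_three] at this
    exact this
  refine ⟨![-e 1, e 0, e 2], ![-t 1, t 0, t 2], ?_, ?_, ?_⟩
  · intro i
    fin_cases i
    · show -e 1 = 1 ∨ -e 1 = -1
      rcases he 1 with h | h
      · right; rw [h]
      · left; rw [h, neg_neg]
    · exact he 0
    · exact he 2
  · intro j
    fin_cases j
    · rw [Fin.sum_univ_three]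
      show -t 1 * 1 + t 0 * (-be) + t 2 * ga = -e 1
      linarith
    · rw [Fin.sum_univ_three]
      show -t 1 * al + t 0 * 1 + t 2 * ga' = e 0
      linarith
    · rw [Fin.sum_univ_three]
      show -t 1 * al' + t 0 * be' + t 2 * 1 = e 2
      linarith
  · rw [Fin.sum_univ_three] at hs ⊢
    show |-t 1| + |t 0| + |t 2| ≤ 3
    rw [abs_neg]
    linarith

theorem pty (al al' be be' ga ga' : ℝ) (h1 : |al'| ≤ al) (h2 : al < 1) (h3 : |be'| ≤ be)
    (h4 : be < 1) (h5 : |ga| < 1) (h6 : |ga'| < 1) :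
    Good ![![1, al, al'], ![-be, 1, be'], ![ga, ga', 1]] := by
  obtain ⟨g1, g2⟩ := abs_lt.1 h5
  obtain ⟨k1, k2⟩ := abs_lt.1 h6
  have hna : |-al'| ≤ al := by rw [abs_neg]; exact h1
  have hnb : |-be'| ≤ be := by rw [abs_neg]; exact h3
  rcases le_total |ga'| |ga| with h | h
  · rcases le_total 0 ga with hg | hg
    · rw [abs_of_nonneg hg] at h
      exact ptys al al' be be' ga ga' h1 h2 h3 h4 h g2
    · rw [abs_of_nonpos hg] at h
      refine PTY_rot _ _ _ _ _ _ (PTY_rot _ _ _ _ _ _ ?_)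
      exact ptys al (-al') be (-be') (-ga) (-ga') hna h2 hnb h4 (by rw [abs_neg]; exact h)
        (by linarith)
  · rcases le_total 0 ga' with hg | hg
    · rw [abs_of_nonneg hg] at h
      refine PTY_rot _ _ _ _ _ _ ?_
      exact ptys be be' al (-al') ga' (-ga) h3 h4 hna h2 (by rw [abs_neg]; exact h) k2
    · rw [abs_of_nonpos hg] at h
      refine PTY_rot _ _ _ _ _ _ (PTY_rot _ _ _ _ _ _ (PTY_rot _ _ _ _ _ _ ?_))
      rw [neg_neg, neg_neg]
      exact ptys be (-be') al al' (-ga') ga hnb h4 h1 h2 h (by linarith)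

end H66OD
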