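import Pool.Agent.H66.OD.NTY
import Pool.Agent.H66.OD.PTY

/-!
# Row MTC (about 220 lines): the 3 x 3 matrix theorem

`A` has unit diagonal, `|A i j| < 1` off the diagonal, and for every sign vector `ε` some `i` has
`|Σ_j A i j ε j| > 1`. Then `Good A`.

PROOF. For a sign vector `ε` put `b i = ε i Σ_{j≠i} A i j ε j`; `|Σ_j A i j ε j| = |1 + b i|`, `|b i| < 2`, so
the hypothesis says: for every `ε` some `b i > 0`. (*)
Symmetry: for a permutation `σ` of `Fin 3` and signs `s` let `A' i j = s i s j A (σ i) (σ j)`; if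
`Good A'` with `ε', t'` then `Good A` with `t (σ i) = s i t' i`, `ε (σ j) = s j ε' j`. `A'` satisfies the
same hypotheses.
Mutual pair lemma: if `|A 0 2| ≤ |A 0 1|` and `|A 1 2| ≤ |A 1 0|` then `Good A`. Proof: if
`A 0 1 * A 1 0 < 0`: if `A 0 1 > 0 > A 1 0` this is `pty` with `α = A 0 1, α' = A 0 2, β = -A 1 0,
β' = A 1 2, γ = A 2 0, γ' = A 2 1`; if `A 0 1 < 0 < A 1 0` first change signs with `s = (1,-1,1)`
(then `A' 0 1 = -A 0 1`, `A' 1 0 = -A 1 0`, `A' 0 2 = A 0 2`, `A' 1 2 = -A 1 2`, ...). If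
`A 0 1 * A 1 0 ≥ 0`: contradiction to (*): there is `η = ±1` with `η A 0 1 ≤ 0` and `η A 1 0 ≤ 0`; take
`ε 0 = 1`, `ε 1 = η`, and `ε 2 = ±1` with `ε 2 (A 2 0 + η A 2 1) ≤ 0`. Then
`b 0 = η A 0 1 + ε 2 A 0 2 ≤ -|A 0 1| + |A 0 2| ≤ 0`, `b 1 = η (A 1 0 + ε 2 A 1 2) ≤ -|A 1 0| + |A 1 2| ≤ 0`,
`b 2 = ε 2 (A 2 0 + η A 2 1) ≤ 0`.
Cyclic lemma: if `|A 0 2| ≤ |A 0 1|`, `|A 1 0| ≤ |A 1 2|`, `|A 2 1| ≤ |A 2 0|` then `Good A`. Proof: if
`A 0 1 * A 1 2 * A 2 0 > 0` there are signs `s` with `s 0 s 1 A 0 1 > 0`, `s 1 s 2 A 1 2 > 0`,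
`s 2 s 0 A 2 0 > 0` (`s 0 = 1`, `s 1 = sign A 0 1`, `s 2 = sign A 2 0`); the signed matrix is of the form of `nty`
(`α = A' 0 1, α' = A' 0 2, β = A' 1 2, β' = A' 1 0, γ = A' 2 0, γ' = A' 2 1`). If the product is
`≤ 0` there are signs `ε` with `ε 0 ε 1 A 0 1 ≤ 0`, `ε 1 ε 2 A 1 2 ≤ 0`, `ε 2 ε 0 A 2 0 ≤ 0` (8 sign cases of
the three numbers, take `ε 0 = 1`), and then all `b i ≤ 0` as above (`b i ≤ -|dominant| + |other| ≤ 0`),
contradicting (*).
Conclusion: for each `i` one of the two off-diagonal entries dominates: 8 cases: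
`j(0) ∈ {1,2}`, `j(1) ∈ {0,2}`, `j(2) ∈ {0,1}`. Six of them contain a mutual pair (`j(i) = k`, `j(k) = i`), reduced
to the mutual pair lemma by a permutation; `(1,2,0)` is the cyclic lemma and `(2,0,1)` is the cyclic lemma after
exchanging the indices 1 and 2.
-/

namespace H66OD

theorem MTC_iff (a a' b' b c c' : ℝ) : Good ![![1, a, a'], ![b', 1, b], ![c, c', 1]] ↔
    ∃ x y z r s t : ℝ, (x = 1 ∨ x = -1) ∧ (y = 1 ∨ y = -1) ∧ (z = 1 ∨ z = -1) ∧
      r + s * b' + t * c = x ∧ r * a + s + t * c' = y ∧ r * a' + s * b + t = z ∧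
      |r| + |s| + |t| ≤ 3 := by
  constructor
  · rintro ⟨ε, t, h1, h2, h3⟩
    refine ⟨ε 0, ε 1, ε 2, t 0, t 1, t 2, h1 0, h1 1, h1 2, ?_, ?_, ?_, ?_⟩
    · have := h2 0
      simp [Fin.sum_univ_three] at this
      linarith
    · have := h2 1
      simp [Fin.sum_univ_three] at this
      linarith
    · have := h2 2
      simp [Fin.sum_univ_three] at this
      linarith
    · rw [Fin.sum_univ_three] at h3
      exact h3
  · rintro ⟨x, y, z, r, s, t, hx, hy, hz, e1, e2, e3, e4⟩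
    refine ⟨![x, y, z], ![r, s, t], ?_, ?_, ?_⟩
    · intro i
      fin_cases i
      · exact hx
      · exact hy
      · exact hz
    · intro j
      fin_cases j
      · simp [Fin.sum_univ_three]
        linarith
      · simp [Fin.sum_univ_three]
        linarith
      · simp [Fin.sum_univ_three]
        linarith
    · simp [Fin.sum_univ_three]
      linarith

/-- The hypotheses in coordinates. -/
def MTC_H (a a' b' b c c' : ℝ) : Prop :=
  |a| < 1 ∧ |a'| < 1 ∧ |b'| < 1 ∧ |b| < 1 ∧ |c| < 1 ∧ |c'| < 1 ∧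
    ∀ x y z : ℝ, (x = 1 ∨ x = -1) → (y = 1 ∨ y = -1) → (z = 1 ∨ z = -1) →
      0 < x * (a * y + a' * z) ∨ 0 < y * (b' * x + b * z) ∨ 0 < z * (c * x + c' * y)

theorem MTC_neg {x : ℝ} (h : x = 1 ∨ x = -1) : -x = 1 ∨ -x = -1 := by
  rcases h with h | h
  · right; rw [h]
  · left; rw [h]; ring

theorem MTC_s1 {a a' b' b c c' : ℝ}
    (h : Good ![![1, -a, a'], ![-b', 1, -b], ![c, -c', 1]]) :
    Good ![![1, a, a'], ![b', 1, b], ![c, c', 1]] := by
  rw [MTC_iff] at h ⊢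
  obtain ⟨x, y, z, r, s, t, hx, hy, hz, e1, e2, e3, e4⟩ := h
  refine ⟨x, -y, z, r, -s, t, hx, MTC_neg hy, hz, ?_, ?_, ?_, ?_⟩
  · linarith
  · linarith
  · linarith
  · rw [abs_neg]; exact e4

theorem MTC_s2 {a a' b' b c c' : ℝ}
    (h : Good ![![1, a, -a'], ![b', 1, -b], ![-c, -c', 1]]) :
    Good ![![1, a, a'], ![b', 1, b], ![c, c', 1]] := by
  rw [MTC_iff] at h ⊢
  obtain ⟨x, y, z, r, s, t, hx, hy, hz, e1, e2, e3, e4⟩ := h
  refine ⟨x, y, -z, r, s, -t, hx, hy, MTC_neg hz, ?_, ?_, ?_, ?_⟩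
  · linarith
  · linarith
  · linarith
  · rw [abs_neg]; exact e4

theorem MTC_p12 {a a' b' b c c' : ℝ}
    (h : Good ![![1, a', a], ![c, 1, c'], ![b', b, 1]]) :
    Good ![![1, a, a'], ![b', 1, b], ![c, c', 1]] := by
  rw [MTC_iff] at h ⊢
  obtain ⟨x, y, z, r, s, t, hx, hy, hz, e1, e2, e3, e4⟩ := h
  refine ⟨x, z, y, r, t, s, hx, hz, hy, ?_, ?_, ?_, ?_⟩ <;> linarith

theorem MTC_p01 {a a' b' b c c' : ℝ}
    (h : Good ![![1, b', b], ![a, 1, a'], ![c', c, 1]]) :
    Good ![![1, a, a'], ![b', 1, b], ![c, c', 1]] := by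
  rw [MTC_iff] at h ⊢
  obtain ⟨x, y, z, r, s, t, hx, hy, hz, e1, e2, e3, e4⟩ := h
  refine ⟨y, x, z, s, r, t, hy, hx, hz, ?_, ?_, ?_, ?_⟩ <;> linarith

theorem MTC_h12 {a a' b' b c c' : ℝ} (h : MTC_H a a' b' b c c') : MTC_H a' a c c' b' b := by
  obtain ⟨h1, h2, h3, h4, h5, h6, h7⟩ := h
  refine ⟨h2, h1, h5, h6, h3, h4, fun x y z hx hy hz => ?_⟩
  rcases h7 x z y hx hz hy with h | h | h
  · left; linarith
  · right; right; linarith
  · right; left; linarith

theorem MTC_h01 {a a' b' b c c' : ℝ} (h : MTC_H a a' b' b c c') : MTC_H b' b a a' c' c := by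
  obtain ⟨h1, h2, h3, h4, h5, h6, h7⟩ := h
  refine ⟨h3, h4, h1, h2, h6, h5, fun x y z hx hy hz => ?_⟩
  rcases h7 y x z hy hx hz with h | h | h
  · right; left; linarith
  · left; linarith
  · right; right; linarith

theorem MTC_le {x a a' y z : ℝ} (hx : x = 1 ∨ x = -1) (hy : y = 1 ∨ y = -1) (hz : z = 1 ∨ z = -1)
    (h : |a'| ≤ |a|) (h0 : x * y * a ≤ 0) : ¬ 0 < x * (a * y + a' * z) := by
  intro hc
  have e1 : |x * y * a| = |a| := by
    rw [abs_mul, abs_mul]
    rcases hx with hx | hx <;> rcases hy with hy | hy <;> rw [hx, hy] <;> simp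
  have e2 : |x * z * a'| = |a'| := by
    rw [abs_mul, abs_mul]
    rcases hx with hx | hx <;> rcases hz with hz | hz <;> rw [hx, hz] <;> simp
  rw [abs_of_nonpos h0] at e1
  have e3 := le_abs_self (x * z * a')
  rw [e2] at e3
  have e4 : x * (a * y + a' * z) = x * y * a + x * z * a' := by ring
  rw [e4] at hc
  linarith

theorem MTC_mut {a a' b' b c c' : ℝ} (h : MTC_H a a' b' b c c') (ha : |a'| ≤ |a|)
    (hb : |b| ≤ |b'|) : Good ![![1, a, a'], ![b', 1, b], ![c, c', 1]] := by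
  obtain ⟨h1, h2, h3, h4, h5, h6, h7⟩ := h
  rcases lt_or_ge (a * b') 0 with hn | hp
  · rcases mul_neg_iff.1 hn with ⟨ap, bn⟩ | ⟨an, bp⟩
    · rw [abs_of_pos ap] at h1 ha
      rw [abs_of_neg bn] at h3 hb
      have := pty a a' (-b') b c c' ha h1 hb h3 h5 h6
      rw [neg_neg] at this
      exact this
    · rw [abs_of_neg an] at h1 ha
      rw [abs_of_pos bp] at h3 hb
      refine MTC_s1 ?_
      exact pty (-a) a' b' (-b) c (-c') ha h1 (by rw [abs_neg]; exact hb) h3 h5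
        (by rw [abs_neg]; exact h6)
  · exfalso
    obtain ⟨y, hy, y1, y2⟩ : ∃ y : ℝ, (y = 1 ∨ y = -1) ∧ y * a ≤ 0 ∧ y * b' ≤ 0 := by
      rcases mul_nonneg_iff.1 hp with ⟨ap, bp⟩ | ⟨an, bn⟩
      · exact ⟨-1, Or.inr rfl, by linarith, by linarith⟩
      · exact ⟨1, Or.inl rfl, by linarith, by linarith⟩
    obtain ⟨z, hz, z1⟩ : ∃ z : ℝ, (z = 1 ∨ z = -1) ∧ z * (c * 1 + c' * y) ≤ 0 := by
      rcases le_total (c * 1 + c' * y) 0 with hc | hc
      · exact ⟨1, Or.inl rfl, by linarith⟩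
      · exact ⟨-1, Or.inr rfl, by linarith⟩
    rcases h7 1 y z (Or.inl rfl) hy hz with h | h | h
    · exact MTC_le (Or.inl rfl) hy hz ha (by linarith) h
    · exact MTC_le hy (Or.inl rfl) hz hb (by linarith) h
    · linarith

theorem MTC_cyc {a a' b' b c c' : ℝ} (h : MTC_H a a' b' b c c') (ha : |a'| ≤ |a|)
    (hb : |b'| ≤ |b|) (hc : |c'| ≤ |c|) : Good ![![1, a, a'], ![b', 1, b], ![c, c', 1]] := by
  obtain ⟨h1, h2, h3, h4, h5, h6, h7⟩ := h
  rcases lt_or_ge 0 (a * b * c) with hp | hn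
  · rcases pos_and_pos_or_neg_and_neg_of_mul_pos hp with ⟨hab, cp⟩ | ⟨hab, cn⟩
    · rcases pos_and_pos_or_neg_and_neg_of_mul_pos hab with ⟨ap, bp⟩ | ⟨an, bn⟩
      · rw [abs_of_pos ap] at h1 ha
        rw [abs_of_pos bp] at h4 hb
        rw [abs_of_pos cp] at h5 hc
        exact nty a a' b b' c c' ha h1 hb h4 hc h5
      · rw [abs_of_neg an] at h1 ha
        rw [abs_of_neg bn] at h4 hb
        rw [abs_of_pos cp] at h5 hc
        refine MTC_s1 ?_
        exact nty (-a) a' (-b) (-b') c (-c') ha h1 (by rw [abs_neg]; exact hb) h4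
          (by rw [abs_neg]; exact hc) h5
    · rcases mul_neg_iff.1 hab with ⟨ap, bn⟩ | ⟨an, bp⟩
      · rw [abs_of_pos ap] at h1 ha
        rw [abs_of_neg bn] at h4 hb
        rw [abs_of_neg cn] at h5 hc
        refine MTC_s2 ?_
        exact nty a (-a') (-b) b' (-c) (-c') (by rw [abs_neg]; exact ha) h1 hb h4
          (by rw [abs_neg]; exact hc) h5
      · rw [abs_of_neg an] at h1 ha
        rw [abs_of_pos bp] at h4 hb
        rw [abs_of_neg cn] at h5 hc
        refine MTC_s1 (MTC_s2 ?_)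
        rw [neg_neg, neg_neg]
        exact nty (-a) (-a') b (-b') (-c) c' (by rw [abs_neg]; exact ha) h1
          (by rw [abs_neg]; exact hb) h4 hc h5
  · exfalso
    obtain ⟨y, z, hy, hz, e1, e2, e3⟩ : ∃ y z : ℝ, (y = 1 ∨ y = -1) ∧ (z = 1 ∨ z = -1) ∧
        y * a ≤ 0 ∧ y * z * b ≤ 0 ∧ z * c ≤ 0 := by
      rcases le_total a 0 with ha0 | ha0 <;> rcases le_total b 0 with hb0 | hb0 <;>
        rcases le_total c 0 with hc0 | hc0
      · exact ⟨1, 1, Or.inl rfl, Or.inl rfl, by linarith, by linarith, by linarith⟩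
      · have h0 : a * b * c = 0 := le_antisymm hn (mul_nonneg (mul_nonneg_of_nonpos_of_nonpos ha0 hb0) hc0)
        rcases mul_eq_zero.1 h0 with h0 | h0
        · rcases mul_eq_zero.1 h0 with h0 | h0
          · exact ⟨-1, -1, Or.inr rfl, Or.inr rfl, by linarith, by linarith, by linarith⟩
          · exact ⟨1, -1, Or.inl rfl, Or.inr rfl, by linarith, by linarith, by linarith⟩
        · exact ⟨1, 1, Or.inl rfl, Or.inl rfl, by linarith, by linarith, by linarith⟩
      · have h0 : a * b * c = 0 := le_antisymm hn (by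
          have := mul_nonneg (mul_nonneg (neg_nonneg.2 ha0) hb0) (neg_nonneg.2 hc0)
          linarith)
        rcases mul_eq_zero.1 h0 with h0 | h0
        · rcases mul_eq_zero.1 h0 with h0 | h0
          · exact ⟨-1, 1, Or.inr rfl, Or.inl rfl, by linarith, by linarith, by linarith⟩
          · exact ⟨1, 1, Or.inl rfl, Or.inl rfl, by linarith, by linarith, by linarith⟩
        · exact ⟨1, -1, Or.inl rfl, Or.inr rfl, by linarith, by linarith, by linarith⟩
      · exact ⟨1, -1, Or.inl rfl, Or.inr rfl, by linarith, by linarith, by linarith⟩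
      · have h0 : a * b * c = 0 := le_antisymm hn (by
          have := mul_nonneg (mul_nonneg ha0 (neg_nonneg.2 hb0)) (neg_nonneg.2 hc0)
          linarith)
        rcases mul_eq_zero.1 h0 with h0 | h0
        · rcases mul_eq_zero.1 h0 with h0 | h0
          · exact ⟨1, 1, Or.inl rfl, Or.inl rfl, by linarith, by linarith, by linarith⟩
          · exact ⟨-1, 1, Or.inr rfl, Or.inl rfl, by linarith, by linarith, by linarith⟩
        · exact ⟨-1, -1, Or.inr rfl, Or.inr rfl, by linarith, by linarith, by linarith⟩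
      · exact ⟨-1, -1, Or.inr rfl, Or.inr rfl, by linarith, by linarith, by linarith⟩
      · exact ⟨-1, 1, Or.inr rfl, Or.inl rfl, by linarith, by linarith, by linarith⟩
      · have h0 : a * b * c = 0 := le_antisymm hn (mul_nonneg (mul_nonneg ha0 hb0) hc0)
        rcases mul_eq_zero.1 h0 with h0 | h0
        · rcases mul_eq_zero.1 h0 with h0 | h0
          · exact ⟨1, -1, Or.inl rfl, Or.inr rfl, by linarith, by linarith, by linarith⟩
          · exact ⟨-1, -1, Or.inr rfl, Or.inr rfl, by linarith, by linarith, by linarith⟩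
        · exact ⟨-1, 1, Or.inr rfl, Or.inl rfl, by linarith, by linarith, by linarith⟩
    rcases h7 1 y z (Or.inl rfl) hy hz with h | h | h
    · exact MTC_le (Or.inl rfl) hy hz ha (by linarith) h
    · rw [add_comm] at h
      exact MTC_le hy hz (Or.inl rfl) hb (by linarith) h
    · exact MTC_le hz (Or.inl rfl) hy hc (by linarith) h

theorem MTC_all {a a' b' b c c' : ℝ} (h : MTC_H a a' b' b c c') :
    Good ![![1, a, a'], ![b', 1, b], ![c, c', 1]] := by
  rcases le_total |a'| |a| with ha | ha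
  · rcases le_total |b| |b'| with hb | hb
    · exact MTC_mut h ha hb
    · rcases le_total |c'| |c| with hc | hc
      · exact MTC_cyc h ha hb hc
      · exact MTC_p01 (MTC_p12 (MTC_mut (MTC_h12 (MTC_h01 h)) hb hc))
  · rcases le_total |c'| |c| with hc | hc
    · exact MTC_p12 (MTC_mut (MTC_h12 h) ha hc)
    · rcases le_total |b| |b'| with hb | hb
      · exact MTC_p12 (MTC_cyc (MTC_h12 h) ha hc hb)
      · exact MTC_p01 (MTC_p12 (MTC_mut (MTC_h12 (MTC_h01 h)) hb hc))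

theorem mtc (A : Fin 3 → Fin 3 → ℝ) (h1 : ∀ i, A i i = 1) (h2 : ∀ i j, i ≠ j → |A i j| < 1)
    (hcov : ∀ ε : Fin 3 → ℝ, (∀ i, ε i = 1 ∨ ε i = -1) → ∃ i, 1 < |∑ j, A i j * ε j|) :
    Good A := by
  have hA : A = ![![1, A 0 1, A 0 2], ![A 1 0, 1, A 1 2], ![A 2 0, A 2 1, 1]] := by
    funext i j
    fin_cases i <;> fin_cases j
    · exact h1 0
    · rfl
    · rfl
    · rfl
    · exact h1 1
    · rfl
    · rfl
    · rfl
    · exact h1 2
  rw [hA]
  refine MTC_all ⟨h2 0 1 (by decide), h2 0 2 (by decide), h2 1 0 (by decide), h2 1 2 (by decide),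
    h2 2 0 (by decide), h2 2 1 (by decide), ?_⟩
  have key : ∀ e u v p q : ℝ, (e = 1 ∨ e = -1) → (p = 1 ∨ p = -1) → (q = 1 ∨ q = -1) →
      |u| < 1 → |v| < 1 → 1 < |e + (u * p + v * q)| → 0 < e * (u * p + v * q) := by
    intro e u v p q he hp hq hu hv h
    have hu' := abs_lt.1 hu
    have hv' := abs_lt.1 hv
    rcases lt_abs.1 h with h | h <;> rcases he with he | he <;> rcases hp with hp | hp <;>
      rcases hq with hq | hq <;> rw [he, hp, hq] at h ⊢ <;> linarith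
  intro x y z hx hy hz
  obtain ⟨i, hi⟩ := hcov ![x, y, z] (by
    intro i
    fin_cases i
    · exact hx
    · exact hy
    · exact hz)
  rw [Fin.sum_univ_three] at hi
  fin_cases i
  · left
    refine key x _ _ y z hx hy hz (h2 0 1 (by decide)) (h2 0 2 (by decide)) ?_
    have e : A 0 0 * x + A 0 1 * y + A 0 2 * z = x + (A 0 1 * y + A 0 2 * z) := by
      rw [h1 0]; ring
    rw [← e]
    exact hi
  · right; left
    refine key y _ _ x z hy hx hz (h2 1 0 (by decide)) (h2 1 2 (by decide)) ?_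
    have e : A 1 0 * x + A 1 1 * y + A 1 2 * z = y + (A 1 0 * x + A 1 2 * z) := by
      rw [h1 1]; ring
    rw [← e]
    exact hi
  · right; right
    refine key z _ _ x y hz hx hy (h2 2 0 (by decide)) (h2 2 1 (by decide)) ?_
    have e : A 2 0 * x + A 2 1 * y + A 2 2 * z = z + (A 2 0 * x + A 2 1 * y) := by
      rw [h1 2]; ring
    rw [← e]
    exact hi

end H66OD
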