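import Pool.Agent.H66.OD.QUAD
import Pool.Agent.H66.OD.GEN
import Pool.Agent.H66.OD.MTC

/-!
# Row N3 (about 180 lines): configurations with three functionals

PROOF. `w = C.w`, `a = C.a`; `w 0, w 1, w 2` is a basis of `ℝ³` (`ind`).
Case 1: some sign vector `ε` has `|a i ⬝ p| ≤ 1` for all `i`, `p = Σ ε j w j`. `p` is `c + integer`: with
`w j = c + toR (z j)`, `Σ ε j = 2 k + 1` odd, `p = c + toR (k • g + Σ ε j z j)`. By `hcov` some `i0` has
`|a i0 ⬝ p| ≥ 1`, so `ρ := a i0 ⬝ p = ±1`. Apply `quad` to `w' = (ε0 w0, ε1 w1, ε2 w2, -p)` and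
`a' = (ε0 a0, ε1 a1, ε2 a2, -ρ a i0)`: `Σ w' = 0`; `a' i ⬝ w' i = 1` (`(-ρ a i0) ⬝ (-p) = ρ² = 1`);
`|a' i ⬝ w' j| ≤ 1` by `C.h1`, `C.h2`, the case hypothesis; `hlat` from `gen C 0 1 2` with coefficients
`ε j m j` (same parity of the sum). From `Short 4 a'` with `t'`: `u = Σ_{i<3} (t' i ε i) a i - t' 3 ρ a i0`, a
combination of the `a i` with absolute coefficient sum `≤ Σ |t' i| ≤ 3/2`.
Case 2: every sign vector `ε` has some `i` with `|a i ⬝ Σ ε j w j| > 1`. Apply `mtc` to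
`A i j = a i ⬝ w j`: `ε`, `t` with `Σ_i t i (a i ⬝ w j) = ε j`, `Σ |t i| ≤ 3`. Let
`v = Σ (t i / 2) • a i`, `v ⬝ w j = ε j / 2`. For the standard basis vectors `e k` (`Pi.single k 1`) of `ℤ³`:
by `gen`, `e k = Σ m j w j`, `Σ m j` even, `v ⬝ e k = (Σ ε j m j)/2` is an integer (`Σ ε j m j ≡ Σ m j` mod 2).
So `v = toR u` for an integer vector `u`; `u ≠ 0` since `v ⬝ w 0 ≠ 0`; `Σ |t i / 2| ≤ 3/2`.
-/

open Matrix

namespace H66OD

theorem N3_parity {e0 e1 e2 : ℤ} (h0 : e0 = 1 ∨ e0 = -1) (h1 : e1 = 1 ∨ e1 = -1)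
    (h2 : e2 = 1 ∨ e2 = -1) {m0 m1 m2 : ℤ} (h : Even (m0 + m1 + m2)) :
    Even (e0 * m0 + e1 * m1 + e2 * m2) := by
  rw [Int.even_iff] at h ⊢
  rcases h0 with rfl | rfl <;> rcases h1 with rfl | rfl <;> rcases h2 with rfl | rfl <;> omega

theorem N3_odd {e0 e1 e2 : ℤ} (h0 : e0 = 1 ∨ e0 = -1) (h1 : e1 = 1 ∨ e1 = -1)
    (h2 : e2 = 1 ∨ e2 = -1) : ∃ k : ℤ, e0 + e1 + e2 = 2 * k + 1 := by
  rcases h0 with rfl | rfl <;> rcases h1 with rfl | rfl <;> rcases h2 with rfl | rfl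
  · exact ⟨1, by norm_num⟩
  · exact ⟨0, by norm_num⟩
  · exact ⟨0, by norm_num⟩
  · exact ⟨-1, by norm_num⟩
  · exact ⟨0, by norm_num⟩
  · exact ⟨-1, by norm_num⟩
  · exact ⟨-1, by norm_num⟩
  · exact ⟨-2, by norm_num⟩

theorem N3_int {ε : Fin 3 → ℝ} (h : ∀ i, ε i = 1 ∨ ε i = -1) :
    ∃ e : Fin 3 → ℤ, (∀ i, ((e i : ℤ) : ℝ) = ε i) ∧ ∀ i, e i = 1 ∨ e i = -1 := by
  have h1 : ∀ i, ∃ z : ℤ, ((z : ℤ) : ℝ) = ε i ∧ (z = 1 ∨ z = -1) := by
    intro i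
    rcases h i with h2 | h2
    · exact ⟨1, by rw [h2]; norm_num, Or.inl rfl⟩
    · exact ⟨-1, by rw [h2]; norm_num, Or.inr rfl⟩
  choose e h2 h3 using h1
  exact ⟨e, h2, h3⟩

theorem N3_sq {x : ℝ} (h : x = 1 ∨ x = -1) : x * x = 1 := by
  rcases h with rfl | rfl <;> norm_num

theorem N3_abs {x : ℝ} (h : x = 1 ∨ x = -1) : |x| = 1 := by
  rcases h with rfl | rfl <;> simp

/-- the signed sum of the touching points -/
noncomputable def N3_p (C : Cfg 3) (ε : Fin 3 → ℝ) : Fin 3 → ℝ :=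
  ε 0 • C.w 0 + ε 1 • C.w 1 + ε 2 • C.w 2

theorem N3_dot (C : Cfg 3) (ε : Fin 3 → ℝ) (b : Fin 3 → ℝ) :
    b ⬝ᵥ N3_p C ε = ∑ j, (b ⬝ᵥ C.w j) * ε j := by
  unfold N3_p
  rw [Fin.sum_univ_three, dotProduct_add, dotProduct_add, dotProduct_smul, dotProduct_smul,
    dotProduct_smul]
  simp only [smul_eq_mul]
  ring

theorem N3_coset (C : Cfg 3) {ε : Fin 3 → ℝ} (h : ∀ i, ε i = 1 ∨ ε i = -1) :
    ∃ z : Fin 3 → ℤ, N3_p C ε = C.c + toR z := by
  obtain ⟨e, he, he'⟩ := N3_int h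
  choose z hz using C.hw
  obtain ⟨k, hk⟩ := N3_odd (he' 0) (he' 1) (he' 2)
  refine ⟨k • C.g + (e 0 • z 0 + e 1 • z 1 + e 2 • z 2), ?_⟩
  unfold N3_p
  rw [toR_add, toR_add, toR_add, toR_zsmul, toR_zsmul, toR_zsmul, toR_zsmul, C.hg, hz 0, hz 1, hz 2,
    he, he, he]
  have h1 : ε 0 + ε 1 + ε 2 = 2 * (k : ℝ) + 1 := by
    rw [← he 0, ← he 1, ← he 2]
    exact_mod_cast hk
  funext j
  simp only [Pi.add_apply, Pi.smul_apply, smul_eq_mul]
  linear_combination (C.c j) * h1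

theorem N3_le (C : Cfg 3) (i j : Fin 3) : |C.a i ⬝ᵥ C.w j| ≤ 1 := by
  by_cases h : j = i
  · rw [h, C.h1 i, abs_one]
  · exact (C.h2 j i h).le

theorem N3_case1 (C : Cfg 3) {ε : Fin 3 → ℝ} (h : ∀ i, ε i = 1 ∨ ε i = -1)
    (hp : ∀ i, |C.a i ⬝ᵥ N3_p C ε| ≤ 1) : Short 3 C.a := by
  obtain ⟨z, hz⟩ := N3_coset C h
  obtain ⟨i0, hi0⟩ := C.hcov z
  rw [← hz] at hi0
  obtain ⟨e, he, he'⟩ := N3_int h
  obtain ⟨ρ, hρ⟩ : ∃ ρ : ℝ, ρ = C.a i0 ⬝ᵥ N3_p C ε := ⟨_, rfl⟩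
  have hρ1 : |ρ| = 1 := by
    rw [hρ]
    exact le_antisymm (hp i0) hi0
  have hρ2 : ρ * ρ = 1 := by
    rw [← abs_mul_abs_self, hρ1, one_mul]
  have hε : ∀ i, |ε i| = 1 := fun i => N3_abs (h i)
  have hε2 : ∀ i, ε i * ε i = 1 := fun i => N3_sq (h i)
  obtain ⟨w', hw'⟩ : ∃ w' : Fin 4 → (Fin 3 → ℝ),
      w' = ![ε 0 • C.w 0, ε 1 • C.w 1, ε 2 • C.w 2, -N3_p C ε] := ⟨_, rfl⟩
  obtain ⟨a', ha'⟩ : ∃ a' : Fin 4 → (Fin 3 → ℝ),
      a' = ![ε 0 • C.a 0, ε 1 • C.a 1, ε 2 • C.a 2, (-ρ) • C.a i0] := ⟨_, rfl⟩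
  have w0 : w' 0 = ε 0 • C.w 0 := by rw [hw']; rfl
  have w1 : w' 1 = ε 1 • C.w 1 := by rw [hw']; rfl
  have w2 : w' 2 = ε 2 • C.w 2 := by rw [hw']; rfl
  have w3 : w' 3 = -N3_p C ε := by rw [hw']; rfl
  have a0 : a' 0 = ε 0 • C.a 0 := by rw [ha']; rfl
  have a1 : a' 1 = ε 1 • C.a 1 := by rw [ha']; rfl
  have a2 : a' 2 = ε 2 • C.a 2 := by rw [ha']; rfl
  have a3 : a' 3 = (-ρ) • C.a i0 := by rw [ha']; rfl
  have hab : ∀ i j : Fin 3, |(ε i • C.a i) ⬝ᵥ (ε j • C.w j)| ≤ 1 := by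
    intro i j
    rw [smul_dotProduct, dotProduct_smul, smul_eq_mul, smul_eq_mul, abs_mul, abs_mul, hε, hε,
      one_mul, one_mul]
    exact N3_le C i j
  have hap : ∀ i : Fin 3, |(ε i • C.a i) ⬝ᵥ (-N3_p C ε)| ≤ 1 := by
    intro i
    rw [smul_dotProduct, dotProduct_neg, smul_eq_mul, abs_mul, hε, one_mul, abs_neg]
    exact hp i
  have hρw : ∀ j : Fin 3, |((-ρ) • C.a i0) ⬝ᵥ (ε j • C.w j)| ≤ 1 := by
    intro j
    rw [smul_dotProduct, dotProduct_smul, smul_eq_mul, smul_eq_mul, abs_mul, abs_mul, hε, abs_neg,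
      hρ1, one_mul, one_mul]
    exact N3_le C i0 j
  have hρp : ((-ρ) • C.a i0) ⬝ᵥ (-N3_p C ε) = 1 := by
    rw [smul_dotProduct, dotProduct_neg, smul_eq_mul, ← hρ]
    linarith
  have haw : ∀ i : Fin 3, (ε i • C.a i) ⬝ᵥ (ε i • C.w i) = 1 := by
    intro i
    rw [smul_dotProduct, dotProduct_smul, smul_eq_mul, smul_eq_mul, C.h1 i, mul_one]
    exact hε2 i
  have hli := ind C 0 1 2 (by decide) (by decide) (by decide)
  have hS : Short 4 a' := by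
    refine quad a' w' ?_ ?_ ?_ ?_ ?_
    · rw [Fin.sum_univ_four, w0, w1, w2, w3]
      unfold N3_p
      exact add_neg_cancel _
    · intro i
      fin_cases i
      · show a' 0 ⬝ᵥ w' 0 = 1
        rw [a0, w0]
        exact haw 0
      · show a' 1 ⬝ᵥ w' 1 = 1
        rw [a1, w1]
        exact haw 1
      · show a' 2 ⬝ᵥ w' 2 = 1
        rw [a2, w2]
        exact haw 2
      · show a' 3 ⬝ᵥ w' 3 = 1
        rw [a3, w3]
        exact hρp
    · have hcol : ∀ j : Fin 4, w' j = -N3_p C ε ∨ ∃ k : Fin 3, w' j = ε k • C.w k := by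
        intro j
        fin_cases j
        · exact Or.inr ⟨0, w0⟩
        · exact Or.inr ⟨1, w1⟩
        · exact Or.inr ⟨2, w2⟩
        · exact Or.inl w3
      have hrow : ∀ i : Fin 4, a' i = (-ρ) • C.a i0 ∨ ∃ k : Fin 3, a' i = ε k • C.a k := by
        intro j
        fin_cases j
        · exact Or.inr ⟨0, a0⟩
        · exact Or.inr ⟨1, a1⟩
        · exact Or.inr ⟨2, a2⟩
        · exact Or.inl a3
      intro i j
      rcases hrow i with h1 | ⟨k, h1⟩ <;> rcases hcol j with h2 | ⟨l, h2⟩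
      · rw [h1, h2, hρp, abs_one]
      · rw [h1, h2]
        exact hρw l
      · rw [h1, h2]
        exact hap k
      · rw [h1, h2]
        exact hab k l
    · rw [w0, w1, w2]
      rw [Fintype.linearIndependent_iff] at hli ⊢
      intro g hg
      have h1 := hli (fun i => g i * ε i) (by
        rw [Fin.sum_univ_three] at hg ⊢
        simp only [Matrix.cons_val_zero, Matrix.cons_val_one, Matrix.cons_val_two,
          Matrix.head_cons, Matrix.tail_cons, Matrix.cons_val, smul_smul] at hg ⊢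
        exact hg)
      intro i
      have h2 := h1 i
      beta_reduce at h2
      rcases mul_eq_zero.1 h2 with h3 | h3
      · exact h3
      · have h4 := hε2 i
        rw [h3, mul_zero] at h4
        exact absurd h4 zero_ne_one
    · intro y
      obtain ⟨m0, m1, m2, hy, hev⟩ := gen C 0 1 2 (by decide) (by decide) (by decide) y
      refine ⟨e 0 * m0, e 1 * m1, e 2 * m2, ?_, N3_parity (he' 0) (he' 1) (he' 2) hev⟩
      rw [hy, w0, w1, w2, smul_smul, smul_smul, smul_smul]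
      have h1 : ∀ (i : Fin 3) (m : ℤ), ((e i * m : ℤ) : ℝ) * ε i = (m : ℝ) := by
        intro i m
        rw [Int.cast_mul, he i]
        linear_combination (m : ℝ) * hε2 i
      rw [h1, h1, h1]
  obtain ⟨u, hu, t, ht, ht'⟩ := hS
  refine ⟨u, hu, fun i => t i.castSucc * ε i + (if i = i0 then -(t 3 * ρ) else 0), ?_, ?_⟩
  · rw [ht, Fin.sum_univ_castSucc]
    have h1 : ∀ i : Fin 3, a' i.castSucc = ε i • C.a i := by
      intro i
      fin_cases i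
      · exact a0
      · exact a1
      · exact a2
    have h2 : a' (Fin.last 3) = (-ρ) • C.a i0 := a3
    simp only [h1, h2, add_smul, Finset.sum_add_distrib, ite_smul, zero_smul, smul_smul]
    rw [Finset.sum_ite_eq' Finset.univ i0, if_pos (Finset.mem_univ _)]
    congr 2
    show t 3 * -ρ = -(t 3 * ρ)
    ring
  · rw [Fin.sum_univ_castSucc] at ht'
    have h1 : ∀ i : Fin 3, |t i.castSucc * ε i + (if i = i0 then -(t 3 * ρ) else 0)| ≤
        |t i.castSucc| + (if i = i0 then |t 3| else 0) := by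
      intro i
      refine (abs_add_le _ _).trans ?_
      rw [abs_mul, hε, mul_one]
      split_ifs
      · rw [abs_neg, abs_mul, hρ1, mul_one]
      · rw [abs_zero]
    refine (Finset.sum_le_sum fun i _ => h1 i).trans ?_
    rw [Finset.sum_add_distrib, Finset.sum_ite_eq' Finset.univ i0, if_pos (Finset.mem_univ _)]
    exact ht'

theorem N3_case2 (C : Cfg 3)
    (h : ∀ ε : Fin 3 → ℝ, (∀ i, ε i = 1 ∨ ε i = -1) → ∃ i, 1 < |C.a i ⬝ᵥ N3_p C ε|) :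
    Short 3 C.a := by
  obtain ⟨ε, t, hε, ht, ht'⟩ := mtc (fun i j => C.a i ⬝ᵥ C.w j) (fun i => C.h1 i)
    (fun i j hij => C.h2 j i (Ne.symm hij)) (by
      intro ε hε
      obtain ⟨i, hi⟩ := h ε hε
      refine ⟨i, ?_⟩
      rw [N3_dot] at hi
      exact hi)
  obtain ⟨e, he, he'⟩ := N3_int hε
  obtain ⟨v, hv⟩ : ∃ v : Fin 3 → ℝ, v = ∑ i, (t i / 2) • C.a i := ⟨_, rfl⟩
  have hvw : ∀ j, v ⬝ᵥ C.w j = ε j / 2 := by
    intro j
    rw [hv, sum_dotProduct, ← ht j, Finset.sum_div]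
    refine Finset.sum_congr rfl fun i _ => ?_
    rw [smul_dotProduct, smul_eq_mul]
    ring
  have hvy : ∀ y : Fin 3 → ℤ, ∃ n : ℤ, v ⬝ᵥ toR y = (n : ℝ) := by
    intro y
    obtain ⟨m0, m1, m2, hy, hev⟩ := gen C 0 1 2 (by decide) (by decide) (by decide) y
    obtain ⟨n, hn⟩ := N3_parity (he' 0) (he' 1) (he' 2) hev
    refine ⟨n, ?_⟩
    have hn' : (e 0 : ℝ) * m0 + (e 1 : ℝ) * m1 + (e 2 : ℝ) * m2 = n + n := by exact_mod_cast hn
    rw [he, he, he] at hn'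
    rw [hy, dotProduct_add, dotProduct_add, dotProduct_smul, dotProduct_smul, dotProduct_smul,
      hvw, hvw, hvw]
    simp only [smul_eq_mul]
    linear_combination (1 / 2 : ℝ) * hn'
  have hvk : ∀ k : Fin 3, ∃ n : ℤ, v k = (n : ℝ) := by
    intro k
    obtain ⟨n, hn⟩ := hvy (Pi.single k 1)
    refine ⟨n, ?_⟩
    rw [← hn]
    have h1 : toR (Pi.single k (1 : ℤ)) = Pi.single k (1 : ℝ) := by
      funext j
      rw [toR_apply]
      by_cases hj : j = k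
      · subst hj
        simp
      · simp [hj]
    rw [h1, dotProduct_single, mul_one]
  choose u hu using hvk
  have huv : toR u = v := by
    funext k
    rw [toR_apply, hu k]
  refine ⟨u, ?_, fun i => t i / 2, ?_, ?_⟩
  · rintro rfl
    rw [toR_zero] at huv
    have h1 := hvw 0
    rw [← huv, zero_dotProduct] at h1
    rcases hε 0 with h2 | h2
    · rw [h2] at h1
      norm_num at h1
    · rw [h2] at h1
      norm_num at h1
  · rw [huv, hv]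
  · have h1 : ∑ i, |t i / 2| = (∑ i, |t i|) / 2 := by
      rw [Finset.sum_div]
      refine Finset.sum_congr rfl fun i _ => ?_
      rw [abs_div, abs_two]
    rw [h1]
    linarith

theorem n3 (C : Cfg 3) : Short 3 C.a := by
  by_cases h : ∃ ε : Fin 3 → ℝ, (∀ i, ε i = 1 ∨ ε i = -1) ∧ ∀ i, |C.a i ⬝ᵥ N3_p C ε| ≤ 1
  · obtain ⟨ε, h1, h2⟩ := h
    exact N3_case1 C h1 h2
  · refine N3_case2 C fun ε hε => ?_
    by_contra hcon
    push Not at hcon
    exact h ⟨ε, hε, hcon⟩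

end H66OD
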