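import Pool.Agent.H66.OD.QUAD
import Pool.Agent.H66.OD.GEN

/-!
# Row N4 (about 120 lines): configurations with four functionals

PROOF. Let `w = C.w`, `a = C.a`. `w 3 - w 0` is an integer vector, so by `gen` (indices 0,1,2)
`w 3 = n0 w 0 + n1 w 1 + n2 w 2` with integers `n`. `w 0 - w 3` is an integer vector, by `gen`
(indices 3,1,2) `w 0 = k w 3 + k1 w 1 + k2 w 2` with integers; substituting and comparing the coefficients of
`w 0` (independent, `ind`): `k n0 = 1`, so `n0 = ±1`. In the same way (indices 0,3,2 and `w 1 - w 3`)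
`n1 = ±1`, (indices 0,1,3 and `w 2 - w 3`) `n2 = ±1`. Let `σ l = -n l ∈ {1,-1}` for `l = 0,1,2`, `σ 3 = 1`,
`w' i = σ i w i`, `a' i = σ i a i`. `Σ w' i = 0`; `a' i ⬝ w' i = 1`; `|a' i ⬝ w' j| ≤ 1`; `w' 0, w' 1, w' 2`
independent; `hlat`: from `gen` with coefficients `σ l m l` (the same parity of the sum). `quad` gives
`Short 4 a'`: `u = Σ t i a' i = Σ (t i σ i) a i`, `|t i σ i| = |t i|`.
-/

open Matrix

namespace H66OD

theorem N4_unit {n : ℕ} (C : Cfg n) (i j k l : Fin n) (hij : i ≠ j) (hik : i ≠ k) (hjk : j ≠ k)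
    (hlj : l ≠ j) (hlk : l ≠ k) (n0 n1 n2 : ℤ)
    (h : C.w l = (n0 : ℝ) • C.w i + (n1 : ℝ) • C.w j + (n2 : ℝ) • C.w k) :
    n0 = 1 ∨ n0 = -1 := by
  obtain ⟨t, -, htw⟩ := GEN_coord (ind C i j k hij hik hjk)
  have t00 : t 0 (C.w i) = 1 := by simpa using htw 0 0
  have t01 : t 0 (C.w j) = 0 := by simpa using htw 0 1
  have t02 : t 0 (C.w k) = 0 := by simpa using htw 0 2
  obtain ⟨zi, hzi⟩ := C.hw i
  obtain ⟨zl, hzl⟩ := C.hw l
  obtain ⟨m0, m1, m2, hm, -⟩ := gen C l j k hlj hlk hjk (zi - zl)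
  have h1 : toR (zi - zl) = C.w i - C.w l := by
    rw [toR_sub, hzi, hzl]; abel
  rw [h1] at hm
  have h2 := congrArg (t 0) hm
  have h3 : t 0 (C.w l) = n0 := by
    rw [h]
    simp only [map_add, map_smul, smul_eq_mul, t00, t01, t02]
    ring
  simp only [map_add, map_sub, map_smul, smul_eq_mul, t00, t01, t02, h3] at h2
  have h4 : (n0 : ℝ) * (m0 + 1) = 1 := by linarith
  have h5 : n0 * (m0 + 1) = 1 := by exact_mod_cast h4
  exact Int.eq_one_or_neg_one_of_mul_eq_one h5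

theorem n4 (C : Cfg 4) : Short 4 C.a := by
  obtain ⟨z0, hz0⟩ := C.hw 0
  obtain ⟨z3, hz3⟩ := C.hw 3
  obtain ⟨m0, m1, m2, hm, -⟩ := gen C 0 1 2 (by decide) (by decide) (by decide) (z3 - z0)
  have h1 : toR (z3 - z0) = C.w 3 - C.w 0 := by
    rw [toR_sub, hz3, hz0]; abel
  rw [h1] at hm
  obtain ⟨n0, hn0⟩ : ∃ n0 : ℤ, n0 = m0 + 1 := ⟨_, rfl⟩
  have hw3 : C.w 3 = (n0 : ℝ) • C.w 0 + (m1 : ℝ) • C.w 1 + (m2 : ℝ) • C.w 2 := by
    rw [hn0]
    push_cast
    rw [add_smul, one_smul]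
    rw [sub_eq_iff_eq_add] at hm
    rw [hm]
    abel
  have u0 := N4_unit C 0 1 2 3 (by decide) (by decide) (by decide) (by decide) (by decide)
    n0 m1 m2 hw3
  have u1 := N4_unit C 1 0 2 3 (by decide) (by decide) (by decide) (by decide) (by decide)
    m1 n0 m2 (by rw [hw3]; abel)
  have u2 := N4_unit C 2 0 1 3 (by decide) (by decide) (by decide) (by decide) (by decide)
    m2 n0 m1 (by rw [hw3]; abel)
  obtain ⟨σ, hσ⟩ : ∃ σ : Fin 4 → ℤ, σ = ![-n0, -m1, -m2, 1] := ⟨_, rfl⟩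
  have hσ0 : σ 0 = -n0 := by rw [hσ]; rfl
  have hσ1 : σ 1 = -m1 := by rw [hσ]; rfl
  have hσ2 : σ 2 = -m2 := by rw [hσ]; rfl
  have hσ3 : σ 3 = 1 := by rw [hσ]; rfl
  have hpm : ∀ i, σ i = 1 ∨ σ i = -1 := by
    intro i
    fin_cases i
    · show σ 0 = 1 ∨ σ 0 = -1
      rw [hσ0]; omega
    · show σ 1 = 1 ∨ σ 1 = -1
      rw [hσ1]; omega
    · show σ 2 = 1 ∨ σ 2 = -1
      rw [hσ2]; omega
    · show σ 3 = 1 ∨ σ 3 = -1
      left; exact hσ3
  have hsq : ∀ i, (σ i : ℝ) * σ i = 1 := by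
    intro i
    rcases hpm i with h | h <;> rw [h] <;> norm_num
  have habs : ∀ i, |(σ i : ℝ)| = 1 := by
    intro i
    rcases hpm i with h | h <;> rw [h] <;> norm_num
  obtain ⟨t, htx, htw⟩ := GEN_coord (ind C 0 1 2 (by decide) (by decide) (by decide))
  have t00 : t 0 (C.w 0) = 1 := by simpa using htw 0 0
  have t01 : t 0 (C.w 1) = 0 := by simpa using htw 0 1
  have t02 : t 0 (C.w 2) = 0 := by simpa using htw 0 2
  have t10 : t 1 (C.w 0) = 0 := by simpa using htw 1 0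
  have t11 : t 1 (C.w 1) = 1 := by simpa using htw 1 1
  have t12 : t 1 (C.w 2) = 0 := by simpa using htw 1 2
  have t20 : t 2 (C.w 0) = 0 := by simpa using htw 2 0
  have t21 : t 2 (C.w 1) = 0 := by simpa using htw 2 1
  have t22 : t 2 (C.w 2) = 1 := by simpa using htw 2 2
  have hq := quad (fun i => (σ i : ℝ) • C.a i) (fun i => (σ i : ℝ) • C.w i) ?_ ?_ ?_ ?_ ?_
  · obtain ⟨u, hu, s, hs, hle⟩ := hq
    refine ⟨u, hu, fun i => s i * σ i, ?_, ?_⟩
    · rw [hs]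
      exact Finset.sum_congr rfl fun i _ => by rw [smul_smul]
    · refine le_trans (le_of_eq ?_) hle
      exact Finset.sum_congr rfl fun i _ => by rw [abs_mul, habs, mul_one]
  · rw [Fin.sum_univ_four, hσ0, hσ1, hσ2, hσ3, hw3]
    push_cast
    rw [one_smul, neg_smul, neg_smul, neg_smul]
    abel
  · intro i
    show ((σ i : ℝ) • C.a i) ⬝ᵥ ((σ i : ℝ) • C.w i) = 1
    rw [smul_dotProduct, dotProduct_smul, C.h1 i, smul_eq_mul, smul_eq_mul, mul_one, hsq]
  · intro i j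
    show |((σ i : ℝ) • C.a i) ⬝ᵥ ((σ j : ℝ) • C.w j)| ≤ 1
    rw [smul_dotProduct, dotProduct_smul, smul_eq_mul, smul_eq_mul, abs_mul, abs_mul, habs, habs,
      one_mul, one_mul]
    by_cases hij : j = i
    · rw [hij, C.h1 i, abs_one]
    · exact (C.h2 j i hij).le
  · rw [Fintype.linearIndependent_iff]
    intro g hg
    rw [Fin.sum_univ_three] at hg
    have hg' : g 0 • ((σ 0 : ℝ) • C.w 0) + g 1 • ((σ 1 : ℝ) • C.w 1) +
        g 2 • ((σ 2 : ℝ) • C.w 2) = 0 := hg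
    have e0 := congrArg (t 0) hg'
    have e1 := congrArg (t 1) hg'
    have e2 := congrArg (t 2) hg'
    simp only [map_add, map_smul, smul_eq_mul, map_zero, t00, t01, t02, t10, t11, t12, t20, t21,
      t22, mul_zero, mul_one, add_zero, zero_add] at e0 e1 e2
    have hne : ∀ i, (σ i : ℝ) ≠ 0 := fun i h0 => by
      have := hsq i
      rw [h0] at this
      norm_num at this
    intro i
    fin_cases i
    · exact (mul_eq_zero.1 e0).resolve_right (hne 0)
    · exact (mul_eq_zero.1 e1).resolve_right (hne 1)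
    · exact (mul_eq_zero.1 e2).resolve_right (hne 2)
  · intro y
    obtain ⟨k0, k1, k2, hk, hev⟩ := gen C 0 1 2 (by decide) (by decide) (by decide) y
    refine ⟨k0 * σ 0, k1 * σ 1, k2 * σ 2, ?_, ?_⟩
    · rw [hk]
      push_cast
      simp only [smul_smul, mul_assoc, hsq, mul_one]
    · have p0 := hpm 0
      have p1 := hpm 1
      have p2 := hpm 2
      obtain ⟨r, hr⟩ := hev
      rcases p0 with h | h <;> rcases p1 with h' | h' <;> rcases p2 with h'' | h'' <;>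
        rw [h, h', h''] <;> rw [Int.even_iff] <;> omega

end H66OD
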