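import Pool.Agent.H66.OD.N12
import Pool.Agent.H66.OD.N3
import Pool.Agent.H66.OD.N4

/-!
# L3D: the three-dimensional covering lemma (assembly, helper66)
-/

open Matrix

namespace H66OD

theorem l3d (n : ℕ) (C : Cfg n) : Short n C.a := by
  have hn : n ≤ 4 := par3_card C
  interval_cases n
  · obtain ⟨i, _⟩ := C.hcov 0
    exact i.elim0
  · exact n1 C
  · exact n2 C
  · exact n3 C
  · exact n4 C

end H66OD
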