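import Pool.Agent.H66.OD.STP

/-!
# Row S1 (about 80 lines): the dual form of Step 1

PROOF. Let `f y = max_{w ∈ Vt} y ⬝ (c - w)` (`Finset.sup'` over `D.Vt`, `D.ne`). Put
`y = Σ max (t k) 0 • U k`, `U k = toR (u (v k) (i k))`; then `y - toR u = Σ max (-t k) 0 • U k`. For `w ∈ Vt`:
`U k ⬝ (c - w) = U k ⬝ (c - v k) - U k ⬝ (w - v k) ≤ U k ⬝ (c - v k) =: f k` by `cone` (`toR w ∈ P`). So
`f y ≤ Σ max (t k) 0 * f k` and `f (y - u) ≤ Σ max (-t k) 0 * f k`, and `max t 0 + max (-t) 0 = |t|`. `stp`.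
-/

open Matrix

namespace H66OD

theorem s1 {P : Set (Fin 3 → ℝ)} (D : SmoothData P) (x : Fin 3 → ℤ) (c : Fin 3 → ℝ)
    (hc : toR x = (2 : ℝ) • c)
    (hH : ∀ v ∈ D.Vt, ∀ i, 3 / 2 ≤ toR (D.u v i) ⬝ᵥ (c - toR v)) (n : ℕ)
    (v : Fin n → (Fin 3 → ℤ)) (hv : ∀ k, v k ∈ D.Vt) (i : Fin n → Fin 3) (t : Fin n → ℝ)
    (u : Fin 3 → ℤ) (hu : u ≠ 0) (h : toR u = ∑ k, t k • toR (D.u (v k) (i k))) :
    3 / 2 ≤ ∑ k, |t k| * (toR (D.u (v k) (i k)) ⬝ᵥ (c - toR (v k))) := by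
  obtain ⟨f, hf⟩ : ∃ f : (Fin 3 → ℝ) → ℝ, f = fun y => D.Vt.sup' D.ne (fun w => y ⬝ᵥ (c - toR w)) :=
    ⟨_, rfl⟩
  have hf1 : ∀ y, ∀ w ∈ D.Vt, y ⬝ᵥ (c - toR w) ≤ f y := by
    intro y w hw
    rw [hf]
    exact Finset.le_sup' (fun w => y ⬝ᵥ (c - toR w)) hw
  have hf2 : ∀ y, ∃ w ∈ D.Vt, f y = y ⬝ᵥ (c - toR w) := by
    intro y
    rw [hf]
    exact Finset.exists_mem_eq_sup' D.ne (fun w => y ⬝ᵥ (c - toR w))
  have hP : ∀ w ∈ D.Vt, toR w ∈ P := by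
    intro w hw
    rw [D.hull]
    exact subset_convexHull ℝ _ (Set.mem_image_of_mem _ hw)
  have hb : ∀ s : Fin n → ℝ, (∀ k, 0 ≤ s k) → f (∑ k, s k • toR (D.u (v k) (i k))) ≤
      ∑ k, s k * (toR (D.u (v k) (i k)) ⬝ᵥ (c - toR (v k))) := by
    intro s hs
    obtain ⟨w, hw, hfw⟩ := hf2 (∑ k, s k • toR (D.u (v k) (i k)))
    rw [hfw, sum_dotProduct]
    refine Finset.sum_le_sum fun k _ => ?_
    rw [smul_dotProduct, smul_eq_mul]
    refine mul_le_mul_of_nonneg_left ?_ (hs k)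
    have h1 := D.cone (v k) (hv k) (i k) (toR w) (hP w hw)
    rw [dotProduct_sub] at h1 ⊢
    rw [dotProduct_sub]
    linarith
  have h1 := stp D x c hc hH f hf1 hf2 u hu (∑ k, max (t k) 0 • toR (D.u (v k) (i k)))
  have h2 : (∑ k, max (t k) 0 • toR (D.u (v k) (i k))) - toR u =
      ∑ k, max (-t k) 0 • toR (D.u (v k) (i k)) := by
    rw [h, ← Finset.sum_sub_distrib]
    refine Finset.sum_congr rfl fun k _ => ?_
    rw [← sub_smul]
    congr 1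
    rcases le_total (t k) 0 with h3 | h3
    · rw [max_eq_right h3, max_eq_left (by linarith)]
      ring
    · rw [max_eq_left h3, max_eq_right (by linarith)]
      ring
  rw [h2] at h1
  have h3 := hb (fun k => max (t k) 0) (fun k => le_max_right _ _)
  have h4 := hb (fun k => max (-t k) 0) (fun k => le_max_right _ _)
  have h5 : ∑ k, |t k| * (toR (D.u (v k) (i k)) ⬝ᵥ (c - toR (v k))) =
      (∑ k, max (t k) 0 * (toR (D.u (v k) (i k)) ⬝ᵥ (c - toR (v k)))) +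
      ∑ k, max (-t k) 0 * (toR (D.u (v k) (i k)) ⬝ᵥ (c - toR (v k))) := by
    rw [← Finset.sum_add_distrib]
    refine Finset.sum_congr rfl fun k _ => ?_
    rw [← add_mul]
    congr 1
    rcases le_total (t k) 0 with h3 | h3
    · rw [max_eq_right h3, max_eq_left (by linarith), abs_of_nonpos h3]
      ring
    · rw [max_eq_left h3, max_eq_right (by linarith), abs_of_nonneg h3]
      ring
  rw [h5]
  linarith

end H66OD
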