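import Pool.Agent.H66.OD.ACL
import Pool.Agent.H66.OD.HRP
import Pool.Agent.H66.OD.S1
import Pool.Agent.H66.OD.L3D

/-!
# Row M3 (about 200 lines): decomposition of `x ∈ 2P` when all facet heights are `≥ 3`

PROOF. Let `c = x/2`. If `x = 2 g'` is twice an integer vector: `p = g'`, `x - p = g'`, and `g' ∈ P` by `hrp`
(`u v i ⬝ (g' - v) = (u v i ⬝ (x - 2v))/2 ≥ 0`). So assume `c` is not an integer vector. Suppose there is no `p`.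
Index set `Φ = (Fin 3 → ℤ) × Fin 3`, `S = D.Vt ×ˢ Finset.univ`; for `φ = (v,i)` and an integer vector `z`
(standing for the point `c + z`) let `N φ z = |u v i ⬝ᵥ (x + 2 z)|` (integer, `= 2 |u v i ⬝ (c + z)|`), `h φ =
u v i ⬝ᵥ (x - 2 v) ≥ 3`, `T0 φ = h φ + 2`.
Covering: let `z` be an integer vector; `p = x + z = c + (c + z)`, `x - p = -z = c - (c + z)`. As `p` is not a
solution, by `hrp` some `(v,i)` has `u v i ⬝ (p - v) < 0` or `u v i ⬝ (x - p - v) < 0`. `2 u⬝(p - v) =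
u ⬝(x - 2v) + u ⬝ (x + 2z) = h + u ⬝ (x+2z)`, `2 u ⬝ (x - p - v) = h - u ⬝ (x + 2z)`. So `N φ z > h φ`; both have the
same parity (`h - u ⬝(x+2z) = -2 u ⬝ (v + z)`), so `N φ z ≥ h φ + 2 = T0 φ`.
`acl` (with `X = Fin 3 → ℤ`): `I ⊆ S` nonempty, `T ≥ T0`, points `ζ φ`. Let `n = I.card`, enumerate `I` by
`φ_k`, `k : Fin n` (`I.equivFin`). Define the configuration `C : Cfg n`: `c`, `g = x`, `a k = (2 / T φ_k) •
toR (u φ_k)`, `w k = s_k (c + toR (ζ φ_k))` with the sign `s_k = ±1` such that `a k ⬝ w k = 1` (the value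
`toR u ⬝ (c + ζ) = ± T/2`); for `s_k = -1`: `-(c + ζ) = c + (-x - ζ)` is of the form `c + integer`. `h2`:
`|a j ⬝ w i| = N φ_j (ζ φ_i)/T φ_j < 1`. `hcov`: `N φ z ≥ T φ` for some `φ ∈ I`. (`T φ ≥ 5 > 0`.)
`l3d n C`: `u ≠ 0`, `t` with `toR u = Σ t k • a k = Σ (2 t k/T φ_k) • toR (u φ_k)`, `Σ |t k| ≤ 3/2`. By `s1` (its
`hH`: `toR u ⬝ (c - v) = h φ/2 ≥ 3/2`): `3/2 ≤ Σ |2 t k / T_k| (h φ_k/2) = Σ |t k| (h φ_k / T_k)`, with
`h φ_k / T_k ≤ h/(h+2) < 1`; as `u ≠ 0` some `t k ≠ 0`, so the right side is `< Σ |t k| ≤ 3/2`. Contradiction.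
-/

open Matrix

namespace H66OD

theorem M3_val {x : Fin 3 → ℤ} {c : Fin 3 → ℝ} (hc : toR x = (2 : ℝ) • c) (u z : Fin 3 → ℤ) :
    toR u ⬝ᵥ (c + toR z) = ((u ⬝ᵥ (x + (2 : ℤ) • z) : ℤ) : ℝ) / 2 := by
  have h : c + toR z = (1 / 2 : ℝ) • toR (x + (2 : ℤ) • z) := by
    rw [toR_add, hc, toR_zsmul]
    push_cast
    module
  rw [h, dotProduct_smul, toR_dot, smul_eq_mul]
  ring

theorem M3_abs {x : Fin 3 → ℤ} {c : Fin 3 → ℝ} (hc : toR x = (2 : ℝ) • c) (u z : Fin 3 → ℤ)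
    {T : ℤ} (hT : 0 < T) :
    |((2 / (T : ℝ)) • toR u) ⬝ᵥ (c + toR z)| = ((|u ⬝ᵥ (x + (2 : ℤ) • z)| : ℤ) : ℝ) / T := by
  have hT' : (0 : ℝ) < T := by exact_mod_cast hT
  rw [smul_dotProduct, M3_val hc, smul_eq_mul, abs_mul, abs_div, abs_div, abs_of_pos hT',
    Int.cast_abs]
  norm_num

theorem M3_short {n : ℕ} {x : Fin 3 → ℤ} {c : Fin 3 → ℝ} (hc : toR x = (2 : ℝ) • c)
    (hc' : ∀ z : Fin 3 → ℤ, toR z ≠ c) (U : Fin n → (Fin 3 → ℤ)) (T : Fin n → ℤ)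
    (hT : ∀ k, 0 < T k) (ζ : Fin n → (Fin 3 → ℤ))
    (he : ∀ k, |U k ⬝ᵥ (x + (2 : ℤ) • ζ k)| = T k)
    (hl : ∀ i j, i ≠ j → |U j ⬝ᵥ (x + (2 : ℤ) • ζ i)| < T j)
    (hcov : ∀ z : Fin 3 → ℤ, ∃ k, T k ≤ |U k ⬝ᵥ (x + (2 : ℤ) • z)|) :
    Short n (fun k => (2 / (T k : ℝ)) • toR (U k)) := by
  have hT' : ∀ k, (0 : ℝ) < T k := fun k => by exact_mod_cast hT k
  obtain ⟨s, hs⟩ : ∃ s : Fin n → ℝ, s = fun k =>
    if 0 ≤ U k ⬝ᵥ (x + (2 : ℤ) • ζ k) then 1 else -1 := ⟨_, rfl⟩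
  have hs1 : ∀ k, |s k| = 1 := by
    intro k
    rw [hs]
    dsimp only
    split_ifs
    · exact abs_one
    · rw [abs_neg, abs_one]
  refine l3d n
    { c := c, g := x, hg := hc, hc := hc', a := fun k => (2 / (T k : ℝ)) • toR (U k)
      w := fun k => s k • (c + toR (ζ k)), hw := ?_, h1 := ?_, h2 := ?_, hcov := ?_ }
  · intro k
    by_cases h : 0 ≤ U k ⬝ᵥ (x + (2 : ℤ) • ζ k)
    · refine ⟨ζ k, ?_⟩
      have : s k = 1 := by rw [hs]; exact if_pos h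
      rw [this, one_smul]
    · refine ⟨-x - ζ k, ?_⟩
      have : s k = -1 := by rw [hs]; exact if_neg h
      rw [this, toR_sub, toR_neg, hc]
      module
  · intro k
    rw [dotProduct_smul, smul_dotProduct, M3_val hc, smul_eq_mul, smul_eq_mul]
    have h1 : s k * ((U k ⬝ᵥ (x + (2 : ℤ) • ζ k) : ℤ) : ℝ) = T k := by
      rw [← he k, Int.cast_abs]
      by_cases h : 0 ≤ U k ⬝ᵥ (x + (2 : ℤ) • ζ k)
      · have h2 : s k = 1 := by rw [hs]; exact if_pos h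
        rw [h2, one_mul, abs_of_nonneg (by exact_mod_cast h)]
      · have h2 : s k = -1 := by rw [hs]; exact if_neg h
        rw [h2, abs_of_neg (by exact_mod_cast (not_le.1 h))]
        ring
    have h3 := (hT' k).ne'
    calc s k * (2 / (T k : ℝ) * (((U k ⬝ᵥ (x + (2 : ℤ) • ζ k) : ℤ) : ℝ) / 2))
        = (s k * ((U k ⬝ᵥ (x + (2 : ℤ) • ζ k) : ℤ) : ℝ)) / T k := by ring
      _ = 1 := by rw [h1, div_self h3]
  · intro i j hij
    rw [dotProduct_smul, smul_eq_mul, abs_mul, hs1, one_mul, M3_abs hc _ _ (hT j),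
      div_lt_one (hT' j)]
    exact_mod_cast hl i j hij
  · intro z
    obtain ⟨k, hk⟩ := hcov z
    refine ⟨k, ?_⟩
    rw [M3_abs hc _ _ (hT k), one_le_div (hT' k)]
    exact_mod_cast hk

theorem M3_notMem {P : Set (Fin 3 → ℝ)} (D : SmoothData P) (p : Fin 3 → ℤ) (h : toR p ∉ P) :
    ∃ v ∈ D.Vt, ∃ i, D.u v i ⬝ᵥ (p - v) < 0 := by
  by_contra hn
  push Not at hn
  apply h
  apply hrp D
  intro v hv i
  rw [← toR_sub, toR_dot]
  exact_mod_cast hn v hv i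

theorem m3 {P : Set (Fin 3 → ℝ)} (D : SmoothData P) (x : Fin 3 → ℤ)
    (hx : ∀ v ∈ D.Vt, ∀ i, 3 ≤ D.u v i ⬝ᵥ (x - (2 : ℤ) • v)) :
    ∃ p : Fin 3 → ℤ, toR p ∈ P ∧ toR (x - p) ∈ P := by
  by_cases hx2 : ∃ g : Fin 3 → ℤ, x = (2 : ℤ) • g
  · obtain ⟨g, rfl⟩ := hx2
    have hg : toR g ∈ P := by
      by_contra hn
      obtain ⟨v, hv, i, hi⟩ := M3_notMem D g hn
      have h := hx v hv i
      rw [← smul_sub, dotProduct_smul, smul_eq_mul] at h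
      omega
    refine ⟨g, hg, ?_⟩
    have : (2 : ℤ) • g - g = g := by rw [two_smul]; abel
    rw [this]
    exact hg
  by_contra hno
  push Not at hno
  obtain ⟨c, hcd⟩ : ∃ c : Fin 3 → ℝ, c = (1 / 2 : ℝ) • toR x := ⟨_, rfl⟩
  have hc : toR x = (2 : ℝ) • c := by
    rw [hcd, smul_smul]
    norm_num
  have hc' : ∀ z : Fin 3 → ℤ, toR z ≠ c := by
    intro z hz
    apply hx2
    refine ⟨z, toR_injective ?_⟩
    rw [toR_zsmul, hz, hc]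
    norm_num
  -- covering
  have hcov : ∀ z : Fin 3 → ℤ, ∃ φ ∈ D.Vt ×ˢ (Finset.univ : Finset (Fin 3)),
      D.u φ.1 φ.2 ⬝ᵥ (x - (2 : ℤ) • φ.1) + 2 ≤ |D.u φ.1 φ.2 ⬝ᵥ (x + (2 : ℤ) • z)| := by
    intro z
    by_cases h1 : toR (x + z) ∈ P
    · obtain ⟨v, hv, i, hi⟩ := M3_notMem D _ (hno (x + z) h1)
      refine ⟨(v, i), Finset.mem_product.2 ⟨hv, Finset.mem_univ _⟩, ?_⟩
      have e : x - (x + z) - v = -z - v := by abel
      rw [e, dotProduct_sub, dotProduct_neg] at hi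
      show D.u v i ⬝ᵥ (x - (2 : ℤ) • v) + 2 ≤ |D.u v i ⬝ᵥ (x + (2 : ℤ) • z)|
      rw [dotProduct_sub, dotProduct_add, dotProduct_smul, dotProduct_smul, smul_eq_mul,
        smul_eq_mul]
      exact le_trans (by omega) (le_abs_self _)
    · obtain ⟨v, hv, i, hi⟩ := M3_notMem D _ h1
      refine ⟨(v, i), Finset.mem_product.2 ⟨hv, Finset.mem_univ _⟩, ?_⟩
      rw [dotProduct_sub, dotProduct_add] at hi
      show D.u v i ⬝ᵥ (x - (2 : ℤ) • v) + 2 ≤ |D.u v i ⬝ᵥ (x + (2 : ℤ) • z)|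
      rw [dotProduct_sub, dotProduct_add, dotProduct_smul, dotProduct_smul, smul_eq_mul,
        smul_eq_mul]
      exact le_trans (by omega) (neg_le_abs _)
  obtain ⟨I, T, ζ, hIS, hIne, hT0, hTe, hTl, hIcov⟩ :=
    acl (X := Fin 3 → ℤ) (D.Vt ×ˢ (Finset.univ : Finset (Fin 3)))
      (fun φ z => |D.u φ.1 φ.2 ⬝ᵥ (x + (2 : ℤ) • z)|)
      (fun φ => D.u φ.1 φ.2 ⬝ᵥ (x - (2 : ℤ) • φ.1) + 2) hcov
  have hmem : ∀ φ ∈ I, φ.1 ∈ D.Vt := fun φ hφ => (Finset.mem_product.1 (hIS hφ)).1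
  have hT5 : ∀ φ ∈ I, 5 ≤ T φ := by
    intro φ hφ
    have h1 := hT0 φ hφ
    have h2 := hx φ.1 (hmem φ hφ) φ.2
    omega
  obtain ⟨n, hn⟩ : ∃ n, n = I.card := ⟨_, rfl⟩
  have e : I ≃ Fin n := hn ▸ I.equivFin
  obtain ⟨φ, hφI, hφinj, hφsurj⟩ : ∃ φ : Fin n → (Fin 3 → ℤ) × Fin 3, (∀ k, φ k ∈ I) ∧
      Function.Injective φ ∧ ∀ ψ ∈ I, ∃ k, φ k = ψ :=
    ⟨fun k => (e.symm k).1, fun k => (e.symm k).2,
      fun i j h => e.symm.injective (Subtype.ext h),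
      fun ψ hψ => ⟨e ⟨ψ, hψ⟩, congrArg Subtype.val (e.symm_apply_apply ⟨ψ, hψ⟩)⟩⟩
  have hpos : ∀ k, 0 < T (φ k) := fun k => by
    have := hT5 _ (hφI k)
    omega
  obtain ⟨u, hu, t, hut, ht⟩ := M3_short hc hc' (fun k => D.u (φ k).1 (φ k).2)
    (fun k => T (φ k)) hpos (fun k => ζ (φ k)) (fun k => hTe _ (hφI k))
    (fun i j hij => hTl _ (hφI i) _ (hφI j) fun h => hij (hφinj h.symm))
    (fun z => by
      obtain ⟨ψ, hψ, h⟩ := hIcov z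
      obtain ⟨k, rfl⟩ := hφsurj ψ hψ
      exact ⟨k, h⟩)
  have hval : ∀ v i, toR (D.u v i) ⬝ᵥ (c - toR v) =
      ((D.u v i ⬝ᵥ (x - (2 : ℤ) • v) : ℤ) : ℝ) / 2 := by
    intro v i
    have h := M3_val hc (D.u v i) (-v)
    rw [toR_neg, ← sub_eq_add_neg] at h
    rw [h]
    have e : x + (2 : ℤ) • -v = x - (2 : ℤ) • v := by rw [smul_neg, sub_eq_add_neg]
    rw [e]
  have hH : ∀ v ∈ D.Vt, ∀ i, 3 / 2 ≤ toR (D.u v i) ⬝ᵥ (c - toR v) := by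
    intro v hv i
    rw [hval]
    have h1 : (3 : ℝ) ≤ ((D.u v i ⬝ᵥ (x - (2 : ℤ) • v) : ℤ) : ℝ) := by
      exact_mod_cast hx v hv i
    linarith
  have hs := s1 D x c hc hH n (fun k => (φ k).1) (fun k => hmem _ (hφI k)) (fun k => (φ k).2)
    (fun k => t k * (2 / (T (φ k) : ℝ))) u hu (by
      rw [hut]
      refine Finset.sum_congr rfl fun k _ => ?_
      rw [smul_smul])
  have hfac : ∀ k, 0 < (T (φ k) : ℝ) ∧
      0 ≤ (2 / (T (φ k) : ℝ)) * (toR (D.u (φ k).1 (φ k).2) ⬝ᵥ (c - toR (φ k).1)) ∧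
      (2 / (T (φ k) : ℝ)) * (toR (D.u (φ k).1 (φ k).2) ⬝ᵥ (c - toR (φ k).1)) < 1 := by
    intro k
    have h0 : (0 : ℝ) < T (φ k) := by exact_mod_cast hpos k
    have h1 : (3 : ℝ) ≤ ((D.u (φ k).1 (φ k).2 ⬝ᵥ (x - (2 : ℤ) • (φ k).1) : ℤ) : ℝ) := by
      exact_mod_cast hx _ (hmem _ (hφI k)) (φ k).2
    have h2 : ((D.u (φ k).1 (φ k).2 ⬝ᵥ (x - (2 : ℤ) • (φ k).1) : ℤ) : ℝ) + 2 ≤ T (φ k) := by
      exact_mod_cast hT0 _ (hφI k)
    rw [hval]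
    refine ⟨h0, by positivity, ?_⟩
    have e1 : (2 / (T (φ k) : ℝ)) *
        (((D.u (φ k).1 (φ k).2 ⬝ᵥ (x - (2 : ℤ) • (φ k).1) : ℤ) : ℝ) / 2) =
        ((D.u (φ k).1 (φ k).2 ⬝ᵥ (x - (2 : ℤ) • (φ k).1) : ℤ) : ℝ) / T (φ k) := by ring
    rw [e1, div_lt_one h0]
    linarith
  have hsum : ∑ k, |t k * (2 / (T (φ k) : ℝ))| *
      (toR (D.u (φ k).1 (φ k).2) ⬝ᵥ (c - toR (φ k).1)) < ∑ k, |t k| := by
    apply Finset.sum_lt_sum
    · intro k _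
      obtain ⟨h0, h1, h2⟩ := hfac k
      rw [abs_mul, abs_of_pos (div_pos two_pos h0), mul_assoc]
      exact mul_le_of_le_one_right (abs_nonneg _) h2.le
    · by_contra hall
      push Not at hall
      have ht0 : ∀ k, t k = 0 := by
        intro k
        by_contra hk
        have h3 := hall k (Finset.mem_univ k)
        obtain ⟨h0, h1, h2⟩ := hfac k
        rw [abs_mul, abs_of_pos (div_pos two_pos h0), mul_assoc] at h3
        have h4 : 0 < |t k| := abs_pos.2 hk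
        nlinarith
      apply hu
      apply toR_injective
      rw [hut, toR_zero]
      exact Finset.sum_eq_zero fun k _ => by rw [ht0 k, zero_smul]
  linarith

end H66OD
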