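import Pool.Agent.H66.OD.M02
import Pool.Agent.H66.OD.M1
import Pool.Agent.H66.OD.M3
import Pool.Agent.H66.OD.EDG3

/-!
# FIN: assembly (helper66)
-/

open Matrix

namespace H66OD

/-- `k = 2`. -/
theorem fin2 {P : Set (Fin 3 → ℝ)} (D : SmoothData P) (x : Fin 3 → ℤ)
    (hx : ∀ v ∈ D.Vt, ∀ i, 0 ≤ D.u v i ⬝ᵥ (x - (2 : ℤ) • v)) :
    ∃ p : Fin 3 → ℤ, toR p ∈ P ∧ toR (x - p) ∈ P := by
  by_cases h3 : ∀ v ∈ D.Vt, ∀ i, 3 ≤ D.u v i ⬝ᵥ (x - (2 : ℤ) • v)
  · exact m3 D x h3
  · push Not at h3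
    obtain ⟨v, hv, i, hi⟩ := h3
    have h0 := hx v hv i
    by_cases h1 : D.u v i ⬝ᵥ (x - (2 : ℤ) • v) = 1
    · exact m1 D x hx v hv i h1
    · exact m02 D x hx v hv i (by omega)

theorem fin {P : Set (Fin 3 → ℝ)} (hP : IsSmooth P) : HasIDP P := by
  obtain ⟨D⟩ := edg3 P hP
  obtain ⟨L, hL⟩ := flp D
  have hconv : Convex ℝ P := by
    have := convex_convexHull ℝ (toR '' (D.Vt : Set (Fin 3 → ℤ)))
    rw [← D.hull] at this
    exact this
  have hVP : ∀ v ∈ D.Vt, toR v ∈ P := by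
    intro v hv
    rw [D.hull]
    exact subset_convexHull ℝ _ ⟨v, hv, rfl⟩
  have hLP : convexHull ℝ (toR '' (L : Set (Fin 3 → ℤ))) = P := by
    apply Set.Subset.antisymm
    · apply convexHull_min _ hconv
      rintro _ ⟨z, hz, rfl⟩
      exact (hL z).1 hz
    · conv_lhs => rw [D.hull]
      apply convexHull_mono
      apply Set.image_mono
      intro v hv
      exact (hL v).2 (hVP v hv)
  intro k hk
  induction k, hk using Nat.le_induction with
  | base =>
    rintro x ⟨y, hy, hxy⟩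
    refine ⟨fun _ => x, fun _ => ?_, by simp⟩
    rw [hxy]
    simpa using hy
  | succ k hk ih =>
    rintro x ⟨y, hy, hxy⟩
    rcases Nat.lt_or_ge k 2 with hk2 | hk2
    · obtain rfl : k = 1 := by omega
      have hx : ∀ v ∈ D.Vt, ∀ i, 0 ≤ D.u v i ⬝ᵥ (x - (2 : ℤ) • v) := by
        intro v hv i
        have h1 := D.cone v hv i y hy
        have h2 : toR (x - (2 : ℤ) • v) = (2 : ℝ) • (y - toR v) := by
          rw [toR_sub, toR_zsmul, hxy, smul_sub]
          norm_num
        have h3 : ((D.u v i ⬝ᵥ (x - (2 : ℤ) • v) : ℤ) : ℝ) =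
            2 * (toR (D.u v i) ⬝ᵥ (y - toR v)) := by
          rw [← toR_dot, h2, dotProduct_smul, smul_eq_mul]
        have h4 : (0 : ℝ) ≤ ((D.u v i ⬝ᵥ (x - (2 : ℤ) • v) : ℤ) : ℝ) := by
          rw [h3]
          positivity
        exact_mod_cast h4
      obtain ⟨p, hp, hxp⟩ := fin2 D x hx
      refine ⟨![p, x - p], ?_, ?_⟩
      · intro i
        fin_cases i
        · simpa using hp
        · simpa using hxp
      · simp [Fin.sum_univ_two]
    · have hX : ∀ z : Fin 3 → ℤ, toR z ∈ convexHull ℝ (toR '' (L : Set (Fin 3 → ℤ))) → z ∈ L := by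
        intro z hz
        rw [hLP] at hz
        exact (hL z).2 hz
      obtain ⟨p, hp, y', hy', hpy⟩ := bgt L hX (k + 1) (by omega)
        (fun t _ ht => (afi4 t ht).trans (by omega)) x y (by rw [hLP]; exact hy) hxy
      rw [hLP] at hy'
      have h1 : toR (x - p) = (k : ℝ) • y' := by
        rw [toR_sub, hpy]
        congr 1
        push_cast
        ring
      obtain ⟨f, hf, hsum⟩ := ih (x - p) ⟨y', hy', h1⟩
      refine ⟨Fin.cons p f, ?_, ?_⟩
      · intro i
        refine Fin.cases ?_ ?_ i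
        · simpa using (hL p).1 hp
        · intro j
          simpa using hf j
      · rw [Fin.sum_univ_succ]
        simp only [Fin.cons_zero, Fin.cons_succ]
        rw [← hsum]
        abel

end H66OD
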