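import Pool.Agent.H66.OD.Defs

/-!
# Row FLP (about 40 lines): the integer points of `P` form a finite set

PROOF. All coordinates of the finitely many vertices are in `[-B,B]` for some integer `B`, so all points of the
hull have coordinates in `[-B,B]` (`convexHull_min` in the convex set `Set.Icc`). Take the filter of
`Finset.Icc (fun _ => -B) (fun _ => B)` by `toR z ∈ P` (classical).
-/

namespace H66OD

theorem flp {P : Set (Fin 3 → ℝ)} (D : SmoothData P) :
    ∃ L : Finset (Fin 3 → ℤ), ∀ z, z ∈ L ↔ toR z ∈ P := by
  classical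
  obtain ⟨B, hB⟩ : ∃ B : ℤ, ∀ v ∈ D.Vt, ∀ i, |v i| ≤ B := by
    refine ⟨∑ v ∈ D.Vt, ∑ i, |v i|, fun v hv i => ?_⟩
    calc |v i| ≤ ∑ i, |v i| :=
          Finset.single_le_sum (f := fun i => |v i|) (fun j _ => abs_nonneg _) (Finset.mem_univ i)
      _ ≤ _ := Finset.single_le_sum (f := fun v : Fin 3 → ℤ => ∑ i, |v i|)
          (fun w _ => Finset.sum_nonneg (fun j _ => abs_nonneg _)) hv
  have hsub : P ⊆ Set.Icc (fun _ => -(B : ℝ)) (fun _ => (B : ℝ)) := by
    rw [D.hull]
    apply convexHull_min
    · rintro _ ⟨w, hw, rfl⟩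
      constructor
      · intro i
        have := (abs_le.mp (hB w hw i)).1
        simp only [toR_apply]
        exact_mod_cast this
      · intro i
        have := (abs_le.mp (hB w hw i)).2
        simp only [toR_apply]
        exact_mod_cast this
    · exact convex_Icc _ _
  refine ⟨(Finset.Icc (fun _ => -B) (fun _ => B)).filter (fun z => toR z ∈ P), fun z => ?_⟩
  rw [Finset.mem_filter, Finset.mem_Icc]
  constructor
  · exact fun h => h.2
  · intro h
    refine ⟨⟨fun i => ?_, fun i => ?_⟩, h⟩
    · have := (hsub h).1 i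
      simp only [toR_apply] at this
      exact_mod_cast this
    · have := (hsub h).2 i
      simp only [toR_apply] at this
      exact_mod_cast this

end H66OD
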