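import Pool.Agent.H66.OD.Defs

/-!
# Row FRC (about 100 lines): fractional parts

`z 0, ..., z 3` additive functions `G → ℝ` with sum zero, all values torsion mod `ℤ`; the sum
`S q = Σ Int.fract (z i q)` is never `2`, and if it is `1` then no `z i q` is an integer. Then all
`z i q` are integers.

PROOF. For `q : G`, `S q` is an integer since `Σ z i q = 0` (`S q = -Σ ⌊z i q⌋`), `0 ≤ S q < 4`, so
`S q ∈ {0,1,3}`; `S q = 0` iff all `fract (z i q) = 0`; if `S q = 3` then all `fract (z i q) > 0` (three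
numbers `< 1` have sum `< 3`). So: either all `z i q` are integers, or all are non-integers and
`S q ∈ {1,3}`. In the second case `fract (-z) = 1 - fract z` gives `S (-q) = 4 - S q`.
Suppose some `z i y` is not an integer. Replacing `y` by `-y` assume `S y = 1`. Let `K ≥ 1` be minimal
with all `z i (K • y)` integers (`Nat.find`, exists by `htor`); `K ≥ 2`. For `1 ≤ k ≤ K-1` `S (k • y) ∈
{1,3}`. `(K-1) • y = K • y - y`, so `fract (z i ((K-1) • y)) = fract (-z i y)` and
`S ((K-1) • y) = 3`. But `S ((k+1) • y) ≤ S (k • y) + S y = S (k • y) + 1` (`Int.fract_add_le`), so by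
induction on `k` from `S (1 • y) = 1`: `S (k • y) = 1` for all `1 ≤ k ≤ K-1` (value `≤ 2` and in
`{1,3}`). Contradiction at `k = K-1`.
-/

namespace H66OD

theorem FRC_int {x : ℝ} (h : Int.fract x = 0) : ∃ m : ℤ, x = m :=
  ⟨⌊x⌋, by
    have h1 := Int.floor_add_fract x
    rw [h, add_zero] at h1
    exact h1.symm⟩

theorem FRC_cases {G : Type} [AddCommGroup G] (z : Fin 4 → G →+ ℝ) (hsum : ∀ q, ∑ i, z i q = 0)
    (H2 : ∀ q, ∑ i, Int.fract (z i q) ≠ 2)
    (H1 : ∀ q, ∑ i, Int.fract (z i q) = 1 → ∀ i, Int.fract (z i q) ≠ 0) (q : G) :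
    (∀ i, Int.fract (z i q) = 0) ∨ ((∀ i, Int.fract (z i q) ≠ 0) ∧
      (∑ i, Int.fract (z i q) = 1 ∨ ∑ i, Int.fract (z i q) = 3)) := by
  have h0 : ∀ i, 0 ≤ Int.fract (z i q) := fun i => Int.fract_nonneg _
  have h1 : ∀ i, Int.fract (z i q) < 1 := fun i => Int.fract_lt_one _
  obtain ⟨m, hm⟩ : ∃ m : ℤ, ∑ i, Int.fract (z i q) = m := by
    refine ⟨-∑ i, ⌊z i q⌋, ?_⟩
    have h2 : ∑ i, Int.fract (z i q) = ∑ i, z i q - ∑ i, (⌊z i q⌋ : ℝ) := by
      rw [← Finset.sum_sub_distrib]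
      exact Finset.sum_congr rfl fun i _ => rfl
    rw [h2, hsum]
    push_cast
    ring
  have h4 := H2 q
  have h5 := H1 q
  rw [Fin.sum_univ_four] at hm h4 h5 ⊢
  have a0 := h0 0
  have a1 := h0 1
  have a2 := h0 2
  have a3 := h0 3
  have b0 := h1 0
  have b1 := h1 1
  have b2 := h1 2
  have b3 := h1 3
  have hm0 : (0 : ℝ) ≤ m := by linarith
  have hm4 : (m : ℝ) < 4 := by linarith
  have hm0' : 0 ≤ m := by exact_mod_cast hm0
  have hm4' : m < 4 := by exact_mod_cast hm4
  have hcase : m = 0 ∨ m = 1 ∨ m = 2 ∨ m = 3 := by omega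
  rcases hcase with rfl | rfl | rfl | rfl
  · left
    push_cast at hm
    intro i
    fin_cases i
    · show Int.fract (z 0 q) = 0
      linarith
    · show Int.fract (z 1 q) = 0
      linarith
    · show Int.fract (z 2 q) = 0
      linarith
    · show Int.fract (z 3 q) = 0
      linarith
  · right
    push_cast at hm
    exact ⟨h5 hm, Or.inl hm⟩
  · exfalso
    push_cast at hm
    exact h4 hm
  · right
    push_cast at hm
    refine ⟨fun i hi => ?_, Or.inr hm⟩
    fin_cases i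
    · have : Int.fract (z 0 q) = 0 := hi
      linarith
    · have : Int.fract (z 1 q) = 0 := hi
      linarith
    · have : Int.fract (z 2 q) = 0 := hi
      linarith
    · have : Int.fract (z 3 q) = 0 := hi
      linarith

theorem FRC_core {G : Type} [AddCommGroup G] (z : Fin 4 → G →+ ℝ) (hsum : ∀ q, ∑ i, z i q = 0)
    (htor : ∀ q, ∃ K : ℕ, 1 ≤ K ∧ ∀ i, ∃ m : ℤ, z i (K • q) = m)
    (H2 : ∀ q, ∑ i, Int.fract (z i q) ≠ 2)
    (H1 : ∀ q, ∑ i, Int.fract (z i q) = 1 → ∀ i, Int.fract (z i q) ≠ 0) (y : G)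
    (hy : ∑ i, Int.fract (z i y) = 1) : False := by
  classical
  have hex : ∃ K : ℕ, 1 ≤ K ∧ ∀ i, Int.fract (z i (K • y)) = 0 := by
    obtain ⟨K, hK, h⟩ := htor y
    refine ⟨K, hK, fun i => ?_⟩
    obtain ⟨m, hm⟩ := h i
    rw [hm, Int.fract_intCast]
  obtain ⟨K, hKd⟩ : ∃ K, K = Nat.find hex := ⟨_, rfl⟩
  obtain ⟨hK1, hK0⟩ : 1 ≤ K ∧ ∀ i, Int.fract (z i (K • y)) = 0 := by
    rw [hKd]
    exact Nat.find_spec hex
  have hmin : ∀ k, 1 ≤ k → k < K → ¬ ∀ i, Int.fract (z i (k • y)) = 0 := by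
    intro k hk hkK h
    rw [hKd] at hkK
    exact Nat.find_min hex hkK ⟨hk, h⟩
  have hK2 : 2 ≤ K := by
    by_contra hcon
    have : K = 1 := by omega
    rw [this] at hK0
    have h1 : ∑ i, Int.fract (z i y) = 0 := by
      refine Finset.sum_eq_zero fun i _ => ?_
      have := hK0 i
      rwa [one_smul] at this
    linarith
  have hind : ∀ k, 1 ≤ k → k < K → ∑ i, Int.fract (z i (k • y)) = 1 := by
    intro k hk
    induction k, hk using Nat.le_induction with
    | base =>
      intro _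
      rw [one_smul]
      exact hy
    | succ k hk ih =>
      intro hkK
      have h1 := ih (by omega)
      have h2 : ∑ i, Int.fract (z i ((k + 1) • y)) ≤
          ∑ i, Int.fract (z i (k • y)) + ∑ i, Int.fract (z i y) := by
        rw [← Finset.sum_add_distrib]
        refine Finset.sum_le_sum fun i _ => ?_
        rw [add_smul, one_smul, map_add]
        exact Int.fract_add_le _ _
      rcases FRC_cases z hsum H2 H1 ((k + 1) • y) with h3 | ⟨_, h3 | h3⟩
      · exact absurd h3 (hmin (k + 1) (by omega) hkK)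
      · exact h3
      · rw [h1, hy, h3] at h2
        norm_num at h2
  have h1 := hind (K - 1) (by omega) (by omega)
  have h2 : ∀ i, Int.fract (z i ((K - 1) • y)) = 1 - Int.fract (z i y) := by
    intro i
    have h3 : (K - 1) • y = K • y - y := by
      rw [eq_sub_iff_add_eq]
      conv_lhs => rw [← one_smul ℕ y, smul_smul, mul_one, ← add_smul]
      congr 1
      omega
    obtain ⟨m, hm⟩ := FRC_int (hK0 i)
    rw [h3, map_sub, hm]
    have h4 : (m : ℝ) - z i y = m + -(z i y) := by ring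
    rw [h4, Int.fract_intCast_add, Int.fract_neg (H1 y hy i)]
  have h3 : ∑ i, Int.fract (z i ((K - 1) • y)) = 4 - ∑ i, Int.fract (z i y) := by
    rw [Finset.sum_congr rfl fun i _ => h2 i, Finset.sum_sub_distrib]
    simp
  rw [h1, hy] at h3
  norm_num at h3

theorem frc {G : Type} [AddCommGroup G] (z : Fin 4 → G →+ ℝ) (hsum : ∀ q, ∑ i, z i q = 0)
    (htor : ∀ q, ∃ K : ℕ, 1 ≤ K ∧ ∀ i, ∃ m : ℤ, z i (K • q) = m)
    (H2 : ∀ q, ∑ i, Int.fract (z i q) ≠ 2)
    (H1 : ∀ q, ∑ i, Int.fract (z i q) = 1 → ∀ i, Int.fract (z i q) ≠ 0) :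
    ∀ q i, ∃ m : ℤ, z i q = m := by
  intro q i
  have h : ∀ i, Int.fract (z i q) = 0 := by
    rcases FRC_cases z hsum H2 H1 q with h | ⟨h, h1 | h1⟩
    · exact h
    · exact (FRC_core z hsum htor H2 H1 q h1).elim
    · exfalso
      refine FRC_core z hsum htor H2 H1 (-q) ?_
      have h3 : ∑ i, Int.fract (z i (-q)) = 4 - ∑ i, Int.fract (z i q) := by
        rw [Finset.sum_congr rfl fun i _ => by rw [map_neg, Int.fract_neg (h i)],
          Finset.sum_sub_distrib]
        simp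
      rw [h3, h1]
      norm_num
  exact FRC_int (h i)

end H66OD
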