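import Pool.Agent.H66.OD.Defs

/-!
# Row FV (about 120 lines): facets at their vertices

`h(x) = u v0 i0 ⬝ (x - v0)` is a facet functional, `w ∈ Vt` with `h(w) = 0`. Then `u v0 i0 = u w i` for some `i`.

PROOF. Let `U = u v0 i0`, `c i = U ⬝ᵥ e w i` (integers), `c i ≥ 0` by `cone` at `v0` for the point
`w + e w i ∈ P` and `h(w) = 0`. Let `x ∈ P` with `h(x) = 0`: `x - w = Σ α i e w i`, `α i = u w i ⬝ (x - w) ≥ 0`,
`0 = h(x) - h(w) = Σ α i c i`, so `α i = 0` whenever `c i > 0`. If two of the `c i` are positive, every such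
`x - w` is a multiple of the third vector `e w k`. Apply this to `x = v0`, `v0 + e v0 i'`, `v0 + e v0 i''`
(`i', i''` the two indices `≠ i0`; they are in `P` with `h = 0`): the differences `e v0 i'`, `e v0 i''` are both
multiples of `toR (e w k)`, so linearly dependent: but `u v0 i' ⬝ e v0 i' = 1`, `u v0 i' ⬝ e v0 i'' = 0`,
`u v0 i'' ⬝ e v0 i'' = 1`: `e v0 i' = α E`, `e v0 i'' = β E`; `α (u' ⬝ E) = 1`, `β (u' ⬝ E) = 0` so `β = 0`, but
`β (u'' ⬝ E) = 1`: contradiction. If all `c i = 0`: `U ⬝ e v0 i0 = 1` but `e v0 i0 = Σ (..) e w i` gives `0`.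
So exactly one `c i` is positive: by `span` at `w`, `U ⬝ x = Σ_j (u w j ⬝ x) c j = c i (u w i ⬝ x)` for all `x`, so
`U = c i • u w i` (test on standard basis vectors), and `1 = U ⬝ e v0 i0 = c i (u w i ⬝ e v0 i0)` with integers,
`c i > 0`, so `c i = 1`.
-/

set_option autoImplicit false

open Matrix

namespace H66OD

/-- Points of the facet in the coordinates of `w`. -/
theorem FV_coef {P : Set (Fin 3 → ℝ)} (D : SmoothData P) (w : Fin 3 → ℤ) (hw : w ∈ D.Vt)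
    (U v0 : Fin 3 → ℤ) (h : U ⬝ᵥ (w - v0) = 0) (hc : ∀ i, 0 ≤ U ⬝ᵥ D.e w i)
    (x : Fin 3 → ℝ) (hx : x ∈ P) (hx0 : toR U ⬝ᵥ (x - toR v0) = 0) :
    ∀ i, U ⬝ᵥ D.e w i ≠ 0 → toR (D.u w i) ⬝ᵥ (x - toR w) = 0 := by
  have h1 : toR U ⬝ᵥ (x - toR w) = 0 := by
    have h2 : toR U ⬝ᵥ (toR w - toR v0) = 0 := by
      rw [← toR_sub, toR_dot, h, Int.cast_zero]
    have h3 : x - toR w = (x - toR v0) - (toR w - toR v0) := by abel
    rw [h3, dotProduct_sub, hx0, h2, sub_zero]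
  have h4 : toR U ⬝ᵥ (x - toR w) =
      ∑ i, (toR (D.u w i) ⬝ᵥ (x - toR w)) * ((U ⬝ᵥ D.e w i : ℤ) : ℝ) := by
    conv_lhs => rw [D.span w hw (x - toR w)]
    rw [dotProduct_sum]
    refine Finset.sum_congr rfl fun i _ => ?_
    rw [dotProduct_smul, toR_dot, smul_eq_mul]
  rw [h1] at h4
  have h5 := (Finset.sum_eq_zero_iff_of_nonneg (fun i _ => mul_nonneg (D.cone w hw i x hx)
    (by exact_mod_cast hc i))).1 h4.symm
  intro i hi
  rcases mul_eq_zero.1 (h5 i (Finset.mem_univ i)) with h6 | h6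
  · exact h6
  · exact absurd (by exact_mod_cast h6) hi

theorem FV_mem {P : Set (Fin 3 → ℝ)} (D : SmoothData P) (w : Fin 3 → ℤ) (hw : w ∈ D.Vt) :
    toR w ∈ P := by
  rw [D.hull]
  exact subset_convexHull ℝ _ ⟨w, hw, rfl⟩

theorem fv {P : Set (Fin 3 → ℝ)} (D : SmoothData P) (v0 : Fin 3 → ℤ) (hv0 : v0 ∈ D.Vt)
    (i0 : Fin 3) (w : Fin 3 → ℤ) (hw : w ∈ D.Vt) (h : D.u v0 i0 ⬝ᵥ (w - v0) = 0) :
    ∃ i, D.u w i = D.u v0 i0 := by
  have hc : ∀ i, 0 ≤ D.u v0 i0 ⬝ᵥ D.e w i := by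
    intro i
    have h1 := D.cone v0 hv0 i0 _ (D.mem w hw i)
    rw [← toR_sub, toR_dot, show w + D.e w i - v0 = (w - v0) + D.e w i by abel,
      dotProduct_add, h, zero_add] at h1
    exact_mod_cast h1
  have hco := FV_coef D w hw (D.u v0 i0) v0 h hc
  -- the expansion in the basis at `w`
  have hexp : ∀ x : Fin 3 → ℝ, toR (D.u v0 i0) ⬝ᵥ x =
      ∑ i, (toR (D.u w i) ⬝ᵥ x) * ((D.u v0 i0 ⬝ᵥ D.e w i : ℤ) : ℝ) := by
    intro x
    conv_lhs => rw [D.span w hw x]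
    rw [dotProduct_sum]
    refine Finset.sum_congr rfl fun i _ => ?_
    rw [dotProduct_smul, toR_dot, smul_eq_mul]
  have hone : toR (D.u v0 i0) ⬝ᵥ toR (D.e v0 i0) = 1 := by
    rw [toR_dot, D.dual v0 hv0, if_pos rfl, Int.cast_one]
  have hno : ¬ ∃ k, ∀ l, l ≠ k → D.u v0 i0 ⬝ᵥ D.e w l ≠ 0 := by
    rintro ⟨k, hk⟩
    have hx : ∀ x ∈ P, toR (D.u v0 i0) ⬝ᵥ (x - toR v0) = 0 →
        x - toR w = (toR (D.u w k) ⬝ᵥ (x - toR w)) • toR (D.e w k) := by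
      intro x hx hx0
      conv_lhs => rw [D.span w hw (x - toR w)]
      rw [Finset.sum_eq_single k]
      · intro l _ hl
        rw [hco x hx hx0 l (hk l hl), zero_smul]
      · intro hh; exact absurd (Finset.mem_univ k) hh
    obtain ⟨i1, i2, h10, h20, h12⟩ : ∃ i1 i2 : Fin 3, i1 ≠ i0 ∧ i2 ≠ i0 ∧ i1 ≠ i2 := by
      fin_cases i0
      · exact ⟨1, 2, by decide, by decide, by decide⟩
      · exact ⟨0, 2, by decide, by decide, by decide⟩
      · exact ⟨0, 1, by decide, by decide, by decide⟩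
    have hmul : ∀ i, i ≠ i0 → ∃ α : ℝ, toR (D.e v0 i) = α • toR (D.e w k) := by
      intro i hi
      have e1 := hx (toR (v0 + D.e v0 i)) (D.mem v0 hv0 i) (by
        rw [← toR_sub, toR_dot, add_sub_cancel_left, D.dual v0 hv0, if_neg (Ne.symm hi),
          Int.cast_zero])
      have e2 := hx (toR v0) (FV_mem D v0 hv0) (by rw [sub_self, dotProduct_zero])
      refine ⟨toR (D.u w k) ⬝ᵥ (toR (v0 + D.e v0 i) - toR w) -
        toR (D.u w k) ⬝ᵥ (toR v0 - toR w), ?_⟩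
      rw [sub_smul, ← e1, ← e2, toR_add]
      abel
    obtain ⟨α, hα⟩ := hmul i1 h10
    obtain ⟨β, hβ⟩ := hmul i2 h20
    have f1 : toR (D.u v0 i1) ⬝ᵥ toR (D.e v0 i1) = 1 := by
      rw [toR_dot, D.dual v0 hv0, if_pos rfl, Int.cast_one]
    have f2 : toR (D.u v0 i1) ⬝ᵥ toR (D.e v0 i2) = 0 := by
      rw [toR_dot, D.dual v0 hv0, if_neg h12, Int.cast_zero]
    have f3 : toR (D.u v0 i2) ⬝ᵥ toR (D.e v0 i2) = 1 := by
      rw [toR_dot, D.dual v0 hv0, if_pos rfl, Int.cast_one]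
    rw [hα, dotProduct_smul, smul_eq_mul] at f1
    rw [hβ, dotProduct_smul, smul_eq_mul] at f2 f3
    rcases mul_eq_zero.1 f2 with g | g
    · rw [g, zero_mul] at f3
      exact zero_ne_one f3
    · rw [g, mul_zero] at f1
      exact zero_ne_one f1
  have hex : ∃ i, D.u v0 i0 ⬝ᵥ D.e w i ≠ 0 := by
    by_contra hall
    push Not at hall
    rw [hexp, Finset.sum_eq_zero (fun i _ => by rw [hall i, Int.cast_zero, mul_zero])] at hone
    exact zero_ne_one hone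
  obtain ⟨i, hi⟩ := hex
  have hz : ∀ l, l ≠ i → D.u v0 i0 ⬝ᵥ D.e w l = 0 := by
    intro l hl
    by_contra hne
    obtain ⟨k, hk⟩ : ∃ k : Fin 3, ∀ m, m ≠ k → m = l ∨ m = i := by
      revert hl
      fin_cases l <;> fin_cases i <;> decide
    apply hno
    refine ⟨k, fun m hm => ?_⟩
    rcases hk m hm with rfl | rfl
    · exact hne
    · exact hi
  have hexp2 : ∀ x : Fin 3 → ℝ, toR (D.u v0 i0) ⬝ᵥ x =
      (toR (D.u w i) ⬝ᵥ x) * ((D.u v0 i0 ⬝ᵥ D.e w i : ℤ) : ℝ) := by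
    intro x
    rw [hexp, Finset.sum_eq_single i]
    · intro l _ hl
      rw [hz l hl, Int.cast_zero, mul_zero]
    · intro hh; exact absurd (Finset.mem_univ i) hh
  have h1 := hexp2 (toR (D.e v0 i0))
  rw [hone, toR_dot] at h1
  have h2 : (1 : ℤ) = (D.u w i ⬝ᵥ D.e v0 i0) * (D.u v0 i0 ⬝ᵥ D.e w i) := by
    exact_mod_cast h1
  have h3 : D.u v0 i0 ⬝ᵥ D.e w i = 1 :=
    Int.eq_one_of_dvd_one (hc i) ⟨_, by rw [mul_comm]; exact h2⟩
  refine ⟨i, ?_⟩
  funext j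
  have h4 := hexp2 (Pi.single j 1)
  rw [h3, Int.cast_one, mul_one, dotProduct_single, dotProduct_single, mul_one, mul_one,
    toR_apply, toR_apply] at h4
  exact_mod_cast h4.symm

end H66OD
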