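import Pool.Agent.H66.OD.Defs

/-!
# Row HB (about 80 lines): duality (Hahn-Banach)

If `u` is not a combination of the `a i` with absolute coefficient sum `≤ 3/2`, then some `X` has
`|a i ⬝ X| ≤ 1` for all `i` and `u ⬝ X > 3/2`.

PROOF. Let `Q = {q | ∃ t : Fin n → ℝ, Σ |t i| ≤ 1 ∧ q = Σ t i • a i}`: the image of the compact convex set
`{t | Σ |t i| ≤ 1}` (closed, bounded) under a continuous linear map, so compact convex, closed.
`(2/3) • u ∉ Q` (otherwise `u = Σ (3/2 t i) a i`). `geometric_hahn_banach_closed_point`: a continuous linear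
`f` and a real `r` with `f q < r` for `q ∈ Q` and `r < f ((2/3) u)`. `f y = y ⬝ᵥ X0` for some vector `X0`
(`X0 j = f (Pi.single j 1)`). `0 ∈ Q`, so `r > 0`; put `X = r⁻¹ • X0`. `± a i ∈ Q` gives
`|a i ⬝ᵥ X| < 1`. `(2/3) u ⬝ᵥ X > 1`.
-/

open Matrix

namespace H66OD

theorem HB_compact (n : ℕ) : IsCompact {t : Fin n → ℝ | ∑ i, |t i| ≤ 1} := by
  apply Metric.isCompact_of_isClosed_isBounded
  · apply isClosed_le _ continuous_const
    exact continuous_finset_sum _ (fun i _ => (continuous_apply i).abs)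
  · apply (Metric.isBounded_closedBall (x := (0 : Fin n → ℝ)) (r := 1)).subset
    intro t ht
    rw [mem_closedBall_zero_iff, pi_norm_le_iff_of_nonneg zero_le_one]
    intro i
    rw [Real.norm_eq_abs]
    exact (Finset.single_le_sum (f := fun i => |t i|) (fun j _ => abs_nonneg _)
      (Finset.mem_univ i)).trans ht

theorem HB_convex (n : ℕ) : Convex ℝ {t : Fin n → ℝ | ∑ i, |t i| ≤ 1} := by
  intro s hs t ht α β hα hβ hαβ
  simp only [Set.mem_setOf_eq, Pi.add_apply, Pi.smul_apply, smul_eq_mul] at hs ht ⊢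
  calc ∑ i, |α * s i + β * t i| ≤ ∑ i, (α * |s i| + β * |t i|) := by
        apply Finset.sum_le_sum
        intro i _
        calc |α * s i + β * t i| ≤ |α * s i| + |β * t i| := abs_add_le _ _
          _ = _ := by rw [abs_mul, abs_mul, abs_of_nonneg hα, abs_of_nonneg hβ]
    _ = α * ∑ i, |s i| + β * ∑ i, |t i| := by
        rw [Finset.sum_add_distrib, Finset.mul_sum, Finset.mul_sum]
    _ ≤ α * 1 + β * 1 := by
        exact add_le_add (mul_le_mul_of_nonneg_left hs hα) (mul_le_mul_of_nonneg_left ht hβ)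
    _ = 1 := by linarith

/-- The linear map `t ↦ Σ t i • a i`. -/
def HB_map (n : ℕ) (a : Fin n → (Fin 3 → ℝ)) : (Fin n → ℝ) →ₗ[ℝ] (Fin 3 → ℝ) where
  toFun t := ∑ i, t i • a i
  map_add' s t := by simp [add_smul, Finset.sum_add_distrib]
  map_smul' c t := by simp [Finset.smul_sum, smul_smul]

theorem hb (n : ℕ) (a : Fin n → (Fin 3 → ℝ)) (u : Fin 3 → ℝ)
    (h : ¬ ∃ t : Fin n → ℝ, u = ∑ i, t i • a i ∧ ∑ i, |t i| ≤ 3 / 2) :
    ∃ X : Fin 3 → ℝ, (∀ i, |a i ⬝ᵥ X| ≤ 1) ∧ 3 / 2 < u ⬝ᵥ X := by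
  have hcont : Continuous (HB_map n a) := (HB_map n a).continuous_of_finiteDimensional
  have hQc : IsCompact ((HB_map n a) '' {t : Fin n → ℝ | ∑ i, |t i| ≤ 1}) :=
    (HB_compact n).image hcont
  have hQv : Convex ℝ ((HB_map n a) '' {t : Fin n → ℝ | ∑ i, |t i| ≤ 1}) :=
    (HB_convex n).linear_image (HB_map n a)
  have hu : (2 / 3 : ℝ) • u ∉ ((HB_map n a) '' {t : Fin n → ℝ | ∑ i, |t i| ≤ 1}) := by
    rintro ⟨t, ht, htu⟩
    apply h
    refine ⟨fun i => 3 / 2 * t i, ?_, ?_⟩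
    · have h1 : u = (3 / 2 : ℝ) • ((2 / 3 : ℝ) • u) := by
        rw [smul_smul]; norm_num
      rw [h1, ← htu]
      change (3 / 2 : ℝ) • (∑ i, t i • a i) = _
      rw [Finset.smul_sum]
      apply Finset.sum_congr rfl
      intro i _
      rw [smul_smul]
    · have h2 : ∑ i, |3 / 2 * t i| = 3 / 2 * ∑ i, |t i| := by
        rw [Finset.mul_sum]
        apply Finset.sum_congr rfl
        intro i _
        rw [abs_mul, abs_of_pos (by norm_num : (0 : ℝ) < 3 / 2)]
      rw [h2]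
      have ht' : ∑ i, |t i| ≤ 1 := ht
      linarith
  obtain ⟨f, r, hf1, hf2⟩ := geometric_hahn_banach_closed_point hQv hQc.isClosed hu
  have hr : 0 < r := by
    have h0 : (0 : Fin 3 → ℝ) ∈ ((HB_map n a) '' {t : Fin n → ℝ | ∑ i, |t i| ≤ 1}) :=
      ⟨0, by simp, map_zero _⟩
    have := hf1 0 h0
    simpa using this
  obtain ⟨X0, hX0⟩ : ∃ X0 : Fin 3 → ℝ, ∀ y, f y = y ⬝ᵥ X0 := by
    refine ⟨fun j => f (fun k => if j = k then 1 else 0), fun y => ?_⟩
    have := LinearMap.pi_apply_eq_sum_univ (f : (Fin 3 → ℝ) →ₗ[ℝ] ℝ) y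
    simpa [dotProduct] using this
  have hmem : ∀ i, ∀ s : ℝ, |s| ≤ 1 → s * (a i ⬝ᵥ X0) < r := by
    intro i s hs
    have h1 : s • a i ∈ ((HB_map n a) '' {t : Fin n → ℝ | ∑ i, |t i| ≤ 1}) := by
      refine ⟨Pi.single i s, ?_, ?_⟩
      · simp only [Set.mem_setOf_eq]
        rw [Finset.sum_eq_single i]
        · simpa using hs
        · intro b _ hb
          simp [Pi.single_eq_of_ne hb]
        · intro hi
          exact absurd (Finset.mem_univ i) hi
      · change ∑ j, (Pi.single i s : Fin n → ℝ) j • a j = s • a i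
        rw [Finset.sum_eq_single i]
        · simp
        · intro b _ hb
          simp [Pi.single_eq_of_ne hb]
        · intro hi
          exact absurd (Finset.mem_univ i) hi
    have h2 := hf1 _ h1
    rw [hX0, smul_dotProduct, smul_eq_mul] at h2
    exact h2
  refine ⟨r⁻¹ • X0, ?_, ?_⟩
  · intro i
    have h1 := hmem i 1 (by norm_num)
    have h2 := hmem i (-1) (by norm_num)
    rw [dotProduct_smul, smul_eq_mul, abs_mul, abs_of_pos (inv_pos.mpr hr),
      inv_mul_le_iff₀ hr, mul_one, abs_le]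
    constructor <;> linarith
  · rw [hX0, smul_dotProduct, smul_eq_mul] at hf2
    rw [dotProduct_smul, smul_eq_mul, lt_inv_mul_iff₀ hr]
    linarith

end H66OD
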