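import Pool.Agent.H66.OD.Defs

/-!
# Row K1D (about 250 lines): a one-dimensional inequality for convex piecewise linear functions

`F t = max_{w ∈ I} (α w + t σ w)`, all slopes in `θ/2 + ℤ`, `F ≥ 0`, some slope `≥ 3/2`, some `≤ -3/2`; whenever `w`
is a maximiser at `a < b` and `|σ w| < 3/2` then `3 (b-a) ≤ F a + F b`. Then `F s + F t ≥ (3/2)(t - s)`, `s ≤ t`.

PROOF. `F` is continuous (finite maximum) and convex. For `-3/2 < τ < 3/2` the function `F t - τ t` is continuous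
and tends to `+∞` at `±∞` (it dominates `α w + t(σ w - τ)` for a `w` with `σ w ≥ 3/2`, and one with
`σ w ≤ -3/2`), so it has a minimum at some `p τ`:  `F t ≥ F (p τ) + τ (t - p τ)` for all `t`.   (1)
(2) If `τ < τ'` then `p τ ≤ p τ'` (add (1) for `τ` at `t = p τ'` and for `τ'` at `t = p τ`).
(3) Let `τ ≤ τ'`, `a = p τ < m < b = p τ'`, `w` a maximiser at `m`. Then `τ ≤ σ w ≤ τ'`: by (1)
 `F m ≥ F a + τ (m-a)` and `F a ≥ α w + a σ w = F m - σ w (m-a)`, so `σ w ≥ τ`; in the same way from `b`.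
(4) Let `τ < τ'` be such that `μ` is the only number of `θ/2 + ℤ` in `[τ,τ']`, `|μ| < 3/2`; `a = p τ`,
 `b = p τ'`. Then `F t = F b + μ (t - b)` for `t ∈ [a,b]` and `3 (b-a) ≤ F a + F b`. Proof: trivial if `a = b` (`F ≥ 0`).
 If `a < b`: all maximisers at interior points have slope `μ` by (3). Take `m = (a+b)/2` with maximiser `w`. For
 `m' ∈ (a,b)` with maximiser `w'`: `F m' = α w' + m' μ ≥ α w + m' μ` and `F m = α w + m μ ≥ α w' + m μ`, so
 `α w = α w'` and `F m' = α w + m' μ`. By continuity `F a = α w + a μ`, `F b = α w + b μ`. So `w` is a maximiser at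
 `a` and `b`: hypothesis `hK`.
(5) Let `a = p (-5/4)`. For `t ≤ a`: `F t ≥ F a + (3/2)(a - t)`. Proof: for `m < a` with maximiser `w`:
 `F a ≥ F m + σ w (a-m)` and `F m ≥ F a - (5/4)(m - a)`... so `σ w ≤ -5/4`, hence `σ w ≤ -3/2` (slopes are in
 `θ/2 + ℤ ⊆ ½ℤ`). For `t < m < a`: `F t ≥ α w + t σ w = F m + σ w (t - m) ≥ F m + (3/2)(m - t)`; let `m → a`
 (continuity). In the same way for `t ≥ b = p (5/4)`: `F t ≥ F b + (3/2)(t - b)`.
(6) `θ` even (slopes are integers): `t0 = p(-5/4) ≤ t1 = p(-1/2) ≤ t2 = p(1/2) ≤ t3 = p(5/4)`, with `μ = -1, 0, 1` in (4).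
 `M = F t1 = F t2`. On `[t0,t1]` `F t = M + (t1 - t)`, on `[t1,t2]` `F = M`, on `[t2,t3]` `F t = M + (t - t2)`;
 `3(t1-t0) ≤ 2M + (t1-t0)`, `3 (t2-t1) ≤ 2M`, `3 (t3-t2) ≤ 2M + (t3-t2)`. The claim for `s ≤ t` follows in each of
 the 15 cases for the positions of `s ≤ t` relative to `t0,t1,t2,t3` by `linarith` (use `F ≥ 0` when both are on
 the same outer side).
 `θ` odd: `t0 = p(-5/4) ≤ t1 = p 0 ≤ t3 = p(5/4)`, `μ = -1/2, 1/2`; `M = F t1`, on `[t0,t1]` `F t = M + (t1-t)/2`,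
 `3(t1-t0) ≤ 2M + (t1-t0)/2`, and the same on the right. Again `linarith` in each case.
-/

namespace H66OD

private theorem K1D_cont {W : Type} (I : Finset W) (α σ : W → ℝ) (F : ℝ → ℝ)
    (hle : ∀ t, ∀ w ∈ I, α w + t * σ w ≤ F t) (hex : ∀ t, ∃ w ∈ I, F t = α w + t * σ w) :
    Continuous F := by
  have hL : ∀ w ∈ I, |σ w| ≤ ∑ v ∈ I, |σ v| := fun w hw =>
    Finset.single_le_sum (f := fun v => |σ v|) (fun v _ => abs_nonneg _) hw
  have h1 : ∀ a b, F a ≤ F b + (∑ v ∈ I, |σ v|) * |a - b| := by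
    intro a b
    obtain ⟨w, hw, hwa⟩ := hex a
    have h2 := hle b w hw
    have h3 : (a - b) * σ w ≤ (∑ v ∈ I, |σ v|) * |a - b| := by
      calc (a - b) * σ w ≤ |(a - b) * σ w| := le_abs_self _
        _ = |σ w| * |a - b| := by rw [abs_mul, mul_comm]
        _ ≤ _ := mul_le_mul_of_nonneg_right (hL w hw) (abs_nonneg _)
    rw [hwa]
    linarith
  have hnn : 0 ≤ ∑ v ∈ I, |σ v| := Finset.sum_nonneg fun v _ => abs_nonneg _
  refine (LipschitzWith.of_dist_le_mul (K := ⟨∑ v ∈ I, |σ v|, hnn⟩) fun a b => ?_).continuous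
  rw [Real.dist_eq, Real.dist_eq]
  show |F a - F b| ≤ (∑ v ∈ I, |σ v|) * |a - b|
  rw [abs_le]
  have h4 := h1 a b
  have h5 := h1 b a
  rw [abs_sub_comm b a] at h5
  constructor <;> linarith

private theorem K1D_min {W : Type} (I : Finset W) (α σ : W → ℝ) (F : ℝ → ℝ)
    (hc : Continuous F)
    (hle : ∀ t, ∀ w ∈ I, α w + t * σ w ≤ F t)
    (hpos : ∃ w ∈ I, 3 / 2 ≤ σ w) (hneg : ∃ w ∈ I, σ w ≤ -(3 / 2)) (τ : ℝ) (h1 : -(3 / 2) < τ)
    (h2 : τ < 3 / 2) : ∃ p, ∀ t, F p + τ * (t - p) ≤ F t := by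
  obtain ⟨w, hw, hws⟩ := hpos
  obtain ⟨v, hv, hvs⟩ := hneg
  have hd1 : 0 < σ w - τ := by linarith
  have hd2 : 0 < τ - σ v := by linarith
  obtain ⟨R, hR0, hR1, hR2⟩ : ∃ R : ℝ, 0 ≤ R ∧ |F 0 - α w| / (σ w - τ) ≤ R ∧
      |F 0 - α v| / (τ - σ v) ≤ R := by
    refine ⟨max (|F 0 - α w| / (σ w - τ)) (|F 0 - α v| / (τ - σ v)), ?_, le_max_left _ _,
      le_max_right _ _⟩
    exact le_trans (by positivity) (le_max_left _ _)
  have hcont : ContinuousOn (fun t => F t - τ * t) (Set.Icc (-R) R) := by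
    have : Continuous fun t => F t - τ * t := hc.sub (continuous_const.mul continuous_id)
    exact this.continuousOn
  obtain ⟨p, hp, hpm⟩ := isCompact_Icc.exists_isMinOn (s := Set.Icc (-R) R)
    ⟨0, by constructor <;> linarith⟩ hcont
  have hp0 : F p - τ * p ≤ F 0 := by
    have := hpm (show (0 : ℝ) ∈ Set.Icc (-R) R by constructor <;> linarith)
    have h3 : F p - τ * p ≤ F 0 - τ * 0 := this
    linarith
  refine ⟨p, fun t => ?_⟩
  rcases lt_or_ge t (-R) with h3 | h3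
  · have h4 := hle t v hv
    have h5 : |F 0 - α v| ≤ R * (τ - σ v) := (div_le_iff₀ hd2).1 hR2
    have h6 := le_abs_self (F 0 - α v)
    have h7 : R * (τ - σ v) ≤ (-t) * (τ - σ v) := mul_le_mul_of_nonneg_right (by linarith) hd2.le
    nlinarith
  rcases lt_or_ge R t with h4 | h4
  · have h5 := hle t w hw
    have h6 : |F 0 - α w| ≤ R * (σ w - τ) := (div_le_iff₀ hd1).1 hR1
    have h7 := le_abs_self (F 0 - α w)
    have h8 : R * (σ w - τ) ≤ t * (σ w - τ) := mul_le_mul_of_nonneg_right (by linarith) hd1.le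
    nlinarith
  · have h5 : F p - τ * p ≤ F t - τ * t := hpm (show t ∈ Set.Icc (-R) R from ⟨h3, h4⟩)
    linarith

private theorem K1D_mono {F : ℝ → ℝ} {p q τ τ' : ℝ} (h : τ < τ')
    (hp : ∀ t, F p + τ * (t - p) ≤ F t) (hq : ∀ t, F q + τ' * (t - q) ≤ F t) : p ≤ q := by
  have h1 := hp q
  have h2 := hq p
  have h3 : 0 ≤ (τ' - τ) * (q - p) := by linarith
  have h4 : 0 ≤ q - p := nonneg_of_mul_nonneg_right h3 (by linarith)
  linarith

private theorem K1D_mid {W : Type} (I : Finset W) (α σ : W → ℝ) (F : ℝ → ℝ)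
    (hc : Continuous F)
    (hle : ∀ t, ∀ w ∈ I, α w + t * σ w ≤ F t) (hex : ∀ t, ∃ w ∈ I, F t = α w + t * σ w)
    (h0 : ∀ t, 0 ≤ F t)
    (hK : ∀ w ∈ I, ∀ a b, a < b → F a = α w + a * σ w → F b = α w + b * σ w → |σ w| < 3 / 2 →
      3 * (b - a) ≤ F a + F b) {τ τ' μ a b : ℝ} (hab : a ≤ b) (hμ : |μ| < 3 / 2)
    (ha : ∀ t, F a + τ * (t - a) ≤ F t) (hb : ∀ t, F b + τ' * (t - b) ≤ F t)
    (hσ : ∀ w ∈ I, τ ≤ σ w → σ w ≤ τ' → σ w = μ) :
    3 * (b - a) ≤ F a + F b ∧ ∀ t, a ≤ t → t ≤ b → F t = F b + μ * (t - b) := by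
  rcases eq_or_lt_of_le hab with h | h
  · subst h
    refine ⟨?_, ?_⟩
    · have := h0 a
      linarith
    · intro t h1 h2
      have : t = a := le_antisymm h2 h1
      rw [this]
      ring
  · -- slopes at interior points
    have hs : ∀ m, a < m → m < b → ∀ w ∈ I, F m = α w + m * σ w → σ w = μ := by
      intro m h1 h2 w hw hm
      refine hσ w hw ?_ ?_
      · have h3 := ha m
        have h4 := hle a w hw
        have h5 : 0 ≤ (σ w - τ) * (m - a) := by linarith
        have h6 := nonneg_of_mul_nonneg_left h5 (by linarith)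
        linarith
      · have h3 := hb m
        have h4 := hle b w hw
        have h5 : 0 ≤ (τ' - σ w) * (b - m) := by linarith
        have h6 := nonneg_of_mul_nonneg_left h5 (by linarith)
        linarith
    obtain ⟨w, hw, hwm⟩ := hex ((a + b) / 2)
    have hwμ := hs ((a + b) / 2) (by linarith) (by linarith) w hw hwm
    have hEq : Set.EqOn F (fun t => α w + t * μ) (Set.Ioo a b) := by
      intro m hm
      obtain ⟨v, hv, hvm⟩ := hex m
      have hvμ := hs m hm.1 hm.2 v hv hvm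
      have h1 := hle m w hw
      have h2 := hle ((a + b) / 2) v hv
      rw [hvμ] at hvm h2
      rw [hwμ] at hwm h1
      show F m = α w + m * μ
      linarith
    have hcl : Set.EqOn F (fun t => α w + t * μ) (Set.Icc a b) := by
      rw [← closure_Ioo (ne_of_lt h)]
      exact hEq.closure hc (by fun_prop)
    have e1 : F a = α w + a * μ := hcl ⟨le_refl _, hab⟩
    have e2 : F b = α w + b * μ := hcl ⟨hab, le_refl _⟩
    refine ⟨?_, ?_⟩
    · refine hK w hw a b h ?_ ?_ ?_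
      · rw [hwμ]; exact e1
      · rw [hwμ]; exact e2
      · rw [hwμ]; exact hμ
    · intro t h1 h2
      have e3 : F t = α w + t * μ := hcl ⟨h1, h2⟩
      rw [e3, e2]
      ring

private theorem K1D_left {W : Type} (I : Finset W) (α σ : W → ℝ) (F : ℝ → ℝ)
    (hle : ∀ t, ∀ w ∈ I, α w + t * σ w ≤ F t) (hex : ∀ t, ∃ w ∈ I, F t = α w + t * σ w)
    {a : ℝ} (ha : ∀ t, F a + -(5 / 4) * (t - a) ≤ F t)
    (hσ : ∀ w ∈ I, σ w ≤ -(5 / 4) → σ w ≤ -(3 / 2)) (t : ℝ) (ht : t ≤ a) :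
    F a + 3 / 2 * (a - t) ≤ F t := by
  rcases eq_or_lt_of_le ht with h | h
  · rw [h]
    linarith
  refine le_of_forall_pos_le_add fun ε hε => ?_
  obtain ⟨m, hm1, hm2, hm3⟩ : ∃ m, t < m ∧ m < a ∧ 3 / 2 * (a - m) ≤ ε := by
    refine ⟨a - min (ε / 2) ((a - t) / 2), ?_, ?_, ?_⟩
    · have := min_le_right (ε / 2) ((a - t) / 2)
      linarith
    · have : 0 < min (ε / 2) ((a - t) / 2) := lt_min (by linarith) (by linarith)
      linarith
    · have := min_le_left (ε / 2) ((a - t) / 2)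
      linarith
  obtain ⟨w, hw, hwm⟩ := hex m
  have h1 := hle a w hw
  have h2 := ha m
  have h3 : 0 ≤ (-(5 / 4) - σ w) * (a - m) := by linarith
  have h4 := nonneg_of_mul_nonneg_left h3 (by linarith)
  have h5 := hσ w hw (by linarith)
  have h6 := hle t w hw
  have h7 : 0 ≤ (-(3 / 2) - σ w) * (m - t) := mul_nonneg (by linarith) (by linarith)
  have h8 : F a ≤ F m := by linarith
  nlinarith

private theorem K1D_int {x : ℤ} {a b : ℝ} {y : ℤ} (h1 : a ≤ x) (h2 : (x : ℝ) ≤ b)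
    (h3 : (y : ℝ) - 1 < a) (h4 : b < y + 1) : x = y := by
  have h5 : ((y - 1 : ℤ) : ℝ) < x := by push_cast; linarith
  have h6 : (x : ℝ) < ((y + 1 : ℤ) : ℝ) := by push_cast; linarith
  have h7 : y - 1 < x := by exact_mod_cast h5
  have h8 : x < y + 1 := by exact_mod_cast h6
  omega

private theorem K1D_even {F : ℝ → ℝ} {t0 t1 t2 t3 : ℝ} (h0 : ∀ t, 0 ≤ F t)
    (h01 : t0 ≤ t1) (h12 : t1 ≤ t2) (h23 : t2 ≤ t3)
    (hl : ∀ t, t ≤ t0 → F t0 + 3 / 2 * (t0 - t) ≤ F t)
    (hr : ∀ t, t3 ≤ t → F t3 + 3 / 2 * (t - t3) ≤ F t)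
    (a1 : 3 * (t1 - t0) ≤ F t0 + F t1) (a2 : 3 * (t2 - t1) ≤ F t1 + F t2)
    (a3 : 3 * (t3 - t2) ≤ F t2 + F t3)
    (b1 : ∀ t, t0 ≤ t → t ≤ t1 → F t = F t1 + (-1) * (t - t1))
    (b2 : ∀ t, t1 ≤ t → t ≤ t2 → F t = F t2 + 0 * (t - t2))
    (b3 : ∀ t, t2 ≤ t → t ≤ t3 → F t = F t3 + 1 * (t - t3)) (s t : ℝ) (hst : s ≤ t) :
    3 / 2 * (t - s) ≤ F s + F t := by
  have c0 := b1 t0 (le_refl _) h01
  have c1 := b2 t1 (le_refl _) h12
  have c2 := b3 t2 (le_refl _) h23
  have z0 := h0 t0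
  have z1 := h0 s
  have z2 := h0 t
  have z3 := h0 t3
  rcases le_total s t0 with hs | hs
  · have d1 := hl s hs
    rcases le_total t t0 with ht | ht
    · linarith
    rcases le_total t t1 with ht1 | ht1
    · have d2 := b1 t ht ht1
      linarith
    rcases le_total t t2 with ht2 | ht2
    · have d2 := b2 t ht1 ht2
      linarith
    rcases le_total t t3 with ht3 | ht3
    · have d2 := b3 t ht2 ht3
      linarith
    · have d2 := hr t ht3
      linarith
  rcases le_total s t1 with hs1 | hs1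
  · have d1 := b1 s hs hs1
    rcases le_total t t1 with ht1 | ht1
    · have d2 := b1 t (hs.trans hst) ht1
      linarith
    rcases le_total t t2 with ht2 | ht2
    · have d2 := b2 t ht1 ht2
      linarith
    rcases le_total t t3 with ht3 | ht3
    · have d2 := b3 t ht2 ht3
      linarith
    · have d2 := hr t ht3
      linarith
  rcases le_total s t2 with hs2 | hs2
  · have d1 := b2 s hs1 hs2
    rcases le_total t t2 with ht2 | ht2
    · have d2 := b2 t (hs1.trans hst) ht2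
      linarith
    rcases le_total t t3 with ht3 | ht3
    · have d2 := b3 t ht2 ht3
      linarith
    · have d2 := hr t ht3
      linarith
  rcases le_total s t3 with hs3 | hs3
  · have d1 := b3 s hs2 hs3
    rcases le_total t t3 with ht3 | ht3
    · have d2 := b3 t (hs2.trans hst) ht3
      linarith
    · have d2 := hr t ht3
      linarith
  · have d1 := hr s hs3
    have d2 := hr t (hs3.trans hst)
    linarith

private theorem K1D_odd {F : ℝ → ℝ} {t0 t1 t3 : ℝ} (h0 : ∀ t, 0 ≤ F t)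
    (h01 : t0 ≤ t1) (h13 : t1 ≤ t3)
    (hl : ∀ t, t ≤ t0 → F t0 + 3 / 2 * (t0 - t) ≤ F t)
    (hr : ∀ t, t3 ≤ t → F t3 + 3 / 2 * (t - t3) ≤ F t)
    (a1 : 3 * (t1 - t0) ≤ F t0 + F t1) (a3 : 3 * (t3 - t1) ≤ F t1 + F t3)
    (b1 : ∀ t, t0 ≤ t → t ≤ t1 → F t = F t1 + (-(1 / 2)) * (t - t1))
    (b3 : ∀ t, t1 ≤ t → t ≤ t3 → F t = F t3 + 1 / 2 * (t - t3)) (s t : ℝ) (hst : s ≤ t) :
    3 / 2 * (t - s) ≤ F s + F t := by
  have c0 := b1 t0 (le_refl _) h01
  have c1 := b3 t1 (le_refl _) h13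
  have z0 := h0 t0
  have z1 := h0 s
  have z2 := h0 t
  have z3 := h0 t3
  rcases le_total s t0 with hs | hs
  · have d1 := hl s hs
    rcases le_total t t0 with ht | ht
    · linarith
    rcases le_total t t1 with ht1 | ht1
    · have d2 := b1 t ht ht1
      linarith
    rcases le_total t t3 with ht3 | ht3
    · have d2 := b3 t ht1 ht3
      linarith
    · have d2 := hr t ht3
      linarith
  rcases le_total s t1 with hs1 | hs1
  · have d1 := b1 s hs hs1
    rcases le_total t t1 with ht1 | ht1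
    · have d2 := b1 t (hs.trans hst) ht1
      linarith
    rcases le_total t t3 with ht3 | ht3
    · have d2 := b3 t ht1 ht3
      linarith
    · have d2 := hr t ht3
      linarith
  rcases le_total s t3 with hs3 | hs3
  · have d1 := b3 s hs1 hs3
    rcases le_total t t3 with ht3 | ht3
    · have d2 := b3 t (hs1.trans hst) ht3
      linarith
    · have d2 := hr t ht3
      linarith
  · have d1 := hr s hs3
    have d2 := hr t (hs3.trans hst)
    linarith

theorem k1d {W : Type} (I : Finset W) (α σ : W → ℝ) (θ : ℤ)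
    (hσ : ∀ w ∈ I, ∃ m : ℤ, σ w = m + (θ : ℝ) / 2) (F : ℝ → ℝ)
    (hle : ∀ t, ∀ w ∈ I, α w + t * σ w ≤ F t) (hex : ∀ t, ∃ w ∈ I, F t = α w + t * σ w)
    (h0 : ∀ t, 0 ≤ F t) (hpos : ∃ w ∈ I, 3 / 2 ≤ σ w) (hneg : ∃ w ∈ I, σ w ≤ -(3 / 2))
    (hK : ∀ w ∈ I, ∀ a b, a < b → F a = α w + a * σ w → F b = α w + b * σ w → |σ w| < 3 / 2 →
      3 * (b - a) ≤ F a + F b) (s t : ℝ) (hst : s ≤ t) :
    3 / 2 * (t - s) ≤ F s + F t := by
  have hc := K1D_cont I α σ F hle hex
  have hmin := K1D_min I α σ F hc hle hpos hneg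
  -- slopes are half integers
  have hhalf : ∀ w ∈ I, ∃ x : ℤ, 2 * σ w = x := by
    intro w hw
    obtain ⟨m, hm⟩ := hσ w hw
    refine ⟨2 * m + θ, ?_⟩
    rw [hm]
    push_cast
    ring
  have hgap : ∀ w ∈ I, σ w ≤ -(5 / 4) → σ w ≤ -(3 / 2) := by
    intro w hw h
    obtain ⟨x, hx⟩ := hhalf w hw
    have h1 : (x : ℝ) < ((-2 : ℤ) : ℝ) := by push_cast; linarith
    have h2 : x < -2 := by exact_mod_cast h1
    have h3 : x ≤ -3 := by omega
    have h4 : (x : ℝ) ≤ -3 := by exact_mod_cast h3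
    linarith
  have hgap' : ∀ w ∈ I, 5 / 4 ≤ σ w → 3 / 2 ≤ σ w := by
    intro w hw h
    obtain ⟨x, hx⟩ := hhalf w hw
    have h1 : ((2 : ℤ) : ℝ) < (x : ℝ) := by push_cast; linarith
    have h2 : 2 < x := by exact_mod_cast h1
    have h3 : 3 ≤ x := by omega
    have h4 : (3 : ℝ) ≤ x := by exact_mod_cast h3
    linarith
  obtain ⟨t0, ht0⟩ := hmin (-(5 / 4)) (by norm_num) (by norm_num)
  obtain ⟨t3, ht3⟩ := hmin (5 / 4) (by norm_num) (by norm_num)
  have hl := K1D_left I α σ F hle hex ht0 hgap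
  have hr : ∀ t, t3 ≤ t → F t3 + 3 / 2 * (t - t3) ≤ F t := by
    intro t ht
    have h1 := K1D_left I α (fun w => -σ w) (fun x => F (-x)) (a := -t3)
      (fun x w hw => by
        have := hle (-x) w hw
        show α w + x * (-σ w) ≤ F (-x)
        linarith)
      (fun x => by
        obtain ⟨w, hw, hwx⟩ := hex (-x)
        refine ⟨w, hw, ?_⟩
        show F (-x) = α w + x * (-σ w)
        rw [hwx]
        ring)
      (fun x => by
        have := ht3 (-x)
        show F (- -t3) + -(5 / 4) * (x - -t3) ≤ F (-x)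
        rw [neg_neg]
        linarith)
      (fun w hw h => by
        have h2 : -σ w ≤ -(5 / 4) := h
        have := hgap' w hw (by linarith)
        show -σ w ≤ -(3 / 2)
        linarith) (-t) (by linarith)
    have h2 : F (- -t3) + 3 / 2 * (-t3 - -t) ≤ F (- -t) := h1
    rw [neg_neg, neg_neg] at h2
    linarith
  rcases Int.even_or_odd' θ with ⟨k, hk | hk⟩
  · -- integer slopes
    have hint : ∀ w ∈ I, ∃ x : ℤ, σ w = x := by
      intro w hw
      obtain ⟨m, hm⟩ := hσ w hw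
      refine ⟨m + k, ?_⟩
      rw [hm, hk]
      push_cast
      ring
    obtain ⟨t1, ht1⟩ := hmin (-(1 / 2)) (by norm_num) (by norm_num)
    obtain ⟨t2, ht2⟩ := hmin (1 / 2) (by norm_num) (by norm_num)
    have h01 : t0 ≤ t1 := K1D_mono (by norm_num) ht0 ht1
    have h12 : t1 ≤ t2 := K1D_mono (by norm_num) ht1 ht2
    have h23 : t2 ≤ t3 := K1D_mono (by norm_num) ht2 ht3
    obtain ⟨a1, b1⟩ := K1D_mid I α σ F hc hle hex h0 hK (μ := -1) h01
      (by rw [abs_neg, abs_one]; norm_num) ht0 ht1 (by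
        intro w hw h1 h2
        obtain ⟨x, hx⟩ := hint w hw
        rw [hx] at h1 h2 ⊢
        have := K1D_int (y := -1) h1 h2 (by push_cast; norm_num) (by push_cast; norm_num)
        rw [this]
        push_cast
        ring)
    obtain ⟨a2, b2⟩ := K1D_mid I α σ F hc hle hex h0 hK (μ := 0) h12
      (by rw [abs_zero]; norm_num) ht1 ht2 (by
        intro w hw h1 h2
        obtain ⟨x, hx⟩ := hint w hw
        rw [hx] at h1 h2 ⊢
        have := K1D_int (y := 0) h1 h2 (by push_cast; norm_num) (by push_cast; norm_num)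
        rw [this]
        push_cast
        ring)
    obtain ⟨a3, b3⟩ := K1D_mid I α σ F hc hle hex h0 hK (μ := 1) h23
      (by rw [abs_one]; norm_num) ht2 ht3 (by
        intro w hw h1 h2
        obtain ⟨x, hx⟩ := hint w hw
        rw [hx] at h1 h2 ⊢
        have := K1D_int (y := 1) h1 h2 (by push_cast; norm_num) (by push_cast; norm_num)
        rw [this]
        push_cast
        ring)
    exact K1D_even h0 h01 h12 h23 hl hr a1 a2 a3 b1 b2 b3 s t hst
  · -- half integer slopes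
    have hint : ∀ w ∈ I, ∃ x : ℤ, σ w = x + 1 / 2 := by
      intro w hw
      obtain ⟨m, hm⟩ := hσ w hw
      refine ⟨m + k, ?_⟩
      rw [hm, hk]
      push_cast
      ring
    obtain ⟨t1, ht1⟩ := hmin 0 (by norm_num) (by norm_num)
    have h01 : t0 ≤ t1 := K1D_mono (by norm_num) ht0 ht1
    have h13 : t1 ≤ t3 := K1D_mono (by norm_num) ht1 ht3
    obtain ⟨a1, b1⟩ := K1D_mid I α σ F hc hle hex h0 hK (μ := -(1 / 2)) h01
      (by rw [abs_lt]; constructor <;> norm_num) ht0 ht1 (by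
        intro w hw h1 h2
        obtain ⟨x, hx⟩ := hint w hw
        rw [hx] at h1 h2 ⊢
        have := K1D_int (x := x) (y := -1) (a := -(7 / 4)) (b := -(1 / 2)) (by linarith)
          (by linarith) (by push_cast; norm_num) (by push_cast; norm_num)
        rw [this]
        push_cast
        ring)
    obtain ⟨a3, b3⟩ := K1D_mid I α σ F hc hle hex h0 hK (μ := 1 / 2) h13
      (by rw [abs_lt]; constructor <;> norm_num) ht1 ht3 (by
        intro w hw h1 h2
        obtain ⟨x, hx⟩ := hint w hw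
        rw [hx] at h1 h2 ⊢
        have := K1D_int (x := x) (y := 0) (a := -(1 / 2)) (b := 3 / 4) (by linarith)
          (by linarith) (by push_cast; norm_num) (by push_cast; norm_num)
        rw [this]
        push_cast
        ring)
    exact K1D_odd h0 h01 h13 hl hr a1 a3 b1 b3 s t hst

end H66OD
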