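import Pool.Agent.H66.OD.BGT
import Pool.Agent.H66.OD.AFI
import Pool.Agent.H66.OD.FLP
import Pool.Agent.H66.OD.SLC

/-!
# Row M02 (about 120 lines): decomposition of `x ∈ 2P` at height 0 or 2 over a facet

PROOF. Let `U = u v0 i0`, `y = x/2` (real), `s = U ⬝ (y - v0) ∈ {0,1}` (half of the height). `slc` (its
hypothesis `hadj`: `2 (u w i ⬝ (y - w)) = u w i ⬝ (x - 2w) ≥ 0`) gives `y` in the hull of the points
`w + s e w i`. Let `X` be the finite set of integer points `z ∈ P` with `U ⬝ (z - v0) = s` (filter of the set `L`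
of `flp`). The points `w + s e w i` are in `toR '' X`: for `s = 0` they are vertices `w`, `h(w) = 0`; for `s = 1`
`w + e w i ∈ P` (`mem`) and `U ⬝ (w + e w i - v0) = 0 + u w i ⬝ e w i = 1`. So `y ∈ conv (toR '' X)`. `hX`: an integer
point of `conv X ⊆ P ∩ {h = s}` is in `X`. `hdim` with `k = 2`: `afi3` with `u = U ≠ 0` (`U ⬝ e v0 i0 = 1`),
`r = s + U ⬝ v0`. `bgt` with `k = 2`, `toR x = 2 • y`: `p ∈ X`, `toR x - toR p = (2-1) • y'`, `y' ∈ conv X ⊆ P`. So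
`toR p ∈ P`, `toR (x - p) ∈ P`.
-/

open Matrix

namespace H66OD

theorem m02 {P : Set (Fin 3 → ℝ)} (D : SmoothData P) (x : Fin 3 → ℤ)
    (hx : ∀ v ∈ D.Vt, ∀ i, 0 ≤ D.u v i ⬝ᵥ (x - (2 : ℤ) • v)) (v0 : Fin 3 → ℤ) (hv0 : v0 ∈ D.Vt)
    (i0 : Fin 3) (h : D.u v0 i0 ⬝ᵥ (x - (2 : ℤ) • v0) = 0 ∨ D.u v0 i0 ⬝ᵥ (x - (2 : ℤ) • v0) = 2) :
    ∃ p : Fin 3 → ℤ, toR p ∈ P ∧ toR (x - p) ∈ P := by
  classical
  obtain ⟨U, hU⟩ : ∃ U, U = D.u v0 i0 := ⟨_, rfl⟩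
  obtain ⟨s0, hs0, hs01⟩ : ∃ s0 : ℤ, U ⬝ᵥ (x - (2 : ℤ) • v0) = 2 * s0 ∧ (s0 = 0 ∨ s0 = 1) := by
    rw [hU]
    rcases h with h | h
    · exact ⟨0, by rw [h]; rfl, Or.inl rfl⟩
    · exact ⟨1, by rw [h]; rfl, Or.inr rfl⟩
  obtain ⟨y, hy⟩ : ∃ y : Fin 3 → ℝ, y = (1 / 2 : ℝ) • toR x := ⟨_, rfl⟩
  have hxy : toR x = (2 : ℝ) • y := by
    rw [hy, smul_smul]
    norm_num
  have hhalf : ∀ a w : Fin 3 → ℤ, toR a ⬝ᵥ (y - toR w) = ((a ⬝ᵥ (x - (2 : ℤ) • w) : ℤ) : ℝ) / 2 := by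
    intro a w
    rw [← toR_dot, toR_sub, toR_zsmul, hxy, dotProduct_sub, dotProduct_sub, dotProduct_smul,
      dotProduct_smul, smul_eq_mul, smul_eq_mul]
    push_cast
    ring
  have hPc : Convex ℝ P := by
    rw [D.hull]
    exact convex_convexHull ℝ _
  have hslc := slc D v0 hv0 i0 (s0 : ℝ) y (by
    rw [← hU, hhalf, hs0]
    push_cast
    ring) (by
    intro w hw _ i
    rw [hhalf]
    have h1 := hx w hw i
    have h2 : (0 : ℝ) ≤ ((D.u w i ⬝ᵥ (x - (2 : ℤ) • w) : ℤ) : ℝ) := by exact_mod_cast h1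
    linarith)
  rw [← hU] at hslc
  obtain ⟨L, hL⟩ := flp D
  obtain ⟨X, hXdef⟩ : ∃ X : Finset (Fin 3 → ℤ), X = L.filter (fun z => U ⬝ᵥ (z - v0) = s0) :=
    ⟨_, rfl⟩
  have hmemX : ∀ z, z ∈ X ↔ toR z ∈ P ∧ U ⬝ᵥ (z - v0) = s0 := by
    intro z
    rw [hXdef, Finset.mem_filter, hL]
  have hyX : y ∈ convexHull ℝ (toR '' (X : Set (Fin 3 → ℤ))) := by
    refine convexHull_mono ?_ hslc
    rintro z ⟨w, hw, i, hw0, hi, rfl⟩
    rcases hs01 with h0 | h0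
    · refine ⟨w, (hmemX w).2 ⟨?_, by rw [hw0, h0]⟩, ?_⟩
      · rw [D.hull]
        exact subset_convexHull ℝ _ ⟨w, hw, rfl⟩
      · rw [h0, Int.cast_zero, zero_smul, add_zero]
    · refine ⟨w + D.e w i, (hmemX _).2 ⟨D.mem w hw i, ?_⟩, ?_⟩
      · have e1 : w + D.e w i - v0 = (w - v0) + D.e w i := by abel
        rw [e1, dotProduct_add, hw0, zero_add, ← hi, D.dual w hw i i, if_pos rfl, h0]
      · rw [h0, Int.cast_one, one_smul, toR_add]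
  have hsubP : convexHull ℝ (toR '' (X : Set (Fin 3 → ℤ))) ⊆ P := by
    refine convexHull_min ?_ hPc
    rintro _ ⟨z, hz, rfl⟩
    exact ((hmemX z).1 hz).1
  have hlin : ∀ w' : Fin 3 → ℤ, toR U ⬝ᵥ (toR w' - toR v0) = ((U ⬝ᵥ (w' - v0) : ℤ) : ℝ) := by
    intro w'
    rw [← toR_sub, toR_dot]
  have hsubH : convexHull ℝ (toR '' (X : Set (Fin 3 → ℤ))) ⊆
      {q | toR U ⬝ᵥ (q - toR v0) = (s0 : ℝ)} := by
    refine convexHull_min ?_ ?_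
    · rintro _ ⟨z, hz, rfl⟩
      show toR U ⬝ᵥ (toR z - toR v0) = (s0 : ℝ)
      rw [hlin, ((hmemX z).1 hz).2]
    · intro q hq q' hq' a b _ _ hab
      have hq : toR U ⬝ᵥ (q - toR v0) = (s0 : ℝ) := hq
      have hq' : toR U ⬝ᵥ (q' - toR v0) = (s0 : ℝ) := hq'
      show toR U ⬝ᵥ (a • q + b • q' - toR v0) = (s0 : ℝ)
      have e1 : a • q + b • q' - toR v0 = a • (q - toR v0) + b • (q' - toR v0) := by
        have e2 : toR v0 = (a + b) • toR v0 := by rw [hab, one_smul]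
        conv_lhs => rw [e2]
        module
      rw [e1, dotProduct_add, dotProduct_smul, dotProduct_smul, hq, hq', ← add_smul, hab, one_smul]
  have hUne : U ≠ 0 := by
    intro h0
    have h1 := D.dual v0 hv0 i0 i0
    rw [← hU, h0, zero_dotProduct, if_pos rfl] at h1
    exact absurd h1 (by norm_num)
  obtain ⟨p, hp, y', hy', hpy⟩ := bgt X
    (fun z hz => (hmemX z).2 ⟨hsubP hz, by
      have h1 : toR U ⬝ᵥ (toR z - toR v0) = (s0 : ℝ) := hsubH hz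
      rw [hlin] at h1
      exact_mod_cast h1⟩) 2 (by norm_num)
    (fun t ht hind => afi3 t U hUne (s0 + U ⬝ᵥ v0) (fun z hz => by
      have h1 := ((hmemX z).1 (ht hz)).2
      rw [dotProduct_sub] at h1
      omega) hind) x y hyX (by rw [hxy]; norm_num)
  refine ⟨p, ((hmemX p).1 hp).1, ?_⟩
  rw [toR_sub, hpy]
  have h1 : (((2 : ℕ) : ℝ) - 1) • y' = y' := by
    norm_num
  rw [h1]
  exact hsubP hy'

end H66OD
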