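import Pool.Agent.H66.OD.Defs

/-!
# MTD: the predicate `Good` for the 3 x 3 matrix theorem
-/

namespace H66OD

/-- Some sign vector `ε` is a combination `t A` of the rows of `A` with `Σ |t i| ≤ 3`. -/
def Good (A : Fin 3 → Fin 3 → ℝ) : Prop :=
  ∃ ε t : Fin 3 → ℝ, (∀ i, ε i = 1 ∨ ε i = -1) ∧ (∀ j, ∑ i, t i * A i j = ε j) ∧ ∑ i, |t i| ≤ 3

end H66OD
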