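import Pool.Agent.H66.OD.Defs

/-!
# Row N12 (about 180 lines): configurations with one or two functionals

`n = 1`: claim: `u = (1/2) a 0` is an integer vector. For an integer vector `y` let `γ = a 0 ⬝ toR y`.
`2 • w 0` is an integer vector. For every integer `m` the point `p = w 0 + toR y - m (2 w 0)` is
`c + integer`, `a 0 ⬝ p = 1 + γ - 2 m`. Choose `m` with `1 + γ - 2 m ∈ [-1,1)`. `hcov`:
`|1+γ-2m| ≥ 1`, so `1 + γ - 2m = -1` and `γ = 2 (m - 1)` is even. With `y` = the standard basis vectors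
(`Pi.single`): the coordinates of `(1/2) a 0` are integers. `u ≠ 0` as `a 0 ⬝ w 0 = 1`. `t = 1/2`.

`n = 2`: let `m = a 0 ⬝ w 1`, `m' = a 1 ⬝ w 0`, `|m|,|m'| < 1`. Define
`U0 = (1 - m m')⁻¹ (a 0 - m a 1)`, `U1 = (1 - m m')⁻¹ (a 1 - m' a 0)`: `U i ⬝ w j = δ i j`,
`a 0 = U0 + m U1`, `a 1 = m' U0 + U1`. Put `Z+ = (U0+U1)/2`, `Z- = (U0-U1)/2`. Claim: `Z± ⬝ toR y` is an
integer for every integer vector `y`. Let `A = ⌊Z+ ⬝ y⌋ + 1`, `B = ⌊Z- ⬝ y⌋ + 1` and
`p = w 0 + y - A (w0 + w1) - B (w0 - w1)`; `w0 ± w1` are integer vectors (`w = c + integer`,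
`2 c = g`), so `p = c + integer`, and `Z+ ⬝ p = 1/2 + Z+ ⬝ y - A = fract(Z+ ⬝ y) - 1/2`,
`Z- ⬝ p = fract (Z- ⬝ y) - 1/2`. With `s0 = U0 ⬝ p = Z+ ⬝ p + Z- ⬝ p`, `s1 = U1 ⬝ p = Z+ ⬝ p - Z- ⬝ p`:
`|s0| + |s1| = 2 max(|Z+ ⬝ p|,|Z- ⬝ p|) ≤ 1`. `a 0 ⬝ p = s0 + m s1`, `a 1 ⬝ p = m' s0 + s1`.
`hcov`: one of them has absolute value `≥ 1`; since `|s0 + m s1| ≤ |s0| + |m||s1|` this forces (first case)
`s1 = 0`, `|s0| = 1`; second case `s0 = 0`, `|s1| = 1`. In all cases `|Z+ ⬝ p| = 1/2`, so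
`fract (Z+ ⬝ y) - 1/2 = -1/2` (fract < 1), so `Z+ ⬝ y` is an integer; same for `Z-`.
So `Z+`, `Z-` are integer vectors, nonzero since `Z± ⬝ w 0 = 1/2`.
`Z+ = ((1-m') a 0 + (1-m) a 1)/(2(1-mm'))` has coefficient sum `(2-(m+m'))/(2(1-mm'))`, and
`Z- = ((1+m') a 0 - (1+m) a 1)/(2(1-mm'))` has absolute coefficient sum `(2+(m+m'))/(2(1-mm'))`.
If `m+m' ≥ 0` use `Z+`: `(2-(m+m'))/2 ≤ 1 - mm'` iff `mm' ≤ (m+m')/2`: if `mm' ≤ 0` clear; if `mm' > 0` both
are positive (sum `≥ 0`) and `< 1`: `mm' ≤ m`, `mm' ≤ m'`. If `m+m' ≤ 0` use `Z-`: symmetric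
(replace `m,m'` by `-m,-m'`). So the absolute sum is `≤ 1 ≤ 3/2`.
-/

open Matrix

namespace H66OD

theorem N12_int (u : Fin 3 → ℝ) (h : ∀ y : Fin 3 → ℤ, ∃ m : ℤ, u ⬝ᵥ toR y = m) :
    ∃ U : Fin 3 → ℤ, toR U = u := by
  choose m hm using fun i : Fin 3 => h (Pi.single i 1)
  refine ⟨m, ?_⟩
  funext i
  have h1 := hm i
  have e : toR (Pi.single i 1 : Fin 3 → ℤ) = Pi.single i 1 := by
    funext j
    by_cases hj : j = i
    · subst hj
      simp [toR]
    · simp [toR, Pi.single_eq_of_ne hj]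
  rw [e, dotProduct_single, mul_one] at h1
  rw [toR_apply, ← h1]

theorem N12_real {P Q m m' : ℝ} (hP : -(1 / 2) ≤ P) (hP' : P < 1 / 2) (hQ : -(1 / 2) ≤ Q)
    (hQ' : Q < 1 / 2) (hm : |m| < 1) (hm' : |m'| < 1)
    (h : 1 ≤ |(1 + m) * P + (1 - m) * Q| ∨ 1 ≤ |(1 + m') * P - (1 - m') * Q|) :
    P = -(1 / 2) ∧ Q = -(1 / 2) := by
  rw [abs_lt] at hm hm'
  have a1 : 0 < 1 + m := by linarith
  have a2 : 0 < 1 - m := by linarith
  have b1 : 0 < 1 + m' := by linarith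
  have b2 : 0 < 1 - m' := by linarith
  have p1 : 0 ≤ P + 1 / 2 := by linarith
  have q1 : 0 ≤ Q + 1 / 2 := by linarith
  have p2 : 0 < 1 / 2 - P := by linarith
  have q2 : 0 < 1 / 2 - Q := by linarith
  rcases h with h | h
  · rcases le_abs.1 h with h | h
    · nlinarith [mul_pos a1 p2, mul_pos a2 q2]
    · have e1 := mul_nonneg a1.le p1
      have e2 := mul_nonneg a2.le q1
      have e3 : (1 + m) * (P + 1 / 2) = 0 := by nlinarith
      have e4 : (1 - m) * (Q + 1 / 2) = 0 := by nlinarith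
      rcases mul_eq_zero.1 e3 with h3 | h3
      · exact absurd h3 a1.ne'
      · rcases mul_eq_zero.1 e4 with h4 | h4
        · exact absurd h4 a2.ne'
        · exact ⟨by linarith, by linarith⟩
  · exfalso
    rcases le_abs.1 h with h | h
    · nlinarith [mul_pos b1 p2, mul_nonneg b2.le q1]
    · nlinarith [mul_nonneg b1.le p1, mul_pos b2 q2]

theorem N12_frac {α : ℝ} (h : α - (((⌊α⌋ + 1 : ℤ)) : ℝ) + 1 / 2 = -(1 / 2)) : ∃ k : ℤ, α = k := by
  refine ⟨⌊α⌋, ?_⟩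
  push_cast at h
  linarith

theorem n1 (C : Cfg 1) : Short 1 C.a := by
  obtain ⟨z0, hz0⟩ := C.hw 0
  have hu : ∀ y : Fin 3 → ℤ, ∃ k : ℤ, ((1 / 2 : ℝ) • C.a 0) ⬝ᵥ toR y = k := by
    intro y
    set γ : ℝ := C.a 0 ⬝ᵥ toR y with hγ
    set m : ℤ := ⌊(γ + 2) / 2⌋ with hm
    have f1 := Int.floor_le ((γ + 2) / 2)
    have f2 := Int.lt_floor_add_one ((γ + 2) / 2)
    rw [← hm] at f1 f2
    obtain ⟨i, hi⟩ := C.hcov (z0 + y - m • (C.g + (2 : ℤ) • z0))
    have hi0 : i = 0 := Subsingleton.elim _ _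
    subst hi0
    have e : C.c + toR (z0 + y - m • (C.g + (2 : ℤ) • z0)) =
        C.w 0 + toR y - (m : ℝ) • ((2 : ℝ) • C.w 0) := by
      rw [toR_sub, toR_add, toR_zsmul, toR_add, toR_zsmul, C.hg, hz0]
      push_cast
      module
    rw [e, dotProduct_sub, dotProduct_add, dotProduct_smul, dotProduct_smul, C.h1 0, ← hγ,
      smul_eq_mul, smul_eq_mul] at hi
    refine ⟨m - 1, ?_⟩
    rw [smul_dotProduct, ← hγ, smul_eq_mul]
    push_cast
    rcases le_abs.1 hi with h | h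
    · exfalso
      linarith
    · linarith
  obtain ⟨U, hU⟩ := N12_int _ hu
  refine ⟨U, ?_, fun _ => 1 / 2, ?_, ?_⟩
  · rintro rfl
    rw [toR_zero] at hU
    have h1 := C.h1 0
    have h2 : C.a 0 = 0 := by
      have := hU.symm
      rw [smul_eq_zero] at this
      exact this.resolve_left (by norm_num)
    rw [h2, zero_dotProduct] at h1
    exact zero_ne_one h1
  · rw [hU, Fin.sum_univ_one]
  · rw [Fin.sum_univ_one]
    norm_num

theorem N12_core (C : Cfg 2) {m m' D : ℝ} (hm : m = C.a 0 ⬝ᵥ C.w 1) (hm' : m' = C.a 1 ⬝ᵥ C.w 0)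
    (hD : D = 1 - m * m') (am : |m| < 1) (am' : |m'| < 1) (hD0 : 0 < D) (y : Fin 3 → ℤ) :
    (∃ k : ℤ, (((1 - m') / (2 * D)) • C.a 0 + ((1 - m) / (2 * D)) • C.a 1) ⬝ᵥ toR y = k) ∧
    (∃ k : ℤ, (((1 + m') / (2 * D)) • C.a 0 + (-(1 + m) / (2 * D)) • C.a 1) ⬝ᵥ toR y = k) := by
  obtain ⟨z0, hz0⟩ := C.hw 0
  obtain ⟨z1, hz1⟩ := C.hw 1
  set y0 : ℝ := C.a 0 ⬝ᵥ toR y with hy0
  set y1 : ℝ := C.a 1 ⬝ᵥ toR y with hy1
  rw [add_dotProduct, add_dotProduct, smul_dotProduct, smul_dotProduct, smul_dotProduct,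
    smul_dotProduct, ← hy0, ← hy1, smul_eq_mul, smul_eq_mul, smul_eq_mul, smul_eq_mul]
  set α : ℝ := (1 - m') / (2 * D) * y0 + (1 - m) / (2 * D) * y1 with hα
  set β : ℝ := (1 + m') / (2 * D) * y0 + -(1 + m) / (2 * D) * y1 with hβ
  set A : ℤ := ⌊α⌋ + 1 with hA
  set B : ℤ := ⌊β⌋ + 1 with hB
  have eα : 2 * D * α = (1 - m') * y0 + (1 - m) * y1 := by
    rw [hα]
    field_simp
  have eβ : 2 * D * β = (1 + m') * y0 - (1 + m) * y1 := by
    rw [hβ]
    field_simp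
    ring
  have ey0 : y0 = (1 + m) * α + (1 - m) * β := by
    have h1 : 2 * D * y0 = 2 * D * ((1 + m) * α + (1 - m) * β) := by
      have : 2 * D * ((1 + m) * α + (1 - m) * β) =
        (1 + m) * (2 * D * α) + (1 - m) * (2 * D * β) := by ring
      rw [this, eα, eβ, hD]
      ring
    exact mul_left_cancel₀ (by positivity) h1
  have ey1 : y1 = (1 + m') * α - (1 - m') * β := by
    have h1 : 2 * D * y1 = 2 * D * ((1 + m') * α - (1 - m') * β) := by
      have : 2 * D * ((1 + m') * α - (1 - m') * β) =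
        (1 + m') * (2 * D * α) - (1 - m') * (2 * D * β) := by ring
      rw [this, eα, eβ, hD]
      ring
    exact mul_left_cancel₀ (by positivity) h1
  have e : C.c + toR (z0 + y - A • (C.g + z0 + z1) - B • (z0 - z1)) =
      C.w 0 + toR y - (A : ℝ) • (C.w 0 + C.w 1) - (B : ℝ) • (C.w 0 - C.w 1) := by
    rw [toR_sub, toR_sub, toR_add, toR_zsmul, toR_zsmul, toR_add, toR_add, toR_sub, C.hg, hz0, hz1]
    module
  have d0 : C.a 0 ⬝ᵥ (C.w 0 + toR y - (A : ℝ) • (C.w 0 + C.w 1) - (B : ℝ) • (C.w 0 - C.w 1)) =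
      1 + y0 - A * (1 + m) - B * (1 - m) := by
    rw [dotProduct_sub, dotProduct_sub, dotProduct_add, dotProduct_smul, dotProduct_smul,
      dotProduct_add, dotProduct_sub, C.h1 0, ← hm, ← hy0, smul_eq_mul, smul_eq_mul]
  have d1 : C.a 1 ⬝ᵥ (C.w 0 + toR y - (A : ℝ) • (C.w 0 + C.w 1) - (B : ℝ) • (C.w 0 - C.w 1)) =
      m' + y1 - A * (m' + 1) - B * (m' - 1) := by
    rw [dotProduct_sub, dotProduct_sub, dotProduct_add, dotProduct_smul, dotProduct_smul,
      dotProduct_add, dotProduct_sub, C.h1 1, ← hm', ← hy1, smul_eq_mul, smul_eq_mul]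
  have fa1 := Int.floor_le α
  have fa2 := Int.lt_floor_add_one α
  have fb1 := Int.floor_le β
  have fb2 := Int.lt_floor_add_one β
  have cA : (A : ℝ) = (⌊α⌋ : ℝ) + 1 := by rw [hA]; push_cast; ring
  have cB : (B : ℝ) = (⌊β⌋ : ℝ) + 1 := by rw [hB]; push_cast; ring
  have key : α - (A : ℝ) + 1 / 2 = -(1 / 2) ∧ β - (B : ℝ) + 1 / 2 = -(1 / 2) := by
    refine N12_real (by linarith) (by linarith) (by linarith) (by linarith) am am' ?_
    obtain ⟨i, hi⟩ := C.hcov (z0 + y - A • (C.g + z0 + z1) - B • (z0 - z1))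
    rw [e] at hi
    fin_cases i
    · left
      have hi' : 1 ≤ |C.a 0 ⬝ᵥ (C.w 0 + toR y - (A : ℝ) • (C.w 0 + C.w 1) -
        (B : ℝ) • (C.w 0 - C.w 1))| := hi
      rw [d0, ey0] at hi'
      have : (1 + m) * (α - (A : ℝ) + 1 / 2) + (1 - m) * (β - (B : ℝ) + 1 / 2) =
        1 + ((1 + m) * α + (1 - m) * β) - A * (1 + m) - B * (1 - m) := by ring
      rw [this]
      exact hi'
    · right
      have hi' : 1 ≤ |C.a 1 ⬝ᵥ (C.w 0 + toR y - (A : ℝ) • (C.w 0 + C.w 1) -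
        (B : ℝ) • (C.w 0 - C.w 1))| := hi
      rw [d1, ey1] at hi'
      have : (1 + m') * (α - (A : ℝ) + 1 / 2) - (1 - m') * (β - (B : ℝ) + 1 / 2) =
        m' + ((1 + m') * α - (1 - m') * β) - A * (m' + 1) - B * (m' - 1) := by ring
      rw [this]
      exact hi'
  exact ⟨N12_frac key.1, N12_frac key.2⟩

theorem n2 (C : Cfg 2) : Short 2 C.a := by
  obtain ⟨m, hm⟩ : ∃ m, m = C.a 0 ⬝ᵥ C.w 1 := ⟨_, rfl⟩
  obtain ⟨m', hm'⟩ : ∃ m', m' = C.a 1 ⬝ᵥ C.w 0 := ⟨_, rfl⟩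
  have am : |m| < 1 := by
    rw [hm]
    exact C.h2 1 0 (by decide)
  have am' : |m'| < 1 := by
    rw [hm']
    exact C.h2 0 1 (by decide)
  obtain ⟨D, hD⟩ : ∃ D, D = 1 - m * m' := ⟨_, rfl⟩
  have b1 := abs_lt.1 am
  have b2 := abs_lt.1 am'
  have hD0 : 0 < D := by
    rw [hD]
    nlinarith [mul_pos (show 0 < 1 - m by linarith) (show 0 < 1 + m' by linarith),
      mul_pos (show 0 < 1 + m by linarith) (show 0 < 1 - m' by linarith)]
  obtain ⟨U, hU⟩ := N12_int _ fun y => (N12_core C hm hm' hD am am' hD0 y).1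
  obtain ⟨W, hW⟩ := N12_int _ fun y => (N12_core C hm hm' hD am am' hD0 y).2
  by_cases hs : 0 ≤ m + m'
  · refine ⟨U, ?_, ![(1 - m') / (2 * D), (1 - m) / (2 * D)], ?_, ?_⟩
    · rintro rfl
      rw [toR_zero] at hU
      have h1 : (((1 - m') / (2 * D)) • C.a 0 + ((1 - m) / (2 * D)) • C.a 1) ⬝ᵥ C.w 0 = 1 / 2 := by
        rw [add_dotProduct, smul_dotProduct, smul_dotProduct, C.h1 0, ← hm', smul_eq_mul,
          smul_eq_mul]
        field_simp
        rw [hD]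
        ring
      rw [← hU, zero_dotProduct] at h1
      norm_num at h1
    · rw [hU, Fin.sum_univ_two]
      rfl
    · rw [Fin.sum_univ_two]
      show |(1 - m') / (2 * D)| + |(1 - m) / (2 * D)| ≤ 3 / 2
      rw [abs_of_nonneg (div_nonneg (by linarith) (by linarith)),
        abs_of_nonneg (div_nonneg (by linarith) (by linarith)), ← add_div,
        div_le_iff₀ (by positivity), hD]
      have : m * m' * 2 ≤ m + m' := by
        rcases le_total 0 m with h | h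
        · rcases le_total 0 m' with h' | h'
          · nlinarith [mul_nonneg h (show 0 ≤ 1 - m' by linarith),
              mul_nonneg h' (show 0 ≤ 1 - m by linarith)]
          · nlinarith [mul_nonneg h (neg_nonneg.2 h')]
        · have h' : 0 ≤ m' := by linarith
          nlinarith [mul_nonneg (neg_nonneg.2 h) h']
      nlinarith
  · refine ⟨W, ?_, ![(1 + m') / (2 * D), -(1 + m) / (2 * D)], ?_, ?_⟩
    · rintro rfl
      rw [toR_zero] at hW
      have h1 : (((1 + m') / (2 * D)) • C.a 0 + (-(1 + m) / (2 * D)) • C.a 1) ⬝ᵥ C.w 0 =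
          1 / 2 := by
        rw [add_dotProduct, smul_dotProduct, smul_dotProduct, C.h1 0, ← hm', smul_eq_mul,
          smul_eq_mul]
        field_simp
        rw [hD]
        ring
      rw [← hW, zero_dotProduct] at h1
      norm_num at h1
    · rw [hW, Fin.sum_univ_two]
      rfl
    · rw [Fin.sum_univ_two]
      show |(1 + m') / (2 * D)| + |-(1 + m) / (2 * D)| ≤ 3 / 2
      rw [neg_div, abs_neg, abs_of_nonneg (div_nonneg (by linarith) (by linarith)),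
        abs_of_nonneg (div_nonneg (by linarith) (by linarith)), ← add_div,
        div_le_iff₀ (by positivity), hD]
      have hs' : m + m' ≤ 0 := by linarith
      have : m * m' * 2 ≤ -(m + m') := by
        rcases le_total 0 m with h | h
        · have h' : m' ≤ 0 := by linarith
          nlinarith [mul_nonneg h (neg_nonneg.2 h')]
        · rcases le_total 0 m' with h' | h'
          · nlinarith [mul_nonneg (neg_nonneg.2 h) h']
          · nlinarith [mul_nonneg (neg_nonneg.2 h) (show 0 ≤ 1 + m' by linarith),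
              mul_nonneg (neg_nonneg.2 h') (show 0 ≤ 1 + m by linarith)]
      nlinarith

end H66OD
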