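import Pool.Agent.H66.OD.MTD

/-!
# Row NTY (about 120 lines): the N-type matrices

Rows `(1,α,α')`, `(β',1,β)`, `(γ,γ',1)` with `|α'| ≤ α < 1`, `|β'| ≤ β < 1`, `|γ'| ≤ γ < 1`.
Then `(1,1,1) = t A` with `t ≥ 0`, `Σ t ≤ 3`.

PROOF. Put `α = l₊ + l₋`, `α' = l₊ - l₋` with `l₊ = (α+α')/2 ≥ 0`, `l₋ = (α-α')/2 ≥ 0`,
`l₀ = 1 - α > 0`; similarly `m` for `β` and `n` for `γ`. All polynomials below are affine in each of the three
pairs, so after homogenising (`1 = l₀+l₊+l₋` etc.) they are combinations of the 27 products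
`l_a m_b n_c`, and the coefficients are the values at `(α,α') ∈ {(0,0),(1,1),(1,-1)}` etc.
det: `D = 1 + αβγ + α'β'γ' - αβ' - βγ' - γα'`. All 27 values are `≥ 0`, the value at `(0,0,0)` is `1`, so
`D ≥ l₀ m₀ n₀ > 0`.
Cramer: `D t1 = 1 - βγ' - β' + βγ + β'γ' - γ`, and cyclically
`D t2 = 1 - γα' - γ' + γα + γ'α' - α`, `D t3 = 1 - αβ' - α' + αβ + α'β' - β`; each is `≥ 0` (9 values
`1,0,0 | 0,0,0... ` all `≥ 0`). [`t1 + β' t2 + γ t3 = 1`, `α t1 + t2 + γ' t3 = 1`, `α' t1 + β t2 + t3 = 1`.]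
`Σ t ≤ 3`: `D (Σ t) - 3 D = 2X + (αβ+βγ+γα) + (α'β'+β'γ'+γ'α') - (α+β+γ) - (α'+β'+γ') - 3αβγ - 3α'β'γ'`
with `X = αβ' + βγ' + γα'`; all 27 values are `≤ 0`.
In Lean: substitute `α = l₊+l₋, α' = l₊-l₋`, etc. and use
`nlinarith [products l_a m_b n_c ≥ 0]`, or write each polynomial explicitly as the combination of the 27
products (`ring`) and `positivity`. With `t i` := numerator / D.
-/

namespace H66OD

private theorem nty_D (lp lm mp mm np nm : ℝ) (hlp : 0 ≤ lp) (hlm : 0 ≤ lm) (hmp : 0 ≤ mp)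
    (hmm : 0 ≤ mm) (hnp : 0 ≤ np) (hnm : 0 ≤ nm) (hl : 0 < 1 - lp - lm) (hm : 0 < 1 - mp - mm)
    (hn : 0 < 1 - np - nm) :
    0 < 1 + (lp + lm) * (mp + mm) * (np + nm) + (lp - lm) * (mp - mm) * (np - nm) - (lp + lm) *
      (mp - mm) - (mp + mm) * (np - nm) - (np + nm) * (lp - lm) := by
  have h : 1 + (lp + lm) * (mp + mm) * (np + nm) + (lp - lm) * (mp - mm) * (np - nm) - (lp + lm) *
      (mp - mm) - (mp + mm) * (np - nm) - (np + nm) * (lp - lm) =
      1 * ((1 - lp - lm) * (1 - mp - mm) * (1 - np - nm)) + 1 * ((1 - lp - lm) * (1 - mp - mm) *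
      np) + 1 * ((1 - lp - lm) * (1 - mp - mm) * nm) + 1 * ((1 - lp - lm) * mp * (1 - np - nm))
      + 2 * ((1 - lp - lm) * mp * nm) + 1 * ((1 - lp - lm) * mm * (1 - np - nm)) + 2 * ((1 - lp
      - lm) * mm * nm) + 1 * (lp * (1 - mp - mm) * (1 - np - nm)) + 2 * (lp * mm * (1 - np -
      nm)) + 4 * (lp * mm * nm) + 1 * (lm * (1 - mp - mm) * (1 - np - nm)) + 2 * (lm * (1 - mp -
      mm) * np) + 2 * (lm * (1 - mp - mm) * nm) + 4 * (lm * mp * nm) + 2 * (lm * mm * (1 - np -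
      nm)) + 4 * (lm * mm * np) + 4 * (lm * mm * nm) := by
    ring
  rw [h]
  have hl' := hl.le
  have hm' := hm.le
  have hn' := hn.le
  positivity

private theorem nty_N1 (lp lm mp mm np nm : ℝ) (hlp : 0 ≤ lp) (hlm : 0 ≤ lm) (hmp : 0 ≤ mp)
    (hmm : 0 ≤ mm) (hnp : 0 ≤ np) (hnm : 0 ≤ nm) (hl : 0 < 1 - lp - lm) (hm : 0 < 1 - mp - mm)
    (hn : 0 < 1 - np - nm) :
    0 ≤ 1 - (mp + mm) * (np - nm) - (mp - mm) + (mp - mm) * (np - nm) + (mp + mm) * (np + nm) -
      (np + nm) := by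
  have h : 1 - (mp + mm) * (np - nm) - (mp - mm) + (mp - mm) * (np - nm) + (mp + mm) * (np + nm) -
      (np + nm) =
      1 * ((1 - lp - lm) * (1 - mp - mm) * (1 - np - nm)) + 2 * ((1 - lp - lm) * mm * (1 - np -
      nm)) + 4 * ((1 - lp - lm) * mm * nm) + 1 * (lp * (1 - mp - mm) * (1 - np - nm)) + 2 * (lp
      * mm * (1 - np - nm)) + 4 * (lp * mm * nm) + 1 * (lm * (1 - mp - mm) * (1 - np - nm)) + 2
      * (lm * mm * (1 - np - nm)) + 4 * (lm * mm * nm) := by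
    ring
  rw [h]
  have hl' := hl.le
  have hm' := hm.le
  have hn' := hn.le
  positivity

private theorem nty_N2 (lp lm mp mm np nm : ℝ) (hlp : 0 ≤ lp) (hlm : 0 ≤ lm) (hmp : 0 ≤ mp)
    (hmm : 0 ≤ mm) (hnp : 0 ≤ np) (hnm : 0 ≤ nm) (hl : 0 < 1 - lp - lm) (hm : 0 < 1 - mp - mm)
    (hn : 0 < 1 - np - nm) :
    0 ≤ 1 - (np - nm) - (lp + lm) + (lp - lm) * (np - nm) + (lp + lm) * (np + nm) - (lp - lm) *
      (np + nm) := by
  have h : 1 - (np - nm) - (lp + lm) + (lp - lm) * (np - nm) + (lp + lm) * (np + nm) - (lp - lm) *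
      (np + nm) =
      1 * ((1 - lp - lm) * (1 - mp - mm) * (1 - np - nm)) + 2 * ((1 - lp - lm) * (1 - mp - mm) *
      nm) + 1 * ((1 - lp - lm) * mp * (1 - np - nm)) + 2 * ((1 - lp - lm) * mp * nm) + 1 * ((1 -
      lp - lm) * mm * (1 - np - nm)) + 2 * ((1 - lp - lm) * mm * nm) + 4 * (lm * (1 - mp - mm) *
      nm) + 4 * (lm * mp * nm) + 4 * (lm * mm * nm) := by
    ring
  rw [h]
  have hl' := hl.le
  have hm' := hm.le
  have hn' := hn.le
  positivity

private theorem nty_N3 (lp lm mp mm np nm : ℝ) (hlp : 0 ≤ lp) (hlm : 0 ≤ lm) (hmp : 0 ≤ mp)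
    (hmm : 0 ≤ mm) (hnp : 0 ≤ np) (hnm : 0 ≤ nm) (hl : 0 < 1 - lp - lm) (hm : 0 < 1 - mp - mm)
    (hn : 0 < 1 - np - nm) :
    0 ≤ 1 - (mp + mm) - (lp + lm) * (mp - mm) + (lp - lm) * (mp - mm) + (lp + lm) * (mp + mm) -
      (lp - lm) := by
  have h : 1 - (mp + mm) - (lp + lm) * (mp - mm) + (lp - lm) * (mp - mm) + (lp + lm) * (mp + mm) -
      (lp - lm) =
      1 * ((1 - lp - lm) * (1 - mp - mm) * (1 - np - nm)) + 1 * ((1 - lp - lm) * (1 - mp - mm) *
      np) + 1 * ((1 - lp - lm) * (1 - mp - mm) * nm) + 2 * (lm * (1 - mp - mm) * (1 - np - nm))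
      + 2 * (lm * (1 - mp - mm) * np) + 2 * (lm * (1 - mp - mm) * nm) + 4 * (lm * mm * (1 - np -
      nm)) + 4 * (lm * mm * np) + 4 * (lm * mm * nm) := by
    ring
  rw [h]
  have hl' := hl.le
  have hm' := hm.le
  have hn' := hn.le
  positivity

private theorem nty_S (lp lm mp mm np nm : ℝ) (hlp : 0 ≤ lp) (hlm : 0 ≤ lm) (hmp : 0 ≤ mp)
    (hmm : 0 ≤ mm) (hnp : 0 ≤ np) (hnm : 0 ≤ nm) (hl : 0 < 1 - lp - lm) (hm : 0 < 1 - mp - mm)
    (hn : 0 < 1 - np - nm) :
    0 ≤ 3 * (1 + (lp + lm) * (mp + mm) * (np + nm) + (lp - lm) * (mp - mm) * (np - nm) - (lp + lm)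
      * (mp - mm) - (mp + mm) * (np - nm) - (np + nm) * (lp - lm)) - (1 - (mp + mm) * (np - nm)
      - (mp - mm) + (mp - mm) * (np - nm) + (mp + mm) * (np + nm) - (np + nm)) - (1 - (np - nm)
      - (lp + lm) + (lp - lm) * (np - nm) + (lp + lm) * (np + nm) - (lp - lm) * (np + nm)) - (1
      - (mp + mm) - (lp + lm) * (mp - mm) + (lp - lm) * (mp - mm) + (lp + lm) * (mp + mm) - (lp
      - lm)) := by
  have h : 3 * (1 + (lp + lm) * (mp + mm) * (np + nm) + (lp - lm) * (mp - mm) * (np - nm) - (lp + lm)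
      * (mp - mm) - (mp + mm) * (np - nm) - (np + nm) * (lp - lm)) - (1 - (mp + mm) * (np - nm)
      - (mp - mm) + (mp - mm) * (np - nm) + (mp + mm) * (np + nm) - (np + nm)) - (1 - (np - nm)
      - (lp + lm) + (lp - lm) * (np - nm) + (lp + lm) * (np + nm) - (lp - lm) * (np + nm)) - (1
      - (mp + mm) - (lp + lm) * (mp - mm) + (lp - lm) * (mp - mm) + (lp + lm) * (mp + mm) - (lp
      - lm)) =
      2 * ((1 - lp - lm) * (1 - mp - mm) * np) + 2 * ((1 - lp - lm) * mp * (1 - np - nm)) + 4 *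
      ((1 - lp - lm) * mp * nm) + 2 * (lp * (1 - mp - mm) * (1 - np - nm)) + 4 * (lp * mm * (1 -
      np - nm)) + 8 * (lp * mm * nm) + 4 * (lm * (1 - mp - mm) * np) + 8 * (lm * mp * nm) + 8 *
      (lm * mm * np) := by
    ring
  rw [h]
  have hl' := hl.le
  have hm' := hm.le
  have hn' := hn.le
  positivity

theorem nty (al al' be be' ga ga' : ℝ) (h1 : |al'| ≤ al) (h2 : al < 1) (h3 : |be'| ≤ be)
    (h4 : be < 1) (h5 : |ga'| ≤ ga) (h6 : ga < 1) :
    Good ![![1, al, al'], ![be', 1, be], ![ga, ga', 1]] := by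
  have a1 := abs_le.1 h1
  have b1 := abs_le.1 h3
  have c1 := abs_le.1 h5
  have ea : (al + al') / 2 + (al - al') / 2 = al := by ring
  have ea' : (al + al') / 2 - (al - al') / 2 = al' := by ring
  have eb : (be + be') / 2 + (be - be') / 2 = be := by ring
  have eb' : (be + be') / 2 - (be - be') / 2 = be' := by ring
  have ec : (ga + ga') / 2 + (ga - ga') / 2 = ga := by ring
  have ec' : (ga + ga') / 2 - (ga - ga') / 2 = ga' := by ring
  have hD := nty_D ((al + al') / 2) ((al - al') / 2) ((be + be') / 2) ((be - be') / 2)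
    ((ga + ga') / 2) ((ga - ga') / 2) (by linarith) (by linarith) (by linarith) (by linarith)
    (by linarith) (by linarith) (by linarith) (by linarith) (by linarith)
  have hN1 := nty_N1 ((al + al') / 2) ((al - al') / 2) ((be + be') / 2) ((be - be') / 2)
    ((ga + ga') / 2) ((ga - ga') / 2) (by linarith) (by linarith) (by linarith) (by linarith)
    (by linarith) (by linarith) (by linarith) (by linarith) (by linarith)
  have hN2 := nty_N2 ((al + al') / 2) ((al - al') / 2) ((be + be') / 2) ((be - be') / 2)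
    ((ga + ga') / 2) ((ga - ga') / 2) (by linarith) (by linarith) (by linarith) (by linarith)
    (by linarith) (by linarith) (by linarith) (by linarith) (by linarith)
  have hN3 := nty_N3 ((al + al') / 2) ((al - al') / 2) ((be + be') / 2) ((be - be') / 2)
    ((ga + ga') / 2) ((ga - ga') / 2) (by linarith) (by linarith) (by linarith) (by linarith)
    (by linarith) (by linarith) (by linarith) (by linarith) (by linarith)
  have hS := nty_S ((al + al') / 2) ((al - al') / 2) ((be + be') / 2) ((be - be') / 2)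
    ((ga + ga') / 2) ((ga - ga') / 2) (by linarith) (by linarith) (by linarith) (by linarith)
    (by linarith) (by linarith) (by linarith) (by linarith) (by linarith)
  rw [ea, ea', eb, eb', ec, ec'] at hD hS
  rw [eb, eb', ec, ec'] at hN1
  rw [ea, ea', ec, ec'] at hN2
  rw [ea, ea', eb, eb'] at hN3
  obtain ⟨D, hDd⟩ : ∃ D, D = 1 + al * be * ga + al' * be' * ga' - al * be' - be * ga' - ga * al' :=
    ⟨_, rfl⟩
  obtain ⟨N1, hN1d⟩ : ∃ N, N = 1 - be * ga' - be' + be' * ga' + be * ga - ga := ⟨_, rfl⟩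
  obtain ⟨N2, hN2d⟩ : ∃ N, N = 1 - ga' - al + al' * ga' + al * ga - al' * ga := ⟨_, rfl⟩
  obtain ⟨N3, hN3d⟩ : ∃ N, N = 1 - be - al * be' + al' * be' + al * be - al' := ⟨_, rfl⟩
  have hD0 : 0 < D := by rw [hDd]; exact hD
  have hN10 : 0 ≤ N1 := by rw [hN1d]; exact hN1
  have hN20 : 0 ≤ N2 := by rw [hN2d]; exact hN2
  have hN30 : 0 ≤ N3 := by rw [hN3d]; exact hN3
  have hS0 : N1 + N2 + N3 ≤ 3 * D := by rw [hN1d, hN2d, hN3d, hDd]; linarith
  refine ⟨fun _ => 1, ![N1 / D, N2 / D, N3 / D], fun _ => Or.inl rfl, ?_, ?_⟩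
  · intro j
    have q0 : N1 + N2 * be' + N3 * ga = D := by rw [hN1d, hN2d, hN3d, hDd]; ring
    have q1 : N1 * al + N2 + N3 * ga' = D := by rw [hN1d, hN2d, hN3d, hDd]; ring
    have q2 : N1 * al' + N2 * be + N3 = D := by rw [hN1d, hN2d, hN3d, hDd]; ring
    fin_cases j
    · simp only [Fin.sum_univ_three, Fin.isValue, Matrix.cons_val_zero, Matrix.cons_val_one,
        Matrix.cons_val, Fin.zero_eta, Fin.mk_one, Fin.reduceFinMk]
      field_simp
      linarith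
    · simp only [Fin.sum_univ_three, Fin.isValue, Matrix.cons_val_zero, Matrix.cons_val_one,
        Matrix.cons_val, Fin.zero_eta, Fin.mk_one, Fin.reduceFinMk]
      field_simp
      linarith
    · simp only [Fin.sum_univ_three, Fin.isValue, Matrix.cons_val_zero, Matrix.cons_val_one,
        Matrix.cons_val, Fin.zero_eta, Fin.mk_one, Fin.reduceFinMk]
      field_simp
      linarith
  · have e : ∑ i, |(![N1 / D, N2 / D, N3 / D] : Fin 3 → ℝ) i| = (N1 + N2 + N3) / D := by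
      rw [Fin.sum_univ_three]
      show |N1 / D| + |N2 / D| + |N3 / D| = (N1 + N2 + N3) / D
      rw [abs_of_nonneg (div_nonneg hN10 hD0.le), abs_of_nonneg (div_nonneg hN20 hD0.le),
        abs_of_nonneg (div_nonneg hN30 hD0.le)]
      ring
    rw [e, div_le_iff₀ hD0]
    exact hS0

end H66OD
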