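import Pool.Agent.H66.OD.Defs

/-!
# Row PAR2 (about 50 lines)

A family of integer affine functionals on `ℤ²` with touching points has at most four members.

PROOF. The map `I → (ZMod 2)²`, `i ↦ (x i, y i) mod 2` is injective on `I`: if `i ≠ j` have the same
class then `X = (x i + x j)/2`, `Y = (y i + y j)/2` are integers and for every `l ∈ I`:
`2 ψ l (X,Y) = ψ l (P i) + ψ l (P j)` where both summands are `≤ 0` and at least one is `≤ -1`
(as `l ≠ i` or `l ≠ j`), so `ψ l (X,Y) < 0`, contradicting `hcov`. `(ZMod 2)²` has four elements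
(`Finset.card_le_card_of_injOn` into `Finset.univ : Finset (ZMod 2 × ZMod 2)`).
-/

namespace H66OD

theorem PAR2_mod (u v : ℤ) (h : (u : ZMod 2) = (v : ZMod 2)) : ∃ y : ℤ, u + v = 2 * y := by
  have h2 := (ZMod.intCast_eq_intCast_iff_dvd_sub u v 2).mp h
  obtain ⟨y, hy⟩ := h2
  refine ⟨y + u, ?_⟩
  push_cast at hy
  linarith

theorem par2 {Φ : Type} [DecidableEq Φ] (I : Finset Φ) (α β γ x y : Φ → ℤ)
    (h0 : ∀ i ∈ I, α i * x i + β i * y i + γ i = 0)
    (h1 : ∀ i ∈ I, ∀ j ∈ I, j ≠ i → α j * x i + β j * y i + γ j ≤ -1)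
    (hcov : ∀ X Y : ℤ, ∃ i ∈ I, 0 ≤ α i * X + β i * Y + γ i) : I.card ≤ 4 := by
  have hinj : Set.InjOn (fun i => ((x i : ZMod 2), (y i : ZMod 2))) (I : Set Φ) := by
    intro i hi j hj hij
    by_contra hne
    simp only [Prod.mk.injEq] at hij
    obtain ⟨X, hX⟩ := PAR2_mod _ _ hij.1
    obtain ⟨Y, hY⟩ := PAR2_mod _ _ hij.2
    obtain ⟨l, hl, hl0⟩ := hcov X Y
    have hi' : i ∈ I := hi
    have hj' : j ∈ I := hj
    have hsum : 2 * (α l * X + β l * Y + γ l)
        = (α l * x i + β l * y i + γ l) + (α l * x j + β l * y j + γ l) := by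
      linear_combination (-α l) * hX + (-β l) * hY
    rcases eq_or_ne l i with hli | hli
    · have a1 := h0 i hi'
      have a2 := h1 j hj' l hl (by rw [hli]; exact hne)
      rw [hli] at a2 hsum hl0
      omega
    · have a1 := h1 i hi' l hl hli
      rcases eq_or_ne l j with hlj | hlj
      · have a2 := h0 j hj'
        rw [hlj] at a1 hsum hl0
        omega
      · have a2 := h1 j hj' l hl hlj
        omega
  have hcard := Finset.card_le_card_of_injOn (s := I)
    (t := (Finset.univ : Finset (ZMod 2 × ZMod 2)))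
    (fun i => ((x i : ZMod 2), (y i : ZMod 2))) (fun _ _ => Finset.mem_coe.mpr (Finset.mem_univ _)) hinj
  simpa [ZMod.card] using hcard

end H66OD
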