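import Pool.Agent.H66.OD.Defs

/-!
# Row PAR3 (about 120 lines): parity in the configuration

`neq`: for `i ≠ j` neither `w i - w j` nor `w i + w j` is twice an integer vector.
PROOF: if `w i - w j = 2 y` then `p = (w i + w j)/2 = w j + y` is a point `c + integer`; by `hcov` some
`k` has `|a k ⬝ p| ≥ 1`, but `|a k ⬝ p| ≤ (|a k ⬝ w i| + |a k ⬝ w j|)/2` where both are `≤ 1` (`h1`, `h2`)
and at least one is `< 1` (as `k ≠ i` or `k ≠ j`). If `w i + w j = 2 y`: `p = (w i - w j)/2 = w i - y`,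
the same.
`card`: `n ≤ 4`. PROOF: write `w i = c + toR (z i)`, `2 c = toR g`. Map `Fin n × Bool → (Fin 3 → ZMod 2)`,
`(i,true) ↦ z i mod 2`, `(i,false) ↦ (z i + g) mod 2`. It is injective: `z i ≡ z j` gives
`w i - w j = toR (z i - z j)` twice an integer vector, so `i = j`; `z i + g ≡ z j + g` the same;
`z i ≡ z j + g`: then `z i + z j + g ≡ 0` (mod 2: `z i - z j - g ≡ 0` and `2 z j + 2 g ≡ 0`), and
`w i + w j = 2 c + toR(z i + z j) = toR (g + z i + z j)` is twice an integer vector: so `i = j`, and then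
`g ≡ 0 mod 2`, `g = 2 h`, `c = toR h`, contradicting `hc`. So `2 n ≤ 8`.
-/

open Matrix

namespace H66OD

theorem PAR3_aux {n : ℕ} (C : Cfg n) (i j : Fin n) (hij : i ≠ j) (s : ℝ) (hs : |s| = 1)
    (z : Fin 3 → ℤ) (h : C.c + toR z = (1 / 2 : ℝ) • (C.w i + s • C.w j)) : False := by
  obtain ⟨k, hk⟩ := C.hcov z
  rw [h, dotProduct_smul, dotProduct_add, dotProduct_smul, smul_eq_mul, smul_eq_mul] at hk
  have h1 : |1 / 2 * (C.a k ⬝ᵥ C.w i + s * C.a k ⬝ᵥ C.w j)|
      ≤ 1 / 2 * (|C.a k ⬝ᵥ C.w i| + |C.a k ⬝ᵥ C.w j|) := by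
    rw [abs_mul, abs_of_pos (by norm_num : (0 : ℝ) < 1 / 2)]
    apply mul_le_mul_of_nonneg_left _ (by norm_num)
    calc |C.a k ⬝ᵥ C.w i + s * C.a k ⬝ᵥ C.w j| ≤ |C.a k ⬝ᵥ C.w i| + |s * C.a k ⬝ᵥ C.w j| :=
          abs_add_le _ _
      _ = _ := by rw [abs_mul, hs, one_mul]
  rcases eq_or_ne k i with hki | hki
  · subst hki
    have h3 : |C.a k ⬝ᵥ C.w k| = 1 := by rw [C.h1 k, abs_one]
    have h4 := C.h2 j k (Ne.symm hij)
    linarith
  · have h3 := C.h2 i k (Ne.symm hki)
    have h4 : |C.a k ⬝ᵥ C.w j| ≤ 1 := by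
      rcases eq_or_ne k j with hkj | hkj
      · subst hkj
        rw [C.h1 k, abs_one]
      · exact (C.h2 j k (Ne.symm hkj)).le
    linarith

theorem par3_neq {n : ℕ} (C : Cfg n) (i j : Fin n) (hij : i ≠ j) :
    (¬ ∃ y : Fin 3 → ℤ, C.w i - C.w j = (2 : ℝ) • toR y) ∧
    (¬ ∃ y : Fin 3 → ℤ, C.w i + C.w j = (2 : ℝ) • toR y) := by
  obtain ⟨zj, hzj⟩ := C.hw j
  constructor
  · rintro ⟨y, hy⟩
    apply PAR3_aux C i j hij 1 abs_one (zj + y)
    ext k
    have h1 := congrFun hy k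
    have h2 := congrFun hzj k
    simp only [Pi.sub_apply, Pi.add_apply, Pi.smul_apply, smul_eq_mul, toR_apply] at h1 h2 ⊢
    push_cast
    linarith
  · rintro ⟨y, hy⟩
    obtain ⟨zi, hzi⟩ := C.hw i
    apply PAR3_aux C i j hij (-1) (by norm_num) (zi - y)
    ext k
    have h1 := congrFun hy k
    have h2 := congrFun hzi k
    simp only [Pi.sub_apply, Pi.add_apply, Pi.smul_apply, smul_eq_mul, toR_apply] at h1 h2 ⊢
    push_cast
    linarith

theorem PAR3_mod (u v : Fin 3 → ℤ) (h : ∀ k, ((u k : ℤ) : ZMod 2) = ((v k : ℤ) : ZMod 2)) :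
    ∃ y : Fin 3 → ℤ, ∀ k, v k - u k = 2 * y k := by
  have h1 : ∀ k, ∃ y : ℤ, v k - u k = 2 * y := by
    intro k
    have h2 := (ZMod.intCast_eq_intCast_iff_dvd_sub (u k) (v k) 2).mp (h k)
    obtain ⟨y, hy⟩ := h2
    exact ⟨y, by simpa using hy⟩
  choose y hy using h1
  exact ⟨y, hy⟩

theorem PAR3_cross {n : ℕ} (C : Cfg n) (z : Fin n → (Fin 3 → ℤ))
    (hz : ∀ i, C.w i = C.c + toR (z i)) (i j : Fin n)
    (h : ∀ k, ((z i k : ℤ) : ZMod 2) = ((z j k + C.g k : ℤ) : ZMod 2)) : False := by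
  obtain ⟨y, hy⟩ := PAR3_mod (z i) (fun k => z j k + C.g k) h
  have hg := C.hg
  rcases eq_or_ne i j with hij | hij
  · subst hij
    apply C.hc y
    ext k
    have h1 := hy k
    have h2 := congrFun hg k
    simp only [Pi.smul_apply, smul_eq_mul, toR_apply] at h1 h2 ⊢
    have h3 : C.g k = 2 * y k := by linarith
    rw [h3] at h2
    push_cast at h2
    linarith
  · apply (par3_neq C i j hij).2
    refine ⟨y + z i, ?_⟩
    ext k
    have h1 := hy k
    have h2 := congrFun hg k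
    have h3 := congrFun (hz i) k
    have h4 := congrFun (hz j) k
    simp only [Pi.smul_apply, smul_eq_mul, toR_apply, Pi.add_apply] at h1 h2 h3 h4 ⊢
    have h5 : (C.g k : ℝ) = 2 * y k + z i k - z j k := by
      have : C.g k = 2 * y k + z i k - z j k := by linarith
      rw [this]
      push_cast
      ring
    push_cast
    linarith

theorem PAR3_same {n : ℕ} (C : Cfg n) (z : Fin n → (Fin 3 → ℤ))
    (hz : ∀ i, C.w i = C.c + toR (z i)) (i j : Fin n)
    (h : ∀ k, ((z i k : ℤ) : ZMod 2) = ((z j k : ℤ) : ZMod 2)) : i = j := by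
  by_contra hij
  obtain ⟨y, hy⟩ := PAR3_mod (z j) (z i) (fun k => (h k).symm)
  apply (par3_neq C i j hij).1
  refine ⟨y, ?_⟩
  ext k
  have h1 := hy k
  have h3 := congrFun (hz i) k
  have h4 := congrFun (hz j) k
  simp only [Pi.smul_apply, smul_eq_mul, toR_apply, Pi.add_apply, Pi.sub_apply] at h1 h3 h4 ⊢
  have h5 : (z i k : ℝ) - z j k = 2 * y k := by exact_mod_cast h1
  linarith

theorem par3_card {n : ℕ} (C : Cfg n) : n ≤ 4 := by
  choose z hz using C.hw
  have hinj : Function.Injective (fun (p : Fin n × Bool) (k : Fin 3) =>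
      (if p.2 then ((z p.1 k : ℤ) : ZMod 2) else ((z p.1 k + C.g k : ℤ) : ZMod 2))) := by
    rintro ⟨i, b⟩ ⟨j, b'⟩ h
    have h' : ∀ k, (if b then ((z i k : ℤ) : ZMod 2) else ((z i k + C.g k : ℤ) : ZMod 2))
        = (if b' then ((z j k : ℤ) : ZMod 2) else ((z j k + C.g k : ℤ) : ZMod 2)) :=
      fun k => congrFun h k
    cases b <;> cases b'
    · have h2 := PAR3_same C z hz i j (by
        intro k
        have := h' k
        simpa using this)
      rw [h2]
    · exfalso
      exact PAR3_cross C z hz j i (by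
        intro k
        have := (h' k).symm
        simpa using this)
    · exfalso
      exact PAR3_cross C z hz i j (by
        intro k
        have := h' k
        simpa using this)
    · have h2 := PAR3_same C z hz i j (by
        intro k
        have := h' k
        simpa using this)
      rw [h2]
  have hcard := Fintype.card_le_of_injective _ hinj
  simp [Fintype.card_prod, ZMod.card] at hcard
  omega

end H66OD
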