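import Pool.Agent.H66.OD.ELT

/-!
# Row PGM (about 150 lines)

Four integer affine functionals `ψ i (X,Y) = α i X + β i Y + γ i` on `ℤ²` and four integer points
`(x i, y i)` with `ψ i` zero at the point `i` and `≤ -1` at the other three; every integer point has
some `ψ i ≥ 0`. Then every triangle formed by three of the points is unimodular and the four points
form a (unit) parallelogram.

PROOF.
(1) For distinct `i,j,k` the determinant `D = det(P j - P i, P k - P i)` is `±1`.
 Note `P i ≠ P j` for `i ≠ j` since `ψ i (P i) = 0`, `ψ i (P j) ≤ -1`.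
 (a) `D ≠ 0`: if `D = 0` the three distinct points are collinear, so one of them, say `P i`, lies in
 the open segment of the two others: there are integers `m,n ≥ 1` with `(m+n) P i = m P j + n P k`
 (collinear distinct points: if `D = 0`, some integer relation `r (P j - P i) = s (P k - P i)` with
 `r,s` both nonzero; e.g. if `x j ≠ x i` take `r = x k - x i`, `s = x j - x i`, and if `x j = x i`
 use the `y` coordinates; the signs of `r,s` decide which point is in the middle). Then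
 `(m+n) ψ i(P i) = m ψ i(P j) + n ψ i (P k) ≤ -(m+n) < 0`, contradiction with `ψ i (P i) = 0`.
 (Alternative without finding the middle point: work with the reals/rationals, or argue with the
 three functionals.)
 (b) if `|D| ≥ 2`: exchanging `j,k` we may assume `D ≥ 2`; `elt` applied to
 `(a,b) = P j - P i`, `(c,d) = P k - P i` gives `S,T,X,Y`. The integer point `Q = P i + (X,Y)` has
 `D Q = (D-S-T) P i + S P j + T P k`. So `D ψ l(Q) = (D-S-T) ψ l(P i) + S ψ l(P j) + T ψ l(P k)`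
 for every `l`. For `l = i`: `= S ψ i(P j) + T ψ i (P k) ≤ -(S+T) < 0`. For `l = j`:
 `≤ -(D-S-T) - T = -(D - S) < 0` as `S < D`. For `l = k` the same with `T < D`. For the fourth
 index: `≤ -D < 0`. So no `ψ l (Q) ≥ 0`: contradiction.
(2) Let `d = P 1 - P 0`, `d' = P 2 - P 0`, `det(d,d') = ε = ±1`. Then `P 3 = P 0 + m d + n d'` with
 integers `m = ε det(P 3 - P 0, d')`, `n = ε det(d, P 3 - P 0)`; (Cramer). The triangles `(0,1,3)`,
 `(0,2,3)` give `n = ±1`, `m = ±1`, and the triangle `(1,2,3)`: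
 `det(P 2 - P 1, P 3 - P 1) = det(d' - d, (m-1) d + n d') = ε (1 - m - n)`, so `1 - m - n = ±1`,
 excluding `(m,n) = (-1,-1)`.
 `(1,1)`: `P 0 + P 3 = P 1 + P 2`. `(1,-1)`: `P 3 + P 2 = P 0 + P 1`.
 `(-1,1)`: `P 3 + P 1 = P 0 + P 2`.
-/

namespace H66OD

private theorem pgm_lt (p q u v : ℤ) (hp : 1 ≤ p) (hq : q < p) (hu : u ≤ -1) (h : u * q = v * p) :
    u < v := by
  by_contra hle
  push Not at hle
  have h1 : v * p ≤ u * p := mul_le_mul_of_nonneg_right hle (by omega)
  have h2 : u * p < u * q := mul_lt_mul_of_neg_left hq (by omega)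
  omega

private theorem pgm_zero (α β γ x y : Fin 4 → ℤ) (h0 : ∀ i, α i * x i + β i * y i + γ i = 0)
    (h1 : ∀ i j, j ≠ i → α j * x i + β j * y i + γ j ≤ -1)
    (i j k : Fin 4) (hij : i ≠ j) (hik : i ≠ k) (hjk : j ≠ k) :
    (x j - x i) * (y k - y i) - (y j - y i) * (x k - x i) ≠ 0 := by
  intro hD
  obtain ⟨a, ha⟩ : ∃ a, a = x j - x i := ⟨_, rfl⟩
  obtain ⟨b, hb⟩ : ∃ b, b = y j - y i := ⟨_, rfl⟩
  obtain ⟨c, hc⟩ : ∃ c, c = x k - x i := ⟨_, rfl⟩
  obtain ⟨d, hd⟩ : ∃ d, d = y k - y i := ⟨_, rfl⟩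
  rw [← ha, ← hb, ← hc, ← hd] at hD
  have e1 : x j = x i + a := by rw [ha]; ring
  have e2 : y j = y i + b := by rw [hb]; ring
  have e3 : x k = x i + c := by rw [hc]; ring
  have e4 : y k = y i + d := by rw [hd]; ring
  have hi := h0 i
  have hj := h0 j
  have hk := h0 k
  have f1 := h1 j i hij
  have f2 := h1 k i hik
  have f3 := h1 i j hij.symm
  have f4 := h1 k j hjk
  have f5 := h1 i k hik.symm
  have f6 := h1 j k hjk.symm
  rw [e1, e2] at hj f1 f6
  rw [e3, e4] at hk f2 f4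
  have hu : α i * a + β i * b ≤ -1 := by linarith
  have hv : α i * c + β i * d ≤ -1 := by linarith
  have hp : 1 ≤ α j * a + β j * b := by linarith
  have hq : α j * c + β j * d < α j * a + β j * b := by linarith
  have hp' : 1 ≤ α k * c + β k * d := by linarith
  have hq' : α k * a + β k * b < α k * c + β k * d := by linarith
  have g : a * d = b * c := by linarith
  have k1 : (α i * a + β i * b) * (α j * c + β j * d) =
      (α i * c + β i * d) * (α j * a + β j * b) := by
    linear_combination (α i * β j - β i * α j) * g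
  have k2 : (α i * c + β i * d) * (α k * a + β k * b) =
      (α i * a + β i * b) * (α k * c + β k * d) := by
    linear_combination (-α i * β k + β i * α k) * g
  have h5 := pgm_lt _ _ _ _ hp hq hu k1
  have h6 := pgm_lt _ _ _ _ hp' hq' hv k2
  omega

private theorem pgm_two (α β γ x y : Fin 4 → ℤ) (h0 : ∀ i, α i * x i + β i * y i + γ i = 0)
    (h1 : ∀ i j, j ≠ i → α j * x i + β j * y i + γ j ≤ -1)
    (hcov : ∀ X Y : ℤ, ∃ i, 0 ≤ α i * X + β i * Y + γ i)
    (i j k : Fin 4) (hij : i ≠ j) (hik : i ≠ k) (hjk : j ≠ k) :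
    ¬ 2 ≤ (x j - x i) * (y k - y i) - (y j - y i) * (x k - x i) := by
  intro hD
  obtain ⟨S, T, X, Y, hS, hT, hST, hne, hSD, hTD, hX, hY⟩ := elt _ _ _ _ hD
  obtain ⟨D, hDd⟩ : ∃ D, D = (x j - x i) * (y k - y i) - (y j - y i) * (x k - x i) := ⟨_, rfl⟩
  rw [← hDd] at hD hST hSD hTD hX hY
  obtain ⟨l, hl⟩ := hcov (x i + X) (y i + Y)
  have key : D * (α l * (x i + X) + β l * (y i + Y) + γ l) =
      (D - S - T) * (α l * x i + β l * y i + γ l) + S * (α l * x j + β l * y j + γ l) +
        T * (α l * x k + β l * y k + γ l) := by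
    linear_combination α l * hX + β l * hY
  have hpos : 0 ≤ D * (α l * (x i + X) + β l * (y i + Y) + γ l) := mul_nonneg (by omega) hl
  rw [key] at hpos
  have hi : α l * x i + β l * y i + γ l ≤ 0 := by
    by_cases h : l = i
    · rw [h, h0 i]
    · have := h1 i l h; omega
  have hj : α l * x j + β l * y j + γ l ≤ 0 := by
    by_cases h : l = j
    · rw [h, h0 j]
    · have := h1 j l h; omega
  have hk : α l * x k + β l * y k + γ l ≤ 0 := by
    by_cases h : l = k
    · rw [h, h0 k]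
    · have := h1 k l h; omega
  by_cases hli : l = i
  · have hj' := h1 j l (by rw [hli]; exact hij)
    have hk' := h1 k l (by rw [hli]; exact hik)
    have e1 : S * (α l * x j + β l * y j + γ l) ≤ S * (-1) := mul_le_mul_of_nonneg_left hj' hS
    have e2 : T * (α l * x k + β l * y k + γ l) ≤ T * (-1) := mul_le_mul_of_nonneg_left hk' hT
    have e3 : (D - S - T) * (α l * x i + β l * y i + γ l) ≤ 0 :=
      mul_nonpos_of_nonneg_of_nonpos (by omega) hi
    omega
  · have hi' := h1 i l hli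
    have e3 : (D - S - T) * (α l * x i + β l * y i + γ l) ≤ (D - S - T) * (-1) :=
      mul_le_mul_of_nonneg_left hi' (by omega)
    by_cases hlj : l = j
    · have hk' := h1 k l (by rw [hlj]; exact hjk)
      have e2 : T * (α l * x k + β l * y k + γ l) ≤ T * (-1) := mul_le_mul_of_nonneg_left hk' hT
      have e1 : S * (α l * x j + β l * y j + γ l) ≤ 0 := mul_nonpos_of_nonneg_of_nonpos hS hj
      omega
    · have hj' := h1 j l hlj
      have e1 : S * (α l * x j + β l * y j + γ l) ≤ S * (-1) := mul_le_mul_of_nonneg_left hj' hS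
      have e2 : T * (α l * x k + β l * y k + γ l) ≤ 0 := mul_nonpos_of_nonneg_of_nonpos hT hk
      omega

theorem pgm (α β γ x y : Fin 4 → ℤ) (h0 : ∀ i, α i * x i + β i * y i + γ i = 0)
    (h1 : ∀ i j, j ≠ i → α j * x i + β j * y i + γ j ≤ -1)
    (hcov : ∀ X Y : ℤ, ∃ i, 0 ≤ α i * X + β i * Y + γ i) :
    (∀ i j k : Fin 4, i ≠ j → i ≠ k → j ≠ k →
      (x j - x i) * (y k - y i) - (y j - y i) * (x k - x i) = 1 ∨
      (x j - x i) * (y k - y i) - (y j - y i) * (x k - x i) = -1) ∧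
    ((x 0 + x 1 = x 2 + x 3 ∧ y 0 + y 1 = y 2 + y 3) ∨
     (x 0 + x 2 = x 1 + x 3 ∧ y 0 + y 2 = y 1 + y 3) ∨
     (x 0 + x 3 = x 1 + x 2 ∧ y 0 + y 3 = y 1 + y 2)) := by
  have part1 : ∀ i j k : Fin 4, i ≠ j → i ≠ k → j ≠ k →
      (x j - x i) * (y k - y i) - (y j - y i) * (x k - x i) = 1 ∨
      (x j - x i) * (y k - y i) - (y j - y i) * (x k - x i) = -1 := by
    intro i j k hij hik hjk
    have e1 := pgm_zero α β γ x y h0 h1 i j k hij hik hjk
    have e2 := pgm_two α β γ x y h0 h1 hcov i j k hij hik hjk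
    have e3 := pgm_two α β γ x y h0 h1 hcov i k j hik hij hjk.symm
    have e4 : (x k - x i) * (y j - y i) - (y k - y i) * (x j - x i) =
      -((x j - x i) * (y k - y i) - (y j - y i) * (x k - x i)) := by ring
    rw [e4] at e3
    omega
  refine ⟨part1, ?_⟩
  have a1 := part1 0 1 2 (by decide) (by decide) (by decide)
  have a2 := part1 0 1 3 (by decide) (by decide) (by decide)
  have a3 := part1 0 2 3 (by decide) (by decide) (by decide)
  have a4 := part1 1 2 3 (by decide) (by decide) (by decide)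
  have i1 : (x 2 - x 1) * (y 3 - y 1) - (y 2 - y 1) * (x 3 - x 1) =
      ((x 2 - x 0) * (y 3 - y 0) - (y 2 - y 0) * (x 3 - x 0)) -
      ((x 1 - x 0) * (y 3 - y 0) - (y 1 - y 0) * (x 3 - x 0)) +
      ((x 1 - x 0) * (y 2 - y 0) - (y 1 - y 0) * (x 2 - x 0)) := by ring
  have i2 : ((x 1 - x 0) * (y 3 - y 0) - (y 1 - y 0) * (x 3 - x 0)) * (x 2 - x 0) -
      ((x 2 - x 0) * (y 3 - y 0) - (y 2 - y 0) * (x 3 - x 0)) * (x 1 - x 0) =
      ((x 1 - x 0) * (y 2 - y 0) - (y 1 - y 0) * (x 2 - x 0)) * (x 3 - x 0) := by ring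
  have i3 : ((x 1 - x 0) * (y 3 - y 0) - (y 1 - y 0) * (x 3 - x 0)) * (y 2 - y 0) -
      ((x 2 - x 0) * (y 3 - y 0) - (y 2 - y 0) * (x 3 - x 0)) * (y 1 - y 0) =
      ((x 1 - x 0) * (y 2 - y 0) - (y 1 - y 0) * (x 2 - x 0)) * (y 3 - y 0) := by ring
  rw [i1] at a4
  rcases a1 with a1 | a1 <;> rcases a2 with a2 | a2 <;> rcases a3 with a3 | a3 <;>
    rw [a1, a2, a3] at a4 i2 i3 <;> omega

end H66OD
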