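import Pool.Agent.H66.OD.Defs

/-!
# Row PLK1 (about 90 lines): a maximiser over the orthogonal matrices

PROOF. `K = {U | Uᵀ * U = 1 ∧ ∀ i, 0 ≤ (A * U) i i}` is closed (polynomial conditions) and bounded
(`Uᵀ U = 1` gives `Σ_i U i j ^ 2 = 1`, so all entries are in `[-1,1]`), so compact in
`Matrix (Fin 3) (Fin 3) ℝ` (the product topology; `isCompact_univ_pi` of `Set.Icc (-1) 1` twice). `1 ∈ K`.
The continuous function `U ↦ Π_i (A*U) i i` attains its maximum on `K` at `U`; the value is `≥` the value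
at `1`, `Π A i i = 1 > 0`; as all factors are `≥ 0` all are `> 0` (`Finset.prod_pos` converse: no factor is
zero).
-/

open Matrix

namespace H66OD

theorem PLK1_entry {U : Matrix (Fin 3) (Fin 3) ℝ} (hU : Uᵀ * U = 1) (i j : Fin 3) :
    U i j ∈ Set.Icc (-1 : ℝ) 1 := by
  have h1 : (Uᵀ * U) j j = 1 := by rw [hU, Matrix.one_apply_eq]
  rw [Matrix.mul_apply] at h1
  have h2 : Uᵀ j i * U i j ≤ ∑ k, Uᵀ j k * U k j :=
    Finset.single_le_sum (f := fun k => Uᵀ j k * U k j)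
      (fun k _ => by rw [Matrix.transpose_apply]; exact mul_self_nonneg _) (Finset.mem_univ i)
  rw [h1, Matrix.transpose_apply] at h2
  have h3 : U i j ^ 2 ≤ 1 := by nlinarith
  exact abs_le.mp ((sq_le_one_iff_abs_le_one _).mp h3)

theorem plk1 (A : Matrix (Fin 3) (Fin 3) ℝ) (hA : ∀ i, A i i = 1) :
    ∃ U : Matrix (Fin 3) (Fin 3) ℝ, Uᵀ * U = 1 ∧ (∀ i, 0 < (A * U) i i) ∧
      ∀ U' : Matrix (Fin 3) (Fin 3) ℝ, U'ᵀ * U' = 1 → (∀ i, 0 ≤ (A * U') i i) →
        ∏ i, (A * U') i i ≤ ∏ i, (A * U) i i := by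
  have hcA : ∀ i, Continuous (fun U : Matrix (Fin 3) (Fin 3) ℝ => (A * U) i i) := fun i => by
    have h1 : Continuous (fun U : Matrix (Fin 3) (Fin 3) ℝ => A * U) :=
      continuous_const.matrix_mul continuous_id
    exact h1.matrix_elem i i
  have hcT : Continuous (fun U : Matrix (Fin 3) (Fin 3) ℝ => Uᵀ * U) :=
    (continuous_id.matrix_transpose).matrix_mul continuous_id
  set K : Set (Matrix (Fin 3) (Fin 3) ℝ) := {U | Uᵀ * U = 1 ∧ ∀ i, 0 ≤ (A * U) i i} with hK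
  have hKc : IsClosed K := by
    have h1 : IsClosed {U : Matrix (Fin 3) (Fin 3) ℝ | Uᵀ * U = 1} :=
      isClosed_eq hcT continuous_const
    have h2 : IsClosed (⋂ i, {U : Matrix (Fin 3) (Fin 3) ℝ | 0 ≤ (A * U) i i}) :=
      isClosed_iInter fun i => isClosed_le continuous_const (hcA i)
    have h3 : K = {U : Matrix (Fin 3) (Fin 3) ℝ | Uᵀ * U = 1} ∩
        ⋂ i, {U : Matrix (Fin 3) (Fin 3) ℝ | 0 ≤ (A * U) i i} := by
      ext U
      simp [hK]
    rw [h3]
    exact h1.inter h2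
  have hB : IsCompact (Set.univ.pi fun _ : Fin 3 => Set.univ.pi fun _ : Fin 3 =>
      Set.Icc (-1 : ℝ) 1) := isCompact_univ_pi fun _ => isCompact_univ_pi fun _ => isCompact_Icc
  have hKcomp : IsCompact K := by
    refine IsCompact.of_isClosed_subset hB hKc ?_
    intro U hU i _ j _
    exact PLK1_entry hU.1 i j
  have h1K : (1 : Matrix (Fin 3) (Fin 3) ℝ) ∈ K := by
    refine ⟨by simp, fun i => ?_⟩
    rw [Matrix.mul_one, hA]
    norm_num
  have hcont : Continuous (fun U : Matrix (Fin 3) (Fin 3) ℝ => ∏ i, (A * U) i i) :=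
    continuous_finsetProd _ fun i _ => hcA i
  obtain ⟨U, hUK, hmax⟩ := hKcomp.exists_isMaxOn ⟨1, h1K⟩ hcont.continuousOn
  have hval : 1 ≤ ∏ i, (A * U) i i := by
    have h := hmax h1K
    have h2 : ∏ i, (A * (1 : Matrix (Fin 3) (Fin 3) ℝ)) i i = 1 :=
      Finset.prod_eq_one fun i _ => by rw [Matrix.mul_one, hA]
    have h3 : ∏ i, (A * (1 : Matrix (Fin 3) (Fin 3) ℝ)) i i ≤ ∏ i, (A * U) i i := h
    rwa [h2] at h3
  refine ⟨U, hUK.1, fun i => ?_, fun U' h1 h2 => hmax ⟨h1, h2⟩⟩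
  rcases (hUK.2 i).lt_or_eq with h | h
  · exact h
  · exfalso
    have h0 : ∏ i, (A * U) i i = 0 := Finset.prod_eq_zero (Finset.mem_univ i) h.symm
    rw [h0] at hval
    exact absurd hval (by norm_num)

end H66OD
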