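import Pool.Agent.H66.OD.Defs

/-!
# Row PLK2 (about 160 lines): the maximal matrix is symmetric and positive semidefinite

`H` has unit diagonal and `Π_i (H R) i i ≤ 1` for every orthogonal `R` with all `(H R) i i ≥ 0`.

PROOF. Symmetric: let `i ≠ j`, `s` real, `co = (1-s²)/(1+s²)`, `si = 2s/(1+s²)`, and `R` the rotation in the
plane `i,j`: `R i i = co`, `R j i = si`, `R i j = -si`, `R j j = co`, `R k k = 1` for the third index `k`,
other entries `0`. `Rᵀ R = 1`. `(H R) i i = co + H i j si`, `(H R) j j = co - H j i si`, `(H R) k k = 1`.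
For `|s|` small all are `≥ 0` (continuity at `s = 0`, value 1), so
`(co + H i j si)(co - H j i si) ≤ 1 = co² + si²`; hence `(H i j - H j i) co si ≤ (1 + H i j H j i) si²`,
i.e. (multiply by `(1+s²)²`) `(H i j - H j i) 2 s (1-s²) ≤ 4 s² (1 + H i j H j i)` for small `s` of both
signs; dividing by `s > 0` and letting `s → 0`: `H i j - H j i ≤ 0`; `s < 0`: `≥ 0`. (Or: by contradiction,
take an explicit small `s`.) By the symmetry in `i,j` only one sign is needed.
PSD: `H` is Hermitian (real symmetric). Suppose it is not PSD: some eigenvalue `-κ < 0`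
(`Matrix.IsHermitian.posSemidef_iff_eigenvalues_nonneg` or similar) with an eigenvector `v` of norm one,
`Σ v i² = 1`, `H v = -κ v`. `R = 1 - 2 v vᵀ` satisfies `Rᵀ R = 1`. `(H R) i i = 1 - 2 (H v) i v i =
1 + 2 κ v i² ≥ 1`, so the product is `≤ 1` by the hypothesis but `≥ 1` with strict inequality since some
`v i ≠ 0`. Contradiction.
-/

open Matrix

namespace H66OD

theorem PLK2_rot (H : Matrix (Fin 3) (Fin 3) ℝ) (h1 : ∀ i, H i i = 1)
    (hmax : ∀ R : Matrix (Fin 3) (Fin 3) ℝ, Rᵀ * R = 1 → (∀ i, 0 ≤ (H * R) i i) →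
      ∏ i, (H * R) i i ≤ 1) (i j : Fin 3) (hij : i ≠ j) (co si : ℝ) (hcs : co ^ 2 + si ^ 2 = 1)
    (hA : 0 ≤ co + H i j * si) (hB : 0 ≤ co - H j i * si) :
    (co + H i j * si) * (co - H j i * si) ≤ 1 := by
  have h00 := h1 0
  have h11 := h1 1
  have h22 := h1 2
  have key := hmax (Matrix.of (fun k l => if k = i ∧ l = i then co else if k = j ∧ l = j then co else
    if k = j ∧ l = i then si else if k = i ∧ l = j then -si else if k = l then 1 else 0))
  fin_cases i <;> fin_cases j
  · exact absurd rfl hij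
  · simp only [Fin.isValue, Fin.zero_eta, Fin.mk_one, Fin.reduceFinMk] at hA hB key ⊢
    have hR := key (by
      ext a b
      fin_cases a <;> fin_cases b <;> simp [Matrix.mul_apply, Fin.sum_univ_three] <;> nlinarith)
      (by
        intro a
        fin_cases a <;> simp [Matrix.mul_apply, Fin.sum_univ_three, h00, h11, h22] <;> linarith)
    simp [Matrix.mul_apply, Fin.sum_univ_three, Fin.prod_univ_three, h00, h11, h22] at hR
    linarith
  · simp only [Fin.isValue, Fin.zero_eta, Fin.mk_one, Fin.reduceFinMk] at hA hB key ⊢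
    have hR := key (by
      ext a b
      fin_cases a <;> fin_cases b <;> simp [Matrix.mul_apply, Fin.sum_univ_three] <;> nlinarith)
      (by
        intro a
        fin_cases a <;> simp [Matrix.mul_apply, Fin.sum_univ_three, h00, h11, h22] <;> linarith)
    simp [Matrix.mul_apply, Fin.sum_univ_three, Fin.prod_univ_three, h00, h11, h22] at hR
    linarith
  · simp only [Fin.isValue, Fin.zero_eta, Fin.mk_one, Fin.reduceFinMk] at hA hB key ⊢
    have hR := key (by
      ext a b
      fin_cases a <;> fin_cases b <;> simp [Matrix.mul_apply, Fin.sum_univ_three] <;> nlinarith)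
      (by
        intro a
        fin_cases a <;> simp [Matrix.mul_apply, Fin.sum_univ_three, h00, h11, h22] <;> linarith)
    simp [Matrix.mul_apply, Fin.sum_univ_three, Fin.prod_univ_three, h00, h11, h22] at hR
    linarith
  · exact absurd rfl hij
  · simp only [Fin.isValue, Fin.zero_eta, Fin.mk_one, Fin.reduceFinMk] at hA hB key ⊢
    have hR := key (by
      ext a b
      fin_cases a <;> fin_cases b <;> simp [Matrix.mul_apply, Fin.sum_univ_three] <;> nlinarith)
      (by
        intro a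
        fin_cases a <;> simp [Matrix.mul_apply, Fin.sum_univ_three, h00, h11, h22] <;> linarith)
    simp [Matrix.mul_apply, Fin.sum_univ_three, Fin.prod_univ_three, h00, h11, h22] at hR
    linarith
  · simp only [Fin.isValue, Fin.zero_eta, Fin.mk_one, Fin.reduceFinMk] at hA hB key ⊢
    have hR := key (by
      ext a b
      fin_cases a <;> fin_cases b <;> simp [Matrix.mul_apply, Fin.sum_univ_three] <;> nlinarith)
      (by
        intro a
        fin_cases a <;> simp [Matrix.mul_apply, Fin.sum_univ_three, h00, h11, h22] <;> linarith)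
    simp [Matrix.mul_apply, Fin.sum_univ_three, Fin.prod_univ_three, h00, h11, h22] at hR
    linarith
  · simp only [Fin.isValue, Fin.zero_eta, Fin.mk_one, Fin.reduceFinMk] at hA hB key ⊢
    have hR := key (by
      ext a b
      fin_cases a <;> fin_cases b <;> simp [Matrix.mul_apply, Fin.sum_univ_three] <;> nlinarith)
      (by
        intro a
        fin_cases a <;> simp [Matrix.mul_apply, Fin.sum_univ_three, h00, h11, h22] <;> linarith)
    simp [Matrix.mul_apply, Fin.sum_univ_three, Fin.prod_univ_three, h00, h11, h22] at hR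
    linarith
  · exact absurd rfl hij

theorem PLK2_sym (H : Matrix (Fin 3) (Fin 3) ℝ) (h1 : ∀ i, H i i = 1)
    (hmax : ∀ R : Matrix (Fin 3) (Fin 3) ℝ, Rᵀ * R = 1 → (∀ i, 0 ≤ (H * R) i i) →
      ∏ i, (H * R) i i ≤ 1) (i j : Fin 3) (hij : i ≠ j) : H i j ≤ H j i := by
  by_contra hcon
  push Not at hcon
  have hrot := PLK2_rot H h1 hmax i j hij
  set a := H i j with ha
  set b := H j i with hb
  obtain ⟨M, hM⟩ : ∃ M : ℝ, M = 1 + |a| + |b| := ⟨_, rfl⟩
  have haM : |a| ≤ M := by have := abs_nonneg b; linarith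
  have hbM : |b| ≤ M := by have := abs_nonneg a; linarith
  have hM1 : 1 ≤ M := by have := abs_nonneg a; have := abs_nonneg b; linarith
  obtain ⟨d, hd⟩ : ∃ d : ℝ, d = a - b := ⟨_, rfl⟩
  have hd0 : 0 < d := by linarith
  have hdM : d ≤ M := by
    have h1 := le_abs_self a
    have h2 := neg_abs_le b
    linarith
  obtain ⟨s, hs⟩ : ∃ s : ℝ, s = d / (8 * M ^ 2) := ⟨_, rfl⟩
  have hs0 : 0 < s := by rw [hs]; positivity
  have hsM2 : s * M ^ 2 = d / 8 := by rw [hs]; field_simp
  have hsM : s * M ≤ 1 / 8 := by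
    have : s * M * M ≤ M / 8 := by nlinarith
    have hM0 : 0 < M := by linarith
    by_contra hc
    push Not at hc
    nlinarith
  have hs8 : s ≤ 1 / 8 := by nlinarith
  have hsa : |s * a| ≤ 1 / 8 := by
    rw [abs_mul, abs_of_pos hs0]
    nlinarith
  have hsb : |s * b| ≤ 1 / 8 := by
    rw [abs_mul, abs_of_pos hs0]
    nlinarith
  have hsa' := abs_le.mp hsa
  have hsb' := abs_le.mp hsb
  have hpos : 0 < 1 + s ^ 2 := by positivity
  have hA : (1 - s ^ 2) / (1 + s ^ 2) + a * (2 * s / (1 + s ^ 2))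
      = (1 - s ^ 2 + 2 * (s * a)) / (1 + s ^ 2) := by
    field_simp
  have hB : (1 - s ^ 2) / (1 + s ^ 2) - b * (2 * s / (1 + s ^ 2))
      = (1 - s ^ 2 - 2 * (s * b)) / (1 + s ^ 2) := by
    field_simp
  have h := hrot ((1 - s ^ 2) / (1 + s ^ 2)) (2 * s / (1 + s ^ 2)) (by field_simp; ring)
    (by
      rw [hA]
      apply div_nonneg _ hpos.le
      nlinarith)
    (by
      rw [hB]
      apply div_nonneg _ hpos.le
      nlinarith)
  rw [hA, hB, div_mul_div_comm, div_le_one (by positivity)] at h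
  have hab : a * b ≤ |a| * |b| := by
    rw [← abs_mul]; exact le_abs_self _
  have hab2 : -(|a| * |b|) ≤ a * b := by
    rw [← abs_mul]; exact neg_abs_le _
  have hMab : 1 + |a| * |b| ≤ M ^ 2 := by
    rw [hM]
    have := abs_nonneg a
    have := abs_nonneg b
    nlinarith [mul_nonneg (abs_nonneg a) (abs_nonneg b)]
  have h2 : d * (1 - s ^ 2) ≤ 2 * s * (1 + a * b) := by
    have h3 : s * (d * (1 - s ^ 2)) ≤ s * (2 * s * (1 + a * b)) := by
      rw [hd]
      nlinarith
    exact le_of_mul_le_mul_left h3 hs0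
  have h4 : 2 * s * (1 + a * b) ≤ 2 * (s * M ^ 2) := by
    have : s * (1 + a * b) ≤ s * M ^ 2 := mul_le_mul_of_nonneg_left (by linarith) hs0.le
    linarith
  rw [hsM2] at h4
  have h5 : s ^ 2 ≤ 1 / 64 := by nlinarith
  nlinarith

theorem plk2 (H : Matrix (Fin 3) (Fin 3) ℝ) (h1 : ∀ i, H i i = 1)
    (hmax : ∀ R : Matrix (Fin 3) (Fin 3) ℝ, Rᵀ * R = 1 → (∀ i, 0 ≤ (H * R) i i) →
      ∏ i, (H * R) i i ≤ 1) : H.PosSemidef := by
  have hH : H.IsHermitian := by
    ext i j
    simp only [Matrix.conjTranspose_apply, star_trivial]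
    rcases eq_or_ne i j with rfl | hij
    · rfl
    · exact le_antisymm (PLK2_sym H h1 hmax j i hij.symm) (PLK2_sym H h1 hmax i j hij)
  rw [hH.posSemidef_iff_eigenvalues_nonneg]
  intro p
  by_contra hcon
  push Not at hcon
  obtain ⟨κ, hκ⟩ : ∃ κ : ℝ, κ = - hH.eigenvalues p := ⟨_, rfl⟩
  have hκ0 : 0 < κ := by
    rw [hκ]
    simpa using hcon
  have hv := hH.mulVec_eigenvectorBasis p
  have hn : ‖hH.eigenvectorBasis p‖ = 1 := hH.eigenvectorBasis.orthonormal.1 p
  set w := hH.eigenvectorBasis p with hw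
  obtain ⟨v, hvw⟩ : ∃ v : Fin 3 → ℝ, v = fun i => w i := ⟨_, rfl⟩
  have hsum : v 0 ^ 2 + v 1 ^ 2 + v 2 ^ 2 = 1 := by
    have h2 := EuclideanSpace.norm_sq_eq w
    rw [hn] at h2
    simp [Fin.sum_univ_three] at h2
    rw [hvw]
    linarith
  have hHv : ∀ i, H i 0 * v 0 + H i 1 * v 1 + H i 2 * v 2 = -κ * v i := by
    intro i
    have h3 := congrFun hv i
    simp [Matrix.mulVec, dotProduct, Fin.sum_univ_three] at h3
    rw [hvw, hκ]
    simp only
    linarith
  have hR := hmax (Matrix.of (fun k l => (if k = l then 1 else 0) - 2 * v k * v l)) (by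
    ext a b
    fin_cases a <;> fin_cases b <;>
      simp [Matrix.mul_apply, Fin.sum_univ_three] <;>
      first
        | linear_combination (4 * v 0 * v 0) * hsum
        | linear_combination (4 * v 0 * v 1) * hsum
        | linear_combination (4 * v 0 * v 2) * hsum
        | linear_combination (4 * v 1 * v 1) * hsum
        | linear_combination (4 * v 1 * v 2) * hsum
        | linear_combination (4 * v 2 * v 2) * hsum)
  have hd : ∀ i, (H * (Matrix.of (fun k l => (if k = l then 1 else 0) - 2 * v k * v l))) i i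
      = 1 + 2 * κ * v i ^ 2 := by
    intro i
    have h4 := hHv i
    have h5 := h1 i
    have h6 : (H * (Matrix.of (fun k l => (if k = l then 1 else 0) - 2 * v k * v l))) i i
        = H i i - 2 * (H i 0 * v 0 + H i 1 * v 1 + H i 2 * v 2) * v i := by
      fin_cases i <;> simp [Matrix.mul_apply, Fin.sum_univ_three] <;> ring
    rw [h6, h4, h5]
    ring
  have h7 := hR (fun i => by rw [hd i]; positivity)
  simp only [hd, Fin.prod_univ_three] at h7
  have g0 : 0 ≤ 2 * κ * v 0 ^ 2 := by positivity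
  have g1 : 0 ≤ 2 * κ * v 1 ^ 2 := by positivity
  have g2 : 0 ≤ 2 * κ * v 2 ^ 2 := by positivity
  have g3 : 2 * κ * v 0 ^ 2 + 2 * κ * v 1 ^ 2 + 2 * κ * v 2 ^ 2 = 2 * κ := by
    calc _ = 2 * κ * (v 0 ^ 2 + v 1 ^ 2 + v 2 ^ 2) := by ring
      _ = _ := by rw [hsum, mul_one]
  nlinarith [mul_nonneg g0 g1, mul_nonneg g0 g2, mul_nonneg g1 g2, mul_nonneg (mul_nonneg g0 g1) g2]

end H66OD
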