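import Pool.Agent.H66.OD.PLK1
import Pool.Agent.H66.OD.PLK2

/-!
# Row PLK3 (about 180 lines): the 3 x 3 plank theorem (K. Ball)

If `A i i ≥ 1` for all `i` there is `l` with `Σ |l j| ≤ 1` and `|Σ_j A i j l j| ≥ 1/3` for all `i`.

PROOF. Replacing row `i` by `row i / A i i` we may assume `A i i = 1` (the value `|Σ_j A i j l j|` of the
original matrix is `A i i ≥ 1` times the new one). Take `U` from `plk1`; `U` is orthogonal, also
`U * Uᵀ = 1`. `d i = 1/(A*U) i i > 0`, `H = diagonal d * A * U`: `H i i = 1`. For `R` with `Rᵀ R = 1` and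
`(H R) i i ≥ 0`: `(A (U R)) i i = (H R) i i / d i ≥ 0` and `U R` is orthogonal, so
`Π (H R) i i = Π d i · Π (A U R) i i ≤ Π d i · Π (A U) i i = 1`. So `H` is PSD by `plk2`.
`Σ d i² ≤ 3`: `d i = d i A i i = (H Uᵀ) i i`. `H = Bᵀ B` (`posSemidef_iff_eq_conjTranspose_mul_self`), so
`(H Uᵀ) i i = Σ_k (B)_{k i} (B Uᵀ)_{k i}`, and by Cauchy-Schwarz `d i² ≤ (Bᵀ B) i i · (U Bᵀ B Uᵀ) i i =
H i i (U H Uᵀ) i i = (U H Uᵀ) i i`; the sum over `i` is `trace (U H Uᵀ) = trace H = 3`.
Put `y i = d i / 3`, `M = diagonal y * H * diagonal y` (symmetric). Among the 8 sign vectors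
`ε : Fin 3 → {1,-1}` choose one maximising `ε ⬝ M ε` (finite). Flipping the sign `i`:
`ε ⬝ M ε - ε' ⬝ M ε' = 4 ε i Σ_{j ≠ i} M i j ε j ≥ 0`, so `ε i (M ε) i ≥ M i i = y i²`, where
`(M ε) i = y i (H (y ε)) i`; so `|(H (y ε)) i| ≥ y i`. Put `l = U (y ε)` (`y ε` the vector `y i ε i`):
`(A l) i = (A U (yε)) i = (H (y ε)) i / d i`, so `|(A l) i| ≥ y i/d i = 1/3`.
`(Σ |l j|)² ≤ 3 Σ l j² = 3 Σ y i² = Σ d i² / 3 ≤ 1` (Cauchy-Schwarz, `U` orthogonal).
-/

open Matrix

namespace H66OD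

theorem PLK3_sign (M : Matrix (Fin 3) (Fin 3) ℝ) (hM : ∀ i j, M i j = M j i) :
    ∃ ε : Fin 3 → ℝ, (∀ i, ε i = 1 ∨ ε i = -1) ∧ ∀ k, M k k ≤ ε k * ∑ j, M k j * ε j := by
  obtain ⟨b, hb⟩ := Finite.exists_max
    (fun b : Fin 3 → Bool => ∑ i, ∑ j, (if b i = true then (1 : ℝ) else -1) *
      (if b j = true then (1 : ℝ) else -1) * M i j)
  have hmax : ∀ ε' : Fin 3 → ℝ, (∀ i, ε' i = 1 ∨ ε' i = -1) →
      ∑ i, ∑ j, ε' i * ε' j * M i j ≤ ∑ i, ∑ j, (if b i = true then (1 : ℝ) else -1) *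
      (if b j = true then (1 : ℝ) else -1) * M i j := by
    intro ε' hε'
    have h1 := hb (fun i => decide (ε' i = 1))
    have h2 : ∀ i, (if decide (ε' i = 1) = true then (1 : ℝ) else -1) = ε' i := by
      intro i
      rcases hε' i with h | h
      · rw [h]; simp
      · rw [h]; norm_num
    simp only [h2] at h1
    exact h1
  set ε : Fin 3 → ℝ := fun i => if b i = true then (1 : ℝ) else -1 with hε
  have hs : ∀ i, ε i = 1 ∨ ε i = -1 := by
    intro i
    simp only [hε]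
    by_cases h : b i = true
    · left; rw [if_pos h]
    · right; rw [if_neg h]
  have hmax' : ∀ ε' : Fin 3 → ℝ, (∀ i, ε' i = 1 ∨ ε' i = -1) →
      ∑ i, ∑ j, ε' i * ε' j * M i j ≤ ∑ i, ∑ j, ε i * ε j * M i j := hmax
  refine ⟨ε, hs, ?_⟩
  have hsq : ∀ i, ε i * ε i = 1 := by
    intro i
    rcases hs i with h | h <;> rw [h] <;> norm_num
  have m10 := hM 1 0
  have m20 := hM 2 0
  have m21 := hM 2 1
  have q0 := hsq 0
  have q1 := hsq 1
  have q2 := hsq 2
  have flip : ∀ k, ∑ i, ∑ j, (Function.update ε k (-ε k)) i * (Function.update ε k (-ε k)) j * M i j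
      ≤ ∑ i, ∑ j, ε i * ε j * M i j := by
    intro k
    apply hmax'
    intro i
    by_cases h : i = k
    · rw [h, Function.update_self]
      rcases hs k with h' | h'
      · right; rw [h']
      · left; rw [h']; norm_num
    · rw [Function.update_of_ne h]
      exact hs i
  clear_value ε
  intro k
  have hf := flip k
  simp only [Fin.sum_univ_three] at hf ⊢
  have e10 : (1 : Fin 3) ≠ 0 := by decide
  have e20 : (2 : Fin 3) ≠ 0 := by decide
  have e21 : (2 : Fin 3) ≠ 1 := by decide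
  fin_cases k
  · simp only [Fin.zero_eta, Fin.isValue, Function.update_self, Function.update_of_ne e10,
      Function.update_of_ne e20] at hf ⊢
    rw [m10, m20] at hf
    have h1 : ε 0 * ε 0 * M 0 0 = M 0 0 := by rw [q0, one_mul]
    nlinarith [h1]
  · simp only [Fin.mk_one, Fin.isValue, Function.update_self, Function.update_of_ne e10.symm,
      Function.update_of_ne e21] at hf ⊢
    rw [m21, ← m10] at hf
    have h1 : ε 1 * ε 1 * M 1 1 = M 1 1 := by rw [q1, one_mul]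
    nlinarith [h1]
  · simp only [Fin.reduceFinMk, Fin.isValue, Function.update_self, Function.update_of_ne e20.symm,
      Function.update_of_ne e21.symm] at hf ⊢
    rw [← m20, ← m21] at hf
    have h1 : ε 2 * ε 2 * M 2 2 = M 2 2 := by rw [q2, one_mul]
    nlinarith [h1]

theorem PLK3_norm {U : Matrix (Fin 3) (Fin 3) ℝ} (hU : Uᵀ * U = 1) (v : Fin 3 → ℝ) :
    (U *ᵥ v) ⬝ᵥ (U *ᵥ v) = v ⬝ᵥ v := by
  have h1 : (U *ᵥ v) = v ᵥ* Uᵀ := (Matrix.vecMul_transpose U v).symm
  calc (U *ᵥ v) ⬝ᵥ (U *ᵥ v) = (v ᵥ* Uᵀ) ⬝ᵥ (U *ᵥ v) := by rw [← h1]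
    _ = v ⬝ᵥ (Uᵀ *ᵥ (U *ᵥ v)) := (Matrix.dotProduct_mulVec v Uᵀ (U *ᵥ v)).symm
    _ = v ⬝ᵥ v := by rw [Matrix.mulVec_mulVec, hU, Matrix.one_mulVec]

theorem PLK3_core (A : Matrix (Fin 3) (Fin 3) ℝ) (hA : ∀ i, A i i = 1) :
    ∃ l : Fin 3 → ℝ, ∑ j, |l j| ≤ 1 ∧ ∀ i, 1 / 3 ≤ |∑ j, A i j * l j| := by
  obtain ⟨U, hU, hpos, hmax⟩ := plk1 A hA
  have hU' : U * Uᵀ = 1 := mul_eq_one_comm.mp hU
  set d : Fin 3 → ℝ := fun i => 1 / (A * U) i i with hd
  have hd0 : ∀ i, 0 < d i := fun i => one_div_pos.mpr (hpos i)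
  have hdA : ∀ i, d i * (A * U) i i = 1 := fun i => one_div_mul_cancel (hpos i).ne'
  set H : Matrix (Fin 3) (Fin 3) ℝ := diagonal d * (A * U) with hH
  have hHij : ∀ i j, H i j = d i * (A * U) i j := fun i j => by
    rw [hH, Matrix.diagonal_mul]
  have hHii : ∀ i, H i i = 1 := fun i => by rw [hHij, hdA]
  have hPSD : H.PosSemidef := by
    apply plk2 H hHii
    intro R hR hR0
    have e1 : ∀ i, (H * R) i i = d i * (A * (U * R)) i i := by
      intro i
      rw [hH, Matrix.mul_assoc, Matrix.mul_assoc, Matrix.diagonal_mul]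
    have h1 : ∀ i, 0 ≤ (A * (U * R)) i i := by
      intro i
      have h2 := hR0 i
      rw [e1] at h2
      exact nonneg_of_mul_nonneg_right h2 (hd0 i)
    have hUR : (U * R)ᵀ * (U * R) = 1 := by
      rw [Matrix.transpose_mul, Matrix.mul_assoc, ← Matrix.mul_assoc Uᵀ, hU, Matrix.one_mul, hR]
    have h3 := hmax (U * R) hUR h1
    simp only [e1, Finset.prod_mul_distrib]
    calc (∏ i, d i) * ∏ i, (A * (U * R)) i i ≤ (∏ i, d i) * ∏ i, (A * U) i i :=
          mul_le_mul_of_nonneg_left h3 (Finset.prod_nonneg fun i _ => (hd0 i).le)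
      _ = 1 := by
          rw [← Finset.prod_mul_distrib]
          exact Finset.prod_eq_one fun i _ => hdA i
  have hHsym : Hᵀ = H := by
    have h := hPSD.isHermitian
    rwa [Matrix.IsHermitian, Matrix.conjTranspose_eq_transpose_of_trivial] at h
  have hHs : ∀ i j, H i j = H j i := fun i j => by
    conv_lhs => rw [← hHsym]
    rfl
  have hHU : ∀ i, (H * Uᵀ) i i = d i := by
    intro i
    rw [hH, Matrix.mul_assoc, Matrix.mul_assoc, hU', Matrix.mul_one, Matrix.diagonal_mul, hA,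
      mul_one]
  have hUH : ∀ i, (U * H) i i = d i := by
    intro i
    have h1 : (U * H) i i = ((U * H)ᵀ) i i := rfl
    rw [h1, Matrix.transpose_mul, hHsym, hHU]
  have hsum3 : ∑ i, d i ^ 2 ≤ 3 := by
    have h1 := (hPSD.mul_mul_conjTranspose_same (diagonal d - U)).trace_nonneg
    rw [Matrix.conjTranspose_eq_transpose_of_trivial, Matrix.transpose_sub,
      Matrix.diagonal_transpose, Matrix.sub_mul, Matrix.sub_mul, Matrix.mul_sub, Matrix.mul_sub,
      Matrix.trace_sub, Matrix.trace_sub, Matrix.trace_sub] at h1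
    have t1 : (diagonal d * H * diagonal d).trace = ∑ i, d i ^ 2 := by
      unfold Matrix.trace
      refine Finset.sum_congr rfl fun i _ => ?_
      rw [Matrix.diag_apply, Matrix.mul_diagonal, Matrix.diagonal_mul, hHii]
      ring
    have t2 : (diagonal d * H * Uᵀ).trace = ∑ i, d i ^ 2 := by
      unfold Matrix.trace
      refine Finset.sum_congr rfl fun i _ => ?_
      rw [Matrix.diag_apply, Matrix.mul_assoc, Matrix.diagonal_mul, hHU]
      ring
    have t3 : (U * H * diagonal d).trace = ∑ i, d i ^ 2 := by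
      unfold Matrix.trace
      refine Finset.sum_congr rfl fun i _ => ?_
      rw [Matrix.diag_apply, Matrix.mul_diagonal, hUH]
      ring
    have t4 : (U * H * Uᵀ).trace = 3 := by
      rw [Matrix.trace_mul_cycle, hU, Matrix.one_mul]
      unfold Matrix.trace
      simp only [Matrix.diag_apply, hHii, Fin.sum_univ_three]
      norm_num
    rw [t1, t2, t3, t4] at h1
    linarith
  set y : Fin 3 → ℝ := fun i => d i / 3 with hy
  have hy0 : ∀ i, 0 < y i := fun i => by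
    have := hd0 i
    simp only [hy]
    positivity
  obtain ⟨ε, hε, hsg⟩ := PLK3_sign (fun i j => y i * H i j * y j) (fun i j => by
    show y i * H i j * y j = y j * H j i * y i
    rw [hHs i j]; ring)
  set v : Fin 3 → ℝ := fun i => y i * ε i with hv
  have hεsq : ∀ i, ε i ^ 2 = 1 := fun i => by
    rcases hε i with h | h <;> rw [h] <;> norm_num
  have hHv : ∀ i, y i ≤ |(H *ᵥ v) i| := by
    intro i
    have h1 : y i * H i i * y i ≤ ε i * ∑ j, y i * H i j * y j * ε j := hsg i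
    have h2 : ∑ j, y i * H i j * y j * ε j = y i * (H *ᵥ v) i := by
      rw [Matrix.mulVec, dotProduct, Finset.mul_sum]
      refine Finset.sum_congr rfl fun j _ => ?_
      simp only [hv]
      ring
    rw [h2, hHii] at h1
    have h3 : y i * y i ≤ y i * (ε i * (H *ᵥ v) i) := by linarith
    have h4 : y i ≤ ε i * (H *ᵥ v) i := le_of_mul_le_mul_left h3 (hy0 i)
    refine h4.trans ?_
    rcases hε i with h | h <;> rw [h]
    · rw [one_mul]; exact le_abs_self _
    · rw [neg_one_mul]; exact neg_le_abs _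
  refine ⟨U *ᵥ v, ?_, ?_⟩
  · have h1 : ∑ j, (U *ᵥ v) j ^ 2 = ∑ j, y j ^ 2 := by
      have h2 := PLK3_norm hU v
      unfold dotProduct at h2
      have h3 : ∑ j, (U *ᵥ v) j ^ 2 = ∑ j, (U *ᵥ v) j * (U *ᵥ v) j :=
        Finset.sum_congr rfl fun j _ => sq _
      rw [h3, h2]
      refine Finset.sum_congr rfl fun j _ => ?_
      simp only [hv]
      have := hεsq j
      linear_combination (y j ^ 2) * this
    have h4 : ∑ j, y j ^ 2 ≤ 1 / 3 := by
      have h5 : ∑ j, y j ^ 2 = (∑ j, d j ^ 2) / 9 := by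
        rw [Finset.sum_div]
        refine Finset.sum_congr rfl fun j _ => ?_
        simp only [hy]
        ring
      rw [h5]
      linarith
    have h6 : (∑ j, |(U *ᵥ v) j|) ^ 2 ≤ 3 * ∑ j, |(U *ᵥ v) j| ^ 2 := by
      have h7 := sq_sum_le_card_mul_sum_sq (s := (Finset.univ : Finset (Fin 3)))
        (f := fun j => |(U *ᵥ v) j|)
      simpa using h7
    simp only [sq_abs] at h6
    rw [h1] at h6
    have h8 : (∑ j, |(U *ᵥ v) j|) ^ 2 ≤ 1 := by linarith
    exact (sq_le_one_iff₀ (Finset.sum_nonneg fun j _ => abs_nonneg _)).mp h8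
  · intro i
    have h1 : ∑ j, A i j * (U *ᵥ v) j = (A *ᵥ (U *ᵥ v)) i := rfl
    rw [h1, Matrix.mulVec_mulVec]
    have h2 : (H *ᵥ v) i = d i * ((A * U) *ᵥ v) i := by
      rw [hH, ← Matrix.mulVec_mulVec, Matrix.mulVec_diagonal]
    have h3 := hHv i
    rw [h2, abs_mul, abs_of_pos (hd0 i)] at h3
    have h4 : d i * (1 / 3) ≤ d i * |((A * U) *ᵥ v) i| := by
      have h5 : y i = d i * (1 / 3) := by simp only [hy]; ring
      rw [← h5]
      exact h3
    exact le_of_mul_le_mul_left h4 (hd0 i)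

theorem plank3 (A : Matrix (Fin 3) (Fin 3) ℝ) (hA : ∀ i, 1 ≤ A i i) :
    ∃ l : Fin 3 → ℝ, ∑ j, |l j| ≤ 1 ∧ ∀ i, 1 / 3 ≤ |∑ j, A i j * l j| := by
  have hA0 : ∀ i, 0 < A i i := fun i => lt_of_lt_of_le one_pos (hA i)
  obtain ⟨l, hl, hl'⟩ := PLK3_core (fun i j => A i j / A i i) (fun i => div_self (hA0 i).ne')
  refine ⟨l, hl, fun i => ?_⟩
  have h1 : ∑ j, A i j * l j = A i i * ∑ j, A i j / A i i * l j := by
    rw [Finset.mul_sum]
    refine Finset.sum_congr rfl fun j _ => ?_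
    have := (hA0 i).ne'
    field_simp
  rw [h1, abs_mul, abs_of_pos (hA0 i)]
  have h2 : (1 : ℝ) / 3 ≤ |∑ j, A i j / A i i * l j| := hl' i
  have h3 : 1 * |∑ j, A i j / A i i * l j| ≤ A i i * |∑ j, A i j / A i i * l j| :=
    mul_le_mul_of_nonneg_right (hA i) (abs_nonneg _)
  linarith

end H66OD
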