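import Pool.Agent.H66.OD.CER

/-!
# Row PTYS (about 150 lines): P-type matrices in the sector `γ ≥ |γ'|`

PROOF. Write `p=(1+γ)/2`, `pb = 1-p`, `q = (1+γ')/2`, `qb = 1-q`, `lp = (α+α')/2`, `lm = (α-α')/2`,
`l0 = 1-α`, `mp = (β+β')/2`, `mm = (β-β')/2`, `m0 = 1-β` (all `≥ 0`, and `l0,m0,p,pb,q,qb > 0`), so
`s := l0/2+lp = (1+α')/2`, `sb = l0/2+lm = (1-α')/2`, `t = m0/2+mp = (1+β')/2`, `tb = (1-β')/2`,
`A1 = 1-α'γ = 2(p sb + pb s)`, `B1 = α-α'γ' = 2(lp qb + lm q)`, `A2 = β+β'γ = 2(mp p + mm pb)`,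
`B2 = 1-β'γ' = 2 (q tb + qb t)`, `D = A1 B2 + A2 B1 = det A`. `D ≥ A1 B2 > 0` (`A1, B2 > 0`,
`A2, B1 ≥ 0`).
For signs `ε1, ε2` the solution of `t A = (ε1, ε2, 1)` is `t i = T i / D`,
`T1 = ε1 B2 + ε2 A2 - (γ + β γ')`, `T2 = -ε1 B1 + ε2 A1 + αγ - γ'`,
`T3 = ε1 (αβ' - α') - ε2 (β' + α'β) + 1 + αβ`.
(equations `t1 - β t2 + γ t3 = ε1`, `α t1 + t2 + γ' t3 = ε2`, `α' t1 + β' t2 + t3 = 1`; check by `field_simp; ring`.)
Suppose `Good` fails: for each of the four `(ε1,ε2)`: `|T1|+|T2|+|T3| > 3 D`.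
Sign facts (each is affine in `(α,α')`, `(β,β')` and in `γ,γ'`; nlinarith with products of the nonnegative
quantities): `T3 ≥ 0` for all four `(ε1,ε2)`;
(1,1): `T1 ≥ 0` and, in the sector, `T2 ≥ 0` (`T2 = l0 (1-γ') + lm·2(γ-γ')`);
(-1,1): `T2 ≥ 0` and, in the sector, `T1 ≤ 0` (`-T1 = m0 (1+γ) + mm·2(γ+γ')`);
(-1,-1): `T1 ≤ 0`; (1,-1): `T2 ≤ 0`.
Identities (`ring` after substitution):
(1,1):   `T1+T2+T3-3D = 2 (2 pb sb B2 - 2 pb tb B1 + 2 qb sb A2 + 2 qb tb A1 - D)`,
(-1,1):  `-T1+T2+T3-3D = 2 (2 p s B2 + 2 p tb B1 - 2 qb s A2 + 2 qb tb A1 - D)`,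
(-1,-1): `-T1-T2+T3-3D = 2 (2 p s B2 - 2 p t B1 + 2 q s A2 + 2 q t A1 - D)`       (type A, if `T2 ≤ 0`)
         `-T1+T2+T3-3D = 2 (2 p s B2 + 2 p tb B1 + 2 q s A2 - 2 q tb A1 - D)`     (type B, if `T2 ≥ 0`)
(1,-1):  `T1-T2+T3-3D = 2 (2 pb sb B2 + 2 pb t B1 - 2 q sb A2 + 2 q t A1 - D)`    (type A, if `T1 ≥ 0`)
         `-T1-T2+T3-3D = 2 (-2 pb s B2 + 2 pb t B1 + 2 q s A2 + 2 q t A1 - D)`    (type B, if `T1 ≤ 0`)
So all four brackets are positive, and the certificate `cert_AAAA`, `cert_AAAB`, `cert_AABA` or `cert_AABB`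
(file CER.lean; the letters are the types for (1,1), (-1,1), (-1,-1), (1,-1)) gives `False`.
-/

namespace H66OD

private theorem PTYS_good (al al' be be' ga ga' e1 e2 : ℝ)
    (hD : 0 < (1 - al' * ga) * (1 - be' * ga') + (be + be' * ga) * (al - al' * ga'))
    (he1 : e1 = 1 ∨ e1 = -1) (he2 : e2 = 1 ∨ e2 = -1)
    (h : |e1 * (1 - be' * ga') + e2 * (be + be' * ga) - (ga + be * ga')| +
      |-e1 * (al - al' * ga') + e2 * (1 - al' * ga) + al * ga - ga'| +
      |e1 * (al * be' - al') - e2 * (be' + al' * be) + 1 + al * be| ≤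
      3 * ((1 - al' * ga) * (1 - be' * ga') + (be + be' * ga) * (al - al' * ga'))) :
    Good ![![1, al, al'], ![-be, 1, be'], ![ga, ga', 1]] := by
  obtain ⟨D, hDe⟩ : ∃ D : ℝ, D = (1 - al' * ga) * (1 - be' * ga') +
    (be + be' * ga) * (al - al' * ga') := ⟨_, rfl⟩
  rw [← hDe] at hD h
  obtain ⟨T1, hT1⟩ : ∃ T : ℝ, T = e1 * (1 - be' * ga') + e2 * (be + be' * ga) -
    (ga + be * ga') := ⟨_, rfl⟩
  obtain ⟨T2, hT2⟩ : ∃ T : ℝ, T = -e1 * (al - al' * ga') + e2 * (1 - al' * ga) + al * ga - ga' :=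
    ⟨_, rfl⟩
  obtain ⟨T3, hT3⟩ : ∃ T : ℝ, T = e1 * (al * be' - al') - e2 * (be' + al' * be) + 1 + al * be :=
    ⟨_, rfl⟩
  rw [← hT1, ← hT2, ← hT3] at h
  refine ⟨![e1, e2, 1], ![T1 / D, T2 / D, T3 / D], ?_, ?_, ?_⟩
  · intro i
    fin_cases i
    · exact he1
    · exact he2
    · exact Or.inl rfl
  · intro j
    fin_cases j
    · rw [Fin.sum_univ_three]
      show T1 / D * 1 + T2 / D * (-be) + T3 / D * ga = e1
      have e : T1 * 1 + T2 * (-be) + T3 * ga = e1 * D := by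
        rw [hT1, hT2, hT3, hDe]; ring
      field_simp
      linarith
    · rw [Fin.sum_univ_three]
      show T1 / D * al + T2 / D * 1 + T3 / D * ga' = e2
      have e : T1 * al + T2 * 1 + T3 * ga' = e2 * D := by
        rw [hT1, hT2, hT3, hDe]; ring
      field_simp
      linarith
    · rw [Fin.sum_univ_three]
      show T1 / D * al' + T2 / D * be' + T3 / D * 1 = 1
      have e : T1 * al' + T2 * be' + T3 * 1 = D := by
        rw [hT1, hT2, hT3, hDe]; ring
      field_simp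
      linarith
  · rw [Fin.sum_univ_three]
    show |T1 / D| + |T2 / D| + |T3 / D| ≤ 3
    rw [abs_div, abs_div, abs_div, abs_of_pos hD, ← add_div, ← add_div, div_le_iff₀ hD]
    exact h

theorem ptys (al al' be be' ga ga' : ℝ) (h1 : |al'| ≤ al) (h2 : al < 1) (h3 : |be'| ≤ be)
    (h4 : be < 1) (h5 : |ga'| ≤ ga) (h6 : ga < 1) :
    Good ![![1, al, al'], ![-be, 1, be'], ![ga, ga', 1]] := by
  obtain ⟨a1, a2⟩ := abs_le.1 h1
  obtain ⟨b1, b2⟩ := abs_le.1 h3
  obtain ⟨c1, c2⟩ := abs_le.1 h5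
  have hl0 : 0 < 1 - al := by linarith
  have hlp : 0 ≤ (al + al') / 2 := by linarith
  have hlm : 0 ≤ (al - al') / 2 := by linarith
  have hm0 : 0 < 1 - be := by linarith
  have hmp : 0 ≤ (be + be') / 2 := by linarith
  have hmm : 0 ≤ (be - be') / 2 := by linarith
  have hp : 0 < (1 + ga) / 2 := by linarith
  have hpb : 0 < (1 - ga) / 2 := by linarith
  have hq : 0 < (1 + ga') / 2 := by linarith
  have hqb : 0 < (1 - ga') / 2 := by linarith
  have hs : 0 < (1 + al') / 2 := by linarith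
  have hsb : 0 < (1 - al') / 2 := by linarith
  have ht : 0 < (1 + be') / 2 := by linarith
  have htb : 0 < (1 - be') / 2 := by linarith
  have hA1 : 0 < 1 - al' * ga := by
    have e : 1 - al' * ga = 2 * ((1 + ga) / 2 * ((1 - al') / 2) + (1 - ga) / 2 * ((1 + al') / 2)) := by
      ring
    rw [e]; positivity
  have hB1 : 0 ≤ al - al' * ga' := by
    have e : al - al' * ga' = 2 * ((al + al') / 2 * ((1 - ga') / 2) +
      (al - al') / 2 * ((1 + ga') / 2)) := by ring
    rw [e]; positivity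
  have hA2 : 0 ≤ be + be' * ga := by
    have e : be + be' * ga = 2 * ((be + be') / 2 * ((1 + ga) / 2) +
      (be - be') / 2 * ((1 - ga) / 2)) := by ring
    rw [e]; positivity
  have hB2 : 0 < 1 - be' * ga' := by
    have e : 1 - be' * ga' = 2 * ((1 + ga') / 2 * ((1 - be') / 2) +
      (1 - ga') / 2 * ((1 + be') / 2)) := by ring
    rw [e]; positivity
  have hD : 0 < (1 - al' * ga) * (1 - be' * ga') + (be + be' * ga) * (al - al' * ga') := by
    positivity
  by_contra hG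
  have hno : ∀ e1 e2 : ℝ, (e1 = 1 ∨ e1 = -1) → (e2 = 1 ∨ e2 = -1) →
      3 * ((1 - al' * ga) * (1 - be' * ga') + (be + be' * ga) * (al - al' * ga')) <
      |e1 * (1 - be' * ga') + e2 * (be + be' * ga) - (ga + be * ga')| +
      |-e1 * (al - al' * ga') + e2 * (1 - al' * ga) + al * ga - ga'| +
      |e1 * (al * be' - al') - e2 * (be' + al' * be) + 1 + al * be| := by
    intro e1 e2 he1 he2
    by_contra hcon
    exact hG (PTYS_good al al' be be' ga ga' e1 e2 hD he1 he2 (not_lt.1 hcon))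
  -- products of the nonnegative quantities
  have k1 := mul_nonneg hl0.le hm0.le
  have k2 := mul_nonneg hl0.le hmp
  have k3 := mul_nonneg hl0.le hmm
  have k4 := mul_nonneg hlp hm0.le
  have k5 := mul_nonneg hlp hmp
  have k6 := mul_nonneg hlp hmm
  have k7 := mul_nonneg hlm hm0.le
  have k8 := mul_nonneg hlm hmp
  have k9 := mul_nonneg hlm hmm
  have hga : 0 ≤ ga := (abs_nonneg _).trans h5
  have r1 : 0 ≤ 1 - ga := by linarith
  have r2 : 0 ≤ 1 + ga := by linarith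
  have r3 : 0 ≤ 1 - ga' := by linarith
  have r4 : 0 ≤ 1 + ga' := by linarith
  have r5 : 0 ≤ ga - ga' := by linarith
  have r6 : 0 ≤ ga + ga' := by linarith
  have g11 := hno 1 1 (Or.inl rfl) (Or.inl rfl)
  have g21 := hno (-1) 1 (Or.inr rfl) (Or.inl rfl)
  have g22 := hno (-1) (-1) (Or.inr rfl) (Or.inr rfl)
  have g12 := hno 1 (-1) (Or.inl rfl) (Or.inr rfl)
  -- (1, 1)
  have h0 : 0 < 2 * ((1 - ga) / 2 * ((1 - al') / 2) * (1 - be' * ga')) -
      2 * ((1 - ga) / 2 * ((1 - be') / 2) * (al - al' * ga')) +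
      2 * ((1 - ga') / 2 * ((1 - al') / 2) * (be + be' * ga)) +
      2 * ((1 - ga') / 2 * ((1 - be') / 2) * (1 - al' * ga)) -
      ((1 - al' * ga) * (1 - be' * ga') + (be + be' * ga) * (al - al' * ga')) := by
    have t1 : 0 ≤ 1 * (1 - be' * ga') + 1 * (be + be' * ga) - (ga + be * ga') := by
      linarith [mul_nonneg hm0.le r1, mul_nonneg hmp r3, mul_nonneg hmm r1]
    have t2 : 0 ≤ -1 * (al - al' * ga') + 1 * (1 - al' * ga) + al * ga - ga' := by
      linarith [mul_nonneg hl0.le r3, mul_nonneg hlm r5]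
    have t3 : 0 ≤ 1 * (al * be' - al') - 1 * (be' + al' * be) + 1 + al * be := by
      linarith
    rw [abs_of_nonneg t1, abs_of_nonneg t2, abs_of_nonneg t3] at g11
    linarith
  -- (-1, 1)
  have h1' : 0 < 2 * ((1 + ga) / 2 * ((1 + al') / 2) * (1 - be' * ga')) +
      2 * ((1 + ga) / 2 * ((1 - be') / 2) * (al - al' * ga')) -
      2 * ((1 - ga') / 2 * ((1 + al') / 2) * (be + be' * ga)) +
      2 * ((1 - ga') / 2 * ((1 - be') / 2) * (1 - al' * ga)) -
      ((1 - al' * ga) * (1 - be' * ga') + (be + be' * ga) * (al - al' * ga')) := by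
    have t1 : -1 * (1 - be' * ga') + 1 * (be + be' * ga) - (ga + be * ga') ≤ 0 := by
      linarith [mul_nonneg hm0.le r2, mul_nonneg hmm r6]
    have t2 : 0 ≤ -(-1) * (al - al' * ga') + 1 * (1 - al' * ga) + al * ga - ga' := by
      linarith [mul_nonneg hl0.le r3, mul_nonneg hlp r3, mul_nonneg hlm r2]
    have t3 : 0 ≤ -1 * (al * be' - al') - 1 * (be' + al' * be) + 1 + al * be := by
      linarith
    rw [abs_of_nonpos t1, abs_of_nonneg t2, abs_of_nonneg t3] at g21
    linarith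
  -- (-1, -1)
  have t1 : -1 * (1 - be' * ga') + -1 * (be + be' * ga) - (ga + be * ga') ≤ 0 := by
    linarith [mul_nonneg hm0.le r2, mul_nonneg hmp r2, mul_nonneg hmm r4]
  have t3 : 0 ≤ -1 * (al * be' - al') - -1 * (be' + al' * be) + 1 + al * be := by
    linarith
  -- (1, -1)
  have u2 : -1 * (al - al' * ga') + -1 * (1 - al' * ga) + al * ga - ga' ≤ 0 := by
    linarith [mul_nonneg hl0.le r4, mul_nonneg hlp r1, mul_nonneg hlm r4]
  have u3 : 0 ≤ 1 * (al * be' - al') - -1 * (be' + al' * be) + 1 + al * be := by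
    linarith
  rw [abs_of_nonpos t1, abs_of_nonneg t3] at g22
  rw [abs_of_nonpos u2, abs_of_nonneg u3] at g12
  rcases le_total (-(-1) * (al - al' * ga') + -1 * (1 - al' * ga) + al * ga - ga') 0 with t2 | t2
  · rw [abs_of_nonpos t2] at g22
    have h2' : 0 < 2 * ((1 + ga) / 2 * ((1 + al') / 2) * (1 - be' * ga')) -
        2 * ((1 + ga) / 2 * ((1 + be') / 2) * (al - al' * ga')) +
        2 * ((1 + ga') / 2 * ((1 + al') / 2) * (be + be' * ga)) +
        2 * ((1 + ga') / 2 * ((1 + be') / 2) * (1 - al' * ga)) -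
        ((1 - al' * ga) * (1 - be' * ga') + (be + be' * ga) * (al - al' * ga')) := by
      linarith
    rcases le_total 0 (1 * (1 - be' * ga') + -1 * (be + be' * ga) - (ga + be * ga')) with u1 | u1
    · rw [abs_of_nonneg u1] at g12
      have h3' : 0 < 2 * ((1 - ga) / 2 * ((1 - al') / 2) * (1 - be' * ga')) +
          2 * ((1 - ga) / 2 * ((1 + be') / 2) * (al - al' * ga')) -
          2 * ((1 + ga') / 2 * ((1 - al') / 2) * (be + be' * ga)) +
          2 * ((1 + ga') / 2 * ((1 + be') / 2) * (1 - al' * ga)) -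
          ((1 - al' * ga) * (1 - be' * ga') + (be + be' * ga) * (al - al' * ga')) := by
        linarith
      exact cert_AAAA (1 - al) ((al + al') / 2) ((al - al') / 2) (1 - be) ((be + be') / 2)
        ((be - be') / 2) _ _ _ _ _ _ _ _ _ _ _ _ _ hl0 hlp hlm hm0 hmp hmm hp hpb hq hqb
        (by ring) (by ring) (by ring) (by ring) (by ring) (by ring) (by ring) (by ring) rfl
        h0 h1' h2' h3'
    · rw [abs_of_nonpos u1] at g12
      have h3' : 0 < -2 * ((1 - ga) / 2 * ((1 + al') / 2) * (1 - be' * ga')) +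
          2 * ((1 - ga) / 2 * ((1 + be') / 2) * (al - al' * ga')) +
          2 * ((1 + ga') / 2 * ((1 + al') / 2) * (be + be' * ga)) +
          2 * ((1 + ga') / 2 * ((1 + be') / 2) * (1 - al' * ga)) -
          ((1 - al' * ga) * (1 - be' * ga') + (be + be' * ga) * (al - al' * ga')) := by
        linarith
      exact cert_AAAB (1 - al) ((al + al') / 2) ((al - al') / 2) (1 - be) ((be + be') / 2)
        ((be - be') / 2) _ _ _ _ _ ((1 - al') / 2) _ _ _ _ _ _ _ hl0 hlp hlm hm0 hmp hmm hp hpb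
        hq hqb (by ring) (by ring) (by ring) (by ring) (by ring) (by ring) (by ring) (by ring) rfl
        h0 h1' h2' h3'
  · rw [abs_of_nonneg t2] at g22
    have h2' : 0 < 2 * ((1 + ga) / 2 * ((1 + al') / 2) * (1 - be' * ga')) +
        2 * ((1 + ga) / 2 * ((1 - be') / 2) * (al - al' * ga')) +
        2 * ((1 + ga') / 2 * ((1 + al') / 2) * (be + be' * ga)) -
        2 * ((1 + ga') / 2 * ((1 - be') / 2) * (1 - al' * ga)) -
        ((1 - al' * ga) * (1 - be' * ga') + (be + be' * ga) * (al - al' * ga')) := by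
      linarith
    rcases le_total 0 (1 * (1 - be' * ga') + -1 * (be + be' * ga) - (ga + be * ga')) with u1 | u1
    · rw [abs_of_nonneg u1] at g12
      have h3' : 0 < 2 * ((1 - ga) / 2 * ((1 - al') / 2) * (1 - be' * ga')) +
          2 * ((1 - ga) / 2 * ((1 + be') / 2) * (al - al' * ga')) -
          2 * ((1 + ga') / 2 * ((1 - al') / 2) * (be + be' * ga)) +
          2 * ((1 + ga') / 2 * ((1 + be') / 2) * (1 - al' * ga)) -
          ((1 - al' * ga) * (1 - be' * ga') + (be + be' * ga) * (al - al' * ga')) := by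
        linarith
      exact cert_AABA (1 - al) ((al + al') / 2) ((al - al') / 2) (1 - be) ((be + be') / 2)
        ((be - be') / 2) _ _ _ _ _ _ _ _ _ _ _ _ _ hl0 hlp hlm hm0 hmp hmm hp hpb hq hqb
        (by ring) (by ring) (by ring) (by ring) (by ring) (by ring) (by ring) (by ring) rfl
        h0 h1' h2' h3'
    · rw [abs_of_nonpos u1] at g12
      have h3' : 0 < -2 * ((1 - ga) / 2 * ((1 + al') / 2) * (1 - be' * ga')) +
          2 * ((1 - ga) / 2 * ((1 + be') / 2) * (al - al' * ga')) +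
          2 * ((1 + ga') / 2 * ((1 + al') / 2) * (be + be' * ga)) +
          2 * ((1 + ga') / 2 * ((1 + be') / 2) * (1 - al' * ga)) -
          ((1 - al' * ga) * (1 - be' * ga') + (be + be' * ga) * (al - al' * ga')) := by
        linarith
      exact cert_AABB (1 - al) ((al + al') / 2) ((al - al') / 2) (1 - be) ((be + be') / 2)
        ((be - be') / 2) _ _ _ _ _ ((1 - al') / 2) _ _ _ _ _ _ _ hl0 hlp hlm hm0 hmp hmm hp hpb
        hq hqb (by ring) (by ring) (by ring) (by ring) (by ring) (by ring) (by ring) (by ring) rfl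
        h0 h1' h2' h3'

end H66OD
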