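import Pool.Agent.H66.OD.HB
import Pool.Agent.H66.OD.PLK3

/-!
# Row QUAD (about 220 lines)

Four points with sum zero, the first three a basis of `ℝ³` such that every integer vector is an integer
combination of them with even coefficient sum; four functionals, `a i ⬝ w i = 1`, `|a i ⬝ w j| ≤ 1`.
Then `Short 4 a`.

PROOF. Suppose not. For `j = 1,2,3` let `U j` be the vector with `U j ⬝ w 0 = U j ⬝ w j = 1/2` and
`U j ⬝ w l = -1/2` for the two other indices (defined by the values on the basis `w 0, w 1, w 2`; the value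
on `w 3 = -w 0 - w 1 - w 2` is then correct as the four values sum to zero). `U j` is an integer
vector: for a standard basis vector `e k = Σ_{l<3} m l w l`, `Σ m l` even, `U j ⬝ e k = (± m 0 ± m 1 ± m 2)/2`
is an integer (same parity as `Σ m l`). `U j ≠ 0`. By `¬ Short` and `hb` there is `X j` with
`|a i ⬝ X j| ≤ 1` for all `i` and `U j ⬝ X j > 3/2`. Let `μ = min_j U j ⬝ X j > 3/2`, and apply `plank3` to
the matrix `(U i ⬝ X j)/μ` (index `Fin 3` for `1,2,3`), whose diagonal is `≥ 1`: `l` with `Σ |l j| ≤ 1` and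
`z = Σ l j X j` satisfies `|U i ⬝ z| ≥ μ/3 > 1/2` and `|a i ⬝ z| ≤ Σ |l j| ≤ 1`.
With `M i j = a i ⬝ w j` (row sums `0`, `M i i = 1`, `|M i j| ≤ 1`):
 `a 0 = (1+M 0 1) U1 + (1+M 0 2) U2 + (1+M 0 3) U3`,
 `a 1 = (1+M 1 0) U1 - (1+M 1 2) U3 - (1+M 1 3) U2`,
 `a 2 = (1+M 2 0) U2 - (1+M 2 1) U3 - (1+M 2 3) U1`,
 `a 3 = (1+M 3 0) U3 - (1+M 3 1) U2 - (1+M 3 2) U1`
(check on `w 0, w 1, w 2, w 3`; it suffices on the basis `w 0, w 1, w 2`). The coefficients `1 + M` are `≥ 0`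
and sum to `3 - 1 = 2` in each line (the row sum without the diagonal is `-1`).
Signs of `(U1 ⬝ z, U2 ⬝ z, U3 ⬝ z)`, all of absolute value `> 1/2`:
`(+,+,+)`: `a 0 ⬝ z > 1`; `(+,-,-)`: `a 1 ⬝ z > 1`; `(-,+,-)`: `a 2 ⬝ z > 1`; `(-,-,+)`: `a 3 ⬝ z > 1`; the
negatives of these patterns give `a k ⬝ z < -1`. (Each line is a combination of three numbers `> 1/2` with
coefficients `≥ 0` of sum `2`.) All eight patterns contradict `|a k ⬝ z| ≤ 1`.
-/

open Matrix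

namespace H66OD

theorem QUAD_lt {c1 c2 c3 x1 x2 x3 : ℝ} (h1 : 0 ≤ c1) (h2 : 0 ≤ c2) (h3 : 0 ≤ c3)
    (hs : c1 + c2 + c3 = 2) (k1 : 1 / 2 < x1) (k2 : 1 / 2 < x2) (k3 : 1 / 2 < x3) :
    1 < c1 * x1 + c2 * x2 + c3 * x3 := by
  have hm : 1 / 2 < min x1 (min x2 x3) := lt_min k1 (lt_min k2 k3)
  have e1 : c1 * min x1 (min x2 x3) ≤ c1 * x1 := mul_le_mul_of_nonneg_left (min_le_left _ _) h1
  have e2 : c2 * min x1 (min x2 x3) ≤ c2 * x2 :=
    mul_le_mul_of_nonneg_left ((min_le_right _ _).trans (min_le_left _ _)) h2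
  have e3 : c3 * min x1 (min x2 x3) ≤ c3 * x3 :=
    mul_le_mul_of_nonneg_left ((min_le_right _ _).trans (min_le_right _ _)) h3
  have e4 : c1 * min x1 (min x2 x3) + c2 * min x1 (min x2 x3) + c3 * min x1 (min x2 x3) =
      2 * min x1 (min x2 x3) := by
    rw [← hs]
    ring
  linarith

/-- the matrix of the basis is injective and surjective -/
theorem QUAD_basis (w0 w1 w2 : Fin 3 → ℝ) (hlin : LinearIndependent ℝ ![w0, w1, w2]) :
    (∀ p q : Fin 3 → ℝ, p ⬝ᵥ w0 = q ⬝ᵥ w0 → p ⬝ᵥ w1 = q ⬝ᵥ w1 → p ⬝ᵥ w2 = q ⬝ᵥ w2 → p = q) ∧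
      ∀ s0 s1 s2 : ℝ, ∃ p : Fin 3 → ℝ, p ⬝ᵥ w0 = s0 ∧ p ⬝ᵥ w1 = s1 ∧ p ⬝ᵥ w2 = s2 := by
  set W : Matrix (Fin 3) (Fin 3) ℝ := Matrix.of ![w0, w1, w2] with hW
  have hu : IsUnit W := Matrix.linearIndependent_rows_iff_isUnit.1 hlin
  have hdet : IsUnit W.det := (Matrix.isUnit_iff_isUnit_det W).1 hu
  have r0 : ∀ p, (W *ᵥ p) 0 = p ⬝ᵥ w0 := fun p => dotProduct_comm _ _
  have r1 : ∀ p, (W *ᵥ p) 1 = p ⬝ᵥ w1 := fun p => dotProduct_comm _ _
  have r2 : ∀ p, (W *ᵥ p) 2 = p ⬝ᵥ w2 := fun p => dotProduct_comm _ _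
  constructor
  · intro p q h0 h1 h2
    have h3 : W *ᵥ p = W *ᵥ q := by
      funext l
      fin_cases l
      · exact (r0 p).trans (h0.trans (r0 q).symm)
      · exact (r1 p).trans (h1.trans (r1 q).symm)
      · exact (r2 p).trans (h2.trans (r2 q).symm)
    have h4 := congrArg (fun v => W⁻¹ *ᵥ v) h3
    simpa only [Matrix.mulVec_mulVec, Matrix.nonsing_inv_mul W hdet, Matrix.one_mulVec] using h4
  · intro s0 s1 s2
    refine ⟨W⁻¹ *ᵥ ![s0, s1, s2], ?_, ?_, ?_⟩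
    · rw [← r0, Matrix.mulVec_mulVec, Matrix.mul_nonsing_inv W hdet, Matrix.one_mulVec]
      rfl
    · rw [← r1, Matrix.mulVec_mulVec, Matrix.mul_nonsing_inv W hdet, Matrix.one_mulVec]
      rfl
    · rw [← r2, Matrix.mulVec_mulVec, Matrix.mul_nonsing_inv W hdet, Matrix.one_mulVec]
      rfl

theorem QUAD_int (w0 w1 w2 : Fin 3 → ℝ) (hlin : LinearIndependent ℝ ![w0, w1, w2])
    (hlat : ∀ y : Fin 3 → ℤ, ∃ m0 m1 m2 : ℤ,
      toR y = (m0 : ℝ) • w0 + (m1 : ℝ) • w1 + (m2 : ℝ) • w2 ∧ Even (m0 + m1 + m2))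
    (s0 s1 s2 : ℤ) (h0 : Odd s0) (h1 : Odd s1) (h2 : Odd s2) :
    ∃ U : Fin 3 → ℤ, toR U ⬝ᵥ w0 = s0 / 2 ∧ toR U ⬝ᵥ w1 = s1 / 2 ∧ toR U ⬝ᵥ w2 = s2 / 2 := by
  obtain ⟨p, p0, p1, p2⟩ := (QUAD_basis w0 w1 w2 hlin).2 (s0 / 2) (s1 / 2) (s2 / 2)
  have hk : ∀ k : Fin 3, ∃ n : ℤ, p k = n := by
    intro k
    obtain ⟨m0, m1, m2, hm, he⟩ := hlat (Pi.single k 1)
    have e1 : p ⬝ᵥ toR (Pi.single k 1) = p k := by
      have e2 : toR (Pi.single k 1 : Fin 3 → ℤ) = Pi.single k 1 := by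
        funext j
        by_cases hj : j = k
        · subst hj
          simp
        · simp [hj]
      rw [e2, dotProduct_single, mul_one]
    rw [hm, dotProduct_add, dotProduct_add, dotProduct_smul, dotProduct_smul, dotProduct_smul,
      p0, p1, p2, smul_eq_mul, smul_eq_mul, smul_eq_mul] at e1
    obtain ⟨a0, rfl⟩ := h0
    obtain ⟨a1, rfl⟩ := h1
    obtain ⟨a2, rfl⟩ := h2
    obtain ⟨b, hb⟩ := he
    have hb' : (m0 : ℝ) + m1 + m2 = b + b := by exact_mod_cast hb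
    refine ⟨m0 * a0 + m1 * a1 + m2 * a2 + b, ?_⟩
    rw [← e1]
    push_cast
    linarith
  choose U hU using hk
  have hp : toR U = p := by
    funext k
    rw [toR_apply, ← hU k]
  exact ⟨U, by rw [hp, p0], by rw [hp, p1], by rw [hp, p2]⟩

theorem quad (a w : Fin 4 → (Fin 3 → ℝ)) (hsum : ∑ i, w i = 0)
    (h1 : ∀ i, a i ⬝ᵥ w i = 1) (h2 : ∀ i j, |a i ⬝ᵥ w j| ≤ 1)
    (hlin : LinearIndependent ℝ ![w 0, w 1, w 2])
    (hlat : ∀ y : Fin 3 → ℤ, ∃ m0 m1 m2 : ℤ,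
      toR y = (m0 : ℝ) • w 0 + (m1 : ℝ) • w 1 + (m2 : ℝ) • w 2 ∧ Even (m0 + m1 + m2)) :
    Short 4 a := by
  by_contra hns
  have hw3 : w 0 + w 1 + w 2 + w 3 = 0 := by
    rw [Fin.sum_univ_four] at hsum
    exact hsum
  obtain ⟨U1, u10, u11, u12⟩ := QUAD_int (w 0) (w 1) (w 2) hlin hlat 1 1 (-1) (by decide)
    (by decide) (by decide)
  obtain ⟨U2, u20, u21, u22⟩ := QUAD_int (w 0) (w 1) (w 2) hlin hlat 1 (-1) 1 (by decide)
    (by decide) (by decide)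
  obtain ⟨U3, u30, u31, u32⟩ := QUAD_int (w 0) (w 1) (w 2) hlin hlat 1 (-1) (-1) (by decide)
    (by decide) (by decide)
  push_cast at u10 u11 u12 u20 u21 u22 u30 u31 u32
  have hX : ∀ U : Fin 3 → ℤ, toR U ⬝ᵥ w 0 = 1 / 2 →
      ∃ X : Fin 3 → ℝ, (∀ i, |a i ⬝ᵥ X| ≤ 1) ∧ 3 / 2 < toR U ⬝ᵥ X := by
    intro U hU
    refine hb 4 a (toR U) fun ht => hns ⟨U, ?_, ht⟩
    rintro rfl
    rw [toR_zero, zero_dotProduct] at hU
    norm_num at hU
  obtain ⟨X1, x1, y1⟩ := hX U1 u10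
  obtain ⟨X2, x2, y2⟩ := hX U2 u20
  obtain ⟨X3, x3, y3⟩ := hX U3 u30
  set UU : Fin 3 → (Fin 3 → ℝ) := ![toR U1, toR U2, toR U3] with hUU
  set XX : Fin 3 → (Fin 3 → ℝ) := ![X1, X2, X3] with hXX
  have hd : ∀ i, 3 / 2 < UU i ⬝ᵥ XX i := by
    intro i
    fin_cases i
    · exact y1
    · exact y2
    · exact y3
  have hXa : ∀ j i, |a i ⬝ᵥ XX j| ≤ 1 := by
    intro j
    fin_cases j
    · exact x1
    · exact x2
    · exact x3
  obtain ⟨l, hl1, hl2⟩ := plank3 (fun i j => (UU i ⬝ᵥ XX j) / (UU i ⬝ᵥ XX i)) fun i => by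
    have := hd i
    rw [div_self (by linarith)]
  set z : Fin 3 → ℝ := ∑ j, l j • XX j with hz
  have hdot : ∀ p : Fin 3 → ℝ, p ⬝ᵥ z = ∑ j, l j * (p ⬝ᵥ XX j) := by
    intro p
    rw [hz, dotProduct_sum]
    exact Finset.sum_congr rfl fun j _ => by rw [dotProduct_smul, smul_eq_mul]
  have hUz : ∀ i, 1 / 2 < |UU i ⬝ᵥ z| := by
    intro i
    have h3 := hd i
    have h4 : UU i ⬝ᵥ z = (UU i ⬝ᵥ XX i) * ∑ j, (UU i ⬝ᵥ XX j) / (UU i ⬝ᵥ XX i) * l j := by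
      rw [hdot, Finset.mul_sum]
      refine Finset.sum_congr rfl fun j _ => ?_
      have : UU i ⬝ᵥ XX i ≠ 0 := by linarith
      field_simp
    rw [h4, abs_mul, abs_of_pos (by linarith : 0 < UU i ⬝ᵥ XX i)]
    have h5 := hl2 i
    nlinarith
  have haz : ∀ i, |a i ⬝ᵥ z| ≤ 1 := by
    intro i
    rw [hdot]
    refine (Finset.abs_sum_le_sum_abs _ _).trans (le_trans ?_ hl1)
    refine Finset.sum_le_sum fun j _ => ?_
    rw [abs_mul]
    exact mul_le_of_le_one_right (abs_nonneg _) (hXa j i)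
  -- row sums
  have hrow : ∀ i, a i ⬝ᵥ w 0 + a i ⬝ᵥ w 1 + a i ⬝ᵥ w 2 + a i ⬝ᵥ w 3 = 0 := by
    intro i
    rw [← dotProduct_add, ← dotProduct_add, ← dotProduct_add, hw3, dotProduct_zero]
  have hext := (QUAD_basis (w 0) (w 1) (w 2) hlin).1
  have d0 := h1 0
  have d1 := h1 1
  have d2 := h1 2
  have d3 := h1 3
  have s0 := hrow 0
  have s1 := hrow 1
  have s2 := hrow 2
  have s3 := hrow 3
  have A0 : a 0 = (1 + a 0 ⬝ᵥ w 1) • toR U1 + (1 + a 0 ⬝ᵥ w 2) • toR U2 +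
      (1 + a 0 ⬝ᵥ w 3) • toR U3 := by
    apply hext
    · simp only [add_dotProduct, smul_dotProduct, smul_eq_mul, u10, u20, u30]
      linarith
    · simp only [add_dotProduct, smul_dotProduct, smul_eq_mul, u11, u21, u31]
      linarith
    · simp only [add_dotProduct, smul_dotProduct, smul_eq_mul, u12, u22, u32]
      linarith
  have A1 : a 1 = (1 + a 1 ⬝ᵥ w 0) • toR U1 + (1 + a 1 ⬝ᵥ w 2) • (-toR U3) +
      (1 + a 1 ⬝ᵥ w 3) • (-toR U2) := by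
    apply hext
    · simp only [add_dotProduct, smul_dotProduct, neg_dotProduct, smul_eq_mul, u10, u20, u30]
      linarith
    · simp only [add_dotProduct, smul_dotProduct, neg_dotProduct, smul_eq_mul, u11, u21, u31]
      linarith
    · simp only [add_dotProduct, smul_dotProduct, neg_dotProduct, smul_eq_mul, u12, u22, u32]
      linarith
  have A2 : a 2 = (1 + a 2 ⬝ᵥ w 0) • toR U2 + (1 + a 2 ⬝ᵥ w 1) • (-toR U3) +
      (1 + a 2 ⬝ᵥ w 3) • (-toR U1) := by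
    apply hext
    · simp only [add_dotProduct, smul_dotProduct, neg_dotProduct, smul_eq_mul, u10, u20, u30]
      linarith
    · simp only [add_dotProduct, smul_dotProduct, neg_dotProduct, smul_eq_mul, u11, u21, u31]
      linarith
    · simp only [add_dotProduct, smul_dotProduct, neg_dotProduct, smul_eq_mul, u12, u22, u32]
      linarith
  have A3 : a 3 = (1 + a 3 ⬝ᵥ w 0) • toR U3 + (1 + a 3 ⬝ᵥ w 1) • (-toR U2) +
      (1 + a 3 ⬝ᵥ w 2) • (-toR U1) := by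
    apply hext
    · simp only [add_dotProduct, smul_dotProduct, neg_dotProduct, smul_eq_mul, u10, u20, u30]
      linarith
    · simp only [add_dotProduct, smul_dotProduct, neg_dotProduct, smul_eq_mul, u11, u21, u31]
      linarith
    · simp only [add_dotProduct, smul_dotProduct, neg_dotProduct, smul_eq_mul, u12, u22, u32]
      linarith
  have z0 := haz 0
  have z1 := haz 1
  have z2 := haz 2
  have z3 := haz 3
  have e0 := congrArg (fun v => v ⬝ᵥ z) A0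
  have e1 := congrArg (fun v => v ⬝ᵥ z) A1
  have e2 := congrArg (fun v => v ⬝ᵥ z) A2
  have e3 := congrArg (fun v => v ⬝ᵥ z) A3
  simp only [add_dotProduct, smul_dotProduct, neg_dotProduct, smul_eq_mul] at e0 e1 e2 e3
  have hpos : ∀ i j, 0 ≤ 1 + a i ⬝ᵥ w j := fun i j => by
    have := (abs_le.1 (h2 i j)).1
    linarith
  have v1 : 1 / 2 < |toR U1 ⬝ᵥ z| := hUz 0
  have v2 : 1 / 2 < |toR U2 ⬝ᵥ z| := hUz 1
  have v3 : 1 / 2 < |toR U3 ⬝ᵥ z| := hUz 2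
  set q1 := toR U1 ⬝ᵥ z
  set q2 := toR U2 ⬝ᵥ z
  set q3 := toR U3 ⬝ᵥ z
  rw [abs_le] at z0 z1 z2 z3
  rcases lt_abs.1 v1 with c1 | c1 <;> rcases lt_abs.1 v2 with c2 | c2 <;>
    rcases lt_abs.1 v3 with c3 | c3
  · have := QUAD_lt (hpos 0 1) (hpos 0 2) (hpos 0 3) (by linarith) c1 c2 c3
    linarith
  · have := QUAD_lt (hpos 3 0) (hpos 3 1) (hpos 3 2) (by linarith) c3 c2 c1
    linarith
  · have := QUAD_lt (hpos 2 0) (hpos 2 1) (hpos 2 3) (by linarith) c2 c3 c1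
    linarith
  · have := QUAD_lt (hpos 1 0) (hpos 1 2) (hpos 1 3) (by linarith) c1 c3 c2
    linarith
  · have := QUAD_lt (hpos 1 0) (hpos 1 2) (hpos 1 3) (by linarith) c1 c3 c2
    linarith
  · have := QUAD_lt (hpos 2 0) (hpos 2 1) (hpos 2 3) (by linarith) c2 c3 c1
    linarith
  · have := QUAD_lt (hpos 3 0) (hpos 3 1) (hpos 3 2) (by linarith) c3 c2 c1
    linarith
  · have := QUAD_lt (hpos 0 1) (hpos 0 2) (hpos 0 3) (by linarith) c1 c2 c3
    linarith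

end H66OD
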