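import Pool.Agent.H66.OD.K1D

/-!
# Row STP (about 180 lines): Step 1

`f y = max_{w ∈ Vt} y ⬝ (c - w)`. Then `f y + f (y - u) ≥ 3/2` for every nonzero integer vector `u`.

PROOF. (A) Let `w ∈ Vt` be a maximiser at `y`: `f y = y ⬝ (c - w)`. Then `y ⬝ w ≤ y ⬝ w'` for all `w' ∈ Vt`, hence
`y ⬝ w ≤ y ⬝ x` for all `x ∈ P` (hull), in particular for `x = w + e w i`: `γ i := y ⬝ toR (e w i) ≥ 0`. By `span` at
`w` (applied to `x`): `y ⬝ x = Σ (u w i ⬝ x) γ i`; so `f y = Σ γ i f i` with `f i = toR (u w i) ⬝ (c - toR w) ≥ 3/2`.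
(B) 1D: for `t : ℝ` let `F t = f (y + t toR u)`; `α w = y ⬝ (c - w)`, `σ w = toR u ⬝ (c - w)`. As `2 c = toR x`,
`σ w = (u ⬝ x)/2 - u ⬝ w` so the slopes are in `θ/2 + ℤ` with `θ = u ⬝ x`. `hle`, `hex` from `hf1`, `hf2`.
`h0`: (A). `hpos`: let `w` be a maximiser at `toR u`: `σ w = f (toR u) = Σ γ i f i` with `γ i = u ⬝ e w i`
nonnegative integers, not all zero (otherwise `u = 0` by `span`), so `≥ 3/2`. `hneg`: a maximiser `w` at `-toR u`:
`-σ w = f (-toR u) ≥ 3/2`.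
`hK`: `w` is a maximiser at `a < b`, `|σ w| < 3/2`. `γ i (a) = (y + a u) ⬝ e w i ≥ 0`, `γ i (b) ≥ 0`,
`γ i (b) - γ i (a) = (b-a) β i`, `β i = u ⬝ e w i` integers. `F a + F b = Σ (γ i a + γ i b) f i ≥
Σ |γ i b - γ i a| f i = (b-a) Σ |β i| f i`. `σ w = Σ β i f i`. If all `β i ≥ 0`: not all zero (`u ≠ 0`), so
`σ w ≥ 3/2`, contradiction; if all `≤ 0`: `σ w ≤ -3/2`, contradiction. So some `β i ≥ 1` and some `β j ≤ -1`,
`Σ |β i| f i ≥ 3`.
`k1d` with `s = -1`, `t = 0`: `F (-1) + F 0 ≥ 3/2`, and `F 0 = f y`, `F (-1) = f (y - toR u)`.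
-/

open Matrix

namespace H66OD

private theorem STP_exp {P : Set (Fin 3 → ℝ)} (D : SmoothData P) {w : Fin 3 → ℤ} (hw : w ∈ D.Vt)
    (y x : Fin 3 → ℝ) : y ⬝ᵥ x = ∑ i, (y ⬝ᵥ toR (D.e w i)) * (toR (D.u w i) ⬝ᵥ x) := by
  conv_lhs => rw [D.span w hw x]
  rw [dotProduct_sum]
  refine Finset.sum_congr rfl fun i _ => ?_
  rw [dotProduct_smul, smul_eq_mul, mul_comm]

private theorem STP_L1 {P : Set (Fin 3 → ℝ)} (D : SmoothData P) (c : Fin 3 → ℝ)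
    (hH : ∀ v ∈ D.Vt, ∀ i, 3 / 2 ≤ toR (D.u v i) ⬝ᵥ (c - toR v)) {w : Fin 3 → ℤ} (hw : w ∈ D.Vt)
    (v : Fin 3 → ℤ) (hv : v ≠ 0) (h : ∀ i, 0 ≤ toR v ⬝ᵥ toR (D.e w i)) :
    3 / 2 ≤ toR v ⬝ᵥ (c - toR w) := by
  have hne : ∃ i, toR v ⬝ᵥ toR (D.e w i) ≠ 0 := by
    by_contra hcon
    push Not at hcon
    have h1 := STP_exp D hw (toR v) (toR v)
    simp only [hcon, zero_mul, Finset.sum_const_zero] at h1
    rw [toR_dot] at h1
    have h2 : v ⬝ᵥ v = 0 := by exact_mod_cast h1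
    exact hv (dotProduct_self_eq_zero.1 h2)
  obtain ⟨i, hi⟩ := hne
  have h1 : 1 ≤ toR v ⬝ᵥ toR (D.e w i) := by
    have h2 := h i
    rw [toR_dot] at h2 hi ⊢
    have h3 : 0 ≤ v ⬝ᵥ D.e w i := by exact_mod_cast h2
    have h4 : v ⬝ᵥ D.e w i ≠ 0 := by exact_mod_cast hi
    have h5 : 1 ≤ v ⬝ᵥ D.e w i := by omega
    exact_mod_cast h5
  rw [STP_exp D hw (toR v) (c - toR w)]
  have h3 : (toR v ⬝ᵥ toR (D.e w i)) * (toR (D.u w i) ⬝ᵥ (c - toR w)) ≤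
      ∑ i, (toR v ⬝ᵥ toR (D.e w i)) * (toR (D.u w i) ⬝ᵥ (c - toR w)) :=
    Finset.single_le_sum (f := fun i => (toR v ⬝ᵥ toR (D.e w i)) *
      (toR (D.u w i) ⬝ᵥ (c - toR w))) (fun j _ => mul_nonneg (h j) (by linarith [hH w hw j]))
      (Finset.mem_univ i)
  have h4 := hH w hw i
  nlinarith

private theorem STP_M {P : Set (Fin 3 → ℝ)} (D : SmoothData P) (c : Fin 3 → ℝ)
    (f : (Fin 3 → ℝ) → ℝ) (hf1 : ∀ y, ∀ w ∈ D.Vt, y ⬝ᵥ (c - toR w) ≤ f y)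
    {w : Fin 3 → ℤ} (hw : w ∈ D.Vt) (y : Fin 3 → ℝ) (h : f y = y ⬝ᵥ (c - toR w)) (i : Fin 3) :
    0 ≤ y ⬝ᵥ toR (D.e w i) := by
  have h1 : ∀ x ∈ P, y ⬝ᵥ toR w ≤ y ⬝ᵥ x := by
    have h2 : P ⊆ {x | y ⬝ᵥ toR w ≤ y ⬝ᵥ x} := by
      rw [D.hull]
      refine convexHull_min ?_ ?_
      · rintro _ ⟨w', hw', rfl⟩
        have h3 := hf1 y w' hw'
        rw [h, dotProduct_sub, dotProduct_sub] at h3
        show y ⬝ᵥ toR w ≤ y ⬝ᵥ toR w'
        linarith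
      · intro x hx x' hx' a b ha hb hab
        have hx : y ⬝ᵥ toR w ≤ y ⬝ᵥ x := hx
        have hx' : y ⬝ᵥ toR w ≤ y ⬝ᵥ x' := hx'
        show y ⬝ᵥ toR w ≤ y ⬝ᵥ (a • x + b • x')
        rw [dotProduct_add, dotProduct_smul, dotProduct_smul, smul_eq_mul, smul_eq_mul]
        have h3 := mul_le_mul_of_nonneg_left hx ha
        have h4 := mul_le_mul_of_nonneg_left hx' hb
        have h5 : y ⬝ᵥ toR w = a * (y ⬝ᵥ toR w) + b * (y ⬝ᵥ toR w) := by
          rw [← add_mul, hab, one_mul]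
        linarith
    exact fun x hx => h2 hx
  have h2 := h1 _ (D.mem w hw i)
  rw [toR_add, dotProduct_add] at h2
  linarith

theorem stp {P : Set (Fin 3 → ℝ)} (D : SmoothData P) (x : Fin 3 → ℤ) (c : Fin 3 → ℝ)
    (hc : toR x = (2 : ℝ) • c)
    (hH : ∀ v ∈ D.Vt, ∀ i, 3 / 2 ≤ toR (D.u v i) ⬝ᵥ (c - toR v))
    (f : (Fin 3 → ℝ) → ℝ) (hf1 : ∀ y, ∀ w ∈ D.Vt, y ⬝ᵥ (c - toR w) ≤ f y)
    (hf2 : ∀ y, ∃ w ∈ D.Vt, f y = y ⬝ᵥ (c - toR w)) (u : Fin 3 → ℤ) (hu : u ≠ 0)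
    (y : Fin 3 → ℝ) : 3 / 2 ≤ f y + f (y - toR u) := by
  have hexp : ∀ w ∈ D.Vt, ∀ z : Fin 3 → ℝ, z ⬝ᵥ (c - toR w) =
      ∑ i, (z ⬝ᵥ toR (D.e w i)) * (toR (D.u w i) ⬝ᵥ (c - toR w)) := fun w hw z =>
    STP_exp D hw z _
  have hlin : ∀ (t : ℝ) (w : Fin 3 → ℤ), (y + t • toR u) ⬝ᵥ (c - toR w) =
      y ⬝ᵥ (c - toR w) + t * (toR u ⬝ᵥ (c - toR w)) := by
    intro t w
    rw [add_dotProduct, smul_dotProduct, smul_eq_mul]
  have hneg0 : -u ≠ 0 := neg_ne_zero.2 hu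
  have hk := k1d D.Vt (fun w => y ⬝ᵥ (c - toR w)) (fun w => toR u ⬝ᵥ (c - toR w)) (u ⬝ᵥ x)
    (by
      intro w _
      refine ⟨-(u ⬝ᵥ w), ?_⟩
      show toR u ⬝ᵥ (c - toR w) = ((-(u ⬝ᵥ w) : ℤ) : ℝ) + ((u ⬝ᵥ x : ℤ) : ℝ) / 2
      rw [← toR_dot, hc, dotProduct_smul, dotProduct_sub, toR_dot]
      push_cast
      rw [smul_eq_mul]
      ring)
    (fun t => f (y + t • toR u))
    (by
      intro t w hw
      show y ⬝ᵥ (c - toR w) + t * (toR u ⬝ᵥ (c - toR w)) ≤ f (y + t • toR u)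
      rw [← hlin]
      exact hf1 _ w hw)
    (by
      intro t
      obtain ⟨w, hw, h⟩ := hf2 (y + t • toR u)
      exact ⟨w, hw, h.trans (hlin t w)⟩)
    (by
      intro t
      obtain ⟨w, hw, h⟩ := hf2 (y + t • toR u)
      show 0 ≤ f (y + t • toR u)
      rw [h, hexp w hw]
      exact Finset.sum_nonneg fun i _ => mul_nonneg (STP_M D c f hf1 hw _ h i)
        (by linarith [hH w hw i]))
    (by
      obtain ⟨w, hw, h⟩ := hf2 (toR u)
      exact ⟨w, hw, STP_L1 D c hH hw u hu fun i => STP_M D c f hf1 hw _ h i⟩)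
    (by
      obtain ⟨w, hw, h⟩ := hf2 (toR (-u))
      refine ⟨w, hw, ?_⟩
      have h1 := STP_L1 D c hH hw (-u) hneg0 fun i => STP_M D c f hf1 hw _ h i
      rw [toR_neg, neg_dotProduct] at h1
      show toR u ⬝ᵥ (c - toR w) ≤ -(3 / 2)
      linarith)
    (by
      intro w hw a b hab hFa hFb hs
      have hFa : f (y + a • toR u) = y ⬝ᵥ (c - toR w) + a * (toR u ⬝ᵥ (c - toR w)) := hFa
      have hFb : f (y + b • toR u) = y ⬝ᵥ (c - toR w) + b * (toR u ⬝ᵥ (c - toR w)) := hFb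
      have hs : |toR u ⬝ᵥ (c - toR w)| < 3 / 2 := hs
      rw [← hlin] at hFa hFb
      have ga := STP_M D c f hf1 hw _ hFa
      have gb := STP_M D c f hf1 hw _ hFb
      obtain ⟨hs1, hs2⟩ := abs_lt.1 hs
      have hi : ∃ i, toR u ⬝ᵥ toR (D.e w i) < 0 := by
        by_contra hcon
        push Not at hcon
        have := STP_L1 D c hH hw u hu hcon
        linarith
      have hj : ∃ j, 0 < toR u ⬝ᵥ toR (D.e w j) := by
        by_contra hcon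
        push Not at hcon
        have h1 := STP_L1 D c hH hw (-u) hneg0 (fun i => by
          rw [toR_neg, neg_dotProduct]
          linarith [hcon i])
        rw [toR_neg, neg_dotProduct] at h1
        linarith
      obtain ⟨i, hi⟩ := hi
      obtain ⟨j, hj⟩ := hj
      have hij : i ≠ j := by
        rintro rfl
        linarith
      have hi1 : 1 ≤ |toR u ⬝ᵥ toR (D.e w i)| := by
        rw [toR_dot] at hi ⊢
        have h1 : u ⬝ᵥ D.e w i < 0 := by exact_mod_cast hi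
        have h2 : 1 ≤ |u ⬝ᵥ D.e w i| := Int.one_le_abs (by omega)
        exact_mod_cast h2
      have hj1 : 1 ≤ |toR u ⬝ᵥ toR (D.e w j)| := by
        rw [toR_dot] at hj ⊢
        have h1 : 0 < u ⬝ᵥ D.e w j := by exact_mod_cast hj
        have h2 : 1 ≤ |u ⬝ᵥ D.e w j| := Int.one_le_abs (by omega)
        exact_mod_cast h2
      have hsum : 3 ≤ ∑ k, |toR u ⬝ᵥ toR (D.e w k)| * (toR (D.u w k) ⬝ᵥ (c - toR w)) := by
        have h1 : ∑ k ∈ {i, j}, |toR u ⬝ᵥ toR (D.e w k)| * (toR (D.u w k) ⬝ᵥ (c - toR w)) ≤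
            ∑ k, |toR u ⬝ᵥ toR (D.e w k)| * (toR (D.u w k) ⬝ᵥ (c - toR w)) :=
          Finset.sum_le_sum_of_subset_of_nonneg (Finset.subset_univ _) fun k _ _ =>
            mul_nonneg (abs_nonneg _) (by linarith [hH w hw k])
        rw [Finset.sum_pair hij] at h1
        have h2 := hH w hw i
        have h3 := hH w hw j
        nlinarith
      have hk1 : ∀ k, (b - a) * |toR u ⬝ᵥ toR (D.e w k)| ≤
          (y + a • toR u) ⬝ᵥ toR (D.e w k) + (y + b • toR u) ⬝ᵥ toR (D.e w k) := by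
        intro k
        have h1 := ga k
        have h2 := gb k
        have h3 : (b - a) * |toR u ⬝ᵥ toR (D.e w k)| =
            |(y + b • toR u) ⬝ᵥ toR (D.e w k) - (y + a • toR u) ⬝ᵥ toR (D.e w k)| := by
          rw [← abs_of_pos (sub_pos.2 hab), ← abs_mul, add_dotProduct, add_dotProduct,
            smul_dotProduct, smul_dotProduct, smul_eq_mul, smul_eq_mul]
          congr 1
          ring
        rw [h3, abs_le]
        constructor <;> linarith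
      show 3 * (b - a) ≤ f (y + a • toR u) + f (y + b • toR u)
      rw [hFa, hFb, hexp w hw, hexp w hw, ← Finset.sum_add_distrib]
      calc 3 * (b - a) ≤ (b - a) *
            ∑ k, |toR u ⬝ᵥ toR (D.e w k)| * (toR (D.u w k) ⬝ᵥ (c - toR w)) := by
            have := sub_pos.2 hab
            nlinarith
        _ = ∑ k, ((b - a) * |toR u ⬝ᵥ toR (D.e w k)|) * (toR (D.u w k) ⬝ᵥ (c - toR w)) := by
            rw [Finset.mul_sum]
            exact Finset.sum_congr rfl fun k _ => by ring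
        _ ≤ ∑ k, ((y + a • toR u) ⬝ᵥ toR (D.e w k) + (y + b • toR u) ⬝ᵥ toR (D.e w k)) *
              (toR (D.u w k) ⬝ᵥ (c - toR w)) :=
            Finset.sum_le_sum fun k _ => mul_le_mul_of_nonneg_right (hk1 k)
              (by linarith [hH w hw k])
        _ = _ := Finset.sum_congr rfl fun k _ => by ring)
    (-1) 0 (by norm_num)
  have e1 : y + (0 : ℝ) • toR u = y := by rw [zero_smul, add_zero]
  have e2 : y + (-1 : ℝ) • toR u = y - toR u := by rw [neg_one_smul, sub_eq_add_neg]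
  simp only [e1, e2] at hk
  linarith

end H66OD
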