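import Pool.Agent.H66.OD.Defs

/-!
# Row T2N (about 80 lines, integer inequalities)

Normalised inequalities on the unit square `(0,0),(1,0),(1,1),(0,1)`:
`ψ0 = -p X - q Y`, `ψ1 = r (X-1) - s Y`, `ψ2 = p' (X-1) + q' (Y-1)`, `ψ3 = -r' X + s' (Y-1)`, all
coefficients `≥ 1`.

`adj`: `ψ0 < 0` and `ψ1 < 0` imply `Y ≥ 1`; `ψ2 < 0` and `ψ3 < 0` imply `Y ≤ 0`.
PROOF: if `Y ≤ 0` then `p X > -q Y ≥ 0` so `X ≥ 1`, and `r (X-1) < s Y ≤ 0` so `X < 1`, contradiction.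
If `Y ≥ 1` then `p'(X-1) < -q'(Y-1) ≤ 0` so `X ≤ 0`, and `r' X > s'(Y-1) ≥ 0` so `X ≥ 1`,
contradiction.

`half`: if `(X,Y)`, `(X',Y')` are distinct integer points with `r (X'-X) = s (Y'-Y)` and at both
points `ψ0 < 0`, `ψ2 < 0`, `ψ3 ≥ 0`, then `p q' < p' q`.
PROOF: exchanging the points we may assume `X' > X` (if `X' = X` then `Y' = Y`), then `Y' > Y`.
Each of the two points has first coordinate `≤ 0` and second `≥ 1`: if `X ≥ 1` then `ψ3 ≥ 0` gives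
`s'(Y-1) ≥ r' X > 0`, `Y ≥ 2`, so `ψ2 ≥ q' > 0`, contradiction; so `X ≤ 0`; `ψ0 < 0` gives
`q Y > -p X ≥ 0` so `Y ≥ 1`. As `X' ≤ 0`, `X ≤ -1`. `ψ0(X,Y) < 0`: `q Y > p (-X)`.
`ψ2(X',Y') < 0`: `q'(Y'-1) < p'(1-X')`, with `Y'-1 ≥ Y`, `1-X' ≤ -X`: `q' Y < p' (-X)`.
Multiply: `p q' (-X) < q q' Y < ...`: `p q'(-X) < q' q Y` and `q q' Y < q p' (-X)`, so
`p q' (-X) < p' q (-X)`, and `-X ≥ 1` gives `p q' < p' q`.

`alt`: both edges give a contradiction: the second half is the first one with the two coordinates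
exchanged: apply `half` with `(X,Y,X',Y') := (V,U,V',U')`, `(p,q,p',q') := (q,p,q',p')`,
`(r,s) := (s',r')`, `(r',s') := (s, r)`: the condition `r'(U'-U) = s'(V'-V)` reads
`s' (V'-V) = r' (U'-U)`, `ψ1(U,V) = r(U-1) - sV ≥ 0` is the new `ψ3`. It gives `q p' < q' p`.
-/

namespace H66OD

theorem t2n_adj1 (p q r s X Y : ℤ) (hp : 1 ≤ p) (hq : 1 ≤ q) (hr : 1 ≤ r) (hs : 1 ≤ s)
    (h0 : -p * X - q * Y < 0) (h1 : r * (X - 1) - s * Y < 0) : 1 ≤ Y := by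
  by_contra hY
  have hY' : Y ≤ 0 := by omega
  have h2 : 0 ≤ -(q * Y) := by nlinarith
  have h3 : 1 ≤ X := by
    by_contra hX
    have hX' : X ≤ 0 := by omega
    have h4 : 0 ≤ -(p * X) := by nlinarith
    linarith
  have h5 : 0 ≤ r * (X - 1) := mul_nonneg (by linarith) (by linarith)
  have h6 : 0 ≤ -(s * Y) := by nlinarith
  linarith

theorem t2n_adj2 (p q r s X Y : ℤ) (hp : 1 ≤ p) (hq : 1 ≤ q) (hr : 1 ≤ r) (hs : 1 ≤ s)
    (h2 : p * (X - 1) + q * (Y - 1) < 0) (h3 : -r * X + s * (Y - 1) < 0) : Y ≤ 0 := by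
  by_contra hY
  have hY' : 1 ≤ Y := by omega
  have h4 : 0 ≤ q * (Y - 1) := mul_nonneg (by linarith) (by linarith)
  have h5 : 0 ≤ s * (Y - 1) := mul_nonneg (by linarith) (by linarith)
  have h6 : X ≤ 0 := by
    by_contra hX
    have hX' : 1 ≤ X := by omega
    have h7 : 0 ≤ p * (X - 1) := mul_nonneg (by linarith) (by linarith)
    linarith
  have h8 : 0 ≤ -(r * X) := by nlinarith
  linarith

private theorem T2N_pt (p q p' q' r' s' X Y : ℤ) (hp : 1 ≤ p) (hq : 1 ≤ q) (hp' : 1 ≤ p')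
    (hq' : 1 ≤ q') (hr' : 1 ≤ r') (hs' : 1 ≤ s')
    (h0 : -p * X - q * Y < 0) (h2 : p' * (X - 1) + q' * (Y - 1) < 0)
    (h3 : 0 ≤ -r' * X + s' * (Y - 1)) : X ≤ 0 ∧ 1 ≤ Y := by
  have hX : X ≤ 0 := by
    by_contra hX
    have hX' : 1 ≤ X := by omega
    have h4 : 1 ≤ r' * X := by nlinarith
    have h5 : 1 ≤ s' * (Y - 1) := by linarith
    have h6 : 1 ≤ Y - 1 := by
      by_contra h7
      have h8 : Y - 1 ≤ 0 := by omega
      have h9 : s' * (Y - 1) ≤ 0 := mul_nonpos_of_nonneg_of_nonpos (by linarith) h8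
      linarith
    have h10 : 0 ≤ p' * (X - 1) := mul_nonneg (by linarith) (by linarith)
    have h11 : 0 ≤ q' * (Y - 1) := mul_nonneg (by linarith) (by linarith)
    linarith
  refine ⟨hX, ?_⟩
  by_contra hY
  have hY' : Y ≤ 0 := by omega
  have h4 : 0 ≤ -(p * X) := by nlinarith
  have h5 : 0 ≤ -(q * Y) := by nlinarith
  linarith

private theorem T2N_core (p q p' q' r s r' s' X Y X' Y' : ℤ) (hp : 1 ≤ p) (hq : 1 ≤ q)
    (hp' : 1 ≤ p') (hq' : 1 ≤ q') (hr : 1 ≤ r) (hs : 1 ≤ s) (hr' : 1 ≤ r') (hs' : 1 ≤ s')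
    (hlt : X < X') (hl : r * (X' - X) = s * (Y' - Y))
    (h0 : -p * X - q * Y < 0) (h2 : p' * (X - 1) + q' * (Y - 1) < 0)
    (h3 : 0 ≤ -r' * X + s' * (Y - 1))
    (k0 : -p * X' - q * Y' < 0) (k2 : p' * (X' - 1) + q' * (Y' - 1) < 0)
    (k3 : 0 ≤ -r' * X' + s' * (Y' - 1)) : p * q' < p' * q := by
  obtain ⟨hX, hY⟩ := T2N_pt p q p' q' r' s' X Y hp hq hp' hq' hr' hs' h0 h2 h3
  obtain ⟨hX', hY'⟩ := T2N_pt p q p' q' r' s' X' Y' hp hq hp' hq' hr' hs' k0 k2 k3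
  have hYY : Y < Y' := by
    by_contra hcon
    have h4 : Y' - Y ≤ 0 := by omega
    have h5 : s * (Y' - Y) ≤ 0 := mul_nonpos_of_nonneg_of_nonpos (by linarith) h4
    have h6 : 0 < r * (X' - X) := mul_pos (by linarith) (by linarith)
    linarith
  have a1 : p * (-X) < q * Y := by linarith
  have a2 : q' * Y < p' * (-X) := by
    have b1 : q' * Y ≤ q' * (Y' - 1) := mul_le_mul_of_nonneg_left (by linarith) (by linarith)
    have b2 : p' * (1 - X') ≤ p' * (-X) := mul_le_mul_of_nonneg_left (by linarith) (by linarith)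
    linarith
  have a3 : q' * (p * (-X)) < q' * (q * Y) := mul_lt_mul_of_pos_left a1 (by linarith)
  have a4 : q * (q' * Y) < q * (p' * (-X)) := mul_lt_mul_of_pos_left a2 (by linarith)
  have a5 : (p * q') * (-X) < (p' * q) * (-X) := by nlinarith
  exact lt_of_mul_lt_mul_right a5 (by linarith)

theorem t2n_half (p q p' q' r s r' s' X Y X' Y' : ℤ) (hp : 1 ≤ p) (hq : 1 ≤ q) (hp' : 1 ≤ p')
    (hq' : 1 ≤ q') (hr : 1 ≤ r) (hs : 1 ≤ s) (hr' : 1 ≤ r') (hs' : 1 ≤ s')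
    (hne : ¬ (X = X' ∧ Y = Y')) (hl : r * (X' - X) = s * (Y' - Y))
    (h0 : -p * X - q * Y < 0) (h2 : p' * (X - 1) + q' * (Y - 1) < 0)
    (h3 : 0 ≤ -r' * X + s' * (Y - 1))
    (k0 : -p * X' - q * Y' < 0) (k2 : p' * (X' - 1) + q' * (Y' - 1) < 0)
    (k3 : 0 ≤ -r' * X' + s' * (Y' - 1)) : p * q' < p' * q := by
  rcases lt_trichotomy X X' with h | h | h
  · exact T2N_core p q p' q' r s r' s' X Y X' Y' hp hq hp' hq' hr hs hr' hs' h hl h0 h2 h3 k0 k2 k3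
  · exfalso
    apply hne
    refine ⟨h, ?_⟩
    rw [h, sub_self, mul_zero] at hl
    have h4 := mul_eq_zero.1 hl.symm
    rcases h4 with h4 | h4
    · omega
    · omega
  · exact T2N_core p q p' q' r s r' s' X' Y' X Y hp hq hp' hq' hr hs hr' hs' h (by linarith)
      k0 k2 k3 h0 h2 h3

theorem t2n_alt (p q p' q' r s r' s' X Y X' Y' U V U' V' : ℤ) (hp : 1 ≤ p) (hq : 1 ≤ q)
    (hp' : 1 ≤ p') (hq' : 1 ≤ q') (hr : 1 ≤ r) (hs : 1 ≤ s) (hr' : 1 ≤ r') (hs' : 1 ≤ s')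
    (hne : ¬ (X = X' ∧ Y = Y')) (hl : r * (X' - X) = s * (Y' - Y))
    (h0 : -p * X - q * Y < 0) (h2 : p' * (X - 1) + q' * (Y - 1) < 0)
    (h3 : 0 ≤ -r' * X + s' * (Y - 1))
    (k0 : -p * X' - q * Y' < 0) (k2 : p' * (X' - 1) + q' * (Y' - 1) < 0)
    (k3 : 0 ≤ -r' * X' + s' * (Y' - 1))
    (hne' : ¬ (U = U' ∧ V = V')) (hl' : r' * (U' - U) = s' * (V' - V))
    (m0 : -p * U - q * V < 0) (m2 : p' * (U - 1) + q' * (V - 1) < 0)
    (m1 : 0 ≤ r * (U - 1) - s * V)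
    (n0 : -p * U' - q * V' < 0) (n2 : p' * (U' - 1) + q' * (V' - 1) < 0)
    (n1 : 0 ≤ r * (U' - 1) - s * V') : False := by
  have A := t2n_half p q p' q' r s r' s' X Y X' Y' hp hq hp' hq' hr hs hr' hs' hne hl h0 h2 h3
    k0 k2 k3
  have B := t2n_half q p q' p' s' r' s r V U V' U' hq hp hq' hp' hs' hr' hs hr
    (fun h => hne' ⟨h.2, h.1⟩) (by linarith) (by linarith) (by linarith) (by linarith)
    (by linarith) (by linarith) (by linarith)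
  linarith [mul_comm q p', mul_comm q' p]

end H66OD
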