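import Pool.Agent.H66.OD.PGM
import Pool.Agent.H66.OD.T2N

/-!
# Row T2C (about 180 lines)

Core of the planar theorem: functionals `ψ 0, ψ 1` are of F-type, `ψ 2, ψ 3` of S-type. `PF X Y`
((X,Y) is an integer point of F) forces `ψ 0, ψ 1 ≤ -1`, `PT X Y` forces `ψ 2, ψ 3 ≤ -1`. `hsep`:
no integer affine functional separates. `hE`: for `i = 2,3` two distinct `PF`-points on a line
parallel to the zero line of `ψ i`, with `ψ i ≤ -1` at both.

PROOF. `pgm` gives that all triangles are unimodular and one of three parallelogram relations.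
Write `P i = (x i, y i)`. For a choice `(A,B,C,D)` of the indices with `P A + P C = P B + P D` use the
coordinates `X' , Y'` with `P = P A + X' (P B - P A) + Y' (P D - P A)`: with
`ε = det(P B - P A, P D - P A) = ±1`, `X' = ε det(P - P A, P D - P A)`,
`Y' = ε det(P B - P A, P - P A)`, integers, integer affine functions of `P`. In these coordinates
`P A = (0,0)`, `P B = (1,0)`, `P C = (1,1)`, `P D = (0,1)` and
`ψ l (P) = ψ l(P A) + X' (ψ l(P B) - ψ l(P A)) + Y' (ψ l(P D) - ψ l(P A))`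
(a polynomial identity using `ε² = 1`), so with `h0`, `h1`:
`ψ A = -p X' - q Y'`, `p = -ψ A(P B) ≥ 1`, `q = -ψ A(P D) ≥ 1`;
`ψ B = r (X'-1) - s Y'`, `r = -ψ B(P A) ≥ 1`, `s = -ψ B (P C) ≥ 1` (for the coefficient of `Y'`:
 `ψ B(P D) - ψ B(P A) = ψ B (P C) - ψ B (P B) = ψ B (P C)`);
`ψ C = p'(X'-1) + q'(Y'-1)`, `p' = -ψ C(P D) ≥ 1`, `q' = -ψ C(P B) ≥ 1`;
`ψ D = -r' X' + s'(Y'-1)`, `r' = -ψ D(P C) ≥ 1`, `s' = -ψ D(P A) ≥ 1`.
(It is convenient to prove this change of coordinates once as an auxiliary lemma for a general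
quadruple of points and functionals.)

Case `P 0 + P 2 = P 1 + P 3`: `(A,B,C,D) = (0,1,2,3)`. `t2n_adj1` : `PF` points have `Y' ≥ 1`,
 `t2n_adj2`: `PT` points have `Y' ≤ 0`. `Y'` is an integer affine functional of `(X,Y)`: `hsep`.
Case `P 0 + P 3 = P 1 + P 2`: `(A,B,C,D) = (0,1,3,2)`: the same.
Case `P 0 + P 1 = P 2 + P 3`: `(A,B,C,D) = (0,2,1,3)`: alternating. `hE 2` gives two distinct `PF`
 points with `ψ 2 ≤ -1` at both (and `ψ 0, ψ 1 ≤ -1`), so by `hcov` `ψ 3 ≥ 0` at both; the linear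
 part of `ψ 2 = ψ B` vanishes on their difference: in the coordinates, `r (X''-X') = s (Y''-Y')`.
 `hE 3` gives two distinct `PF` points with `ψ 3 ≤ -1`, so `ψ 2 = ψ B ≥ 0`, and
 `r'(U''-U') = s' (V''-V')`. `t2n_alt` gives `False`.
-/

namespace H66OD

theorem T2C_coord (a b c x0 y0 x1 y1 x3 y3 D X Y : ℤ)
    (hD : D = (x1 - x0) * (y3 - y0) - (y1 - y0) * (x3 - x0)) (hD2 : D * D = 1) :
    a * X + b * Y + c = (a * x0 + b * y0 + c) +
      D * ((X - x0) * (y3 - y0) - (Y - y0) * (x3 - x0)) *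
        ((a * x1 + b * y1 + c) - (a * x0 + b * y0 + c)) +
      D * ((x1 - x0) * (Y - y0) - (y1 - y0) * (X - x0)) *
        ((a * x3 + b * y3 + c) - (a * x0 + b * y0 + c)) := by
  have h1 : X - x0 = D * ((X - x0) * (y3 - y0) - (Y - y0) * (x3 - x0)) * (x1 - x0) +
      D * ((x1 - x0) * (Y - y0) - (y1 - y0) * (X - x0)) * (x3 - x0) := by
    linear_combination (-(X - x0)) * hD2 + (X - x0) * D * hD
  have h2 : Y - y0 = D * ((X - x0) * (y3 - y0) - (Y - y0) * (x3 - x0)) * (y1 - y0) +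
      D * ((x1 - x0) * (Y - y0) - (y1 - y0) * (X - x0)) * (y3 - y0) := by
    linear_combination (-(Y - y0)) * hD2 + (Y - y0) * D * hD
  linear_combination a * h1 + b * h2

/-- coordinates of a parallelogram -/
theorem T2C_frame (α β γ x y : Fin 4 → ℤ) (h0 : ∀ i, α i * x i + β i * y i + γ i = 0)
    (h1 : ∀ i j, j ≠ i → α j * x i + β j * y i + γ j ≤ -1) (A B C D : Fin 4)
    (hAB : A ≠ B) (hAD : A ≠ D) (hBC : B ≠ C) (hCD : C ≠ D)
    (hdet : (x B - x A) * (y D - y A) - (y B - y A) * (x D - x A) = 1 ∨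
      (x B - x A) * (y D - y A) - (y B - y A) * (x D - x A) = -1)
    (hx : x A + x C = x B + x D) (hy : y A + y C = y B + y D) :
    ∃ a b c a' b' c' p q r s p' q' r' s' : ℤ, 1 ≤ p ∧ 1 ≤ q ∧ 1 ≤ r ∧ 1 ≤ s ∧ 1 ≤ p' ∧ 1 ≤ q' ∧
      1 ≤ r' ∧ 1 ≤ s' ∧
      (∀ X Y X2 Y2 : ℤ, a * X + b * Y + c = a * X2 + b * Y2 + c →
        a' * X + b' * Y + c' = a' * X2 + b' * Y2 + c' → X = X2 ∧ Y = Y2) ∧
      (∀ X Y : ℤ, α A * X + β A * Y + γ A =
        -p * (a * X + b * Y + c) - q * (a' * X + b' * Y + c')) ∧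
      (∀ X Y : ℤ, α B * X + β B * Y + γ B =
        r * ((a * X + b * Y + c) - 1) - s * (a' * X + b' * Y + c')) ∧
      (∀ X Y : ℤ, α C * X + β C * Y + γ C =
        p' * ((a * X + b * Y + c) - 1) + q' * ((a' * X + b' * Y + c') - 1)) ∧
      (∀ X Y : ℤ, α D * X + β D * Y + γ D =
        -r' * (a * X + b * Y + c) + s' * ((a' * X + b' * Y + c') - 1)) := by
  obtain ⟨d, hd⟩ : ∃ d, d = (x B - x A) * (y D - y A) - (y B - y A) * (x D - x A) := ⟨_, rfl⟩
  have hd2 : d * d = 1 := by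
    rw [← hd] at hdet
    rcases hdet with h | h <;> rw [h] <;> norm_num
  have e1 : ∀ X Y : ℤ, d * ((X - x A) * (y D - y A) - (Y - y A) * (x D - x A)) =
      d * (y D - y A) * X + -(d * (x D - x A)) * Y +
        d * (-(x A) * (y D - y A) + y A * (x D - x A)) := fun X Y => by ring
  have e2 : ∀ X Y : ℤ, d * ((x B - x A) * (Y - y A) - (y B - y A) * (X - x A)) =
      -(d * (y B - y A)) * X + d * (x B - x A) * Y +
        d * (-(x B - x A) * y A + (y B - y A) * x A) := fun X Y => by ring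
  have hco := fun (i : Fin 4) (X Y : ℤ) =>
    T2C_coord (α i) (β i) (γ i) (x A) (y A) (x B) (y B) (x D) (y D) d X Y hd hd2
  refine ⟨d * (y D - y A), -(d * (x D - x A)), d * (-(x A) * (y D - y A) + y A * (x D - x A)),
    -(d * (y B - y A)), d * (x B - x A), d * (-(x B - x A) * y A + (y B - y A) * x A),
    -(α A * x B + β A * y B + γ A), -(α A * x D + β A * y D + γ A),
    -(α B * x A + β B * y A + γ B), -(α B * x C + β B * y C + γ B),
    -(α C * x D + β C * y D + γ C), -(α C * x B + β C * y B + γ C),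
    -(α D * x C + β D * y C + γ D), -(α D * x A + β D * y A + γ D), ?_, ?_, ?_, ?_, ?_, ?_, ?_, ?_,
    ?_, ?_, ?_, ?_, ?_⟩
  · have := h1 B A hAB
    linarith
  · have := h1 D A hAD
    linarith
  · have := h1 A B hAB.symm
    linarith
  · have := h1 C B hBC
    linarith
  · have := h1 D C hCD
    linarith
  · have := h1 B C hBC.symm
    linarith
  · have := h1 C D hCD.symm
    linarith
  · have := h1 A D hAD.symm
    linarith
  · intro X Y X2 Y2 k1 k2
    have k3 := T2C_coord 1 0 0 (x A) (y A) (x B) (y B) (x D) (y D) d X Y hd hd2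
    have k4 := T2C_coord 1 0 0 (x A) (y A) (x B) (y B) (x D) (y D) d X2 Y2 hd hd2
    have k5 := T2C_coord 0 1 0 (x A) (y A) (x B) (y B) (x D) (y D) d X Y hd hd2
    have k6 := T2C_coord 0 1 0 (x A) (y A) (x B) (y B) (x D) (y D) d X2 Y2 hd hd2
    rw [e1, e2, k1, k2, ← e1, ← e2] at k3 k5
    constructor
    · linear_combination k3 - k4
    · linear_combination k5 - k6
  · intro X Y
    rw [← e1, ← e2]
    linear_combination hco A X Y + (1 - d * ((X - x A) * (y D - y A) - (Y - y A) * (x D - x A)) -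
      d * ((x B - x A) * (Y - y A) - (y B - y A) * (X - x A))) * h0 A
  · intro X Y
    rw [← e1, ← e2]
    generalize hU : d * ((X - x A) * (y D - y A) - (Y - y A) * (x D - x A)) = U
    generalize hV : d * ((x B - x A) * (Y - y A) - (y B - y A) * (X - x A)) = W
    have hc := hco B X Y
    rw [hU, hV] at hc
    linear_combination hc + (U - W) * h0 B - W * α B * hx - W * β B * hy
  · intro X Y
    rw [← e1, ← e2]
    generalize hU : d * ((X - x A) * (y D - y A) - (Y - y A) * (x D - x A)) = U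
    generalize hV : d * ((x B - x A) * (Y - y A) - (y B - y A) * (X - x A)) = W
    have hc := hco C X Y
    rw [hU, hV] at hc
    linear_combination hc + (U + W - 1) * h0 C + (1 - U - W) * α C * hx + (1 - U - W) * β C * hy
  · intro X Y
    rw [← e1, ← e2]
    generalize hU : d * ((X - x A) * (y D - y A) - (Y - y A) * (x D - x A)) = U
    generalize hV : d * ((x B - x A) * (Y - y A) - (y B - y A) * (X - x A)) = W
    have hc := hco D X Y
    rw [hU, hV] at hc
    linear_combination hc + (W - U) * h0 D - U * α D * hx - U * β D * hy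

theorem t2c (α β γ x y : Fin 4 → ℤ) (PF PT : ℤ → ℤ → Prop)
    (h0 : ∀ i, α i * x i + β i * y i + γ i = 0)
    (h1 : ∀ i j, j ≠ i → α j * x i + β j * y i + γ j ≤ -1)
    (hcov : ∀ X Y : ℤ, ∃ i, 0 ≤ α i * X + β i * Y + γ i)
    (hPF0 : ∀ X Y, PF X Y → α 0 * X + β 0 * Y + γ 0 ≤ -1)
    (hPF1 : ∀ X Y, PF X Y → α 1 * X + β 1 * Y + γ 1 ≤ -1)
    (hPT2 : ∀ X Y, PT X Y → α 2 * X + β 2 * Y + γ 2 ≤ -1)
    (hPT3 : ∀ X Y, PT X Y → α 3 * X + β 3 * Y + γ 3 ≤ -1)
    (hsep : ∀ a b c : ℤ, (∀ X Y, PF X Y → 1 ≤ a * X + b * Y + c) →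
      (∀ X Y, PT X Y → a * X + b * Y + c ≤ 0) → False)
    (hE : ∀ i : Fin 4, i = 2 ∨ i = 3 → ∃ X Y X' Y' : ℤ, ¬ (X = X' ∧ Y = Y') ∧ PF X Y ∧ PF X' Y' ∧
      α i * X + β i * Y + γ i ≤ -1 ∧ α i * X' + β i * Y' + γ i ≤ -1 ∧
      α i * (X' - X) + β i * (Y' - Y) = 0) : False := by
  obtain ⟨hdet, hpar⟩ := pgm α β γ x y h0 h1 hcov
  -- adjacent cases
  have adj : ∀ C D : Fin 4, ((C = 2 ∧ D = 3) ∨ (C = 3 ∧ D = 2)) → x 0 + x C = x 1 + x D →
      y 0 + y C = y 1 + y D → False := by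
    intro C D hCD hx hy
    have hne : (1 : Fin 4) ≠ C ∧ (0 : Fin 4) ≠ D ∧ C ≠ D ∧ (1 : Fin 4) ≠ D := by
      rcases hCD with ⟨rfl, rfl⟩ | ⟨rfl, rfl⟩ <;> decide
    obtain ⟨a, b, c, a', b', c', p, q, r, s, p', q', r', s', hp, hq, hr, hs, hp', hq', hr', hs', -,
      f0, f1, f2, f3⟩ := T2C_frame α β γ x y h0 h1 0 1 C D (by decide) hne.2.1 hne.1 hne.2.2.1
        (hdet 0 1 D (by decide) hne.2.1 hne.2.2.2) hx hy
    refine hsep a' b' c' ?_ ?_
    · intro X Y hXY
      have g0 := hPF0 X Y hXY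
      have g1 := hPF1 X Y hXY
      rw [f0] at g0
      rw [f1] at g1
      exact t2n_adj1 p q r s (a * X + b * Y + c) _ hp hq hr hs (by linarith) (by linarith)
    · intro X Y hXY
      have g2 : α C * X + β C * Y + γ C ≤ -1 := by
        rcases hCD with ⟨rfl, rfl⟩ | ⟨rfl, rfl⟩
        · exact hPT2 X Y hXY
        · exact hPT3 X Y hXY
      have g3 : α D * X + β D * Y + γ D ≤ -1 := by
        rcases hCD with ⟨rfl, rfl⟩ | ⟨rfl, rfl⟩
        · exact hPT3 X Y hXY
        · exact hPT2 X Y hXY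
      rw [f2] at g2
      rw [f3] at g3
      exact t2n_adj2 p' q' r' s' (a * X + b * Y + c) _ hp' hq' hr' hs' (by linarith) (by linarith)
  rcases hpar with ⟨hx, hy⟩ | ⟨hx, hy⟩ | ⟨hx, hy⟩
  · obtain ⟨a, b, c, a', b', c', p, q, r, s, p', q', r', s', hp, hq, hr, hs, hp', hq', hr', hs', inj,
      f0, f2, f1, f3⟩ := T2C_frame α β γ x y h0 h1 0 2 1 3 (by decide) (by decide) (by decide)
        (by decide) (hdet 0 2 3 (by decide) (by decide) (by decide)) hx hy
    obtain ⟨X, Y, X', Y', hne, hF, hF', g2, g2', hlin⟩ := hE 2 (Or.inl rfl)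
    obtain ⟨U, V, U', V', hne', hG, hG', g3, g3', hlin'⟩ := hE 3 (Or.inr rfl)
    have cov : ∀ X Y : ℤ, PF X Y → α 2 * X + β 2 * Y + γ 2 ≤ -1 →
        0 ≤ α 3 * X + β 3 * Y + γ 3 := by
      intro X Y h2 h3
      obtain ⟨i, hi⟩ := hcov X Y
      have k0 := hPF0 X Y h2
      have k1 := hPF1 X Y h2
      fin_cases i
      · simp only [Fin.zero_eta] at hi
        omega
      · simp only [Fin.mk_one] at hi
        omega
      · simp only [Fin.reduceFinMk] at hi
        omega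
      · simpa only [Fin.reduceFinMk] using hi
    have cov' : ∀ X Y : ℤ, PF X Y → α 3 * X + β 3 * Y + γ 3 ≤ -1 →
        0 ≤ α 2 * X + β 2 * Y + γ 2 := by
      intro X Y h2 h3
      by_contra hcon
      have := cov X Y h2 (by omega)
      omega
    have k1 := hPF0 X Y hF
    have k2 := hPF1 X Y hF
    have k3 := cov X Y hF g2
    have k1' := hPF0 X' Y' hF'
    have k2' := hPF1 X' Y' hF'
    have k3' := cov X' Y' hF' g2'
    have m1 := hPF0 U V hG
    have m2 := hPF1 U V hG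
    have m3 := cov' U V hG g3
    have m1' := hPF0 U' V' hG'
    have m2' := hPF1 U' V' hG'
    have m3' := cov' U' V' hG' g3'
    rw [f0] at k1 k1' m1 m1'
    rw [f1] at k2 k2' m2 m2'
    rw [f3] at k3 k3'
    rw [f2] at m3 m3'
    have l1 : r * ((a * X' + b * Y' + c) - (a * X + b * Y + c)) =
        s * ((a' * X' + b' * Y' + c') - (a' * X + b' * Y + c')) := by
      linear_combination f2 X Y - f2 X' Y' + hlin
    have l2 : r' * ((a * U' + b * V' + c) - (a * U + b * V + c)) =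
        s' * ((a' * U' + b' * V' + c') - (a' * U + b' * V + c')) := by
      linear_combination f3 U' V' - f3 U V - hlin'
    exact t2n_alt p q p' q' r s r' s' (a * X + b * Y + c) (a' * X + b' * Y + c')
      (a * X' + b * Y' + c) (a' * X' + b' * Y' + c') (a * U + b * V + c) (a' * U + b' * V + c')
      (a * U' + b * V' + c) (a' * U' + b' * V' + c') hp hq hp' hq' hr hs hr' hs'
      (fun h => hne (inj X Y X' Y' h.1 h.2)) l1 (by linarith) (by linarith) (by linarith)
      (by linarith) (by linarith) (by linarith) (fun h => hne' (inj U V U' V' h.1 h.2)) l2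
      (by linarith) (by linarith) (by linarith) (by linarith) (by linarith) (by linarith)
  · exact adj 2 3 (Or.inl ⟨rfl, rfl⟩) hx hy
  · exact adj 3 2 (Or.inr ⟨rfl, rfl⟩) hx hy

end H66OD
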