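import Pool.Agent.H66.OD.ACL
import Pool.Agent.H66.OD.PAR2
import Pool.Agent.H66.OD.T2C

/-!
# Row T2 (about 200 lines): the planar theorem

`g l (X,Y) = p l X + q l Y + b l` and `s l (X,Y) = p l X + q l Y + b' l` (same linear parts).
`F = {g l ≥ 0 ∀ l}`, `S = {s l ≥ 0 ∀ l}`; every `g l` vanishes at two distinct integer points of `F`,
every `s l` vanishes at an integer point of `S`; `x = (x1,x2)` is an integer point with
`g l + s l ≥ 0` at `x` in the sense `hc`; `hsep`: the integer points of `F` and of `x - S` are not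
separated by an integer affine functional. Then `x` is the sum of an integer point of `F` and an
integer point of `S`.

PROOF. Suppose not. Let `Φ = ι × Bool`, `N (l,true) (X,Y) = -(g l (X,Y))` (F-type) and
`N (l,false) (X,Y) = -(s l (x1-X, x2-Y))` (S-type), thresholds `T0 = 1`. By assumption every integer
point `(X,Y)` has some functional `≥ 1`. Apply `acl` (with `X := ℤ × ℤ`, `S := Finset.univ`, classical
`DecidableEq`): get `I`, `T ≥ 1`, touching points `w`. Put `ψ φ = N φ - T φ`: these are integer affine: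
for `(l,true)`: `α = -p l, β = -q l, γ = -b l - T`; for `(l,false)`:
`α = p l, β = q l, γ = -(p l x1 + q l x2 + b' l) - T`. `par2` gives `I.card ≤ 4`.
Claims:
(0) `I` contains an S-type element: otherwise take an integer point `(X,Y)` of `F` (`hne`): all F-type
 functionals are `≤ 0 < T` there, contradicting the covering.
(0') `I` contains an F-type element: otherwise take `(x1 - X, x2 - Y)` with `(X,Y) ∈ S` (`hne'`).
(1) `I` does not contain exactly one S-type element `(m,false)`: take `(X,Y) ∈ F` with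
 `g m (X,Y) = 0` (`hF m`): F-types are `≤ 0`, and `N (m,false)(X,Y) = -s m (x - (X,Y)) =
 -(p m x1 + q m x2 + b m + b' m) + g m (X,Y) ≤ 0` by `hc`. Uncovered.
(1') `I` does not contain exactly one F-type element `(l,true)`: take `(X,Y) ∈ S` with
 `s l (X,Y) = 0` (`hS l`) and the point `(x1 - X, x2 - Y)`: S-types are `-s m(X,Y) ≤ 0`, and
 `-g l (x1-X,x2-Y) = -(p l x1 + q l x2 + b l + b' l) + s l (X,Y) ≤ 0`. Uncovered.
So `I` has at least two F-type and two S-type elements, hence (card ≤ 4) exactly two and two: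
`I = {f1,f2,s1,s2}`. Apply `t2c` with the four functionals `ψ`, the points `w`,
`PF X Y := ∀ m, 0 ≤ g m (X,Y)`, `PT X Y := ∀ m, 0 ≤ s m (x1 - X, x2 - Y)`
(`hPF`: `-g - T ≤ -1`; `hPT`: the same; `hsep`: use the hypothesis `hsep` with the substitution
`(X,Y) → (x1-X,x2-Y)`; `hE`: for `s1 = (m,false)` the two points of `hF m`:
`ψ = -s m (x - (X,Y)) - T ≤ -T ≤ -1` as in (1), and
`p m (X'-X) + q m (Y'-Y) = g m (X',Y') - g m (X,Y) = 0`).
-/

namespace H66OD

/-- first coefficient -/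
def T2_A {ι : Type} (p : ι → ℤ) (φ : ι × Bool) : ℤ := if φ.2 then -p φ.1 else p φ.1

/-- constant coefficient -/
def T2_G {ι : Type} (p q b b' : ι → ℤ) (x1 x2 : ℤ) (φ : ι × Bool) : ℤ :=
  if φ.2 then -b φ.1 else -(p φ.1 * x1 + q φ.1 * x2 + b' φ.1)

/-- the functional -/
def T2_N {ι : Type} (p q b b' : ι → ℤ) (x1 x2 : ℤ) (φ : ι × Bool) (P : ℤ × ℤ) : ℤ :=
  T2_A p φ * P.1 + T2_A q φ * P.2 + T2_G p q b b' x1 x2 φ

theorem T2_N_true {ι : Type} (p q b b' : ι → ℤ) (x1 x2 : ℤ) (l : ι) (X Y : ℤ) :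
    T2_N p q b b' x1 x2 (l, true) (X, Y) = -(p l * X + q l * Y + b l) := by
  unfold T2_N T2_A T2_G
  simp only [if_true]
  ring

theorem T2_N_false {ι : Type} (p q b b' : ι → ℤ) (x1 x2 : ℤ) (l : ι) (X Y : ℤ) :
    T2_N p q b b' x1 x2 (l, false) (X, Y) = -(p l * (x1 - X) + q l * (x2 - Y) + b' l) := by
  unfold T2_N T2_A T2_G
  simp only [Bool.false_eq_true, if_false]
  ring

theorem t2 {ι : Type} [Fintype ι] (p q b b' : ι → ℤ) (x1 x2 : ℤ)
    (hF : ∀ l, ∃ X Y X' Y' : ℤ, ¬ (X = X' ∧ Y = Y') ∧ p l * X + q l * Y + b l = 0 ∧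
      p l * X' + q l * Y' + b l = 0 ∧ (∀ m, 0 ≤ p m * X + q m * Y + b m) ∧
      (∀ m, 0 ≤ p m * X' + q m * Y' + b m))
    (hS : ∀ l, ∃ X Y : ℤ, p l * X + q l * Y + b' l = 0 ∧ ∀ m, 0 ≤ p m * X + q m * Y + b' m)
    (hne : ∃ X Y : ℤ, ∀ m, 0 ≤ p m * X + q m * Y + b m)
    (hne' : ∃ X Y : ℤ, ∀ m, 0 ≤ p m * X + q m * Y + b' m)
    (hc : ∀ l, 0 ≤ p l * x1 + q l * x2 + b l + b' l)
    (hsep : ∀ α β γ : ℤ,
      (∀ X Y : ℤ, (∀ m, 0 ≤ p m * X + q m * Y + b m) → 1 ≤ α * X + β * Y + γ) →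
      (∀ X Y : ℤ, (∀ m, 0 ≤ p m * X + q m * Y + b' m) → α * (x1 - X) + β * (x2 - Y) + γ ≤ 0) →
      False) :
    ∃ X Y : ℤ, (∀ m, 0 ≤ p m * X + q m * Y + b m) ∧
      (∀ m, 0 ≤ p m * (x1 - X) + q m * (x2 - Y) + b' m) := by
  classical
  by_contra hno
  push Not at hno
  obtain ⟨N, hN⟩ : ∃ N : ι × Bool → ℤ × ℤ → ℤ, N = T2_N p q b b' x1 x2 := ⟨_, rfl⟩
  have hNt : ∀ l X Y, N (l, true) (X, Y) = -(p l * X + q l * Y + b l) := fun l X Y => by
    rw [hN]; exact T2_N_true p q b b' x1 x2 l X Y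
  have hNf : ∀ l X Y, N (l, false) (X, Y) = -(p l * (x1 - X) + q l * (x2 - Y) + b' l) :=
    fun l X Y => by rw [hN]; exact T2_N_false p q b b' x1 x2 l X Y
  have hlin : ∀ φ P, N φ P = T2_A p φ * P.1 + T2_A q φ * P.2 + T2_G p q b b' x1 x2 φ := fun φ P => by
    rw [hN]; rfl
  have hcov0 : ∀ P : ℤ × ℤ, ∃ φ ∈ (Finset.univ : Finset (ι × Bool)), (1 : ℤ) ≤ N φ P := by
    rintro ⟨X, Y⟩
    by_cases h : ∀ m, 0 ≤ p m * X + q m * Y + b m
    · obtain ⟨m, hm⟩ := hno X Y h
      refine ⟨(m, false), Finset.mem_univ _, ?_⟩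
      rw [hNf]
      omega
    · push Not at h
      obtain ⟨m, hm⟩ := h
      refine ⟨(m, true), Finset.mem_univ _, ?_⟩
      rw [hNt]
      omega
  obtain ⟨I, T, w, _, hIne, hT, hw, hww, hcov⟩ := acl Finset.univ N (fun _ => 1) hcov0
  -- at most four
  have hcard : I.card ≤ 4 := by
    refine par2 I (T2_A p) (T2_A q) (fun φ => T2_G p q b b' x1 x2 φ - T φ) (fun φ => (w φ).1)
      (fun φ => (w φ).2) ?_ ?_ ?_
    · intro φ hφ
      have := hw φ hφ
      rw [hlin] at this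
      linarith
    · intro φ hφ ψ hψ hne2
      have := hww φ hφ ψ hψ hne2
      rw [hlin] at this
      have h2 : T2_A p ψ * (w φ).1 + T2_A q ψ * (w φ).2 + T2_G p q b b' x1 x2 ψ + 1 ≤ T ψ := this
      show T2_A p ψ * (w φ).1 + T2_A q ψ * (w φ).2 + (T2_G p q b b' x1 x2 ψ - T ψ) ≤ -1
      linarith
    · intro X Y
      obtain ⟨φ, hφ, h⟩ := hcov (X, Y)
      refine ⟨φ, hφ, ?_⟩
      rw [hlin] at h
      show 0 ≤ T2_A p φ * X + T2_A q φ * Y + (T2_G p q b b' x1 x2 φ - T φ)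
      have h2 : T φ ≤ T2_A p φ * X + T2_A q φ * Y + T2_G p q b b' x1 x2 φ := h
      linarith
  have hkill : ∀ P : ℤ × ℤ, (∀ φ ∈ I, N φ P ≤ 0) → False := by
    intro P h
    obtain ⟨φ, hφ, h2⟩ := hcov P
    have h3 := h φ hφ
    have h4 : (1 : ℤ) ≤ T φ := hT φ hφ
    omega
  -- values at good points
  have hFv : ∀ m X Y, (∀ m, 0 ≤ p m * X + q m * Y + b m) → N (m, true) (X, Y) ≤ 0 := by
    intro m X Y h
    rw [hNt]
    have := h m
    omega
  have hSv : ∀ m X Y, (∀ m, 0 ≤ p m * X + q m * Y + b' m) → N (m, false) (x1 - X, x2 - Y) ≤ 0 := by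
    intro m X Y h
    rw [hNf, sub_sub_cancel, sub_sub_cancel]
    have := h m
    omega
  have hFz : ∀ m X Y, p m * X + q m * Y + b m = 0 → N (m, false) (X, Y) ≤ 0 := by
    intro m X Y h
    rw [hNf]
    have h2 := hc m
    have e : -(p m * (x1 - X) + q m * (x2 - Y) + b' m)
        = (p m * X + q m * Y + b m) - (p m * x1 + q m * x2 + b m + b' m) := by ring
    rw [e, h]
    omega
  have hSz : ∀ m X Y, p m * X + q m * Y + b' m = 0 → N (m, true) (x1 - X, x2 - Y) ≤ 0 := by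
    intro m X Y h
    rw [hNt]
    have h2 := hc m
    have e : -(p m * (x1 - X) + q m * (x2 - Y) + b m)
        = (p m * X + q m * Y + b' m) - (p m * x1 + q m * x2 + b m + b' m) := by ring
    rw [e, h]
    omega
  obtain ⟨IF, hIF⟩ : ∃ IF, IF = I.filter (fun φ => φ.2 = true) := ⟨_, rfl⟩
  obtain ⟨IS, hIS⟩ : ∃ IS, IS = I.filter (fun φ => φ.2 = false) := ⟨_, rfl⟩
  have hsum : IF.card + IS.card = I.card := by
    have h := Finset.card_filter_add_card_filter_not (s := I) (fun φ : ι × Bool => φ.2 = true)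
    have h2 : I.filter (fun φ : ι × Bool => ¬ φ.2 = true) = I.filter (fun φ => φ.2 = false) := by
      refine Finset.filter_congr fun φ _ => ?_
      simp
    rw [h2] at h
    rw [hIF, hIS]
    exact h
  have hSge : 2 ≤ IS.card := by
    by_contra hlt
    have hle : IS.card ≤ 1 := by omega
    rw [Finset.card_le_one] at hle
    rcases IS.eq_empty_or_nonempty with h | ⟨⟨m, v⟩, hm⟩
    · obtain ⟨X, Y, hXY⟩ := hne
      refine hkill (X, Y) ?_
      rintro ⟨l, v⟩ hl
      cases v with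
      | true => exact hFv l X Y hXY
      | false =>
        have : (l, false) ∈ IS := by rw [hIS]; exact Finset.mem_filter.2 ⟨hl, rfl⟩
        rw [h] at this
        exact absurd this (Finset.notMem_empty _)
    · have hv : v = false := by
        rw [hIS] at hm
        exact (Finset.mem_filter.1 hm).2
      subst hv
      obtain ⟨X, Y, X', Y', _, h1, _, h3, _⟩ := hF m
      refine hkill (X, Y) ?_
      rintro ⟨l, v⟩ hl
      cases v with
      | true => exact hFv l X Y h3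
      | false =>
        have h4 : (l, false) ∈ IS := by rw [hIS]; exact Finset.mem_filter.2 ⟨hl, rfl⟩
        have h5 := hle _ h4 _ hm
        rw [h5]
        exact hFz m X Y h1
  have hFge : 2 ≤ IF.card := by
    by_contra hlt
    have hle : IF.card ≤ 1 := by omega
    rw [Finset.card_le_one] at hle
    rcases IF.eq_empty_or_nonempty with h | ⟨⟨m, v⟩, hm⟩
    · obtain ⟨X, Y, hXY⟩ := hne'
      refine hkill (x1 - X, x2 - Y) ?_
      rintro ⟨l, v⟩ hl
      cases v with
      | false => exact hSv l X Y hXY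
      | true =>
        have : (l, true) ∈ IF := by rw [hIF]; exact Finset.mem_filter.2 ⟨hl, rfl⟩
        rw [h] at this
        exact absurd this (Finset.notMem_empty _)
    · have hv : v = true := by
        rw [hIF] at hm
        exact (Finset.mem_filter.1 hm).2
      subst hv
      obtain ⟨X, Y, h1, h3⟩ := hS m
      refine hkill (x1 - X, x2 - Y) ?_
      rintro ⟨l, v⟩ hl
      cases v with
      | false => exact hSv l X Y h3
      | true =>
        have h4 : (l, true) ∈ IF := by rw [hIF]; exact Finset.mem_filter.2 ⟨hl, rfl⟩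
        have h5 := hle _ h4 _ hm
        rw [h5]
        exact hSz m X Y h1
  have hF2 : IF.card = 2 := by omega
  have hS2 : IS.card = 2 := by omega
  obtain ⟨f1, f2, hf12, hIF2⟩ := Finset.card_eq_two.1 hF2
  obtain ⟨s1, s2, hs12, hIS2⟩ := Finset.card_eq_two.1 hS2
  have hf1 : f1 ∈ I ∧ f1.2 = true := by
    have : f1 ∈ IF := by rw [hIF2]; simp
    rw [hIF] at this; exact Finset.mem_filter.1 this
  have hf2 : f2 ∈ I ∧ f2.2 = true := by
    have : f2 ∈ IF := by rw [hIF2]; simp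
    rw [hIF] at this; exact Finset.mem_filter.1 this
  have hs1 : s1 ∈ I ∧ s1.2 = false := by
    have : s1 ∈ IS := by rw [hIS2]; simp
    rw [hIS] at this; exact Finset.mem_filter.1 this
  have hs2 : s2 ∈ I ∧ s2.2 = false := by
    have : s2 ∈ IS := by rw [hIS2]; simp
    rw [hIS] at this; exact Finset.mem_filter.1 this
  have hfs : ∀ f g : ι × Bool, f.2 = true → g.2 = false → f ≠ g := by
    rintro f g h1 h2 rfl
    rw [h1] at h2
    exact absurd h2 (by decide)
  obtain ⟨e, he⟩ : ∃ e : Fin 4 → ι × Bool, e = ![f1, f2, s1, s2] := ⟨_, rfl⟩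
  have e0 : e 0 = f1 := by rw [he]; rfl
  have e1 : e 1 = f2 := by rw [he]; rfl
  have e2 : e 2 = s1 := by rw [he]; rfl
  have e3 : e 3 = s2 := by rw [he]; rfl
  have heI : ∀ i, e i ∈ I := by
    intro i
    fin_cases i
    · show e 0 ∈ I
      rw [e0]; exact hf1.1
    · show e 1 ∈ I
      rw [e1]; exact hf2.1
    · show e 2 ∈ I
      rw [e2]; exact hs1.1
    · show e 3 ∈ I
      rw [e3]; exact hs2.1
  have heinj : ∀ i j : Fin 4, j ≠ i → e j ≠ e i := by
    have h01 := hf12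
    have h23 := hs12
    have h02 := hfs f1 s1 hf1.2 hs1.2
    have h03 := hfs f1 s2 hf1.2 hs2.2
    have h12 := hfs f2 s1 hf2.2 hs1.2
    have h13 := hfs f2 s2 hf2.2 hs2.2
    rw [← e0, ← e1] at h01
    rw [← e2, ← e3] at h23
    rw [← e0, ← e2] at h02
    rw [← e0, ← e3] at h03
    rw [← e1, ← e2] at h12
    rw [← e1, ← e3] at h13
    intro i j hij
    fin_cases i <;> fin_cases j <;>
      first
        | exact absurd rfl hij
        | exact h01
        | exact h01.symm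
        | exact h02
        | exact h02.symm
        | exact h03
        | exact h03.symm
        | exact h12
        | exact h12.symm
        | exact h13
        | exact h13.symm
        | exact h23
        | exact h23.symm
  have hmem : ∀ φ ∈ I, ∃ i, e i = φ := by
    rintro ⟨l, v⟩ hl
    cases v with
    | true =>
      have h4 : (l, true) ∈ IF := by rw [hIF]; exact Finset.mem_filter.2 ⟨hl, rfl⟩
      rw [hIF2, Finset.mem_insert, Finset.mem_singleton] at h4
      rcases h4 with h | h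
      · exact ⟨0, by rw [e0, h]⟩
      · exact ⟨1, by rw [e1, h]⟩
    | false =>
      have h4 : (l, false) ∈ IS := by rw [hIS]; exact Finset.mem_filter.2 ⟨hl, rfl⟩
      rw [hIS2, Finset.mem_insert, Finset.mem_singleton] at h4
      rcases h4 with h | h
      · exact ⟨2, by rw [e2, h]⟩
      · exact ⟨3, by rw [e3, h]⟩
  have hval : ∀ i X Y, T2_A p (e i) * X + T2_A q (e i) * Y + (T2_G p q b b' x1 x2 (e i) - T (e i))
      = N (e i) (X, Y) - T (e i) := by
    intro i X Y
    rw [hlin]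
    ring
  have hFneg : ∀ f ∈ I, f.2 = true → ∀ X Y : ℤ, (∀ m, 0 ≤ p m * X + q m * Y + b m) →
      N f (X, Y) - T f ≤ -1 := by
    rintro ⟨l, v⟩ hl hv X Y h
    have hv' : v = true := hv
    subst hv'
    have h1 := hFv l X Y h
    have h2 : (1 : ℤ) ≤ T (l, true) := hT _ hl
    omega
  have hSneg : ∀ f ∈ I, f.2 = false → ∀ X Y : ℤ,
      (∀ m, 0 ≤ p m * (x1 - X) + q m * (x2 - Y) + b' m) → N f (X, Y) - T f ≤ -1 := by
    rintro ⟨l, v⟩ hl hv X Y h
    have hv' : v = false := hv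
    subst hv'
    have h1 := hSv l (x1 - X) (x2 - Y) h
    rw [sub_sub_cancel, sub_sub_cancel] at h1
    have h2 : (1 : ℤ) ≤ T (l, false) := hT _ hl
    omega
  have hEgen : ∀ f ∈ I, f.2 = false → ∃ X Y X' Y' : ℤ, ¬ (X = X' ∧ Y = Y') ∧
      (∀ m, 0 ≤ p m * X + q m * Y + b m) ∧ (∀ m, 0 ≤ p m * X' + q m * Y' + b m) ∧
      N f (X, Y) - T f ≤ -1 ∧ N f (X', Y') - T f ≤ -1 ∧
      T2_A p f * (X' - X) + T2_A q f * (Y' - Y) = 0 := by
    rintro ⟨l, v⟩ hl hv
    have hv' : v = false := hv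
    subst hv'
    obtain ⟨X, Y, X', Y', h0, h1, h2, h3, h4⟩ := hF l
    have h5 : (1 : ℤ) ≤ T (l, false) := hT _ hl
    have h6 := hFz l X Y h1
    have h7 := hFz l X' Y' h2
    refine ⟨X, Y, X', Y', h0, h3, h4, by omega, by omega, ?_⟩
    show (if (false : Bool) = true then -p l else p l) * (X' - X) +
      (if (false : Bool) = true then -q l else q l) * (Y' - Y) = 0
    rw [if_neg (by decide), if_neg (by decide)]
    linarith
  refine t2c (fun i => T2_A p (e i)) (fun i => T2_A q (e i))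
    (fun i => T2_G p q b b' x1 x2 (e i) - T (e i)) (fun i => (w (e i)).1) (fun i => (w (e i)).2)
    (fun X Y => ∀ m, 0 ≤ p m * X + q m * Y + b m)
    (fun X Y => ∀ m, 0 ≤ p m * (x1 - X) + q m * (x2 - Y) + b' m) ?_ ?_ ?_ ?_ ?_ ?_ ?_ ?_ ?_
  · intro i
    show T2_A p (e i) * (w (e i)).1 + T2_A q (e i) * (w (e i)).2 +
      (T2_G p q b b' x1 x2 (e i) - T (e i)) = 0
    rw [hval]
    have := hw _ (heI i)
    have h2 : N (e i) ((w (e i)).1, (w (e i)).2) = T (e i) := this
    omega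
  · intro i j hij
    show T2_A p (e j) * (w (e i)).1 + T2_A q (e j) * (w (e i)).2 +
      (T2_G p q b b' x1 x2 (e j) - T (e j)) ≤ -1
    rw [hval]
    have := hww _ (heI i) _ (heI j) (heinj i j hij)
    have h2 : N (e j) ((w (e i)).1, (w (e i)).2) < T (e j) := this
    omega
  · intro X Y
    obtain ⟨φ, hφ, h⟩ := hcov (X, Y)
    obtain ⟨i, rfl⟩ := hmem φ hφ
    refine ⟨i, ?_⟩
    show 0 ≤ T2_A p (e i) * X + T2_A q (e i) * Y + (T2_G p q b b' x1 x2 (e i) - T (e i))
    rw [hval]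
    omega
  · intro X Y h
    show T2_A p (e 0) * X + T2_A q (e 0) * Y + (T2_G p q b b' x1 x2 (e 0) - T (e 0)) ≤ -1
    rw [hval, e0]
    exact hFneg f1 hf1.1 hf1.2 X Y h
  · intro X Y h
    show T2_A p (e 1) * X + T2_A q (e 1) * Y + (T2_G p q b b' x1 x2 (e 1) - T (e 1)) ≤ -1
    rw [hval, e1]
    exact hFneg f2 hf2.1 hf2.2 X Y h
  · intro X Y h
    show T2_A p (e 2) * X + T2_A q (e 2) * Y + (T2_G p q b b' x1 x2 (e 2) - T (e 2)) ≤ -1
    rw [hval, e2]
    exact hSneg s1 hs1.1 hs1.2 X Y h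
  · intro X Y h
    show T2_A p (e 3) * X + T2_A q (e 3) * Y + (T2_G p q b b' x1 x2 (e 3) - T (e 3)) ≤ -1
    rw [hval, e3]
    exact hSneg s2 hs2.1 hs2.2 X Y h
  · intro a' b'' c h1 h2
    refine hsep a' b'' c h1 fun X Y h => ?_
    exact h2 (x1 - X) (x2 - Y) fun m => by
      rw [sub_sub_cancel, sub_sub_cancel]; exact h m
  · intro i hi
    have key : e i ∈ I ∧ (e i).2 = false := by
      rcases hi with rfl | rfl
      · rw [e2]; exact hs1
      · rw [e3]; exact hs2
    obtain ⟨X, Y, X', Y', h0, h1, h2, h3, h4, h5⟩ := hEgen (e i) key.1 key.2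
    refine ⟨X, Y, X', Y', h0, h1, h2, ?_, ?_, h5⟩
    · show T2_A p (e i) * X + T2_A q (e i) * Y + (T2_G p q b b' x1 x2 (e i) - T (e i)) ≤ -1
      rw [hval]; exact h3
    · show T2_A p (e i) * X' + T2_A q (e i) * Y' + (T2_G p q b b' x1 x2 (e i) - T (e i)) ≤ -1
      rw [hval]; exact h4

end H66OD
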